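import Pool.Agent.Lib.SH56.Blue

open Polynomial Finset

namespace Pool.Agent.Lib.SH56

namespace ALG_

theorem key {a b c d e f g : ℤ} (h1 : a + b + c + (d + e + f + g) = 0)
    (h3 : a ^ 3 + b ^ 3 + c ^ 3 + (d ^ 3 + e ^ 3 + f ^ 3 + g ^ 3) = 0)
    (h5 : a ^ 5 + b ^ 5 + c ^ 5 + (d ^ 5 + e ^ 5 + f ^ 5 + g ^ 5) = 0) :
    (a + b + c) * (d * e * f * g) + ((a * b + a * c + b * c)
      - (d * e + d * f + d * g + e * f + e * g + f * g)) * ((a + b) * (a + c) * (b + c)) = 0 := by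
  obtain rfl : g = -(a + b + c + d + e + f) := by linarith
  refine mul_left_cancel₀ (by norm_num : (15 : ℤ) ≠ 0) ?_
  linear_combination 3 * h5 + 5 * ((d * e + d * f + d * (-(a + b + c + d + e + f)) + e * f
    + e * (-(a + b + c + d + e + f)) + f * (-(a + b + c + d + e + f))) - (a + b + c) ^ 2) * h3

theorem sq_eq {a b c d e f g : ℤ} (h1 : a + b + c + (d + e + f + g) = 0)
    (h3 : a ^ 3 + b ^ 3 + c ^ 3 + (d ^ 3 + e ^ 3 + f ^ 3 + g ^ 3) = 0)
    (h5 : a ^ 5 + b ^ 5 + c ^ 5 + (d ^ 5 + e ^ 5 + f ^ 5 + g ^ 5) = 0)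
    (n1 : a + b ≠ 0) (n2 : a + c ≠ 0) (n3 : b + c ≠ 0) (hS : a + b + c = 0) :
    a ^ 2 + b ^ 2 + c ^ 2 = d ^ 2 + e ^ 2 + f ^ 2 + g ^ 2 := by
  have k := key h1 h3 h5
  rw [hS, zero_mul, zero_add] at k
  have k2 := (mul_eq_zero.1 k).resolve_right (mul_ne_zero (mul_ne_zero n1 n2) n3)
  have hT : d + e + f + g = 0 := by linarith
  linear_combination (a + b + c) * hS - (d + e + f + g) * hT - 2 * k2

theorem odd_sq {d : ℤ} (h : Odd d) : ∃ k, d ^ 2 = 8 * k + 1 := by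
  obtain ⟨m, rfl⟩ := h
  obtain ⟨k, hk⟩ := Int.even_mul_succ_self m
  exact ⟨k, by linear_combination 4 * hk⟩

theorem par0 {a b c d e f g : ℤ} (ha : Even a) (hb : Even b) (hd : Odd d) (he : Odd e)
    (hf : Odd f) (hg : Odd g) (hS : a + b + c = 0)
    (h : a ^ 2 + b ^ 2 + c ^ 2 = d ^ 2 + e ^ 2 + f ^ 2 + g ^ 2) : False := by
  obtain ⟨u, rfl⟩ := ha
  obtain ⟨v, rfl⟩ := hb
  obtain rfl : c = -(u + u + (v + v)) := by linarith
  obtain ⟨k1, e1⟩ := odd_sq hd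
  obtain ⟨k2, e2⟩ := odd_sq he
  obtain ⟨k3, e3⟩ := odd_sq hf
  obtain ⟨k4, e4⟩ := odd_sq hg
  have : 8 * (u ^ 2 + u * v + v ^ 2) = 8 * (k1 + k2 + k3 + k4) + 4 := by
    linear_combination h + e1 + e2 + e3 + e4
  omega

theorem par2 {a b c D E : ℤ} (ha : Even a) (hb : Even b) (hc : Even c) (hD : Odd D)
    (n : a + b ≠ 0) (hS : a + b + c = 2 * c)
    (k : (a + b + c) * D + E * ((a + b) * (a + c) * (b + c)) = 0) : False := by
  obtain rfl : c = a + b := by linarith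
  have k2 : 2 * D + E * ((a + (a + b)) * (b + (a + b))) = 0 :=
    mul_left_cancel₀ n (by linear_combination k)
  obtain ⟨u, rfl⟩ := ha
  obtain ⟨v, rfl⟩ := hb
  obtain ⟨w, rfl⟩ := hD
  have : 4 * (w + E * ((2 * u + v) * (u + 2 * v))) + 2 = 0 := by linear_combination k2
  omega

theorem dvd_sq {p d r : ℤ} (h : p ∣ d - r ∨ p ∣ d + r) : p ∣ d ^ 2 - r ^ 2 := by
  have e : d ^ 2 - r ^ 2 = (d - r) * (d + r) := by ring
  rw [e]
  exact h.elim (fun h => h.mul_right _) (fun h => h.mul_left _)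

end ALG_

open ALG_ in
theorem bALG : ALG := by
  intro x hx I hI
  have hJ : Iᶜ.card = 3 + 1 := by rw [card_compl, hI]; rfl
  obtain ⟨l, T, hl, hT, hT3⟩ := card_eq_succ.1 hJ
  obtain ⟨m, n, o, hmn, hmo, hno, rfl⟩ := card_eq_three.1 hT3
  obtain ⟨i, j, k, hij, hik, hjk, hIe⟩ := card_eq_three.1 hI
  have sI : ∀ F : Fin 7 → ℤ, ∑ t ∈ I, F t = F i + F j + F k := fun F => by
    rw [hIe, sum_insert (by simp [hij, hik]), sum_pair hjk, add_assoc]
  have sJ : ∀ F : Fin 7 → ℤ, ∑ t ∈ Iᶜ, F t = F l + F m + F n + F o := fun F => by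
    rw [← hT, sum_insert hl, sum_insert (by simp [hmn, hmo]), sum_pair hno]
    ring
  have sA : ∀ F : Fin 7 → ℤ, ∑ t, F t = F i + F j + F k + (F l + F m + F n + F o) := fun F => by
    rw [← sum_add_sum_compl I, sI, sJ]
  obtain ⟨h1, h3, h5, hn⟩ := hx
  rw [sA] at h1 h3 h5
  have mi : i ∈ I := by simp [hIe]
  have mj : j ∈ I := by simp [hIe]
  have mk : k ∈ I := by simp [hIe]
  have ml : l ∉ I := mem_compl.1 (by simp [← hT])
  have mm : m ∉ I := mem_compl.1 (by simp [← hT])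
  have mn : n ∉ I := mem_compl.1 (by simp [← hT])
  have mo : o ∉ I := mem_compl.1 (by simp [← hT])
  rw [sI]
  refine ⟨fun p r hp hp2 hd hr hc hS => ?_, fun hE hO => ⟨fun hS => ?_, fun t ht hS => ?_⟩⟩
  · have q := sq_eq h1 h3 h5 (hn i j) (hn i k) (hn j k) hS
    have e : 2 ^ 2 * r ^ 2 = x i ^ 2 + x j ^ 2 + x k ^ 2 - ((x l ^ 2 - r ^ 2) + (x m ^ 2 - r ^ 2)
        + (x n ^ 2 - r ^ 2) + (x o ^ 2 - r ^ 2)) := by linear_combination -q
    have d1 : (p : ℤ) ∣ 2 ^ 2 * r ^ 2 := by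
      rw [e]
      exact (((dvd_pow (hd i mi) two_ne_zero).add (dvd_pow (hd j mj) two_ne_zero)).add
        (dvd_pow (hd k mk) two_ne_zero)).sub ((((dvd_sq (hc l ml)).add (dvd_sq (hc m mm))).add
        (dvd_sq (hc n mn))).add (dvd_sq (hc o mo)))
    have hp' : Prime (p : ℤ) := Nat.prime_iff_prime_int.1 hp
    rcases hp'.dvd_or_dvd d1 with h | h
    · have h2 : (p : ℤ) ∣ ((2 : ℕ) : ℤ) := hp'.dvd_of_dvd_pow h
      exact hp2 ((Nat.prime_dvd_prime_iff_eq hp Nat.prime_two).1 (Int.natCast_dvd_natCast.1 h2))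
    · exact hr (hp'.dvd_of_dvd_pow h)
  · exact par0 (hE i mi) (hE j mj) (hO l ml) (hO m mm) (hO n mn) (hO o mo) hS
      (sq_eq h1 h3 h5 (hn i j) (hn i k) (hn j k) hS)
  · have K := key h1 h3 h5
    have hD : Odd (x l * x m * x n * x o) :=
      (((hO l ml).mul (hO m mm)).mul (hO n mn)).mul (hO o mo)
    rw [hIe, mem_insert, mem_insert, mem_singleton] at ht
    generalize (x i * x j + x i * x k + x j * x k) - (x l * x m + x l * x n + x l * x o
      + x m * x n + x m * x o + x n * x o) = E at K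
    rcases ht with ht | ht | ht <;> rw [ht] at hS
    · exact par2 (E := E) (hE j mj) (hE k mk) (hE i mi) hD (hn j k) (by linarith)
        (by linear_combination K)
    · exact par2 (E := E) (hE i mi) (hE k mk) (hE j mj) hD (hn i k) (by linarith)
        (by linear_combination K)
    · exact par2 (E := E) (hE i mi) (hE j mj) (hE k mk) hD (hn i j) hS K

end Pool.Agent.Lib.SH56
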