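import Pool.Agent.Lib.SH56.Blue

/-! A vanishing sum vanishes on each class. -/

open Finset

namespace Pool.Agent.Lib.SH56

theorem BALL_.geo {ζ : ℂ} {M : ℕ} (h : IsPrimitiveRoot ζ M) (a : ℤ) :
    ∑ j ∈ range M, (ζ ^ a) ^ j = if (M : ℤ) ∣ a then (M : ℂ) else 0 := by
  split_ifs with hd
  · rw [(h.zpow_eq_one_iff_dvd a).2 hd]; simp
  · have h1 : ζ ^ a ≠ 1 := fun h0 => hd ((h.zpow_eq_one_iff_dvd a).1 h0)
    have h2 : (ζ ^ a) ^ M = 1 := by
      rw [← zpow_natCast, ← zpow_mul]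
      exact (h.zpow_eq_one_iff_dvd _).2 (Dvd.intro_left _ rfl)
    rw [geom_sum_eq h1, h2, sub_self, zero_div]

theorem bBALL (hCONJ : CONJ) : BALL := by
  intro x α β n p k z hn hp hz hd h r
  obtain ⟨c, hc⟩ := hd
  have hn' : n = (p * c) * p ^ k := by rw [hc]; ring
  have hζ : IsPrimitiveRoot (z ^ (p * c)) (p ^ k) := hz.pow hn hn'
  have hM : 0 < p ^ k := pow_pos hp.pos k
  have hζ0 : z ^ (p * c) ≠ 0 := hζ.ne_zero hM.ne'
  have hj : ∀ j : ℕ, tot x α β (z * (z ^ (p * c)) ^ j) = 0 := fun j => by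
    have h1 : Nat.Coprime (1 + j * (p * c)) (p * c) :=
      (Nat.coprime_add_mul_right_left 1 _ j).2 (Nat.coprime_one_left _)
    have h2 : Nat.Coprime (1 + j * (p * c)) n := by
      rw [hn']
      exact h1.mul_right ((h1.coprime_dvd_right (Dvd.intro _ rfl)).pow_right k)
    have h3 := hCONJ x α β n _ z hn hz h2 h
    rwa [pow_add, pow_one, mul_comm j, pow_mul] at h3
  generalize z ^ (p * c) = ζ at hζ hζ0 hj
  have e : ∀ (a : ℤ) (j : ℕ), (z * ζ ^ j) ^ a * (ζ ^ (-r)) ^ j = z ^ a * (ζ ^ (a - r)) ^ j := by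
    intro a j
    rw [mul_zpow, sub_eq_add_neg, zpow_add₀ hζ0, mul_pow, mul_assoc, ← zpow_natCast ζ,
      ← zpow_natCast (ζ ^ a), ← zpow_mul, ← zpow_mul, mul_comm a]
  have hs : ∑ j ∈ range (p ^ k), tot x α β (z * ζ ^ j) * (ζ ^ (-r)) ^ j =
      ((p ^ k : ℕ) : ℂ) * cls x α β z ((p : ℤ) ^ k) r := by
    unfold tot cls
    simp only [sum_mul, add_mul, mul_assoc, e]
    rw [sum_comm, sum_filter, sum_filter, ← sum_add_distrib, mul_sum]
    refine sum_congr rfl fun i _ => ?_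
    rw [sum_add_distrib, ← mul_sum, ← mul_sum, ← mul_sum, ← mul_sum, BALL_.geo hζ, BALL_.geo hζ]
    have e2 : ((p ^ k : ℕ) : ℤ) ∣ -x i - r ↔ (p : ℤ) ^ k ∣ x i + r := by
      rw [Nat.cast_pow, ← dvd_neg]; congr! 1; ring
    have e1 : ((p ^ k : ℕ) : ℤ) ∣ x i - r ↔ (p : ℤ) ^ k ∣ x i - r := by rw [Nat.cast_pow]
    simp only [e1, e2]
    split_ifs <;> ring
  simp only [hj, zero_mul, sum_const_zero] at hs
  exact (mul_eq_zero.1 hs.symm).resolve_left (Nat.cast_ne_zero.2 hM.ne')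

end Pool.Agent.Lib.SH56
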