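import Pool.Agent.Lib.SH56.Blue

namespace Pool.Agent.Lib.SH56

namespace BIG_

theorem gg_dvd (x : Fin 7 → ℤ) (σ : Equiv.Perm (Fin 7)) {i j : Fin 7} (h : σ i = j) :
    (gg x σ : ℤ) ∣ x i + x j := by
  rw [← h]
  exact Int.natCast_dvd.2 (Finset.gcd_dvd (Finset.mem_univ i))

end BIG_

theorem bBIG (hTOP : TOP) (hINV : INV) (hPATH : PATH) (hUNI : UNI) (hLIN7 : LIN7)
    (hLIN3 : LIN3) : BIG := by
  intro x R s hS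
  by_contra hlt
  have hge : 10 ^ 12 ≤ 2 * R := not_lt.1 hlt
  obtain ⟨σ, τ, hσ, hτ, hne, h9, h19⟩ := hTOP x R s hS hge
  obtain ⟨hσ1, hσ2, -⟩ := hINV x R s hS σ hσ
  obtain ⟨hτ1, hτ2, -⟩ := hINV x R s hS τ hτ
  obtain ⟨e, a0, a1, a3, a5, b0, b4, hb⟩ := hPATH σ τ hσ1 hτ1 hσ2 hτ2 hne
  have hG : Nat.gcd (gg x σ) (gg x τ) ∣ 720 :=
    hUNI x R s hS σ τ (fun h => hne 0 (by rw [h])) _
      (fun i => (Int.natCast_dvd_natCast.2 (Nat.gcd_dvd_left _ _)).trans (BIG_.gg_dvd x σ rfl))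
      (fun i => (Int.natCast_dvd_natCast.2 (Nat.gcd_dvd_right _ _)).trans (BIG_.gg_dvd x τ rfl))
  have hP : PTE (x ∘ e) := hS.toPre.pte.perm e
  have hle : ∀ i, |(x ∘ e) i| ≤ R := fun i => hS.toPre.le (e i)
  rcases hb with ⟨b2, b6⟩ | ⟨b2, b6⟩
  · exact hLIN7 (x ∘ e) R (gg x σ) (gg x τ) hP hle hge h9 h19 hG (BIG_.gg_dvd x σ a0)
      (BIG_.gg_dvd x σ a1) (BIG_.gg_dvd x σ a3) (BIG_.gg_dvd x σ a5) (BIG_.gg_dvd x τ b0)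
      (BIG_.gg_dvd x τ b4) (BIG_.gg_dvd x τ b2) (BIG_.gg_dvd x τ b6)
  · exact hLIN3 (x ∘ e) R (gg x σ) (gg x τ) hP hle hge h9 h19 hG (BIG_.gg_dvd x σ a0)
      (BIG_.gg_dvd x σ a1) (BIG_.gg_dvd x σ a3) (BIG_.gg_dvd x σ a5) (BIG_.gg_dvd x τ b0)
      (BIG_.gg_dvd x τ b4) (BIG_.gg_dvd x τ b2) (BIG_.gg_dvd x τ b6)

end Pool.Agent.Lib.SH56
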