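import Pool.Agent.Lib.SH56.Blue

/-! Row BLK: residue classes of size at least two. -/

open Polynomial Finset

namespace Pool.Agent.Lib.SH56

namespace BLK_

theorem four {α : Type} [DecidableEq α] (M : Multiset α) (hc : M.card = 4)
    (h : ∀ a ∈ M, 2 ≤ M.count a) : ∃ r s, M = r ::ₘ r ::ₘ s ::ₘ s ::ₘ 0 := by
  obtain ⟨r, hr⟩ := Multiset.card_pos_iff_exists_mem.1 (show 0 < M.card by omega)
  obtain ⟨M', hM⟩ := Multiset.le_iff_exists_add.1 (Multiset.le_count_iff_replicate_le.1 (h r hr))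
  have hc' : M'.card = 2 := by
    rw [hM, Multiset.card_add, Multiset.card_replicate] at hc
    omega
  obtain ⟨a, b, hab⟩ := Multiset.card_eq_two.1 hc'
  have e : M = r ::ₘ r ::ₘ a ::ₘ b ::ₘ 0 := by
    rw [hM, hab]
    rfl
  by_cases h1 : a = b
  · exact ⟨r, a, by rw [e, h1]⟩
  · exfalso
    have ha := h a (by rw [e]; simp)
    have hb := h b (by rw [e]; simp)
    rw [e] at ha hb
    simp only [Multiset.count_cons, Multiset.count_zero] at ha hb
    have h2 : a = r := by
      by_contra h3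
      simp only [h1, h3, if_true, if_false] at ha
      omega
    have h4 : b = r := by
      by_contra h3
      have h5 : ¬ b = a := fun h6 => h1 h6.symm
      simp only [h5, h3, if_true, if_false] at hb
      omega
    exact h1 (h2.trans h4.symm)

theorem seven {α : Type} [DecidableEq α] (M : Multiset α) (hc : M.card = 7)
    (h : ∀ a ∈ M, 2 ≤ M.count a) :
    ∃ r s u, 3 ≤ M.count u ∧ M = u ::ₘ u ::ₘ u ::ₘ r ::ₘ r ::ₘ s ::ₘ s ::ₘ 0 := by
  obtain ⟨u, hu, ho⟩ : ∃ u ∈ M, ¬ Even (M.count u) := by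
    by_contra hne
    have h1 : Even (∑ a ∈ M.toFinset, M.count a) := Finset.even_sum _ fun a ha => by
      by_contra h2
      exact hne ⟨a, Multiset.mem_toFinset.1 ha, h2⟩
    rw [Multiset.toFinset_sum_count_eq, hc] at h1
    exact absurd h1 (by decide)
  have h3 : 3 ≤ M.count u := by
    have := h u hu
    rw [Nat.not_even_iff] at ho
    omega
  obtain ⟨M', hM⟩ := Multiset.le_iff_exists_add.1 (Multiset.le_count_iff_replicate_le.1 h3)
  have hc' : M'.card = 4 := by
    rw [hM, Multiset.card_add, Multiset.card_replicate] at hc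
    omega
  have hcount : ∀ a, M.count a = (if u = a then 3 else 0) + M'.count a := fun a => by
    rw [hM, Multiset.count_add, Multiset.count_replicate]
  obtain ⟨r, s, hrs⟩ := four M' hc' fun a ha => by
    have h1 := Multiset.count_pos.2 ha
    have h2 := h a (by rw [hM]; exact Multiset.mem_add.2 (Or.inr ha))
    have h4 := hcount a
    by_cases hua : u = a
    · rw [if_pos hua] at h4
      rw [Nat.not_even_iff, hua] at ho
      omega
    · rw [if_neg hua] at h4
      omega
  refine ⟨r, s, u, h3, ?_⟩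
  rw [hM, hrs]
  rfl

end BLK_

theorem bBLK : BLK := by
  intro x hx N hN
  obtain ⟨y, hy⟩ : ∃ y : Fin 7 → ZMod N.natAbs, ∀ i, y i = (x i : ZMod N.natAbs) :=
    ⟨_, fun _ => rfl⟩
  have hcount : ∀ i, (univ.val.map y).count (y i) = cA x N (x i) := fun i => by
    rw [Multiset.count_map]
    unfold cA
    rw [Finset.card_def, Finset.filter_val]
    congr 1
    refine Multiset.filter_congr fun j _ => ?_
    rw [hy, hy, ZMod.intCast_eq_intCast_iff_dvd_sub, Int.natAbs_dvd]
  obtain ⟨r, s, u, h3, hM⟩ := BLK_.seven (univ.val.map y) (by simp) fun a ha => by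
    obtain ⟨i, -, rfl⟩ := Multiset.mem_map.1 ha
    rw [hcount]
    exact hN i
  obtain ⟨i, -, hi⟩ := Multiset.mem_map.1 (show u ∈ univ.val.map y by rw [hM]; simp)
  have hp : ∀ k : ℕ, ∑ j, x j ^ k = 0 → 2 * r ^ k + 2 * s ^ k + 3 * u ^ k = 0 := fun k hk => by
    have h1 : ((univ.val.map y).map fun a => a ^ k).sum = 0 := by
      rw [Multiset.map_map]
      have h2 : ((∑ j, x j ^ k : ℤ) : ZMod N.natAbs) = 0 := by rw [hk, Int.cast_zero]
      rw [Int.cast_sum] at h2
      rw [← h2, Finset.sum_eq_multiset_sum]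
      congr 1
      refine Multiset.map_congr rfl fun j _ => ?_
      rw [Function.comp_apply, hy, Int.cast_pow]
    rw [hM] at h1
    simp only [Multiset.map_cons, Multiset.sum_cons, Multiset.map_zero, Multiset.sum_zero] at h1
    linear_combination h1
  have h1 := hp 1 (by simpa only [pow_one] using hx.1)
  have h2 := hp 3 hx.2.1
  have h5 := hp 5 hx.2.2.1
  refine ⟨i, by rw [← hcount, hi]; exact h3, ?_⟩
  rw [← Int.natAbs_dvd, ← ZMod.intCast_zmod_eq_zero_iff_dvd]
  push_cast
  rw [← hy, hi]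
  linear_combination (144 * r ^ 4 + 96 * r ^ 3 * s - 216 * r ^ 3 * u - 96 * r ^ 2 * s ^ 2 +
    72 * r ^ 2 * s * u - 116 * r ^ 2 * u ^ 2 + 96 * r * s ^ 3 + 72 * r * s ^ 2 * u +
    8 * r * s * u ^ 2 + 174 * r * u ^ 3 + 144 * s ^ 4 - 216 * s ^ 3 * u - 116 * s ^ 2 * u ^ 2 +
    174 * s * u ^ 3 - 261 * u ^ 4) * h1 - 144 * h5 - 20 * (12 * r * s - 22 * u ^ 2) * h2

end Pool.Agent.Lib.SH56
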