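import Mathlib

/-! Rows for the shortness of the seventh power of `X - 1`. -/

open Polynomial Finset

namespace Pool.Agent.Lib.SH56

/-- product of cyclotomic polynomials -/
noncomputable def cyc (s : Multiset ℕ) : ℤ[X] := (s.map fun n => cyclotomic n ℤ).prod

/-- length -/
def len (P : ℤ[X]) : ℤ := ∑ i ∈ P.support, |P.coeff i|

/-- the antisymmetric polynomial of `x` -/
noncomputable def PP (x : Fin 7 → ℤ) (R : ℕ) : ℤ[X] :=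
  ∑ i, (X ^ ((R : ℤ) + x i).toNat - X ^ ((R : ℤ) - x i).toNat)

def PTE (x : Fin 7 → ℤ) : Prop :=
  ∑ i, x i = 0 ∧ ∑ i, x i ^ 3 = 0 ∧ ∑ i, x i ^ 5 = 0 ∧ ∀ i j, x i + x j ≠ 0

structure Pre (x : Fin 7 → ℤ) (R : ℕ) (s : Multiset ℕ) : Prop where
  pte : PTE x
  le : ∀ i, |x i| ≤ R
  top : ∃ i, x i = R
  two : ∀ n ∈ s, 2 ≤ n
  eq : PP x R = (X - 1) ^ 7 * cyc s

structure Sol (x : Fin 7 → ℤ) (R : ℕ) (s : Multiset ℕ) : Prop extends Pre x R s where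
  prim : ∀ p : ℕ, p.Prime → ∃ i, ¬ (p : ℤ) ∣ x i

def cA (x : Fin 7 → ℤ) (m r : ℤ) : ℕ := (univ.filter fun j => m ∣ x j - r).card

def cB (x : Fin 7 → ℤ) (m r : ℤ) : ℕ := (univ.filter fun j => m ∣ x j + r).card

def g0 (x : Fin 7 → ℤ) (m r : ℤ) : ℤ := (cA x m r : ℤ) - cB x m r

def g1 (x : Fin 7 → ℤ) (m r : ℤ) : ℤ :=
  ∑ j ∈ univ.filter (fun j => m ∣ x j - r), x j + ∑ j ∈ univ.filter (fun j => m ∣ x j + r), x j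

/-- weighted sum over all fourteen points -/
noncomputable def tot (x α β : Fin 7 → ℤ) (z : ℂ) : ℂ :=
  ∑ j, ((α j : ℂ) * z ^ x j + (β j : ℂ) * z ^ (-x j))

/-- weighted sum over the points of one class -/
noncomputable def cls (x α β : Fin 7 → ℤ) (z : ℂ) (m r : ℤ) : ℂ :=
  ∑ j ∈ univ.filter (fun j => m ∣ x j - r), (α j : ℂ) * z ^ x j +
    ∑ j ∈ univ.filter (fun j => m ∣ x j + r), (β j : ℂ) * z ^ (-x j)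

def Bal (x : Fin 7 → ℤ) (m : ℤ) : Prop := ∀ r, cA x m r = cB x m r

def Mt (x : Fin 7 → ℤ) (m : ℕ) (σ : Equiv.Perm (Fin 7)) : Prop := ∀ i, (m : ℤ) ∣ x i + x (σ i)

def gg (x : Fin 7 → ℤ) (σ : Equiv.Perm (Fin 7)) : ℕ :=
  univ.gcd fun i => (x i + x (σ i)).natAbs

def MM : ℕ := 2 ^ 8 * 3 ^ 7 * 5 ^ 3 * 7 ^ 2

def sp (p : ℕ) : ℕ :=
  if p = 2 then 8 else if p = 3 then 7 else if p = 5 then 3 else if p = 7 then 2 else 1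

def VV (p : ℕ) (x : Fin 7 → ℤ) : ℕ := padicValInt p (2 * ∏ i, x i)

def FF {l : ℕ} (q : ℕ) (w : ZMod l) (y : Fin 7 → ℕ) (a : ℕ) : ZMod l :=
  ∑ i, (w ^ (a * y i) - w ^ (a * (q - y i)))

def SV (q : ℕ) : Prop := ∃ (l : ℕ) (w : ZMod l), l.Prime ∧ IsPrimitiveRoot w q ∧
  ∀ y : Fin 7 → ℕ, (∀ i, y i < q) → q ∣ ∑ i, y i → q ∣ ∑ i, y i ^ 3 → q ∣ ∑ i, y i ^ 5 →
    (∀ i j, ¬ q ∣ y i + y j) → (∏ a ∈ Ico 1 q, FF q w y a) ^ 2 ≠ (q : ZMod l) ^ 14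

def QL : List ℕ := [11, 19, 79, 83, 89, 101, 103, 109, 113, 127, 131, 137, 139, 149, 151, 157,
  163, 167, 173, 179, 181, 191, 193, 197, 199, 211, 223, 227, 229, 233, 239, 241, 251, 257, 263,
  269, 271]

theorem PTE.perm {x : Fin 7 → ℤ} (h : PTE x) (e : Equiv.Perm (Fin 7)) : PTE (x ∘ e) :=
  ⟨(Equiv.sum_comp e x).trans h.1, (Equiv.sum_comp e fun i => x i ^ 3).trans h.2.1,
    (Equiv.sum_comp e fun i => x i ^ 5).trans h.2.2.1, fun i j => h.2.2.2 (e i) (e j)⟩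

def RED1 : Prop := ∀ s : Multiset ℕ, (∀ n ∈ s, 0 < n) → len ((X - 1) ^ 7 * cyc s) ≤ 15 →
  ∃ a b : Fin 7 → ℕ, (∀ i j, a i ≠ b j) ∧
    (X - 1) ^ 7 * cyc s = ∑ i, (X ^ a i - X ^ b i) ∧
    (∀ k ≤ 6, ∑ i, (a i : ℤ) ^ k = ∑ i, (b i : ℤ) ^ k) ∧ 1 ∉ s

def REV : Prop := ∀ s : Multiset ℕ, (∀ n ∈ s, 2 ≤ n) →
  ((X - 1) ^ 7 * cyc s).reverse = -((X - 1) ^ 7 * cyc s) ∧ ((X - 1) ^ 7 * cyc s).Monic ∧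
    ((X - 1) ^ 7 * cyc s).natDegree = 7 + (s.map Nat.totient).sum

def RED2 : Prop := ∀ (s : Multiset ℕ) (a b : Fin 7 → ℕ), (∀ n ∈ s, 2 ≤ n) → (∀ i j, a i ≠ b j) →
  (X - 1) ^ 7 * cyc s = ∑ i, (X ^ a i - X ^ b i) →
  (∀ k ≤ 6, ∑ i, (a i : ℤ) ^ k = ∑ i, (b i : ℤ) ^ k) → ∃ x R, Pre x R s

def KRON : Prop := ∀ P : ℤ[X], P.Monic → (∀ z : ℂ, aeval z P = 0 → ∃ n, 0 < n ∧ z ^ n = 1) →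
  ∃ s : Multiset ℕ, (∀ n ∈ s, 0 < n) ∧ P = cyc s

def CONST : Prop := ∀ x, PTE x → (∀ i, ∏ j, (x i + x j) = 2 * ∏ j, x j) ∧
  ∑ i, x i ^ 7 = 7 * ∏ j, x j

def DER7 : Prop := ∀ (x : Fin 7 → ℤ) (R : ℕ), PTE x → (∀ i, |x i| ≤ R) →
  (∀ k ≤ 6, (derivative^[k] (PP x R)).eval 1 = 0) ∧
    (derivative^[7] (PP x R)).eval 1 = 14 * ∏ j, x j

def RED3 : Prop := ∀ x R s, Pre x R s → ∃ x' R' s', Sol x' R' s'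

def DEG : Prop := ∀ x R s, Pre x R s → 2 * R = 7 + (s.map Nat.totient).sum

def VAL : Prop := ∀ x R s, Pre x R s → (720 : ℤ) ∣ 2 * ∏ i, x i ∧ ∀ p : ℕ, p.Prime →
  ∀ T : ℕ, (∀ t, p ^ t ∈ s → t ≤ T) →
    VV p x = padicValNat p 720 + ∑ t ∈ Icc 1 T, s.count (p ^ t)

def SUMV : Prop := ∀ x, PTE x → ∀ p : ℕ, p.Prime → ∀ (i : Fin 7) (T : ℕ),
  ∑ t ∈ Icc 1 T, cB x ((p : ℤ) ^ t) (x i) ≤ VV p x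

def SPLIT : Prop := ∀ (x : Fin 7 → ℤ) (m : ℤ) (p : ℕ) (r : ℤ), m ≠ 0 → 0 < p →
  cA x m r = ∑ j ∈ range p, cA x (m * p) (r + j * m) ∧
  cB x m r = ∑ j ∈ range p, cB x (m * p) (r + j * m) ∧
  g0 x m r = ∑ j ∈ range p, g0 x (m * p) (r + j * m) ∧
  g1 x m r = ∑ j ∈ range p, g1 x (m * p) (r + j * m)

def CONJ : Prop := ∀ (x α β : Fin 7 → ℤ) (n u : ℕ) (z : ℂ), 0 < n → IsPrimitiveRoot z n →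
  u.Coprime n → tot x α β z = 0 → tot x α β (z ^ u) = 0

def BALL : Prop := ∀ (x α β : Fin 7 → ℤ) (n p k : ℕ) (z : ℂ), 0 < n → p.Prime →
  IsPrimitiveRoot z n → p ^ (k + 1) ∣ n → tot x α β z = 0 →
  ∀ r, cls x α β z ((p : ℤ) ^ k) r = 0

def SIB : Prop := ∀ (x α β : Fin 7 → ℤ) (n p k : ℕ) (z : ℂ), 0 < n → p.Prime → ¬ p ∣ n →
  IsPrimitiveRoot z (p ^ (k + 1) * n) → tot x α β z = 0 → ∃ η : ℂ, IsPrimitiveRoot η n ∧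
  ∀ r, cls x α β η ((p : ℤ) ^ (k + 1)) r = cls x α β η ((p : ℤ) ^ (k + 1)) (r + (p : ℤ) ^ k)

def ROOTS : Prop := ∀ x R s, Pre x R s → ∀ (n : ℕ) (z : ℂ), IsPrimitiveRoot z n →
  (n ∈ s → tot x (fun _ => 1) (fun _ => -1) z = 0) ∧ (2 ≤ s.count n → tot x x x z = 0)

def NET : Prop := ∀ x R s, Pre x R s → ∀ p k : ℕ, p.Prime →
  (p ^ (k + 1) ∈ s → ∀ r (j : ℤ),
    g0 x ((p : ℤ) ^ (k + 1)) (r + j * (p : ℤ) ^ k) = g0 x ((p : ℤ) ^ (k + 1)) r) ∧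
  (2 ≤ s.count (p ^ (k + 1)) → ∀ r (j : ℤ),
    g1 x ((p : ℤ) ^ (k + 1)) (r + j * (p : ℤ) ^ k) = g1 x ((p : ℤ) ^ (k + 1)) r)

def ALG : Prop := ∀ x, PTE x → ∀ I : Finset (Fin 7), I.card = 3 →
  (∀ (p : ℕ) (r : ℤ), p.Prime → p ≠ 2 → (∀ i ∈ I, (p : ℤ) ∣ x i) → ¬ (p : ℤ) ∣ r →
    (∀ i ∉ I, (p : ℤ) ∣ x i - r ∨ (p : ℤ) ∣ x i + r) → ∑ i ∈ I, x i ≠ 0) ∧
  ((∀ i ∈ I, Even (x i)) → (∀ i ∉ I, Odd (x i)) →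
    ∑ i ∈ I, x i ≠ 0 ∧ ∀ j ∈ I, ∑ i ∈ I, x i ≠ 2 * x j)

def M1A : Prop := ∀ x R s, Sol x R s → ∀ p : ℕ, p.Prime → s.count p ≤ 1

def TWO : Prop := ∀ x R s, Sol x R s → ∃ I : Finset (Fin 7), I.card = 3 ∧
  (∀ i ∈ I, Even (x i)) ∧ ∀ i ∉ I, Odd (x i)

/-- a ball in which `g0` and `g1` are constant on the sub-balls -/
def FOUR : Prop := ∀ x, PTE x → ∀ (m : ℤ) (p : ℕ), m ≠ 0 → 3 ≤ p →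
  (∀ r (j : ℤ), g0 x (m * p) (r + j * m) = g0 x (m * p) r) →
  (∀ r (j : ℤ), g1 x (m * p) (r + j * m) = g1 x (m * p) r) → ∀ r,
  (cA x m r + cB x m r = 0 ∨ 4 ≤ cA x m r + cB x m r) ∧
  (cA x m r + cB x m r = 4 → g1 x m r = 0) ∧
  (cA x m r + cB x m r = 7 → g1 x m r ≠ 0)

def M1B : Prop := ∀ x R s, Sol x R s → ∀ p k : ℕ, p.Prime → p ≠ 2 → 1 ≤ k →
  s.count (p ^ (k + 1)) ≤ 1

def M1C : Prop := ∀ x R s, Sol x R s → ∀ k : ℕ, 1 ≤ k → s.count (2 ^ (k + 1)) ≤ 1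

def EPS : Prop := ∀ (x : Fin 7 → ℤ) (p u : ℕ) (E : Finset ℕ), 0 < p → (∀ k ∈ E, u ≤ k) →
  (∀ k ∈ E, ∀ r (j : ℤ),
    g0 x ((p : ℤ) ^ (k + 1)) (r + j * (p : ℤ) ^ k) = g0 x ((p : ℤ) ^ (k + 1)) r) →
  ∀ r, 0 < g0 x ((p : ℤ) ^ u) r → p ^ E.card ≤ cA x ((p : ℤ) ^ u) r

def EXC : Prop := ∀ x R s, Sol x R s → ∀ p : ℕ, p.Prime → ∃ L e : ℕ,
  (∀ t, Bal x ((p : ℤ) ^ t) ↔ t ≤ L) ∧ VV p x ≤ padicValNat p 720 + L + e ∧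
  ∃ i, p ^ e ≤ cA x ((p : ℤ) ^ (L + 1)) (x i)

def UNI0 : Prop := ∀ x R s, Sol x R s → ∀ (p T : ℕ) (i : Fin 7), p.Prime →
  Bal x ((p : ℤ) ^ T) → 2 ≤ cB x ((p : ℤ) ^ T) (x i) → T ≤ padicValNat p 720

def UNI : Prop := ∀ x R s, Sol x R s → ∀ σ τ : Equiv.Perm (Fin 7), σ ≠ τ →
  ∀ G : ℕ, Mt x G σ → Mt x G τ → G ∣ 720

def BLK : Prop := ∀ x, PTE x → ∀ N : ℤ, (∀ i, 2 ≤ cA x N (x i)) →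
  ∃ i, 3 ≤ cA x N (x i) ∧ N ∣ 105 * x i ^ 5

def DEEP : Prop := ∀ x R s, Sol x R s → ∀ p k : ℕ, p.Prime → sp p ≤ k →
  (∀ i, 2 ≤ cA x ((p : ℤ) ^ k) (x i) + cB x ((p : ℤ) ^ k) (x i)) →
  ∀ i, cA x ((p : ℤ) ^ k) (x i) = 1 ∧ cB x ((p : ℤ) ^ k) (x i) = 1

/-- from pairs to a matching -/
def PAIR : Prop := ∀ x, PTE x → ∀ (m : ℤ) (n : ℕ) (z : ℂ), 0 < n → IsPrimitiveRoot z n →
  (∀ i, cA x m (x i) = 1 ∧ cB x m (x i) = 1) →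
  (∀ r, cls x (fun _ => 1) (fun _ => -1) z m r = 0) →
  (∃ σ : Equiv.Perm (Fin 7), Mt x n σ ∧ ∀ i, m ∣ x i + x (σ i)) ∧
    ∀ z' : ℂ, IsPrimitiveRoot z' n → cls x x x z' m (x 0) ≠ 0

def ROOT1 : Prop := ∀ x R s, Sol x R s → ∀ n ∈ s, ∀ p : ℕ, p.Prime → p ^ (sp p + 1) ∣ n →
  s.count n = 1 ∧ ∃ σ, Mt x n σ

def ROOT2 : Prop := ∀ x R s, Sol x R s → ∀ n q : ℕ, q.Prime → 11 ≤ q → ¬ q ∣ n → q * n ∈ s →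
  s.count (q * n) = 1 ∧ ∃ σ, Mt x (q * n) σ

def ROOT : Prop := ∀ x R s, Sol x R s → ∀ n ∈ s, n ∣ MM ∨ (s.count n = 1 ∧ ∃ σ, Mt x n σ)

def M13 : Prop := ∀ x R s, Pre x R s → ∀ n, s.count n ≤ 13

def CNT : Prop := ∀ x R s, Sol x R s →
  2 * R ≤ 13 * MM + ∑ σ ∈ univ.filter (fun σ => ¬ gg x σ ∣ 720), gg x σ

def INV : Prop := ∀ x R s, Sol x R s → ∀ σ, ¬ gg x σ ∣ 720 →
  (∀ i, σ (σ i) = i) ∧ (∃! f, σ f = f) ∧ gg x σ ≤ R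

def TOP : Prop := ∀ x R s, Sol x R s → 10 ^ 12 ≤ 2 * R → ∃ σ τ, ¬ gg x σ ∣ 720 ∧ ¬ gg x τ ∣ 720 ∧
  (∀ i, σ i ≠ τ i) ∧ 2 * R < 9 * gg x σ ∧ 2 * R < 19 * gg x τ

def PATH : Prop := ∀ σ τ : Equiv.Perm (Fin 7), (∀ i, σ (σ i) = i) → (∀ i, τ (τ i) = i) →
  (∃! f, σ f = f) → (∃! f, τ f = f) → (∀ i, σ i ≠ τ i) → ∃ e : Equiv.Perm (Fin 7),
  σ (e 0) = e 0 ∧ σ (e 1) = e 2 ∧ σ (e 3) = e 4 ∧ σ (e 5) = e 6 ∧ τ (e 0) = e 1 ∧ τ (e 4) = e 5 ∧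
    ((τ (e 2) = e 3 ∧ τ (e 6) = e 6) ∨ (τ (e 2) = e 2 ∧ τ (e 6) = e 3))

def LINE : Prop := ∀ A B C P Q R : ℤ, |A| ≤ 8 → |B| ≤ 24 → |C| ≤ 16 → A ≠ 0 → B ≠ A → C ≠ B →
  C ≠ 0 → P ≠ 0 → Q ≠ P → R ≠ Q → R ≠ 0 → (B ≠ 0 ∨ Q ≠ 0) →
  (A ^ 2 - B ^ 2) * P + (B ^ 2 - C ^ 2) * Q + C ^ 2 * R = 0 →
  (B - A) * P ^ 2 + (C - B) * Q ^ 2 - C * R ^ 2 = 0 →
  (A ^ 4 - B ^ 4) * P + (B ^ 4 - C ^ 4) * Q + C ^ 4 * R = 0 → False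

def LIN7 : Prop := ∀ (x : Fin 7 → ℤ) (R g h : ℕ), PTE x → (∀ i, |x i| ≤ R) → 10 ^ 12 ≤ 2 * R →
  2 * R < 9 * g → 2 * R < 19 * h → Nat.gcd g h ∣ 720 →
  (g : ℤ) ∣ x 0 + x 0 → (g : ℤ) ∣ x 1 + x 2 → (g : ℤ) ∣ x 3 + x 4 → (g : ℤ) ∣ x 5 + x 6 →
  (h : ℤ) ∣ x 0 + x 1 → (h : ℤ) ∣ x 4 + x 5 → (h : ℤ) ∣ x 2 + x 3 → (h : ℤ) ∣ x 6 + x 6 → False

def LIN3 : Prop := ∀ (x : Fin 7 → ℤ) (R g h : ℕ), PTE x → (∀ i, |x i| ≤ R) → 10 ^ 12 ≤ 2 * R →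
  2 * R < 9 * g → 2 * R < 19 * h → Nat.gcd g h ∣ 720 →
  (g : ℤ) ∣ x 0 + x 0 → (g : ℤ) ∣ x 1 + x 2 → (g : ℤ) ∣ x 3 + x 4 → (g : ℤ) ∣ x 5 + x 6 →
  (h : ℤ) ∣ x 0 + x 1 → (h : ℤ) ∣ x 4 + x 5 → (h : ℤ) ∣ x 2 + x 2 → (h : ℤ) ∣ x 6 + x 3 → False

def BIG : Prop := ∀ x R s, Sol x R s → 2 * R < 10 ^ 12

def NRM : Prop := ∀ x R s, Pre x R s → ∀ (q l : ℕ) (w : ZMod l), q.Prime → l.Prime →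
  IsPrimitiveRoot w q → (∀ n ∈ s, ¬ q ∣ n) → ∀ y : Fin 7 → ℕ,
  (∀ i, y i < q ∧ (q : ℤ) ∣ x i - y i) → (∏ a ∈ Ico 1 q, FF q w y a) ^ 2 = (q : ZMod l) ^ 14

def SIEVE : Prop := ∀ q ∈ QL, SV q

def SMALL : Prop := ∀ x R s, Sol x R s → 10 ^ 12 ≤ 2 * R

def UP : Prop := ∃ s : Multiset ℕ, (∀ n ∈ s, 0 < n) ∧ len ((X - 1) ^ 7 * cyc s) = 16

def FIN : Prop :=
  IsLeast {L : ℤ | ∃ s : Multiset ℕ, (∀ n ∈ s, 0 < n) ∧ L = len ((X - 1) ^ 7 * cyc s)} 16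

end Pool.Agent.Lib.SH56
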