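import Mathlib
import Pool.Agent.Lib.SH56.Blue

open Polynomial Finset

namespace Pool.Agent.Lib.SH56

namespace CNT_

theorem sum_bi {ι : Type} (F : Finset ι) (t : ι → Finset ℕ) (f : ℕ → ℕ) :
    ∑ n ∈ F.biUnion t, f n ≤ ∑ σ ∈ F, ∑ n ∈ t σ, f n := by
  classical
  induction F using Finset.induction_on with
  | empty => simp
  | insert a F ha ih =>
    rw [Finset.biUnion_insert, Finset.sum_insert ha]
    have h := Finset.sum_union_inter (s₁ := t a) (s₂ := F.biUnion t) (f := f)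
    omega

theorem core {ι : Type} (F : Finset ι) (g : ι → ℕ) (hg : ∀ σ, g σ ≠ 0) (M : ℕ) (hM : M ≠ 0)
    (s : Multiset ℕ) (h2 : ∀ n ∈ s, 2 ≤ n) (h13 : ∀ n, s.count n ≤ 13)
    (hr : ∀ n ∈ s, ¬ n ∣ M → s.count n = 1 ∧ ∃ σ ∈ F, n ∣ g σ) :
    7 + (s.map Nat.totient).sum ≤ 13 * M + ∑ σ ∈ F, g σ := by
  rw [Finset.sum_multiset_map_count,
    ← Finset.sum_filter_add_sum_filter_not s.toFinset (fun n => n ∣ M)]
  have hA : ∑ n ∈ s.toFinset.filter (fun n => n ∣ M), s.count n • Nat.totient n ≤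
      13 * ∑ n ∈ M.divisors.erase 1, Nat.totient n := by
    rw [Finset.mul_sum]
    refine le_trans (Finset.sum_le_sum fun n _ => ?_) (Finset.sum_le_sum_of_subset fun n hn => ?_)
    · rw [smul_eq_mul]
      exact Nat.mul_le_mul_right _ (h13 n)
    · obtain ⟨h1, h4⟩ := Finset.mem_filter.mp hn
      have h3 := h2 n (Multiset.mem_toFinset.mp h1)
      exact Finset.mem_erase.mpr ⟨by omega, Nat.mem_divisors.mpr ⟨h4, hM⟩⟩
  have hE : Nat.totient 1 + ∑ n ∈ M.divisors.erase 1, Nat.totient n = M := by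
    rw [Finset.add_sum_erase M.divisors Nat.totient (Nat.one_mem_divisors.mpr hM)]
    exact Nat.sum_totient M
  rw [Nat.totient_one] at hE
  have hB : ∑ n ∈ s.toFinset.filter (fun n => ¬ n ∣ M), s.count n • Nat.totient n ≤
      ∑ σ ∈ F, g σ := by
    have h1 : ∑ n ∈ s.toFinset.filter (fun n => ¬ n ∣ M), s.count n • Nat.totient n =
        ∑ n ∈ s.toFinset.filter (fun n => ¬ n ∣ M), Nat.totient n := by
      refine Finset.sum_congr rfl fun n hn => ?_
      obtain ⟨h1, h4⟩ := Finset.mem_filter.mp hn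
      rw [(hr n (Multiset.mem_toFinset.mp h1) h4).1, one_smul]
    have h5 : s.toFinset.filter (fun n => ¬ n ∣ M) ⊆ F.biUnion fun σ => (g σ).divisors := by
      intro n hn
      obtain ⟨h1, h4⟩ := Finset.mem_filter.mp hn
      obtain ⟨-, σ, hσ, h3⟩ := hr n (Multiset.mem_toFinset.mp h1) h4
      exact Finset.mem_biUnion.mpr ⟨σ, hσ, Nat.mem_divisors.mpr ⟨h3, hg σ⟩⟩
    rw [h1]
    refine (Finset.sum_le_sum_of_subset h5).trans ((sum_bi _ _ _).trans ?_)
    exact le_of_eq (Finset.sum_congr rfl fun σ _ => Nat.sum_totient _)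
  omega

theorem dvd_gg {x : Fin 7 → ℤ} {n : ℕ} {σ : Equiv.Perm (Fin 7)} (h : Mt x n σ) : n ∣ gg x σ :=
  Finset.dvd_gcd fun i _ => Int.natCast_dvd.mp (h i)

theorem gg_ne {x : Fin 7 → ℤ} (h : PTE x) (σ : Equiv.Perm (Fin 7)) : gg x σ ≠ 0 := by
  intro h0
  have h1 := Finset.gcd_eq_zero_iff.mp h0 0 (Finset.mem_univ _)
  exact h.2.2.2 0 (σ 0) (Int.natAbs_eq_zero.mp h1)

theorem MM_ne : MM ≠ 0 := by
  unfold MM
  norm_num

theorem dvd_MM : 720 ∣ MM := by
  unfold MM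
  norm_num

end CNT_

theorem bCNT (hDEG : DEG) (hROOT : ROOT) (hM13 : M13) : CNT := by
  intro x R s hs
  refine (hDEG x R s hs.toPre).trans_le (CNT_.core _ (gg x) (CNT_.gg_ne hs.pte) MM CNT_.MM_ne s
    hs.two (hM13 x R s hs.toPre) fun n hn h => ?_)
  obtain ⟨h1, σ, hσ⟩ := (hROOT x R s hs n hn).resolve_left h
  have h3 := CNT_.dvd_gg hσ
  exact ⟨h1, σ, Finset.mem_filter.mpr ⟨Finset.mem_univ _,
    fun h4 => h ((h3.trans h4).trans CNT_.dvd_MM)⟩, h3⟩

end Pool.Agent.Lib.SH56
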