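import Pool.Agent.Lib.SH56.Blue

/-! Row CNT: the degree is bounded by the orders of the roots. -/

open Polynomial Finset

namespace Pool.Agent.Lib.SH56

namespace CNT2_

theorem main {ι : Type} (s : Multiset ℕ) (M : ℕ) (T : Finset ι) (g : ι → ℕ) (hM : M ≠ 0)
    (h2 : ∀ n ∈ s, 2 ≤ n) (h13 : ∀ n, s.count n ≤ 13) (hg : ∀ σ ∈ T, g σ ≠ 0)
    (hr : ∀ n ∈ s, ¬ n ∣ M → s.count n = 1 ∧ ∃ σ ∈ T, n ∣ g σ) :
    7 + (s.map Nat.totient).sum ≤ 13 * M + ∑ σ ∈ T, g σ := by
  rw [Finset.sum_multiset_map_count,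
    ← Finset.sum_filter_add_sum_filter_not s.toFinset (fun n => n ∣ M)]
  have e1 : ∑ n ∈ M.divisors.erase 1, Nat.totient n + 1 = M := by
    have h := Finset.sum_erase_add M.divisors Nat.totient (Nat.one_mem_divisors.2 hM)
    rw [Nat.totient_one] at h
    exact h.trans (Nat.sum_totient M)
  have a1 : ∑ n ∈ s.toFinset.filter (fun n => n ∣ M), s.count n • Nat.totient n ≤
      13 * ∑ n ∈ M.divisors.erase 1, Nat.totient n := by
    rw [Finset.mul_sum]
    refine (Finset.sum_le_sum fun n _ => Nat.mul_le_mul_right _ (h13 n)).trans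
      (Finset.sum_le_sum_of_subset fun n hn => ?_)
    rw [Finset.mem_filter, Multiset.mem_toFinset] at hn
    have := h2 n hn.1
    exact Finset.mem_erase.2 ⟨by omega, Nat.mem_divisors.2 ⟨hn.2, hM⟩⟩
  have a2 : ∑ n ∈ s.toFinset.filter (fun n => ¬ n ∣ M), s.count n • Nat.totient n ≤
      ∑ σ ∈ T, g σ := by
    have b1 : ∀ n ∈ s.toFinset.filter (fun n => ¬ n ∣ M), s.count n • Nat.totient n ≤
        ∑ σ ∈ T, if n ∣ g σ then Nat.totient n else 0 := fun n hn => by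
      rw [Finset.mem_filter, Multiset.mem_toFinset] at hn
      obtain ⟨h1, σ, hσ, hd⟩ := hr n hn.1 hn.2
      rw [h1, one_smul]
      exact (if_pos hd).ge.trans (Finset.single_le_sum
        (f := fun σ => if n ∣ g σ then Nat.totient n else 0) (fun _ _ => Nat.zero_le _) hσ)
    refine (Finset.sum_le_sum b1).trans ?_
    rw [Finset.sum_comm]
    refine Finset.sum_le_sum fun σ hσ => ?_
    rw [← Finset.sum_filter]
    refine (Finset.sum_le_sum_of_subset fun n hn => ?_).trans (Nat.sum_totient (g σ)).le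
    exact Nat.mem_divisors.2 ⟨(Finset.mem_filter.1 hn).2, hg σ hσ⟩
  omega

theorem mm_ne : MM ≠ 0 := by unfold MM; norm_num

theorem mm_dvd : 720 ∣ MM := by unfold MM; norm_num

end CNT2_

theorem bCNT2 (hDEG : DEG) (hROOT : ROOT) (hM13 : M13) : CNT := by
  intro x R s h
  rw [hDEG x R s h.toPre]
  refine CNT2_.main s MM _ (gg x) CNT2_.mm_ne h.two (hM13 x R s h.toPre) (fun σ _ h0 => ?_)
    fun n hn hd => ?_
  · exact h.pte.2.2.2 0 (σ 0)
      (Int.natAbs_eq_zero.1 (Finset.gcd_eq_zero_iff.1 h0 0 (Finset.mem_univ _)))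
  · obtain ⟨h1, σ, hσ⟩ := (hROOT x R s h n hn).resolve_left hd
    have hg : n ∣ gg x σ := Finset.dvd_gcd fun i _ => Int.natCast_dvd.1 (hσ i)
    exact ⟨h1, σ, Finset.mem_filter.2 ⟨Finset.mem_univ _,
      fun h7 => hd ((hg.trans h7).trans CNT2_.mm_dvd)⟩, hg⟩

end Pool.Agent.Lib.SH56
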