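import Pool.Agent.Lib.SH56.Blue

/-! Galois conjugates of a vanishing sum. -/

open Polynomial Finset

namespace Pool.Agent.Lib.SH56

theorem CONJ_.zp {w : ℂ} {n : ℕ} (hn : 0 < n) (h : w ^ n = 1) (a : ℤ) :
    w ^ (a % n).toNat = w ^ a := by
  have hw : w ≠ 0 := fun h0 => by simp [h0, hn.ne'] at h
  have h1 : 0 ≤ a % n := Int.emod_nonneg _ (by exact_mod_cast hn.ne')
  rw [← zpow_natCast, Int.toNat_of_nonneg h1]
  conv_rhs => rw [← Int.mul_ediv_add_emod a n, zpow_add₀ hw, zpow_mul, zpow_natCast, h, one_zpow,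
    one_mul]

theorem bCONJ : CONJ := by
  intro x α β n u z hn hz hu h
  have hz' := hz.pow_of_coprime u hu
  have key : ∀ w : ℂ, w ^ n = 1 → aeval w (∑ j, (C (α j : ℚ) * X ^ (x j % n).toNat +
      C (β j : ℚ) * X ^ ((-x j) % n).toNat) : ℚ[X]) = tot x α β w := by
    intro w hw
    simp only [map_sum, map_add, map_mul, map_pow, aeval_X, CONJ_.zp hn hw, tot,
      map_intCast]
  rw [← key _ hz.pow_eq_one] at h
  rw [← key _ hz'.pow_eq_one]
  have h1 := minpoly.dvd ℚ z h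
  rw [← cyclotomic_eq_minpoly_rat hz hn, cyclotomic_eq_minpoly_rat hz' hn] at h1
  exact aeval_eq_zero_of_dvd_aeval_eq_zero h1 (minpoly.aeval ℚ _)

end Pool.Agent.Lib.SH56
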