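import Pool.Agent.Lib.SH56.Blue

open Polynomial Finset

namespace Pool.Agent.Lib.SH56

namespace CONST_

def e2 (a b c d e f g : ℤ) : ℤ :=
  a * b + a * c + a * d + a * e + a * f + a * g + b * c + b * d + b * e + b * f + b * g + c * d
    + c * e + c * f + c * g + d * e + d * f + d * g + e * f + e * g + f * g

def e3 (a b c d e f g : ℤ) : ℤ :=
  a * b * c + a * b * d + a * b * e + a * b * f + a * b * g + a * c * d + a * c * e + a * c * f
    + a * c * g + a * d * e + a * d * f + a * d * g + a * e * f + a * e * g + a * f * g + b * c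
    * d + b * c * e + b * c * f + b * c * g + b * d * e + b * d * f + b * d * g + b * e * f + b
    * e * g + b * f * g + c * d * e + c * d * f + c * d * g + c * e * f + c * e * g + c * f * g
    + d * e * f + d * e * g + d * f * g + e * f * g

def e4 (a b c d e f g : ℤ) : ℤ :=
  a * b * c * d + a * b * c * e + a * b * c * f + a * b * c * g + a * b * d * e + a * b * d * f
    + a * b * d * g + a * b * e * f + a * b * e * g + a * b * f * g + a * c * d * e + a * c * d
    * f + a * c * d * g + a * c * e * f + a * c * e * g + a * c * f * g + a * d * e * f + a * d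
    * e * g + a * d * f * g + a * e * f * g + b * c * d * e + b * c * d * f + b * c * d * g + b
    * c * e * f + b * c * e * g + b * c * f * g + b * d * e * f + b * d * e * g + b * d * f * g
    + b * e * f * g + c * d * e * f + c * d * e * g + c * d * f * g + c * e * f * g + d * e * f
    * g

def e5 (a b c d e f g : ℤ) : ℤ :=
  a * b * c * d * e + a * b * c * d * f + a * b * c * d * g + a * b * c * e * f + a * b * c * e
    * g + a * b * c * f * g + a * b * d * e * f + a * b * d * e * g + a * b * d * f * g + a * b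
    * e * f * g + a * c * d * e * f + a * c * d * e * g + a * c * d * f * g + a * c * e * f * g
    + a * d * e * f * g + b * c * d * e * f + b * c * d * e * g + b * c * d * f * g + b * c * e
    * f * g + b * d * e * f * g + c * d * e * f * g

def e6 (a b c d e f g : ℤ) : ℤ :=
  a * b * c * d * e * f + a * b * c * d * e * g + a * b * c * d * f * g + a * b * c * e * f * g
    + a * b * d * e * f * g + a * c * d * e * f * g + b * c * d * e * f * g

theorem key (a b c d e f g : ℤ) (h1 : a + b + c + d + e + f + g = 0)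
    (h3 : a ^ 3 + b ^ 3 + c ^ 3 + d ^ 3 + e ^ 3 + f ^ 3 + g ^ 3 = 0)
    (h5 : a ^ 5 + b ^ 5 + c ^ 5 + d ^ 5 + e ^ 5 + f ^ 5 + g ^ 5 = 0) :
    ∃ u v w : ℤ, ∀ T : ℤ, (T + a) * (T + b) * (T + c) * (T + d) * (T + e) * (T + f) * (T + g)
      = T ^ 7 + u * T ^ 5 + v * T ^ 3 + w * T + a * b * c * d * e * f * g := by
  have n3 : a ^ 3 + b ^ 3 + c ^ 3 + d ^ 3 + e ^ 3 + f ^ 3 + g ^ 3
      = (a + b + c + d + e + f + g) * ((a + b + c + d + e + f + g) ^ 2 - 3 * e2 a b c d e f g)
        + 3 * e3 a b c d e f g := by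
    unfold e2 e3
    ring
  have n5 : a ^ 5 + b ^ 5 + c ^ 5 + d ^ 5 + e ^ 5 + f ^ 5 + g ^ 5
      = (a + b + c + d + e + f + g)
          * (a ^ 4 + b ^ 4 + c ^ 4 + d ^ 4 + e ^ 4 + f ^ 4 + g ^ 4 - e4 a b c d e f g)
        - e2 a b c d e f g * (a ^ 3 + b ^ 3 + c ^ 3 + d ^ 3 + e ^ 3 + f ^ 3 + g ^ 3)
        + e3 a b c d e f g * (a ^ 2 + b ^ 2 + c ^ 2 + d ^ 2 + e ^ 2 + f ^ 2 + g ^ 2)
        + 5 * e5 a b c d e f g := by
    unfold e2 e3 e4 e5
    ring
  rw [h1, h3, zero_mul] at n3
  have z3 : e3 a b c d e f g = 0 := by omega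
  rw [h1, h3, h5, z3, zero_mul, zero_mul, mul_zero] at n5
  have z5 : e5 a b c d e f g = 0 := by omega
  refine ⟨e2 a b c d e f g, e4 a b c d e f g, e6 a b c d e f g, fun T => ?_⟩
  have v : (T + a) * (T + b) * (T + c) * (T + d) * (T + e) * (T + f) * (T + g)
      = T ^ 7 + (a + b + c + d + e + f + g) * T ^ 6 + e2 a b c d e f g * T ^ 5
        + e3 a b c d e f g * T ^ 4 + e4 a b c d e f g * T ^ 3 + e5 a b c d e f g * T ^ 2
        + e6 a b c d e f g * T + a * b * c * d * e * f * g := by
    unfold e2 e3 e4 e5 e6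
    ring
  rw [v, h1, z3, z5]
  ring

end CONST_

theorem bCONST : CONST := by
  intro x hx
  obtain ⟨h1, h3, h5, -⟩ := hx
  obtain ⟨u, v, w, h⟩ := CONST_.key (x 0) (x 1) (x 2) (x 3) (x 4) (x 5) (x 6)
    ((Fin.sum_univ_seven x).symm.trans h1) ((Fin.sum_univ_seven fun i => x i ^ 3).symm.trans h3)
    ((Fin.sum_univ_seven fun i => x i ^ 5).symm.trans h5)
  have hT : ∀ T : ℤ, ∏ j, (T + x j) = T ^ 7 + u * T ^ 5 + v * T ^ 3 + w * T + ∏ j, x j := by
    intro T
    rw [Fin.prod_univ_seven, Fin.prod_univ_seven]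
    exact h T
  have h0 : ∀ i, x i ^ 7 = ∏ j, x j - u * x i ^ 5 - v * x i ^ 3 - w * x i := by
    intro i
    have h2 := hT (-x i)
    rw [Finset.prod_eq_zero (Finset.mem_univ i) (neg_add_cancel (x i))] at h2
    linear_combination h2
  refine ⟨fun i => ?_, ?_⟩
  · rw [hT, h0 i]
    ring
  · rw [Finset.sum_congr rfl fun i _ => h0 i, Finset.sum_sub_distrib, Finset.sum_sub_distrib,
      Finset.sum_sub_distrib, ← Finset.mul_sum, ← Finset.mul_sum, ← Finset.mul_sum, h1, h3, h5,
      Finset.sum_const, Finset.card_univ, Fintype.card_fin, nsmul_eq_mul]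
    push_cast
    ring

end Pool.Agent.Lib.SH56
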