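import Pool.Agent.Lib.SH56.Blue

/-! On a deep level without lonely points every class is a pair. -/

open Finset

namespace Pool.Agent.Lib.SH56

namespace DEEP_

theorem cA_mono (x : Fin 7 → ℤ) {m m' : ℤ} (h : m ∣ m') (r : ℤ) : cA x m' r ≤ cA x m r :=
  card_le_card fun j hj => mem_filter.2 ⟨mem_univ j, h.trans (mem_filter.1 hj).2⟩

theorem cB_mono (x : Fin 7 → ℤ) {m m' : ℤ} (h : m ∣ m') (r : ℤ) : cB x m' r ≤ cB x m r :=
  card_le_card fun j hj => mem_filter.2 ⟨mem_univ j, h.trans (mem_filter.1 hj).2⟩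

theorem cA_self (x : Fin 7 → ℤ) (m : ℤ) (i : Fin 7) : 1 ≤ cA x m (x i) :=
  card_pos.2 ⟨i, mem_filter.2 ⟨mem_univ i, by rw [sub_self]; exact dvd_zero m⟩⟩

theorem cA_le (x : Fin 7 → ℤ) (m r : ℤ) : cA x m r ≤ 7 :=
  (card_filter_le _ _).trans (by rw [card_univ, Fintype.card_fin])

theorem cB_le (x : Fin 7 → ℤ) (m : ℤ) (h : ∀ i, cA x m (x i) ≤ 1) (r : ℤ) : cB x m r ≤ 1 := by
  refine card_le_one.2 fun a ha b hb => ?_
  have h1 := (mem_filter.1 ha).2
  have h2 := (mem_filter.1 hb).2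
  refine card_le_one.1 (h b) a (mem_filter.2 ⟨mem_univ _, ?_⟩) b (mem_filter.2 ⟨mem_univ _, ?_⟩)
  · have h3 := dvd_sub h1 h2
    rwa [add_sub_add_right_eq_sub] at h3
  · rw [sub_self]
    exact dvd_zero m

theorem cA_le_cB (x : Fin 7 → ℤ) {m m' : ℤ} (h : m ∣ m') (r : ℤ) (hr : m ∣ 2 * r) :
    cA x m' r ≤ cB x m r := by
  refine card_le_card fun j hj => mem_filter.2 ⟨mem_univ j, ?_⟩
  have h1 := dvd_add (h.trans (mem_filter.1 hj).2) hr
  rwa [show x j - r + 2 * r = x j + r by ring] at h1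

theorem three_le (x : Fin 7 → ℤ) (I : Finset (Fin 7)) (hI : I.card = 3)
    (he : ∀ i ∈ I, Even (x i)) (ho : ∀ i ∉ I, Odd (x i)) (i : Fin 7) : 3 ≤ cB x 2 (x i) := by
  by_cases hi : i ∈ I
  · rw [← hI]
    exact card_le_card fun j hj =>
      mem_filter.2 ⟨mem_univ j, ((he j hj).add (he i hi)).two_dvd⟩
  · have h1 : Iᶜ.card = 4 := by rw [card_compl, hI, Fintype.card_fin]
    have h2 : Iᶜ.card ≤ cB x 2 (x i) := card_le_card fun j hj =>
      mem_filter.2 ⟨mem_univ j, ((ho j (mem_compl.1 hj)).add_odd (ho i hi)).two_dvd⟩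
    omega

theorem vle (p a : ℕ) (h : ¬ p ^ (a + 1) ∣ 720) : padicValNat p 720 ≤ a := by
  by_contra hc
  exact h ((pow_dvd_pow p (by omega)).trans pow_padicValNat_dvd)

theorem one_dvd {q c u : ℤ} (hq : Prime q) (hc : ¬ q ∣ c) (h : q ∣ c * u ^ 5) : q ∣ u :=
  hq.dvd_of_dvd_pow ((hq.dvd_or_dvd h).resolve_left hc)

theorem two_dvd {q c u : ℤ} (hq : Prime q) (hc : ¬ q ∣ c) (h : q ^ 6 ∣ c * u ^ 5) :
    q ^ 2 ∣ u := by
  obtain ⟨w, rfl⟩ := one_dvd hq hc ((dvd_pow_self q (by norm_num)).trans h)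
  have h1 : q ^ 5 * q ∣ q ^ 5 * (c * w ^ 5) := by
    rw [show q ^ 5 * q = q ^ 6 by ring, show q ^ 5 * (c * w ^ 5) = c * (q * w) ^ 5 by ring]
    exact h
  obtain ⟨z, rfl⟩ := one_dvd hq hc ((mul_dvd_mul_iff_left (pow_ne_zero 5 hq.ne_zero)).1 h1)
  exact ⟨z, by ring⟩

theorem ele {p e a : ℕ} (hp : 0 < p) (h : p ^ e ≤ 7) (ha : 7 < p ^ (a + 1)) : e ≤ a := by
  by_contra hc
  have h1 : p ^ (a + 1) ≤ p ^ e := Nat.pow_le_pow_right hp (by omega)
  omega

end DEEP_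

open DEEP_ in
theorem bDEEP (hEXC : EXC) (hSUMV : SUMV) (hTWO : TWO) (hUNI0 : UNI0) (hBLK : BLK) : DEEP := by
  intro x R s hS p k hp hk h2
  by_cases hA : ∀ i, cA x ((p : ℤ) ^ k) (x i) ≤ 1
  · intro i
    have h1 := cA_self x ((p : ℤ) ^ k) i
    have h3 := cB_le x _ hA (x i)
    have h4 := hA i
    have h5 := h2 i
    omega
  exfalso
  obtain ⟨i1, hi1⟩ := not_forall.1 hA
  obtain ⟨L, e, hBal, hV, i0, hi0⟩ := hEXC x R s hS p hp
  have hP : PTE x := hS.toPre.pte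
  have hSV := hSUMV x hP p hp
  have hmin : min k L ≤ padicValNat p 720 := by
    have hb := (hBal _).2 (min_le_right k L)
    refine hUNI0 x R s hS p (min k L) i1 hp hb ?_
    rw [← hb (x i1)]
    exact (not_le.1 hi1).trans_le (cA_mono x (pow_dvd_pow _ (min_le_left k L)) _)
  have hlow : ∀ (i : Fin 7) (c T : ℕ),
      (∀ t, 1 ≤ t → t ≤ T → c ≤ cB x ((p : ℤ) ^ t) (x i)) → c * T ≤ VV p x := by
    intro i c T h
    have h1 := card_nsmul_le_sum (Icc 1 T) (fun t => cB x ((p : ℤ) ^ t) (x i)) c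
      fun t ht => h t (mem_Icc.1 ht).1 (mem_Icc.1 ht).2
    rw [Nat.card_Icc, smul_eq_mul, Nat.add_sub_cancel, mul_comm] at h1
    exact h1.trans (hSV i T)
  have hF1 : p ^ e * L ≤ VV p x := hlow i0 _ L fun t _ ht => by
    rw [← (hBal t).2 ht (x i0)]
    exact hi0.trans (cA_mono x (pow_dvd_pow _ (by omega)) _)
  have he : p ^ e ≤ 7 := hi0.trans (cA_le x _ _)
  have hcase : (k ≤ VV p x ∧ (p = 2 → 1 ≤ k → k + 2 ≤ VV p x)) ∨
      ∃ u : ℤ, (p : ℤ) ^ k ∣ 105 * u ^ 5 ∧ (L ≤ k → 3 * L ≤ VV p x) ∧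
        ∀ W, W ≤ k → (p : ℤ) ^ W ∣ 2 * u → 3 * W ≤ VV p x := by
    by_cases hB : ∃ i, 1 ≤ cB x ((p : ℤ) ^ k) (x i)
    · obtain ⟨i, hi⟩ := hB
      have h1 : ∀ t, t ≤ k → 1 ≤ cB x ((p : ℤ) ^ t) (x i) := fun t ht =>
        hi.trans (cB_mono x (pow_dvd_pow _ ht) _)
      refine Or.inl ⟨?_, fun hp2 hk1 => ?_⟩
      · have h3 := hlow i 1 k fun t _ ht => h1 t ht
        omega
      · obtain ⟨I, hI, hev, hod⟩ := hTWO x R s hS
        have h3 : ∑ t ∈ Icc 1 k, (1 + if t = 1 then 2 else 0) ≤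
            ∑ t ∈ Icc 1 k, cB x ((p : ℤ) ^ t) (x i) := by
          refine sum_le_sum fun t ht => ?_
          by_cases ht1 : t = 1
          · rw [if_pos ht1, ht1, pow_one, hp2]
            exact three_le x I hI hev hod i
          · rw [if_neg ht1]
            exact h1 t (mem_Icc.1 ht).2
        rw [sum_add_distrib, sum_ite_eq', if_pos (mem_Icc.2 ⟨le_rfl, hk1⟩), sum_const,
          Nat.card_Icc, smul_eq_mul, mul_one, Nat.add_sub_cancel] at h3
        exact h3.trans (hSV i k)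
    · have h1 : ∀ i, 2 ≤ cA x ((p : ℤ) ^ k) (x i) := fun i => by
        have h3 := h2 i
        have h4 : ¬ 1 ≤ cB x ((p : ℤ) ^ k) (x i) := fun h => hB ⟨i, h⟩
        omega
      obtain ⟨i, h3, h4⟩ := hBLK x hP _ h1
      refine Or.inr ⟨x i, h4, fun hL => hlow i 3 L fun t _ ht => ?_,
        fun W hW hd => hlow i 3 W fun t _ ht => ?_⟩
      · rw [← (hBal t).2 ht (x i)]
        exact h3.trans (cA_mono x (pow_dvd_pow _ (ht.trans hL)) _)
      · exact h3.trans (cA_le_cB x (pow_dvd_pow _ (ht.trans hW)) _ ((pow_dvd_pow _ ht).trans hd))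
  have hq : Prime (p : ℤ) := Nat.prime_iff_prime_int.1 hp
  by_cases hp2 : p = 2
  · subst hp2
    have hv := vle 2 4 (by norm_num)
    have hk' : 8 ≤ k := hk
    have he' := ele (a := 2) (by norm_num) he (by norm_num)
    rcases hcase with ⟨-, h1⟩ | ⟨u, h1, h3, h4⟩
    · have h5 := h1 rfl (by omega)
      interval_cases e <;> omega
    · obtain ⟨w, hw⟩ := two_dvd hq (by norm_num) ((pow_dvd_pow _ (by omega)).trans h1)
      have h5 := h4 3 (by omega) ⟨w, by rw [hw]; push_cast; ring⟩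
      have h6 := h3 (by omega)
      interval_cases e <;> omega
  by_cases hp3 : p = 3
  · subst hp3
    have hv := vle 3 2 (by norm_num)
    have hk' : 7 ≤ k := hk
    have he' := ele (a := 1) (by norm_num) he (by norm_num)
    rcases hcase with ⟨h1, -⟩ | ⟨u, h1, h3, h4⟩
    · omega
    · have h7 : ((3 : ℕ) : ℤ) * ((3 : ℕ) : ℤ) ^ 6 ∣ ((3 : ℕ) : ℤ) * (35 * u ^ 5) := by
        rw [← pow_succ', show ((3 : ℕ) : ℤ) * (35 * u ^ 5) = 105 * u ^ 5 by push_cast; ring]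
        exact (pow_dvd_pow _ hk').trans h1
      have h8 := two_dvd hq (by norm_num) ((mul_dvd_mul_iff_left hq.ne_zero).1 h7)
      have h5 := h4 2 (by omega) (h8.mul_left 2)
      have h6 := h3 (by omega)
      omega
  by_cases hp5 : p = 5
  · subst hp5
    have hv := vle 5 1 (by norm_num)
    have hk' : 3 ≤ k := hk
    have he' := ele (a := 1) (by norm_num) he (by norm_num)
    rcases hcase with ⟨h1, -⟩ | ⟨u, h1, -, h4⟩
    · interval_cases e <;> omega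
    · have h7 : ((5 : ℕ) : ℤ) * ((5 : ℕ) : ℤ) ∣ ((5 : ℕ) : ℤ) * (21 * u ^ 5) := by
        rw [← pow_two, show ((5 : ℕ) : ℤ) * (21 * u ^ 5) = 105 * u ^ 5 by push_cast; ring]
        exact (pow_dvd_pow _ (by omega)).trans h1
      have h8 := one_dvd hq (by norm_num) ((mul_dvd_mul_iff_left hq.ne_zero).1 h7)
      have h5 := h4 1 (by omega) (by rw [pow_one]; exact h8.mul_left 2)
      interval_cases e <;> omega
  by_cases hp7 : p = 7
  · subst hp7
    have hv := vle 7 0 (by norm_num)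
    have hk' : 2 ≤ k := hk
    have he' := ele (a := 1) (by norm_num) he (by norm_num)
    rcases hcase with ⟨h1, -⟩ | ⟨u, h1, -, h4⟩
    · omega
    · have h7 : ((7 : ℕ) : ℤ) * ((7 : ℕ) : ℤ) ∣ ((7 : ℕ) : ℤ) * (15 * u ^ 5) := by
        rw [← pow_two, show ((7 : ℕ) : ℤ) * (15 * u ^ 5) = 105 * u ^ 5 by push_cast; ring]
        exact (pow_dvd_pow _ hk').trans h1
      have h8 := one_dvd hq (by norm_num) ((mul_dvd_mul_iff_left hq.ne_zero).1 h7)
      have h5 := h4 1 (by omega) (by rw [pow_one]; exact h8.mul_left 2)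
      omega
  have hk' : 1 ≤ k := by
    unfold sp at hk
    rwa [if_neg hp2, if_neg hp3, if_neg hp5, if_neg hp7] at hk
  have hnd : ¬ p ∣ 2 ^ 4 * 3 ^ 2 * 5 * 7 := by
    intro h
    have pr : ∀ q : ℕ, q.Prime → p ∣ q → p = q := fun q hq' hd =>
      (Nat.prime_dvd_prime_iff_eq hp hq').1 hd
    rcases (Nat.Prime.dvd_mul hp).1 h with h | h
    · rcases (Nat.Prime.dvd_mul hp).1 h with h | h
      · rcases (Nat.Prime.dvd_mul hp).1 h with h | h
        · exact hp2 (pr 2 Nat.prime_two (hp.dvd_of_dvd_pow h))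
        · exact hp3 (pr 3 Nat.prime_three (hp.dvd_of_dvd_pow h))
      · exact hp5 (pr 5 Nat.prime_five h)
    · exact hp7 (pr 7 (by norm_num) h)
  have h8 : 7 < p := by
    by_contra hc
    have h1 := hp.two_le
    have h3 : p ≤ 7 := not_lt.1 hc
    interval_cases p
    · exact hp2 rfl
    · exact hp3 rfl
    · exact absurd hp (by norm_num)
    · exact hp5 rfl
    · exact absurd hp (by norm_num)
    · exact hp7 rfl
  have hv := vle p 0 fun h => hnd ((pow_one p ▸ h : p ∣ 720).trans (by norm_num))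
  have he' := ele (a := 0) hp.pos he (by rwa [zero_add, pow_one])
  rcases hcase with ⟨h1, -⟩ | ⟨u, h1, -, h4⟩
  · omega
  · have h7 : ¬ (p : ℤ) ∣ 105 := fun h =>
      hnd ((Int.natCast_dvd_natCast.1 (h : (p : ℤ) ∣ ((105 : ℕ) : ℤ))).trans (by norm_num))
    have h9 := one_dvd hq h7 ((dvd_pow_self _ (by omega)).trans h1)
    have h5 := h4 1 hk' (by rw [pow_one]; exact h9.mul_left 2)
    omega

end Pool.Agent.Lib.SH56
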