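import Pool.Agent.Lib.SH56.Blue

open Polynomial Finset

namespace Pool.Agent.Lib.SH56

theorem bDEG (hREV : REV) : DEG := by
  intro x R s h
  rw [← (hREV s h.two).2.2, ← h.eq]
  obtain ⟨i0, hi0⟩ := h.top
  have hle := fun i => abs_le.1 (h.le i)
  refine le_antisymm (le_natDegree_of_ne_zero (ne_of_gt ?_)) ?_
  · rw [PP, finset_sum_coeff]
    have hz : ∀ i, ¬ 2 * R = ((R : ℤ) - x i).toNat := fun i => by
      have h1 := h.pte.2.2.2 i0 i
      have h2 := hle i
      omega
    refine sum_pos' (fun i _ => ?_) ⟨i0, mem_univ _, ?_⟩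
    · rw [coeff_sub, coeff_X_pow, coeff_X_pow, if_neg (hz i)]
      split_ifs <;> norm_num
    · rw [coeff_sub, coeff_X_pow, coeff_X_pow, if_neg (hz i0), if_pos (by omega)]
      norm_num
  · refine natDegree_sum_le_of_forall_le _ _ fun i _ => (natDegree_sub_le _ _).trans ?_
    have h2 := hle i
    rw [natDegree_X_pow, natDegree_X_pow]
    omega

end Pool.Agent.Lib.SH56
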