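import Pool.Agent.Lib.SH56.Blue

open Polynomial Finset

namespace Pool.Agent.Lib.SH56

namespace DER7_

theorem odd_part (E : ℤ[X]) (hE : E.natDegree < 8) (t : ℤ) : E.eval t - E.eval (-t)
    = 2 * E.coeff 1 * t + 2 * E.coeff 3 * t ^ 3 + 2 * E.coeff 5 * t ^ 5
      + 2 * E.coeff 7 * t ^ 7 := by
  rw [eval_eq_sum_range' hE, eval_eq_sum_range' hE]
  simp only [Finset.sum_range_succ, Finset.sum_range_zero]
  ring

theorem der_pow (k : ℕ) (m : ℤ) (hm : 0 ≤ m) :
    (derivative^[k] (X ^ m.toNat : ℤ[X])).eval 1 = (descPochhammer ℤ k).eval m := by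
  rw [iterate_derivative_X_pow_eq_natCast_mul, eval_mul, eval_pow, eval_X, one_pow, mul_one,
    eval_natCast, ← descPochhammer_eval_eq_descFactorial ℤ, Int.toNat_of_nonneg hm]

theorem der (x : Fin 7 → ℤ) (R : ℕ) (hx : PTE x) (hR : ∀ i, |x i| ≤ R) (k : ℕ) (hk : k ≤ 7) :
    (derivative^[k] (PP x R)).eval 1
      = 2 * (taylor (R : ℤ) (descPochhammer ℤ k)).coeff 7 * ∑ i, x i ^ 7 := by
  obtain ⟨h1, h3, h5, -⟩ := hx
  have hd : (taylor (R : ℤ) (descPochhammer ℤ k)).natDegree < 8 := by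
    rw [natDegree_taylor, descPochhammer_natDegree]
    omega
  have h : ∀ i, (derivative^[k] (X ^ ((R : ℤ) + x i).toNat - X ^ ((R : ℤ) - x i).toNat : ℤ[X])).eval 1
      = (taylor (R : ℤ) (descPochhammer ℤ k)).eval (x i)
        - (taylor (R : ℤ) (descPochhammer ℤ k)).eval (-x i) := by
    intro i
    have h2 := abs_le.mp (hR i)
    rw [iterate_derivative_sub, eval_sub, der_pow k _ (by omega), der_pow k _ (by omega),
      taylor_eval, taylor_eval, add_comm (x i), neg_add_eq_sub]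
  unfold PP
  rw [iterate_derivative_sum, eval_finsetSum,
    Finset.sum_congr rfl fun i _ => (h i).trans (odd_part _ hd (x i)), Finset.sum_add_distrib,
    Finset.sum_add_distrib, Finset.sum_add_distrib, ← Finset.mul_sum, ← Finset.mul_sum,
    ← Finset.mul_sum, ← Finset.mul_sum, h1, h3, h5]
  ring

end DER7_

theorem bDER7 (hCONST : CONST) : DER7 := by
  intro x R hx hR
  refine ⟨fun k hk => ?_, ?_⟩
  · rw [DER7_.der x R hx hR k (by omega), coeff_eq_zero_of_natDegree_lt, mul_zero, zero_mul]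
    rw [natDegree_taylor, descPochhammer_natDegree]
    omega
  · have h := coeff_taylor_natDegree (R : ℤ) (descPochhammer ℤ 7)
    rw [descPochhammer_natDegree, (monic_descPochhammer ℤ 7).leadingCoeff] at h
    rw [DER7_.der x R hx hR 7 le_rfl, h, (hCONST x hx).2]
    ring

end Pool.Agent.Lib.SH56
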