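import Pool.Agent.Lib.SH56.Blue

/-! Row EPS: a class of positive net count splits at every periodic level. -/

open Polynomial Finset

namespace Pool.Agent.Lib.SH56

namespace EPS_

lemma aux (hS : SPLIT) (x : Fin 7 → ℤ) (p : ℕ) (hp : 0 < p) (n : ℕ) :
    ∀ (u : ℕ) (E : Finset ℕ), (∀ k ∈ E, u ≤ k ∧ k < u + n) →
      (∀ k ∈ E, ∀ r (j : ℤ),
        g0 x ((p : ℤ) ^ (k + 1)) (r + j * (p : ℤ) ^ k) = g0 x ((p : ℤ) ^ (k + 1)) r) →
      ∀ r, 0 < g0 x ((p : ℤ) ^ u) r → p ^ E.card ≤ cA x ((p : ℤ) ^ u) r := by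
  induction n with
  | zero =>
    intro u E hE _ r hr
    have h0 : E = ∅ := by
      refine Finset.eq_empty_of_forall_notMem fun k hk => ?_
      have := hE k hk
      omega
    rw [h0, Finset.card_empty, pow_zero]
    unfold g0 at hr
    omega
  | succ n ih =>
    intro u E hE hper r hr
    have hm : ((p : ℤ) ^ u) ≠ 0 := pow_ne_zero _ (by exact_mod_cast hp.ne')
    obtain ⟨hA, -, hG, -⟩ := hS x ((p : ℤ) ^ u) p r hm hp
    rw [← pow_succ] at hA hG
    by_cases hu : u ∈ E
    · have hpos : 0 < g0 x ((p : ℤ) ^ (u + 1)) r := by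
        by_contra hneg
        have h1 : ∑ j ∈ range p, g0 x ((p : ℤ) ^ (u + 1)) (r + (j : ℤ) * (p : ℤ) ^ u) ≤ 0 :=
          Finset.sum_nonpos fun j _ => by rw [hper u hu r j]; omega
        omega
      have hall : ∀ j ∈ range p, p ^ (E.erase u).card ≤
          cA x ((p : ℤ) ^ (u + 1)) (r + (j : ℤ) * (p : ℤ) ^ u) := by
        intro j _
        refine ih (u + 1) (E.erase u) (fun k hk => ?_)
          (fun k hk => hper k (Finset.mem_of_mem_erase hk)) _ ?_
        · have h1 := hE k (Finset.mem_of_mem_erase hk)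
          have h2 := Finset.ne_of_mem_erase hk
          omega
        · rw [hper u hu r j]
          exact hpos
      have h3 := Finset.card_nsmul_le_sum _ _ _ hall
      rw [Finset.card_range, smul_eq_mul] at h3
      rw [hA, ← Finset.card_erase_add_one hu, pow_succ, mul_comm]
      exact h3
    · have hex : ∃ j ∈ range p, 0 < g0 x ((p : ℤ) ^ (u + 1)) (r + (j : ℤ) * (p : ℤ) ^ u) := by
        by_contra hneg
        have h1 : ∑ j ∈ range p, g0 x ((p : ℤ) ^ (u + 1)) (r + (j : ℤ) * (p : ℤ) ^ u) ≤ 0 :=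
          Finset.sum_nonpos fun j hj => not_lt.1 fun h => hneg ⟨j, hj, h⟩
        omega
      obtain ⟨j, hj, hpos⟩ := hex
      have h1 := ih (u + 1) E (fun k hk => by
        have h1 := hE k hk
        have h2 : k ≠ u := fun h => hu (h ▸ hk)
        omega) hper _ hpos
      rw [hA]
      exact h1.trans (Finset.single_le_sum
        (f := fun j : ℕ => cA x ((p : ℤ) ^ (u + 1)) (r + (j : ℤ) * (p : ℤ) ^ u))
        (fun _ _ => Nat.zero_le _) hj)

end EPS_

theorem bEPS (hSPLIT : SPLIT) : EPS := by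
  intro x p u E hp hE hper r hr
  refine EPS_.aux hSPLIT x p hp (E.sup id + 1) u E (fun k hk => ⟨hE k hk, ?_⟩) hper r hr
  have h1 : id k ≤ E.sup id := Finset.le_sup hk
  have h2 : k ≤ E.sup id := h1
  omega

end Pool.Agent.Lib.SH56
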