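import Pool.Agent.Lib.SH56.Blue

/-! Row EXC: the last balanced level and the exceptional levels above it. -/

open Polynomial Finset

namespace Pool.Agent.Lib.SH56

namespace EXC_

theorem bal_zero (x : Fin 7 → ℤ) (p : ℕ) : Bal x ((p : ℤ) ^ 0) := by
  intro r
  simp [cA, cB]

theorem bal_down (hS : SPLIT) {x : Fin 7 → ℤ} {p : ℕ} (hp : 0 < p) {t u : ℕ} (htu : t ≤ u)
    (h : Bal x ((p : ℤ) ^ u)) : Bal x ((p : ℤ) ^ t) := by
  induction u, htu using Nat.le_induction with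
  | base => exact h
  | succ u _ ih =>
    refine ih fun r => ?_
    have hm : (p : ℤ) ^ u ≠ 0 := pow_ne_zero _ (by exact_mod_cast hp.ne')
    obtain ⟨h1, h2, -, -⟩ := hS x _ p r hm hp
    rw [h1, h2]
    refine Finset.sum_congr rfl fun j _ => ?_
    rw [← pow_succ]
    exact h _

theorem not_bal {x : Fin 7 → ℤ} {R : ℕ} (hx : PTE x) (hle : ∀ i, |x i| ≤ R) {p : ℕ} (hp : 1 < p) :
    ¬ Bal x ((p : ℤ) ^ (2 * R + 1)) := by
  intro h
  have h0 : 0 < cA x ((p : ℤ) ^ (2 * R + 1)) (x 0) :=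
    Finset.card_pos.2 ⟨0, by simp⟩
  rw [h] at h0
  obtain ⟨j, hj⟩ := Finset.card_pos.1 h0
  have hd : (p : ℤ) ^ (2 * R + 1) ∣ x j + x 0 := (Finset.mem_filter.1 hj).2
  have h1 := Int.le_of_dvd (abs_pos.2 (hx.2.2.2 j 0)) ((dvd_abs _ _).2 hd)
  have h2 : |x j + x 0| ≤ 2 * R := by
    have := abs_add_le (x j) (x 0)
    have := hle j
    have := hle 0
    omega
  have h3 : 2 * R + 1 < p ^ (2 * R + 1) := Nat.lt_pow_self hp
  have h4 : ((2 * R + 1 : ℕ) : ℤ) < (p : ℤ) ^ (2 * R + 1) := by exact_mod_cast h3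
  push_cast at h4
  omega

theorem pos_class {x : Fin 7 → ℤ} {m : ℤ} (h : ¬ Bal x m) : ∃ r, 0 < g0 x m r := by
  obtain ⟨r, hr⟩ := not_forall.1 h
  have e1 : cA x m (-r) = cB x m r := by simp [cA, cB]
  have e2 : cB x m (-r) = cA x m r := by simp [cA, cB, sub_eq_add_neg]
  rcases Nat.lt_or_gt_of_ne hr with h1 | h1
  · exact ⟨-r, by rw [g0, e1, e2]; omega⟩
  · exact ⟨r, by rw [g0]; omega⟩

theorem cA_rep {x : Fin 7 → ℤ} {m r : ℤ} (h : 0 < cA x m r) : ∃ i, cA x m (x i) = cA x m r := by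
  obtain ⟨i, hi⟩ := Finset.card_pos.1 h
  have hd : m ∣ x i - r := (Finset.mem_filter.1 hi).2
  refine ⟨i, congrArg Finset.card (Finset.filter_congr fun j _ => ⟨fun h => ?_, fun h => ?_⟩)⟩
  · have := dvd_add h hd
    rwa [sub_add_sub_cancel] at this
  · have := dvd_sub h hd
    rwa [sub_sub_sub_cancel_right] at this

end EXC_

open EXC_ in
theorem bEXC (hVAL : VAL) (hNET : NET) (hSPLIT : SPLIT) (hM1A : M1A) (hM1B : M1B) (hM1C : M1C)
    (hEPS : EPS) : EXC := by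
  classical
  intro x R s hs p hp
  have hex : ∃ t, ¬ Bal x ((p : ℤ) ^ (t + 1)) := ⟨2 * R, not_bal hs.pte hs.le hp.one_lt⟩
  obtain ⟨L, hL1, hL0⟩ : ∃ L, ¬ Bal x ((p : ℤ) ^ (L + 1)) ∧ Bal x ((p : ℤ) ^ L) := by
    refine ⟨Nat.find hex, Nat.find_spec hex, ?_⟩
    rcases hk : Nat.find hex with _ | k
    · exact bal_zero x p
    · exact not_not.1 (Nat.find_min hex (by omega : k < Nat.find hex))
  have hnot : p ^ (L + 1) ∉ s := by
    intro hm
    refine hL1 fun r => ?_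
    have hc := (hNET x R s hs.toPre p L hp).1 hm r
    have hm0 : (p : ℤ) ^ L ≠ 0 := pow_ne_zero _ (by exact_mod_cast hp.ne_zero)
    have h3 := (hSPLIT x _ p r hm0 hp.pos).2.2.1
    rw [← pow_succ, Finset.sum_congr rfl fun j _ => hc (j : ℕ), Finset.sum_const,
      Finset.card_range, nsmul_eq_mul] at h3
    have h4 : g0 x ((p : ℤ) ^ L) r = 0 := by rw [g0, hL0 r, sub_self]
    rw [h4] at h3
    have h5 := (mul_eq_zero.1 h3.symm).resolve_left (by exact_mod_cast hp.ne_zero)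
    rw [g0] at h5
    omega
  have hT : ∀ t, p ^ t ∈ s → t ≤ s.sum := fun t ht =>
    (Nat.lt_pow_self hp.one_lt).le.trans (Multiset.le_sum_of_mem ht)
  have hc1 : ∀ t, 1 ≤ t → s.count (p ^ t) ≤ 1 := by
    intro t ht
    obtain ⟨k, rfl⟩ : ∃ k, t = k + 1 := ⟨t - 1, by omega⟩
    rcases Nat.eq_zero_or_pos k with rfl | hk
    · simpa using hM1A x R s hs p hp
    · by_cases h2 : p = 2
      · subst h2
        exact hM1C x R s hs k hk
      · exact hM1B x R s hs p k hp h2 hk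
  set E : Finset ℕ := (range s.sum).filter fun k => L + 1 ≤ k ∧ p ^ (k + 1) ∈ s with hE
  refine ⟨L, E.card, fun t => ⟨fun h => ?_, fun h => bal_down hSPLIT hp.pos h hL0⟩, ?_, ?_⟩
  · by_contra hlt
    exact hL1 (bal_down hSPLIT hp.pos (by omega) h)
  · rw [(hVAL x R s hs.toPre).2 p hp s.sum hT]
    have h1 : ∑ t ∈ Icc 1 s.sum, s.count (p ^ t) ≤
        ((Icc 1 s.sum).filter fun t => p ^ t ∈ s).card := by
      rw [Finset.card_filter]
      refine Finset.sum_le_sum fun t ht => ?_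
      split_ifs with h
      · exact hc1 t (Finset.mem_Icc.1 ht).1
      · exact (Multiset.count_eq_zero.2 h).le
    have h2 : ((Icc 1 s.sum).filter fun t => p ^ t ∈ s) ⊆ Icc 1 L ∪ E.image (· + 1) := by
      intro t ht
      obtain ⟨ht1, ht2⟩ := Finset.mem_filter.1 ht
      obtain ⟨ht3, ht4⟩ := Finset.mem_Icc.1 ht1
      by_cases htL : t ≤ L
      · exact Finset.mem_union_left _ (Finset.mem_Icc.2 ⟨ht3, htL⟩)
      · obtain ⟨k, rfl⟩ : ∃ k, t = k + 1 := ⟨t - 1, by omega⟩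
        have hk : k ≠ L := fun e => hnot (e ▸ ht2)
        exact Finset.mem_union_right _ (Finset.mem_image.2 ⟨k, Finset.mem_filter.2
          ⟨Finset.mem_range.2 (by omega), by omega, ht2⟩, rfl⟩)
    have h3 := (Finset.card_le_card h2).trans (Finset.card_union_le _ _)
    have h4 : (E.image (· + 1)).card ≤ E.card := Finset.card_image_le
    rw [Nat.card_Icc] at h3
    omega
  · obtain ⟨r, hr⟩ := pos_class hL1
    have h1 := hEPS x p (L + 1) E hp.pos (fun k hk => (Finset.mem_filter.1 hk).2.1)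
      (fun k hk => (hNET x R s hs.toPre p k hp).1 (Finset.mem_filter.1 hk).2.2) r hr
    obtain ⟨i, hi⟩ := cA_rep ((pow_pos hp.pos _).trans_le h1)
    exact ⟨i, hi ▸ h1⟩

end Pool.Agent.Lib.SH56
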