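import Pool.Agent.Lib.SH56.Blue

/-! Row FIN: assembling the lower and the upper bound. -/

open Polynomial Finset

namespace Pool.Agent.Lib.SH56

theorem bFIN (hRED1 : RED1) (hRED2 : RED2) (hRED3 : RED3) (hBIG : BIG) (hSMALL : SMALL)
    (hUP : UP) : FIN := by
  refine ⟨?_, ?_⟩
  · obtain ⟨s, hs, h⟩ := hUP
    exact ⟨s, hs, h.symm⟩
  · rintro L ⟨s, hs, rfl⟩
    by_contra hlt
    have h15 : len ((X - 1) ^ 7 * cyc s) ≤ 15 := by omega
    obtain ⟨a, b, hab, heq, hpow, h1⟩ := hRED1 s hs h15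
    have h2 : ∀ n ∈ s, 2 ≤ n := by
      intro n hn
      have h0 := hs n hn
      have hne : n ≠ 1 := fun h => h1 (h ▸ hn)
      omega
    obtain ⟨x, R, hpre⟩ := hRED2 s a b h2 hab heq hpow
    obtain ⟨x', R', s', hsol⟩ := hRED3 x R s hpre
    have hb := hBIG x' R' s' hsol
    have hs' := hSMALL x' R' s' hsol
    omega

end Pool.Agent.Lib.SH56
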