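import Pool.Agent.Lib.SH56.Blue

open Finset

namespace Pool.Agent.Lib.SH56

namespace FOUR_

theorem z00 {x : Fin 7 → ℤ} {M t : ℤ} (ha : cA x M t = 0) (hb : cB x M t = 0) :
    g1 x M t = 0 := by
  unfold cA at ha
  unfold cB at hb
  unfold g1
  rw [card_eq_zero.1 ha, card_eq_zero.1 hb]
  simp

theorem z11 {x : Fin 7 → ℤ} (hx : PTE x) {M t : ℤ} (ha : cA x M t = 1) (hb : cB x M t = 1) :
    g1 x M t ≠ 0 := by
  unfold cA at ha
  unfold cB at hb
  unfold g1
  obtain ⟨i, hi⟩ := card_eq_one.1 ha
  obtain ⟨k, hk⟩ := card_eq_one.1 hb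
  rw [hi, hk, sum_singleton, sum_singleton]
  exact hx.2.2.2 i k

theorem z10 {x : Fin 7 → ℤ} {M t : ℤ} (ha : cA x M t = 1) (hb : cB x M t = 0) :
    ∃ i, g1 x M t = x i ∧ M ∣ x i - t := by
  unfold cA at ha
  unfold cB at hb
  unfold g1
  obtain ⟨i, hi⟩ := card_eq_one.1 ha
  refine ⟨i, ?_, ?_⟩
  · rw [hi, card_eq_zero.1 hb]
    simp
  · have h : i ∈ univ.filter fun j => M ∣ x j - t := by
      rw [hi]
      exact mem_singleton_self i
    exact (mem_filter.1 h).2

theorem z01 {x : Fin 7 → ℤ} {M t : ℤ} (ha : cA x M t = 0) (hb : cB x M t = 1) :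
    ∃ i, g1 x M t = x i ∧ M ∣ x i + t := by
  unfold cA at ha
  unfold cB at hb
  unfold g1
  obtain ⟨i, hi⟩ := card_eq_one.1 hb
  refine ⟨i, ?_, ?_⟩
  · rw [hi, card_eq_zero.1 ha]
    simp
  · have h : i ∈ univ.filter fun j => M ∣ x j + t := by
      rw [hi]
      exact mem_singleton_self i
    exact (mem_filter.1 h).2

theorem ndvd {m : ℤ} {p j k : ℕ} (hm : m ≠ 0) (hjk : j < k) (hk : k < p) :
    ¬ m * p ∣ ((k : ℤ) - j) * m := by
  intro h
  rw [mul_comm ((k : ℤ) - j) m] at h
  have h2 : (p : ℤ) ∣ (k : ℤ) - j := (mul_dvd_mul_iff_left hm).1 h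
  have h3 := Int.le_of_dvd (by omega) h2
  omega

end FOUR_

open FOUR_ in
theorem bFOUR (hSPLIT : SPLIT) : FOUR := by
  intro x hx m p hm hp h0 h1 r
  obtain ⟨sA, sB, s0, s1⟩ := hSPLIT x m p r hm (by omega)
  have e0 : ∀ j : ℕ, (cA x (m * p) (r + j * m) : ℤ) - cB x (m * p) (r + j * m)
      = g0 x (m * p) r := fun j => h0 r j
  have e1 : ∀ j : ℕ, g1 x (m * p) (r + j * m) = g1 x (m * p) r := fun j => h1 r j
  have t1 : g1 x m r = p * g1 x (m * p) r := by
    rw [s1, sum_congr rfl fun j _ => e1 j]
    simp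
  have t0 : (cA x m r : ℤ) - cB x m r = p * g0 x (m * p) r := by
    have h : g0 x m r = p * g0 x (m * p) r := by
      rw [s0, sum_congr rfl fun (j : ℕ) _ => h0 r j]
      simp
    exact h
  by_cases hE : ∃ j : ℕ, cA x (m * p) (r + j * m) = 0 ∧ cB x (m * p) (r + j * m) = 0
  · obtain ⟨j0, ha, hb⟩ := hE
    have hc : g0 x (m * p) r = 0 := by
      rw [← e0 j0, ha, hb]
      simp
    have hs : g1 x (m * p) r = 0 := by
      rw [← e1 j0]
      exact z00 ha hb
    rw [hc, mul_zero] at t0
    refine ⟨?_, fun _ => by rw [t1, hs, mul_zero], fun h => by omega⟩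
    by_cases hz : cA x m r = 0
    · left
      omega
    · right
      rw [sA] at hz
      obtain ⟨j, hj, hne⟩ := exists_ne_zero_of_sum_ne_zero hz
      have hle : cA x (m * p) (r + j * m) ≤ cA x m r := by
        rw [sA]
        exact single_le_sum (f := fun j : ℕ => cA x (m * p) (r + j * m))
          (fun _ _ => Nat.zero_le _) hj
      have hj0 := e0 j
      have h11 : cA x (m * p) (r + j * m) ≠ 1 := by
        intro h
        exact z11 hx h (by omega) ((e1 j).trans hs)
      omega
  · have hne : ∀ j : ℕ, 1 ≤ cA x (m * p) (r + j * m) + cB x (m * p) (r + j * m) := by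
      intro j
      by_contra h
      exact hE ⟨j, by omega, by omega⟩
    have hsub : range 3 ⊆ range p := range_subset_range.2 hp
    have lA : ∑ j ∈ range 3, cA x (m * p) (r + (j : ℕ) * m) ≤ cA x m r := by
      rw [sA]
      exact sum_le_sum_of_subset hsub
    have lB : ∑ j ∈ range 3, cB x (m * p) (r + (j : ℕ) * m) ≤ cB x m r := by
      rw [sB]
      exact sum_le_sum_of_subset hsub
    rw [sum_range_succ, sum_range_succ, sum_range_one] at lA lB
    have two : ∀ j k : ℕ, j < k → k < p →
        cA x (m * p) (r + j * m) + cB x (m * p) (r + j * m) = 1 →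
        cA x (m * p) (r + k * m) + cB x (m * p) (r + k * m) ≠ 1 := by
      intro j k hjk hk hj1 hk1
      have ej := e0 j
      have ek := e0 k
      by_cases hja : cA x (m * p) (r + j * m) = 1
      · obtain ⟨i, hi, di⟩ := z10 hja (by omega)
        obtain ⟨l, hl, dl⟩ := z10 (x := x) (M := m * p) (t := r + k * m) (by omega) (by omega)
        have hil : x i = x l := by rw [← hi, ← hl, e1 j, e1 k]
        apply ndvd hm hjk hk
        have hd := dvd_sub di dl
        have he : x i - (r + j * m) - (x l - (r + k * m)) = ((k : ℤ) - j) * m := by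
          rw [hil]
          ring
        rwa [he] at hd
      · obtain ⟨i, hi, di⟩ := z01 (x := x) (M := m * p) (t := r + j * m) (by omega) (by omega)
        obtain ⟨l, hl, dl⟩ := z01 (x := x) (M := m * p) (t := r + k * m) (by omega) (by omega)
        have hil : x i = x l := by rw [← hi, ← hl, e1 j, e1 k]
        apply ndvd hm hjk hk
        have hd := dvd_sub dl di
        have he : x l + (r + k * m) - (x i + (r + j * m)) = ((k : ℤ) - j) * m := by
          rw [hil]
          ring
        rwa [he] at hd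
    have a01 := two 0 1 (by omega) (by omega)
    have a02 := two 0 2 (by omega) (by omega)
    have a12 := two 1 2 (by omega) (by omega)
    have n0 := hne 0
    have n1 := hne 1
    have n2 := hne 2
    have c0 := e0 0
    have c1 := e0 1
    have c2 := e0 2
    have six : 6 ≤ cA x m r + cB x m r := by omega
    refine ⟨Or.inr (by omega), fun h => by omega, fun h7 hz => ?_⟩
    have hs : g1 x (m * p) r = 0 := by
      rw [t1] at hz
      rcases mul_eq_zero.1 hz with h | h
      · omega
      · exact h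
    have one : ∀ j : ℕ, cA x (m * p) (r + j * m) + cB x (m * p) (r + j * m) ≠ 1 := by
      intro j hj1
      by_cases hja : cA x (m * p) (r + j * m) = 1
      · obtain ⟨i, hi, -⟩ := z10 hja (by omega)
        have h := hx.2.2.2 i i
        rw [e1 j, hs] at hi
        omega
      · obtain ⟨i, hi, -⟩ := z01 (x := x) (M := m * p) (t := r + j * m) (by omega) (by omega)
        have h := hx.2.2.2 i i
        rw [e1 j, hs] at hi
        omega
    have o0 := one 0
    have o1 := one 1
    have o2 := one 2
    rcases Int.even_or_odd' (g0 x (m * p) r) with ⟨k, hk | hk⟩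
    · have h : (p : ℤ) * g0 x (m * p) r = 2 * (p * k) := by
        rw [hk]
        ring
      omega
    · omega

end Pool.Agent.Lib.SH56
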