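import Pool.Agent.Lib.SH56.Blue

/-! A matching whose modulus does not divide 720 is an involution with one fixed point. -/

open Polynomial Finset

namespace Pool.Agent.Lib.SH56

namespace INV_

theorem mt_gg (x : Fin 7 → ℤ) (σ : Equiv.Perm (Fin 7)) : Mt x (gg x σ) σ := fun i =>
  Int.natCast_dvd.2 (Finset.gcd_dvd (f := fun i => (x i + x (σ i)).natAbs) (mem_univ i))

theorem moved {A : Type} [AddCommGroup A] (σ : Equiv.Perm (Fin 7)) (hσ : ∀ i, σ (σ i) = i)
    (y : Fin 7 → A) (hy : ∀ i, y i + y (σ i) = 0) :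
    ∑ i ∈ univ.filter (fun i => ¬ σ i = i), y i = 0 := by
  refine Finset.sum_involution (fun i _ => σ i) (fun i _ => hy i)
    (fun i hi _ => (mem_filter.1 hi).2) (fun i hi => ?_) (fun i _ => hσ i)
  refine mem_filter.2 ⟨mem_univ _, fun h => (mem_filter.1 hi).2 ?_⟩
  exact σ.injective h

theorem three (g a b c : ℤ) (ha : g ∣ a + a) (hb : g ∣ b + b) (hc : g ∣ c + c) :
    g ∣ a + b ∨ g ∣ a + c ∨ g ∣ b + c := by
  obtain ⟨k, hk⟩ := ha
  obtain ⟨l, hl⟩ := hb
  obtain ⟨m, hm⟩ := hc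
  have key : ∀ u v p q : ℤ, u + u = g * p → v + v = g * q → 2 ∣ p + q → g ∣ u + v := by
    rintro u v p q hu hv ⟨t, ht⟩
    refine ⟨t, ?_⟩
    have h2 : 2 * (u + v) = 2 * (g * t) := by
      linear_combination hu + hv + g * ht
    omega
  have : 2 ∣ k + l ∨ 2 ∣ k + m ∨ 2 ∣ l + m := by omega
  rcases this with h | h | h
  · exact Or.inl (key _ _ _ _ hk hl h)
  · exact Or.inr (Or.inl (key _ _ _ _ hk hm h))
  · exact Or.inr (Or.inr (key _ _ _ _ hl hm h))

theorem swap_mt (x : Fin 7 → ℤ) (G : ℕ) (σ : Equiv.Perm (Fin 7)) (h : Mt x G σ) (a b : Fin 7)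
    (ha : σ a = a) (hb : σ b = b) (hd : (G : ℤ) ∣ x a + x b) :
    Mt x G (σ * Equiv.swap a b) := by
  intro i
  rw [Equiv.Perm.mul_apply]
  by_cases h1 : i = a
  · rw [h1, Equiv.swap_apply_left, hb]; exact hd
  by_cases h2 : i = b
  · rw [h2, Equiv.swap_apply_right, ha, add_comm]; exact hd
  rw [Equiv.swap_apply_of_ne_of_ne h1 h2]; exact h i

end INV_

theorem bINV (hUNI : UNI) : INV := by
  intro x R s hS σ hg
  have hM := INV_.mt_gg x σ
  have hinv : ∀ i, σ (σ i) = i := by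
    by_contra hne
    refine hg (hUNI x R s hS σ σ⁻¹ (fun h => hne fun i => ?_) _ hM fun i => ?_)
    · have h1 : σ (σ i) = σ⁻¹ (σ i) := by rw [← h]
      rw [h1]; exact σ.symm_apply_apply i
    · have h1 := hM (σ⁻¹ i)
      have h2 : σ (σ⁻¹ i) = i := σ.apply_symm_apply i
      rw [h2, add_comm] at h1
      exact h1
  have hno : ∀ a b : Fin 7, a ≠ b → σ a = a → σ b = b → ¬ ((gg x σ : ℕ) : ℤ) ∣ x a + x b := by
    intro a b hab ha hb hd
    refine hg (hUNI x R s hS σ (σ * Equiv.swap a b) (fun h => hab ?_) _ hM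
      (INV_.swap_mt x _ σ hM a b ha hb hd))
    have h1 : σ a = (σ * Equiv.swap a b) a := by rw [← h]
    rw [Equiv.Perm.mul_apply, Equiv.swap_apply_left] at h1
    exact σ.injective h1
  have hpar : 2 ∣ (univ.filter (fun i => ¬ σ i = i)).card := by
    have h1 := INV_.moved σ hinv (fun _ => (1 : ZMod 2)) (fun _ => by decide)
    rw [sum_const, nsmul_one] at h1
    exact (ZMod.natCast_eq_zero_iff _ 2).1 h1
  have hsum := Finset.card_filter_add_card_filter_not (s := (univ : Finset (Fin 7)))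
    (fun i => σ i = i)
  rw [card_univ, Fintype.card_fin] at hsum
  have hle : ¬ 2 < (univ.filter (fun i => σ i = i)).card := by
    intro h
    obtain ⟨a, b, c, ha, hb, hc, hab, hac, hbc⟩ := Finset.two_lt_card_iff.1 h
    have ha' := (mem_filter.1 ha).2
    have hb' := (mem_filter.1 hb).2
    have hc' := (mem_filter.1 hc).2
    have da := hM a
    have db := hM b
    have dc := hM c
    rw [ha'] at da
    rw [hb'] at db
    rw [hc'] at dc
    rcases INV_.three _ _ _ _ da db dc with h | h | h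
    · exact hno a b hab ha' hb' h
    · exact hno a c hac ha' hc' h
    · exact hno b c hbc hb' hc' h
  have hone : (univ.filter (fun i => σ i = i)).card = 1 := by omega
  obtain ⟨f, hf⟩ := Finset.card_eq_one.1 hone
  have hmem : ∀ i, σ i = i ↔ i = f := fun i => by
    have h1 : i ∈ univ.filter (fun i => σ i = i) ↔ i = f := by rw [hf, mem_singleton]
    rw [← h1, mem_filter]
    exact ⟨fun h => ⟨mem_univ _, h⟩, fun h => h.2⟩
  refine ⟨hinv, ⟨f, (hmem f).2 rfl, fun i hi => (hmem i).1 hi⟩, ?_⟩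
  have h0 := INV_.moved σ hinv (fun i => ((x i : ℤ) : ZMod (gg x σ))) (fun i => by
    rw [← Int.cast_add]
    exact (ZMod.intCast_zmod_eq_zero_iff_dvd _ _).2 (hM i))
  have h1 := Finset.sum_filter_add_sum_filter_not (univ : Finset (Fin 7)) (fun i => σ i = i)
    (fun i => ((x i : ℤ) : ZMod (gg x σ)))
  rw [h0, hf, sum_singleton, add_zero, ← Int.cast_sum, hS.pte.1, Int.cast_zero] at h1
  have hd : ((gg x σ : ℕ) : ℤ) ∣ x f := (ZMod.intCast_zmod_eq_zero_iff_dvd _ _).1 h1
  have hne : x f ≠ 0 := fun h => hS.pte.2.2.2 f f (by rw [h, add_zero])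
  have h2 : ((gg x σ : ℕ) : ℤ) ≤ |x f| := Int.le_of_dvd (abs_pos.2 hne) ((dvd_abs _ _).2 hd)
  exact_mod_cast h2.trans (hS.le f)

end Pool.Agent.Lib.SH56
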