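import Pool.Agent.Lib.SH56.Blue

/-! A monic integer polynomial whose roots are roots of unity is a product of cyclotomic ones. -/

open Polynomial Finset

namespace Pool.Agent.Lib.SH56

namespace KRON_

theorem main (d : ℕ) : ∀ P : ℤ[X], P.natDegree = d → P.Monic →
    (∀ z : ℂ, aeval z P = 0 → ∃ n, 0 < n ∧ z ^ n = 1) →
    ∃ s : Multiset ℕ, (∀ n ∈ s, 0 < n) ∧ P = cyc s := by
  induction d using Nat.strong_induction_on with
  | _ d ih =>
    intro P hd hP hz
    rcases Nat.eq_zero_or_pos d with h0 | h0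
    · refine ⟨0, fun n hn => absurd hn (Multiset.notMem_zero n), ?_⟩
      rw [hP.natDegree_eq_zero.mp (hd.trans h0), cyc, Multiset.map_zero, Multiset.prod_zero]
    have h1 : 0 < (P.map (algebraMap ℤ ℂ)).degree := by
      rw [← natDegree_pos_iff_degree_pos, hP.natDegree_map, hd]
      exact h0
    obtain ⟨z, hz0⟩ := Complex.exists_root h1
    have hz1 : aeval z P = 0 := by
      rw [aeval_def, ← eval_map]
      exact hz0
    obtain ⟨n, hn, hzn⟩ := hz z hz1
    have hm : 0 < orderOf z := (isOfFinOrder_iff_pow_eq_one.mpr ⟨n, hn, hzn⟩).orderOf_pos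
    have hprim : IsPrimitiveRoot z (orderOf z) := IsPrimitiveRoot.orderOf z
    have hdvd : cyclotomic (orderOf z) ℤ ∣ P := by
      rw [cyclotomic_eq_minpoly hprim hm]
      exact minpoly.isIntegrallyClosed_dvd (hprim.isIntegral hm) hz1
    obtain ⟨Q, hQ⟩ := hdvd
    have hc := cyclotomic.monic (orderOf z) ℤ
    have hQm : Q.Monic := hc.of_mul_monic_left (hQ ▸ hP)
    have hlt : Q.natDegree < d := by
      have h2 := hc.natDegree_mul hQm
      rw [← hQ, hd, natDegree_cyclotomic] at h2
      have h3 := Nat.totient_pos.mpr hm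
      omega
    obtain ⟨s, hs, hQs⟩ := ih _ hlt Q rfl hQm fun w hw =>
      hz w (by rw [hQ, map_mul, hw, mul_zero])
    refine ⟨orderOf z ::ₘ s, fun k hk => ?_, ?_⟩
    · rcases Multiset.mem_cons.mp hk with h | h
      · rw [h]
        exact hm
      · exact hs k h
    · rw [hQ, hQs, cyc, cyc, Multiset.map_cons, Multiset.prod_cons]

end KRON_

theorem bKRON : KRON := fun P hP hz => KRON_.main _ P rfl hP hz

end Pool.Agent.Lib.SH56
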