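import Pool.Agent.Lib.SH56.Blue

/-! Row LIN3: a path on three points and a four cycle. -/

open Finset

namespace Pool.Agent.Lib.SH56

namespace LIN3_

theorem kill {g h a c : ℤ} (cop : IsCoprime h g) (big : 7 * 10 ^ 7 < h)
    (ha : |a| ≤ 7 * 10 ^ 7) (e : a * g = h * c) : a = 0 :=
  Int.eq_zero_of_abs_lt_dvd (cop.dvd_of_dvd_mul_right ⟨c, e⟩) (lt_of_le_of_lt ha big)

theorem bd {A g R n u v : ℤ} (hg : 0 < g) (hu : |u| ≤ R) (hv : |v| ≤ R) (e : u + v = g * A)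
    (hn : 2 * R < (n + 1) * g) : |A| ≤ n := by
  have h1 : |u + v| ≤ 2 * R := (abs_add_le u v).trans (by linarith)
  rw [e, abs_mul, abs_of_pos hg] at h1
  have h2 : g * |A| < g * (n + 1) := by linarith
  exact Int.lt_add_one_iff.mp (lt_of_mul_lt_mul_left h2 hg.le)

theorem sqb {A n : ℤ} (h : |A| ≤ n) : A ^ 2 ≤ n ^ 2 := by
  rw [← sq_abs A]
  exact pow_le_pow_left₀ (abs_nonneg A) h 2

theorem core {g h B C P Q W : ℤ} (cop : IsCoprime h g) (big : 7 * 10 ^ 7 < h)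
    (hB : |B| ≤ 4) (hC : |C| ≤ 8) (hP : |P| ≤ 9) (hQ : |Q| ≤ 18) (B0 : B ≠ 0) (P0 : P ≠ 0)
    (e : (C ^ 2 * C ^ 2 * Q ^ 2 + B ^ 2 * B ^ 2 * P ^ 2 - 2 * (B ^ 2 * C ^ 2 * Q ^ 2)) * g ^ 2 +
      2 * B * P * (B ^ 2 * P ^ 2 - C ^ 2 * Q ^ 2) * g * h + W * h ^ 2 = 0) :
    C ^ 2 = B ^ 2 ∧ Q ^ 2 = P ^ 2 := by
  have b1 : B ^ 2 ≤ 16 := by simpa using sqb hB
  have c1 : C ^ 2 ≤ 64 := by simpa using sqb hC
  have p1 : P ^ 2 ≤ 81 := by simpa using sqb hP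
  have q1 : Q ^ 2 ≤ 324 := by simpa using sqb hQ
  have b0 : 0 < B ^ 2 := by positivity
  have p0 : 0 < P ^ 2 := by positivity
  have c0 : 0 ≤ C ^ 2 := sq_nonneg C
  have q0 : 0 ≤ Q ^ 2 := sq_nonneg Q
  have t1 : C ^ 2 * C ^ 2 * Q ^ 2 ≤ 64 * 64 * 324 := by gcongr
  have t2 : B ^ 2 * B ^ 2 * P ^ 2 ≤ 16 * 16 * 81 := by gcongr
  have t3 : B ^ 2 * C ^ 2 * Q ^ 2 ≤ 16 * 64 * 324 := by gcongr
  have s1 : 0 ≤ C ^ 2 * C ^ 2 * Q ^ 2 := by positivity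
  have s2 : 0 ≤ B ^ 2 * B ^ 2 * P ^ 2 := by positivity
  have s3 : 0 ≤ B ^ 2 * C ^ 2 * Q ^ 2 := by positivity
  have t4 : B ^ 2 * P ^ 2 ≤ 16 * 81 := by gcongr
  have t5 : C ^ 2 * Q ^ 2 ≤ 64 * 324 := by gcongr
  have s4 : 0 < B ^ 2 * P ^ 2 := by positivity
  have s5 : 0 ≤ C ^ 2 * Q ^ 2 := by positivity
  have a0 : C ^ 2 * C ^ 2 * Q ^ 2 + B ^ 2 * B ^ 2 * P ^ 2 - 2 * (B ^ 2 * C ^ 2 * Q ^ 2) = 0 := by
    refine kill (g := g ^ 2) (c := -(2 * B * P * (B ^ 2 * P ^ 2 - C ^ 2 * Q ^ 2) * g + W * h))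
      cop.pow_right big (abs_le.mpr ⟨by linarith, by linarith⟩) ?_
    linear_combination e
  have h0 : h ≠ 0 := by linarith
  have e2 : 2 * B * P * (B ^ 2 * P ^ 2 - C ^ 2 * Q ^ 2) * g = h * (-W) := by
    apply mul_left_cancel₀ h0
    linear_combination e - g ^ 2 * a0
  have k : |B ^ 2 * P ^ 2 - C ^ 2 * Q ^ 2| ≤ 64 * 324 := abs_le.mpr ⟨by linarith, by linarith⟩
  have be : 2 * B * P * (B ^ 2 * P ^ 2 - C ^ 2 * Q ^ 2) = 0 := by
    refine kill cop big ?_ e2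
    rw [abs_mul, abs_mul, abs_mul, abs_two]
    calc 2 * |B| * |P| * |B ^ 2 * P ^ 2 - C ^ 2 * Q ^ 2| ≤ 2 * 4 * 9 * (64 * 324) := by gcongr
      _ ≤ 7 * 10 ^ 7 := by norm_num
  have K : B ^ 2 * P ^ 2 - C ^ 2 * Q ^ 2 = 0 :=
    (mul_eq_zero.mp be).resolve_left (mul_ne_zero (mul_ne_zero two_ne_zero B0) P0)
  have CB : C ^ 2 = B ^ 2 := by
    apply mul_left_cancel₀ s4.ne'
    linear_combination a0 + (C ^ 2 - 2 * B ^ 2) * K
  refine ⟨CB, ?_⟩
  apply mul_left_cancel₀ b0.ne'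
  linear_combination -K - Q ^ 2 * CB

end LIN3_

open LIN3_ in
theorem bLIN3 : LIN3 := by
  intro x R g h hx hR big hg hh hd ⟨A, eA⟩ ⟨B, eB⟩ ⟨C, eC⟩ ⟨D, eD⟩ ⟨P, eP⟩ ⟨Q, eQ⟩ ⟨S, eS⟩ ⟨T, eT⟩
  obtain ⟨s1, s3, s5, nz⟩ := hx
  rw [Fin.sum_univ_seven] at s1 s3 s5
  have n0 : ∀ i, x i ≠ 0 := fun i hi => nz i i (by rw [hi]; rfl)
  have gp : 0 < g := by omega
  have hp : 0 < h := by omega
  have gz : (0 : ℤ) < g := by exact_mod_cast gp
  have hz : (0 : ℤ) < h := by exact_mod_cast hp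
  have hg' : 2 * (R : ℤ) < (8 + 1) * g := by exact_mod_cast hg
  have hh' : 2 * (R : ℤ) < (18 + 1) * h := by exact_mod_cast hh
  have bA := bd gz (hR 0) (hR 0) eA hg'
  have bB := bd gz (hR 1) (hR 2) eB hg'
  have bC := bd gz (hR 3) (hR 4) eC hg'
  have bQ := bd hz (hR 4) (hR 5) eQ hh'
  have bS := bd hz (hR 2) (hR 2) eS hh'
  obtain ⟨g', h', cop, eg, eh⟩ := Nat.exists_coprime g h
  set d := Nat.gcd g h with hdd
  have d1 : d ≤ 720 := Nat.le_of_dvd (by norm_num) hd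
  have d0 : 0 < d := Nat.gcd_pos_of_pos_left _ gp
  have hb : 7 * 10 ^ 7 < h' := by
    by_contra hc
    have : h' * d ≤ 7 * 10 ^ 7 * 720 := Nat.mul_le_mul (not_lt.mp hc) d1
    omega
  have hbz : (7 * 10 ^ 7 : ℤ) < h' := by exact_mod_cast hb
  have copz : IsCoprime (h' : ℤ) (g' : ℤ) := Nat.isCoprime_iff_coprime.mpr cop.symm
  have egz : (g : ℤ) = g' * d := by exact_mod_cast eg
  have ehz : (h : ℤ) = h' * d := by exact_mod_cast eh
  have dz : (d : ℤ) ≠ 0 := by exact_mod_cast d0.ne'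
  have r1 : (2 * B + A) * (g : ℤ) = h * (S + 2 * P) := by
    linear_combination -2 * eB - eA + eS + 2 * eP
  have AB : 2 * B + A = 0 := by
    refine kill (c := S + 2 * P) copz hbz ?_ ?_
    · have := abs_le.mp bA
      have := abs_le.mp bB
      exact abs_le.mpr ⟨by linarith, by linarith⟩
    · apply mul_left_cancel₀ dz
      rw [egz, ehz] at r1
      linear_combination r1
  have SP : S + 2 * P = 0 := by
    rw [AB, zero_mul] at r1
    exact (mul_eq_zero.mp r1.symm).resolve_left hz.ne'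
  have x0 : x 0 = -(B * g) := by
    have : 2 * x 0 = 2 * -(B * g) := by linear_combination eA + g * AB
    linarith
  have x2 : x 2 = -(P * h) := by
    have : 2 * x 2 = 2 * -(P * h) := by linear_combination eS + h * SP
    linarith
  have x1 : x 1 = P * h + B * g := by linear_combination eP - x0
  have B0 : B ≠ 0 := fun e => n0 0 (by rw [x0, e]; simp)
  have P0 : P ≠ 0 := fun e => n0 2 (by rw [x2, e]; simp)
  have bB' : |B| ≤ 4 := by
    have := abs_le.mp bA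
    exact abs_le.mpr ⟨by omega, by omega⟩
  have bP' : |P| ≤ 9 := by
    have := abs_le.mp bS
    exact abs_le.mpr ⟨by omega, by omega⟩
  have x4 : x 4 = g * C - x 3 := by linear_combination eC
  have x5 : x 5 = h * Q - g * C + x 3 := by linear_combination eQ - eC
  have x6 : x 6 = -(h * Q) - x 3 := by linear_combination s1 - x0 - x1 - x2 - eQ
  obtain ⟨W, hW⟩ : ∃ W, W = 2 * x 3 + h * Q - g * C := ⟨_, rfl⟩
  have c3 : C * Q * W = B * P * (P * h + B * g) := by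
    apply mul_left_cancel₀ (mul_ne_zero (mul_ne_zero (three_ne_zero' ℤ) gz.ne') hz.ne')
    rw [x0, x1, x2, x4, x5, x6] at s3
    rw [hW]
    linear_combination -s3
  have ne1 : P * h + B * g ≠ 0 := x1 ▸ n0 1
  have c5 : C ^ 2 * g ^ 2 + Q ^ 2 * h ^ 2 + W ^ 2 =
      2 * B ^ 2 * g ^ 2 + 2 * P ^ 2 * h ^ 2 + 2 * B * P * g * h := by
    have five : (5 : ℤ) ≠ 0 := by norm_num
    apply mul_left_cancel₀ (mul_ne_zero (mul_ne_zero (mul_ne_zero five gz.ne') hz.ne')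
      (mul_ne_zero (mul_ne_zero B0 P0) ne1))
    rw [x0, x1, x2, x4, x5, x6] at s5
    have s5' : 5 * g * h * (B * P * (P * h + B * g)) *
        (2 * B ^ 2 * g ^ 2 + 2 * P ^ 2 * h ^ 2 + 2 * B * P * g * h) =
        5 * g * h * (C * Q * W) * (C ^ 2 * g ^ 2 + Q ^ 2 * h ^ 2 + W ^ 2) := by
      rw [hW]
      linear_combination 2 * s5
    rw [c3] at s5'
    exact s5'.symm
  obtain ⟨CB, QP⟩ := core (W := C ^ 2 * Q ^ 4 + B ^ 2 * P ^ 4 - 2 * P ^ 2 * C ^ 2 * Q ^ 2)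
    copz hbz bB' bC bP' bQ B0 P0 (by
      apply mul_left_cancel₀ (pow_ne_zero 2 dz)
      rw [egz, ehz] at c3 c5
      linear_combination C ^ 2 * Q ^ 2 * c5 -
        (C * Q * W + B * P * (P * (h' * d) + B * (g' * d))) * c3)
  have BP : B * P ≠ 0 := mul_ne_zero B0 P0
  rcases sq_eq_sq_iff_eq_or_eq_neg.mp CB with rfl | rfl <;>
    rcases sq_eq_sq_iff_eq_or_eq_neg.mp QP with rfl | rfl
  · have w := mul_left_cancel₀ BP c3
    exact n0 4 (by linarith)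
  · have w : -W = P * h + C * g := mul_left_cancel₀ BP (by linear_combination c3)
    exact n0 3 (by linarith)
  · have w : -W = Q * h + B * g := mul_left_cancel₀ BP (by linear_combination c3)
    exact n0 5 (by linarith)
  · have w : W = P * h + B * g := mul_left_cancel₀ BP (by linear_combination c3)
    exact n0 6 (by linarith)

end Pool.Agent.Lib.SH56
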