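import Pool.Agent.Lib.SH56.Blue

/-! Two large matchings forming a path on seven points give a line of solutions. -/

namespace Pool.Agent.Lib.SH56

namespace LIN7_

theorem kill {g h S T : ℤ} (k : ℕ) (hc : IsCoprime h g) (hh : 70000000 < h)
    (e : g ^ k * S = h * T) (hS : |S| ≤ 70000000) : S = 0 := by
  have h1 : h ∣ S := (hc.pow_right (n := k)).dvd_of_dvd_mul_left ⟨T, e⟩
  exact Int.eq_zero_of_abs_lt_dvd h1 (by omega)

theorem quo {g a y R : ℤ} (m : ℤ) (hg : 0 < g) (e : y = g * a) (hy : |y| ≤ 2 * R)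
    (hR : 2 * R < (m + 1) * g) : |a| ≤ m := by
  rw [e, abs_mul, abs_of_pos hg] at hy
  by_contra hn
  have h1 : m + 1 ≤ |a| := by omega
  nlinarith

theorem pw_sub {a b : ℤ} (k : ℕ) (hk : Even k) (M : ℤ) (ha : |a| ≤ M) (hb : |b| ≤ M) :
    |a ^ k - b ^ k| ≤ M ^ k := by
  have h1 : a ^ k ≤ M ^ k := by
    rw [← hk.pow_abs a]
    exact pow_le_pow_left₀ (abs_nonneg a) ha k
  have h2 : b ^ k ≤ M ^ k := by
    rw [← hk.pow_abs b]
    exact pow_le_pow_left₀ (abs_nonneg b) hb k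
  have h3 := hk.pow_nonneg a
  have h4 := hk.pow_nonneg b
  rw [abs_le]
  constructor <;> linarith

theorem bound {A B C P Q R : ℤ} (k : ℕ) (hk : Even k) (hA : |A| ≤ 24) (hB : |B| ≤ 24)
    (hC : |C| ≤ 24) (hP : |P| ≤ 36) (hQ : |Q| ≤ 54) (hR : |R| ≤ 18) :
    |(A ^ k - B ^ k) * P + (B ^ k - C ^ k) * Q + C ^ k * R| ≤ 24 ^ k * 108 := by
  have h1 := pw_sub k hk 24 hA hB
  have h2 := pw_sub k hk 24 hB hC
  have h3 : |C ^ k| ≤ 24 ^ k := by
    rw [abs_pow]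
    exact pow_le_pow_left₀ (abs_nonneg C) hC k
  have h0 : (0 : ℤ) ≤ 24 ^ k := by positivity
  have a1 := mul_le_mul h1 hP (abs_nonneg _) h0
  have a2 := mul_le_mul h2 hQ (abs_nonneg _) h0
  have a3 := mul_le_mul h3 hR (abs_nonneg _) h0
  rw [← abs_mul] at a1 a2 a3
  have a4 := abs_add_three ((A ^ k - B ^ k) * P) ((B ^ k - C ^ k) * Q) (C ^ k * R)
  linarith

end LIN7_

theorem bLIN7 (hLINE : LINE) : LIN7 := by
  rintro x R g h ⟨-, p3, p5, hne⟩ hle hbig hg hh hgcd ⟨A, eA⟩ ⟨b, eb⟩ ⟨c, ec⟩ ⟨f, ef⟩ ⟨p, ep⟩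
    ⟨r, er⟩ ⟨q, eq⟩ ⟨k, ek⟩
  obtain ⟨g', h', hc, eg, eh⟩ := Nat.exists_coprime g h
  have hd : Nat.gcd g h ≤ 720 := Nat.le_of_dvd (by norm_num) hgcd
  have hd0 : 0 < Nat.gcd g h := Nat.pos_of_dvd_of_pos hgcd (by norm_num)
  generalize Nat.gcd g h = d at eg eh hd hd0
  have hh' : 70000000 < h' := by
    by_contra hn
    have : h' * d ≤ 70000000 * 720 := Nat.mul_le_mul (by omega) hd
    omega
  have hcz : IsCoprime (h' : ℤ) (g' : ℤ) := Nat.isCoprime_iff_coprime.2 hc.symm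
  have hz : (70000000 : ℤ) < h' := by exact_mod_cast hh'
  have g0 : (0 : ℤ) < g := by omega
  have h0 : (0 : ℤ) < h := by omega
  have d0 : (d : ℤ) ≠ 0 := by omega
  have egz : (g : ℤ) = g' * d := by exact_mod_cast eg
  have ehz : (h : ℤ) = h' * d := by exact_mod_cast eh
  have hs : ∀ i j, |x i + x j| ≤ 2 * (R : ℤ) := fun i j => by
    have := abs_add_le (x i) (x j)
    have := hle i
    have := hle j
    linarith
  have gq : (2 * R : ℤ) < (8 + 1) * g := by omega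
  have hq : (2 * R : ℤ) < (18 + 1) * h := by omega
  have bA := abs_le.1 (LIN7_.quo 8 g0 eA (hs _ _) gq)
  have bb := abs_le.1 (LIN7_.quo 8 g0 eb (hs _ _) gq)
  have bc := abs_le.1 (LIN7_.quo 8 g0 ec (hs _ _) gq)
  have bf := abs_le.1 (LIN7_.quo 8 g0 ef (hs _ _) gq)
  have bp := abs_le.1 (LIN7_.quo 18 h0 ep (hs _ _) hq)
  have br := abs_le.1 (LIN7_.quo 18 h0 er (hs _ _) hq)
  have bk := abs_le.1 (LIN7_.quo 18 h0 ek (hs _ _) hq)
  have hD : A + 2 * b + 2 * c + 2 * f = 0 := by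
    refine LIN7_.kill (T := k + 2 * p + 2 * q + 2 * r) 1 hcz hz ?_ (abs_le.2 (by omega))
    apply mul_left_cancel₀ d0
    rw [egz] at eA eb ec ef
    rw [ehz] at ep er eq ek
    linear_combination -eA - 2 * eb - 2 * ec - 2 * ef + 2 * ep + 2 * er + 2 * eq + ek
  have hE : k + 2 * p + 2 * q + 2 * r = 0 := by
    apply mul_left_cancel₀ h0.ne'
    linear_combination eA + 2 * eb + 2 * ec + 2 * ef - 2 * ep - 2 * er - 2 * eq - ek + (g : ℤ) * hD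
  obtain ⟨B, hB⟩ : ∃ B, B = A + 2 * b := ⟨_, rfl⟩
  obtain ⟨C, hC⟩ : ∃ C, C = -2 * f := ⟨_, rfl⟩
  obtain ⟨P, hP⟩ : ∃ P, P = 2 * p := ⟨_, rfl⟩
  obtain ⟨S, hS⟩ : ∃ S, S = -k := ⟨_, rfl⟩
  obtain ⟨Q, hQ⟩ : ∃ Q, Q = -k - 2 * r := ⟨_, rfl⟩
  have y0 : 2 * x 0 = A * g := by linear_combination eA
  have y1 : 2 * x 1 = -A * g + P * h := by rw [hP]; linear_combination 2 * ep - eA
  have y2 : 2 * x 2 = B * g - P * h := by rw [hB]; linear_combination 2 * eb - y1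
  have y6 : 2 * x 6 = -S * h := by rw [hS]; linear_combination ek
  have y5 : 2 * x 5 = -C * g + S * h := by rw [hC]; linear_combination 2 * ef - y6
  have y4 : 2 * x 4 = C * g - Q * h := by rw [hQ]; rw [hS] at y5; linear_combination 2 * er - y5
  have y3 : 2 * x 3 = -B * g + Q * h := by
    rw [hQ]
    rw [hP] at y2
    linear_combination 2 * eq - y2 + (h : ℤ) * hE
  rw [Fin.sum_univ_seven] at p3 p5
  have q3 : (2 * x 0) ^ 3 + (2 * x 1) ^ 3 + (2 * x 2) ^ 3 + (2 * x 3) ^ 3 + (2 * x 4) ^ 3 +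
      (2 * x 5) ^ 3 + (2 * x 6) ^ 3 = 0 := by linear_combination 8 * p3
  have q5 : (2 * x 0) ^ 5 + (2 * x 1) ^ 5 + (2 * x 2) ^ 5 + (2 * x 3) ^ 5 + (2 * x 4) ^ 5 +
      (2 * x 5) ^ 5 + (2 * x 6) ^ 5 = 0 := by linear_combination 32 * p5
  rw [y0, y1, y2, y3, y4, y5, y6, egz, ehz] at q3 q5
  have g1 : (g' : ℤ) ≠ 0 := fun e => by rw [egz, e] at g0; simp at g0
  have h1 : (h' : ℤ) ≠ 0 := by omega
  have aA : |A| ≤ 24 := abs_le.2 (by omega)
  have aB : |B| ≤ 24 := abs_le.2 (by omega)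
  have aC : |C| ≤ 24 := abs_le.2 (by omega)
  have aP : |P| ≤ 36 := abs_le.2 (by omega)
  have aQ : |Q| ≤ 54 := abs_le.2 (by omega)
  have aS : |S| ≤ 18 := abs_le.2 (by omega)
  have r3 : (g' : ℤ) ^ 1 * ((A ^ 2 - B ^ 2) * P + (B ^ 2 - C ^ 2) * Q + C ^ 2 * S) =
      h' * -((B - A) * P ^ 2 + (C - B) * Q ^ 2 - C * S ^ 2) := by
    apply mul_left_cancel₀ (mul_ne_zero (mul_ne_zero (mul_ne_zero three_ne_zero g1) h1)
      (pow_ne_zero 3 d0))
    linear_combination q3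
  have r5 : (g' : ℤ) ^ 3 * ((A ^ 4 - B ^ 4) * P + (B ^ 4 - C ^ 4) * Q + C ^ 4 * S) =
      h' * -(2 * g' ^ 2 * ((B ^ 3 - A ^ 3) * P ^ 2 + (C ^ 3 - B ^ 3) * Q ^ 2 - C ^ 3 * S ^ 2) +
        2 * g' * h' * ((A ^ 2 - B ^ 2) * P ^ 3 + (B ^ 2 - C ^ 2) * Q ^ 3 + C ^ 2 * S ^ 3) +
        h' ^ 2 * ((B - A) * P ^ 4 + (C - B) * Q ^ 4 - C * S ^ 4)) := by
    apply mul_left_cancel₀ (mul_ne_zero (mul_ne_zero (mul_ne_zero (by norm_num : (5 : ℤ) ≠ 0) g1)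
      h1) (pow_ne_zero 5 d0))
    linear_combination q5
  have s1 := LIN7_.kill 1 hcz hz r3
    ((LIN7_.bound 2 (by decide) aA aB aC aP aQ aS).trans (by norm_num))
  have s3 := LIN7_.kill 3 hcz hz r5
    ((LIN7_.bound 4 (by decide) aA aB aC aP aQ aS).trans (by norm_num))
  have s2 : (B - A) * P ^ 2 + (C - B) * Q ^ 2 - C * S ^ 2 = 0 := by
    rw [s1, mul_zero] at r3
    exact neg_eq_zero.1 ((mul_eq_zero.1 r3.symm).resolve_left h1)
  have nz : ∀ {i j : Fin 7} {m a : ℤ}, x i + x j = m * a → a ≠ 0 := fun {i j m a} e ha =>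
    hne i j (by rw [e, ha, mul_zero])
  have n1 := nz eA
  have n2 := nz eb
  have n3 := nz ec
  have n4 := nz ef
  have n5 := nz ep
  have n6 := nz er
  have n7 := nz eq
  have n8 := nz ek
  refine hLINE A B C P Q S (abs_le.2 bA) aB (abs_le.2 (by omega)) n1 (by omega) (by omega)
    (by omega) (by omega) (by omega) (by omega) (by omega) ?_ s1 s2 s3
  by_contra hn
  push Not at hn
  rw [hn.1, hn.2] at y3
  exact hne 3 3 (by linear_combination y3)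

end Pool.Agent.Lib.SH56
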