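import Pool.Agent.Lib.SH56.Blue

/-! Row `LINE`: the finite check for the path on seven points. -/

namespace Pool.Agent.Lib.SH56

namespace LINE_

def w1 (B C : ℤ) : ℤ := -(B * B * (C * C) * (B * B - C * C))

def w2 (A B C : ℤ) : ℤ := C * C * (A * A - B * B) * (A * A + B * B - C * C)

def w3 (A B C : ℤ) : ℤ := (A * A - B * B) * (B * B - C * C) * (C * C - A * A)

def psi (A B C x y z : ℤ) : ℤ := (B - A) * (x * x) + (C - B) * (y * y) - C * (z * z)

def ok (A B C x y z : ℤ) : Bool :=
  psi A B C x y z != 0 || z == 0 || x == 0 || y == x || z == y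

def chk (A B C : ℤ) : Bool := ok A B C (w1 B C) (w2 A B C) (w3 A B C)

def allA (i : ℕ) : Bool :=
  (List.range 49).all fun j => (List.range 33).all fun k =>
    chk ((i : ℤ) - 8) ((j : ℤ) - 24) ((k : ℤ) - 16)

theorem all_ok : ((List.range 17).all allA) = true := by decide +kernel

theorem chk_ok (A B C : ℤ) (hA : |A| ≤ 8) (hB : |B| ≤ 24) (hC : |C| ≤ 16) :
    chk A B C = true := by
  have h := all_ok
  rw [abs_le] at hA hB hC
  rw [List.all_eq_true] at h
  have h1 := h (A + 8).toNat (by rw [List.mem_range]; omega)
  unfold allA at h1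
  rw [List.all_eq_true] at h1
  have h2 := h1 (B + 24).toNat (by rw [List.mem_range]; omega)
  rw [List.all_eq_true] at h2
  have h3 := h2 (C + 16).toNat (by rw [List.mem_range]; omega)
  have eA : (((A + 8).toNat : ℕ) : ℤ) - 8 = A := by omega
  have eB : (((B + 24).toNat : ℕ) : ℤ) - 24 = B := by omega
  have eC : (((C + 16).toNat : ℕ) : ℤ) - 16 = C := by omega
  rw [eA, eB, eC] at h3
  exact h3

theorem chk_spec (A B C : ℤ) (h : chk A B C = true)
    (h0 : psi A B C (w1 B C) (w2 A B C) (w3 A B C) = 0) :
    w3 A B C = 0 ∨ w1 B C = 0 ∨ w2 A B C = w1 B C ∨ w3 A B C = w2 A B C := by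
  unfold chk ok at h
  simp only [Bool.or_eq_true, bne_iff_ne, ne_eq, beq_iff_eq] at h
  tauto

end LINE_

open LINE_ in
theorem bLINE : LINE := by
  intro A B C P Q R hA hB hC hA0 hBA hCB hC0 hP hQP hRQ hR hBQ e1 e2 e3
  have h13 : P * w3 A B C = R * w1 B C := by
    unfold w1 w3
    linear_combination (B ^ 4 - C ^ 4) * e1 - (B ^ 2 - C ^ 2) * e3
  have h23 : Q * w3 A B C = R * w2 A B C := by
    unfold w2 w3
    linear_combination (A ^ 2 - B ^ 2) * e3 - (A ^ 4 - B ^ 4) * e1
  have hz : w3 A B C = 0 → False := by
    intro z3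
    have z1 : w1 B C = 0 := by
      rw [z3, mul_zero] at h13
      exact (mul_eq_zero.1 h13.symm).resolve_left hR
    have z2 : w2 A B C = 0 := by
      rw [z3, mul_zero] at h23
      exact (mul_eq_zero.1 h23.symm).resolve_left hR
    have hAA : A * A ≠ 0 := mul_ne_zero hA0 hA0
    have hCC : C * C ≠ 0 := mul_ne_zero hC0 hC0
    by_cases hB0 : B = 0
    · subst hB0
      have hQ : Q ≠ 0 := hBQ.resolve_left (fun h => h rfl)
      have y : A * A * (C * C) * ((C - A) * (C + A)) = 0 := by
        unfold w3 at z3
        linear_combination (-1 : ℤ) * z3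
      have y2 := (mul_eq_zero.1 y).resolve_left (mul_ne_zero hAA hCC)
      rcases mul_eq_zero.1 y2 with y3 | y3
      · have hc : C = A := by linarith
        subst hc
        have q1 : C * C * (P - Q + R) = 0 := by linear_combination e1
        have q2 : Q = P + R := by
          have := (mul_eq_zero.1 q1).resolve_left hCC
          linarith
        subst q2
        have q3 : 2 * C * P * R = 0 := by linear_combination e2
        exact mul_ne_zero (mul_ne_zero (mul_ne_zero two_ne_zero hC0) hP) hR q3
      · have hc : A = -C := by linarith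
        subst hc
        have q1 : C * C * (P - Q + R) = 0 := by linear_combination e1
        have q2 : R = Q - P := by
          have := (mul_eq_zero.1 q1).resolve_left hCC
          linarith
        subst q2
        have q3 : 2 * C * P * Q = 0 := by linear_combination e2
        exact mul_ne_zero (mul_ne_zero (mul_ne_zero two_ne_zero hC0) hP) hQ q3
    · have hBB : B * B ≠ 0 := mul_ne_zero hB0 hB0
      have y : B * B * (C * C) * ((C - B) * (C + B)) = 0 := by
        unfold w1 at z1
        linear_combination z1
      have y2 := (mul_eq_zero.1 y).resolve_left (mul_ne_zero hBB hCC)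
      have y3 : C + B = 0 := (mul_eq_zero.1 y2).resolve_left (sub_ne_zero.2 hCB)
      have hc : B = -C := by linarith
      subst hc
      have y4 : C * C * (A * A) * ((-C - A) * (A - C)) = 0 := by
        unfold w2 at z2
        linear_combination (-1 : ℤ) * z2
      have y5 := (mul_eq_zero.1 y4).resolve_left (mul_ne_zero hCC hAA)
      have y6 : A - C = 0 := (mul_eq_zero.1 y5).resolve_left (sub_ne_zero.2 hBA)
      have hc : A = C := by linarith
      subst hc
      have q1 : A * A * R = 0 := by linear_combination e1
      exact mul_ne_zero hAA hR q1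
  have hpsi : psi A B C (w1 B C) (w2 A B C) (w3 A B C) = 0 := by
    have y : R * R * psi A B C (w1 B C) (w2 A B C) (w3 A B C) = 0 := by
      unfold psi
      generalize w1 B C = x at h13 ⊢
      generalize w2 A B C = y at h23 ⊢
      generalize w3 A B C = z at h13 h23 ⊢
      linear_combination z * z * e2 - (B - A) * (P * z + R * x) * h13
        - (C - B) * (Q * z + R * y) * h23
    exact (mul_eq_zero.1 y).resolve_left (mul_ne_zero hR hR)
  rcases chk_spec A B C (chk_ok A B C hA hB hC) hpsi with y | y | y | y
  · exact hz y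
  · rw [y, mul_zero] at h13
    exact hz ((mul_eq_zero.1 h13).resolve_left hP)
  · have q : (Q - P) * w3 A B C = 0 := by
      rw [y] at h23
      linear_combination h23 - h13
    exact hz ((mul_eq_zero.1 q).resolve_left (sub_ne_zero.2 hQP))
  · have q : (R - Q) * w3 A B C = 0 := by
      rw [← y] at h23
      linear_combination (-1 : ℤ) * h23
    exact hz ((mul_eq_zero.1 q).resolve_left (sub_ne_zero.2 hRQ))

end Pool.Agent.Lib.SH56
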