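import Pool.Agent.Lib.SH56.Blue

/-! A cyclotomic factor occurs at most thirteen times. -/

open Polynomial Finset

namespace Pool.Agent.Lib.SH56

namespace M13_

theorem mult_lt (z : ℂ) (hz : z ≠ 0) (k : ℕ) :
    ∀ P : ℂ[X], P ≠ 0 → (X - C z) ^ k ∣ P → k < P.support.card := by
  induction k with
  | zero => exact fun P hP _ => card_pos.2 (support_nonempty.2 hP)
  | succ k ih =>
    intro P hP hd
    have ha : P.natDegree ∈ P.support := natDegree_mem_support_of_nonzero hP
    set a := P.natDegree
    have hc : ∀ i : ℕ, (X * derivative P - C (a : ℂ) * P).coeff i = ((i : ℂ) - a) * P.coeff i := by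
      intro i
      rw [coeff_sub, coeff_C_mul]
      cases i with
      | zero => simp
      | succ i =>
        rw [coeff_X_mul, coeff_derivative]
        push_cast
        ring
    have hs : (X * derivative P - C (a : ℂ) * P).support ⊆ P.support.erase a := by
      intro i hi
      rw [mem_support_iff, hc] at hi
      refine mem_erase.2 ⟨?_, mem_support_iff.2 (right_ne_zero_of_mul hi)⟩
      rintro rfl
      simp at hi
    have h0 : X * derivative P - C (a : ℂ) * P ≠ 0 := by
      intro h
      have h1 : P = monomial a (P.coeff a) := by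
        ext i
        rw [coeff_monomial]
        split_ifs with hi
        · rw [hi]
        · have := hc i
          rw [h, coeff_zero] at this
          refine (mul_eq_zero.1 this.symm).resolve_left fun h2 => hi ?_
          exact_mod_cast (sub_eq_zero.1 h2).symm
      have h2 : P.IsRoot z := dvd_iff_isRoot.1 ((dvd_pow_self _ (Nat.succ_ne_zero k)).trans hd)
      rw [IsRoot, h1, eval_monomial] at h2
      exact mul_ne_zero (mem_support_iff.1 ha) (pow_ne_zero _ hz) h2
    have h3 : (X - C z) ^ k ∣ X * derivative P - C (a : ℂ) * P :=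
      dvd_sub (Dvd.dvd.mul_left (by simpa using pow_sub_one_dvd_derivative_of_pow_dvd hd) _)
        (((pow_dvd_pow _ (Nat.le_succ k)).trans hd).mul_left _)
    have h4 := ih _ h0 h3
    have h5 := card_le_card hs
    rw [card_erase_of_mem ha] at h5
    omega

theorem card_PP (x : Fin 7 → ℤ) (R : ℕ) : (PP x R).support.card ≤ 14 := by
  have : (PP x R).support ⊆ (univ.image fun i => ((R : ℤ) + x i).toNat) ∪
      univ.image fun i => ((R : ℤ) - x i).toNat := by
    intro m hm
    by_contra h
    simp only [mem_union, mem_image, mem_univ, true_and, not_or, not_exists] at h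
    refine mem_support_iff.1 hm ?_
    rw [PP, finsetSum_coeff]
    refine sum_eq_zero fun i _ => ?_
    rw [coeff_sub, coeff_X_pow, coeff_X_pow, if_neg (Ne.symm (h.1 i)), if_neg (Ne.symm (h.2 i)),
      sub_zero]
  refine (card_le_card this).trans ((card_union_le _ _).trans ?_)
  have h1 := card_image_le (s := univ) (f := fun i => ((R : ℤ) + x i).toNat)
  have h2 := card_image_le (s := univ) (f := fun i => ((R : ℤ) - x i).toNat)
  rw [card_univ, Fintype.card_fin] at h1 h2
  omega

end M13_

theorem bM13 : M13 := by
  intro x R s h n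
  by_cases hn : n ∈ s
  swap
  · rw [Multiset.count_eq_zero_of_notMem hn]
    omega
  have h0 : n ≠ 0 := by
    have := h.two n hn
    omega
  have hz := Complex.isPrimitiveRoot_exp n h0
  have hm : (PP x R).Monic := by
    rw [h.eq]
    exact ((monic_X_sub_C (1 : ℤ)).pow 7).mul
      (monic_multiset_prod_of_monic _ _ fun m _ => cyclotomic.monic m ℤ)
  have h1 : cyclotomic n ℤ ^ s.count n ∣ PP x R := by
    rw [h.eq]
    refine Dvd.dvd.mul_left ?_ _
    rw [← Multiset.prod_replicate, ← Multiset.map_replicate (fun n => cyclotomic n ℤ)]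
    exact Multiset.prod_dvd_prod_of_le
      (Multiset.map_le_map (Multiset.le_count_iff_replicate_le.1 le_rfl))
  have h2 := Polynomial.map_dvd (Int.castRingHom ℂ) h1
  rw [Polynomial.map_pow, map_cyclotomic] at h2
  have h3 := M13_.mult_lt _ (hz.ne_zero h0) _ _ (hm.map (Int.castRingHom ℂ)).ne_zero
    ((pow_dvd_pow_of_dvd (dvd_iff_isRoot.2 (hz.isRoot_cyclotomic (Nat.pos_of_ne_zero h0))) _).trans
      h2)
  have h4 := card_le_card (support_map_subset (Int.castRingHom ℂ) (PP x R))
  have h5 := M13_.card_PP x R
  omega

end Pool.Agent.Lib.SH56
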