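import Pool.Agent.Lib.SH56.Blue

/-! Row M1A: a prime index occurs at most once. -/

open Polynomial Finset

namespace Pool.Agent.Lib.SH56

namespace M1A_

theorem small {x : Fin 7 → ℤ} (hx : PTE x) (K : Finset (Fin 7)) (hs : ∑ i ∈ K, x i = 0) :
    K.card ≠ 1 ∧ K.card ≠ 2 := by
  constructor
  · intro h
    obtain ⟨a, rfl⟩ := card_eq_one.1 h
    rw [sum_singleton] at hs
    exact hx.2.2.2 a a (by rw [hs]; rfl)
  · intro h
    obtain ⟨a, b, hab, rfl⟩ := card_eq_two.1 h
    rw [sum_pair hab] at hs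
    exact hx.2.2.2 a b hs

theorem compl0 {x : Fin 7 → ℤ} (hx : PTE x) (K : Finset (Fin 7)) (hs : ∑ i ∈ K, x i = 0) :
    ∑ i ∈ Kᶜ, x i = 0 := by
  have h := sum_add_sum_compl K x
  have h1 := hx.1
  linarith

theorem cardc (K : Finset (Fin 7)) : K.card + Kᶜ.card = 7 := by
  have h := card_add_card_compl K
  rwa [Fintype.card_fin] at h

/-- the indices in the two classes `r` and `-r` -/
def KK (x : Fin 7 → ℤ) (m r : ℤ) : Finset (Fin 7) :=
  univ.filter fun j => m ∣ x j - r ∨ m ∣ x j + r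

theorem mem_KK (x : Fin 7 → ℤ) (m r : ℤ) (j : Fin 7) :
    j ∈ KK x m r ↔ m ∣ x j - r ∨ m ∣ x j + r := by
  simp only [KK, mem_filter, mem_univ, true_and]

theorem pairc {x : Fin 7 → ℤ} (hx : PTE x) (p : ℕ) (hp : p.Prime) (h2 : p ≠ 2)
    (h0 : ∀ r, g0 x p r = 0) (h1 : ∀ r, g1 x p r = 0) (i : Fin 7) (hi : ¬ (p : ℤ) ∣ x i) :
    ∑ j ∈ KK x p (x i), x j = 0 ∧ (KK x p (x i)).card = 4 := by
  have hd : Disjoint (univ.filter fun j => (p : ℤ) ∣ x j - x i)
      (univ.filter fun j => (p : ℤ) ∣ x j + x i) := by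
    rw [disjoint_filter]
    intro j _ ha hb
    have hc : (p : ℤ) ∣ 2 * x i := by
      have := dvd_sub hb ha
      have e : x j + x i - (x j - x i) = 2 * x i := by ring
      rwa [e] at this
    rcases (Nat.prime_iff_prime_int.1 hp).dvd_or_dvd hc with h | h
    · have h' : p ∣ 2 := by exact_mod_cast h
      exact h2 ((Nat.prime_dvd_prime_iff_eq hp Nat.prime_two).1 h')
    · exact hi h
  have hK : KK x p (x i) = (univ.filter fun j => (p : ℤ) ∣ x j - x i) ∪
      (univ.filter fun j => (p : ℤ) ∣ x j + x i) := by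
    ext j
    rw [mem_KK]
    simp only [mem_union, mem_filter, mem_univ, true_and]
  have hs : ∑ j ∈ KK x p (x i), x j = 0 := by
    rw [hK, sum_union hd]
    exact h1 (x i)
  have hc : (KK x p (x i)).card = cA x p (x i) + cB x p (x i) := by
    rw [hK, card_union_of_disjoint hd]
    rfl
  have he : cA x p (x i) = cB x p (x i) := by
    have := h0 (x i)
    unfold g0 at this
    omega
  have hpos : 0 < (KK x p (x i)).card :=
    card_pos.2 ⟨i, (mem_KK _ _ _ _).2 (Or.inl (by rw [sub_self]; exact dvd_zero _))⟩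
  have a1 := small hx _ hs
  have a2 := small hx _ (compl0 hx _ hs)
  have a3 := cardc (KK x p (x i))
  exact ⟨hs, by omega⟩

theorem oddp (hALG : ALG) {x : Fin 7 → ℤ} (hx : PTE x) (p : ℕ) (hp : p.Prime) (h2 : p ≠ 2)
    (h0 : ∀ r, g0 x p r = 0) (h1 : ∀ r, g1 x p r = 0) (i : Fin 7) (hi : ¬ (p : ℤ) ∣ x i) :
    False := by
  obtain ⟨hs, hc⟩ := pairc hx p hp h2 h0 h1 i hi
  have a3 := cardc (KK x p (x i))
  have hI : (KK x p (x i))ᶜ.card = 3 := by omega
  refine (hALG x hx _ hI).1 p (x i) hp h2 ?_ hi ?_ (compl0 hx _ hs)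
  · intro j hj
    by_contra hn
    obtain ⟨_, hc'⟩ := pairc hx p hp h2 h0 h1 j hn
    have hsub : KK x p (x j) ⊆ (KK x p (x i))ᶜ := by
      intro k hk
      rw [mem_compl] at hj ⊢
      intro hk'
      apply hj
      rw [mem_KK] at hk hk' ⊢
      rcases hk with a | a <;> rcases hk' with b | b
      · left
        have := dvd_sub b a
        have e : x k - x i - (x k - x j) = x j - x i := by ring
        rwa [e] at this
      · right
        have := dvd_sub b a
        have e : x k + x i - (x k - x j) = x j + x i := by ring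
        rwa [e] at this
      · right
        have := dvd_sub a b
        have e : x k + x j - (x k - x i) = x j + x i := by ring
        rwa [e] at this
      · left
        have := dvd_sub a b
        have e : x k + x j - (x k + x i) = x j - x i := by ring
        rwa [e] at this
    have := card_le_card hsub
    omega
  · intro j hj
    rw [mem_compl, not_not, mem_KK] at hj
    exact hj

theorem evenp (hALG : ALG) {x : Fin 7 → ℤ} (hx : PTE x) (h1 : g1 x 2 0 = 0) (i : Fin 7)
    (hi : ¬ (2 : ℤ) ∣ x i) : False := by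
  set E : Finset (Fin 7) := univ.filter fun j => (2 : ℤ) ∣ x j with hE
  have hm : ∀ j, j ∈ E ↔ (2 : ℤ) ∣ x j := fun j => by
    simp only [hE, mem_filter, mem_univ, true_and]
  have hs : ∑ j ∈ E, x j = 0 := by
    unfold g1 at h1
    simp only [sub_zero, add_zero] at h1
    rw [← hE] at h1
    linarith
  have hs' := compl0 hx _ hs
  have a1 := small hx _ hs
  have a2 := small hx _ hs'
  have a3 := cardc E
  have hpos : 0 < Eᶜ.card := card_pos.2 ⟨i, mem_compl.2 fun h => hi ((hm i).1 h)⟩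
  have hev : (2 : ℤ) ∣ (Eᶜ.card : ℤ) := by
    have hd : (2 : ℤ) ∣ ∑ j ∈ Eᶜ, (x j + 1) := by
      refine dvd_sum fun j hj => ?_
      have : ¬ (2 : ℤ) ∣ x j := fun h => mem_compl.1 hj ((hm j).2 h)
      omega
    rw [sum_add_distrib, hs', zero_add, sum_const, nsmul_eq_mul, mul_one] at hd
    exact hd
  have hI : E.card = 3 := by omega
  refine ((hALG x hx E hI).2 ?_ ?_).1 hs
  · intro j hj
    exact even_iff_two_dvd.2 ((hm j).1 hj)
  · intro j hj
    exact Int.not_even_iff_odd.1 fun h => hj ((hm j).2 (even_iff_two_dvd.1 h))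

end M1A_

theorem bM1A (hNET : NET) (hSPLIT : SPLIT) (hALG : ALG) : M1A := by
  intro x R s hS p hp
  by_contra hc
  have hc2 : 2 ≤ s.count (p ^ (0 + 1)) := by
    rw [zero_add, pow_one]
    omega
  have hmem : p ^ (0 + 1) ∈ s := Multiset.count_pos.1 (by omega)
  obtain ⟨n0, n1⟩ := hNET x R s hS.toPre p 0 hp
  have m0 := n0 hmem
  have m1 := n1 hc2
  simp only [zero_add, pow_one, pow_zero, mul_one] at m0 m1
  have hx := hS.pte
  have h0 : ∀ r, g0 x p r = 0 := by
    intro r
    have e := m0 0 r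
    rw [zero_add] at e
    rw [e]
    unfold g0 cA cB
    simp only [sub_zero, add_zero, sub_self]
  have h10 : g1 x p 0 = 0 := by
    have e := (hSPLIT x 1 p 0 one_ne_zero hp.pos).2.2.2
    have e1 : g1 x 1 0 = 0 := by
      unfold g1
      simp only [one_dvd, filter_true]
      rw [hx.1, add_zero]
    have e2 : ∑ j ∈ range p, g1 x (1 * (p : ℤ)) (0 + (j : ℤ) * 1) = ∑ _j ∈ range p, g1 x p 0 := by
      refine sum_congr rfl fun j _ => ?_
      rw [one_mul, mul_one]
      exact m1 0 j
    rw [e1, e2, sum_const, card_range, nsmul_eq_mul] at e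
    have hp0 : (p : ℤ) ≠ 0 := by exact_mod_cast hp.ne_zero
    exact (mul_eq_zero.1 e.symm).resolve_left hp0
  have h1 : ∀ r, g1 x p r = 0 := by
    intro r
    have e := m1 0 r
    rw [zero_add] at e
    rw [e, h10]
  obtain ⟨i, hi⟩ := hS.prim p hp
  by_cases h2 : p = 2
  · subst h2
    exact M1A_.evenp hALG hx h10 i hi
  · exact M1A_.oddp hALG hx p hp h2 h0 h1 i hi

end Pool.Agent.Lib.SH56
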