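import Pool.Agent.Lib.SH56.Blue

/-! Row M1B: a higher power of an odd prime occurs at most once. -/

open Finset

namespace Pool.Agent.Lib.SH56

namespace M1B_

/-- the two classes of `r` and `-r` are disjoint when `m` does not divide `2 r` -/
theorem disj (x : Fin 7 → ℤ) (m r : ℤ) (h : ¬ m ∣ 2 * r) :
    Disjoint (univ.filter fun j => m ∣ x j - r) (univ.filter fun j => m ∣ x j + r) := by
  rw [disjoint_filter]
  intro j _ h1 h2
  exact h (by have := dvd_sub h2 h1; rwa [show x j + r - (x j - r) = 2 * r by ring] at this)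

end M1B_

theorem bM1B (hNET : NET) (hFOUR : FOUR) (hALG : ALG) : M1B := by
  intro x R s hS p k hp hp2 hk
  by_contra hc
  have hc2 : 2 ≤ s.count (p ^ (k + 1)) := by omega
  have hmem : p ^ (k + 1) ∈ s := Multiset.count_pos.1 (by omega)
  obtain ⟨n0, n1⟩ := hNET x R s hS.toPre p k hp
  have hp3 : 3 ≤ p := by have := hp.two_le; omega
  have hpz : Prime (p : ℤ) := Nat.prime_iff_prime_int.1 hp
  obtain ⟨m, hm⟩ : ∃ m : ℤ, m = (p : ℤ) ^ k := ⟨_, rfl⟩
  have hm0 : m ≠ 0 := by rw [hm]; exact pow_ne_zero _ hpz.ne_zero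
  have hpm : (p : ℤ) ∣ m := by rw [hm]; exact dvd_pow_self _ (by omega)
  have hcop : IsCoprime m 2 := by
    rw [hm]
    refine IsCoprime.pow_left ?_
    have : Nat.Coprime p 2 := (Nat.coprime_primes hp Nat.prime_two).2 hp2
    exact_mod_cast Nat.isCoprime_iff_coprime.2 this
  have h2 : ∀ r : ℤ, ¬ m ∣ r → ¬ m ∣ 2 * r := fun r hr h => hr (hcop.dvd_of_dvd_mul_left h)
  have hF := hFOUR x hS.pte m p hm0 hp3
    (by have := n0 hmem; rw [pow_succ, ← hm] at this; exact this)
    (by have := n1 hc2; rw [pow_succ, ← hm] at this; exact this)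
  obtain ⟨i0, hi0⟩ := hS.prim p hp
  have hr : ¬ m ∣ x i0 := fun h => hi0 (hpm.trans h)
  have hge : ∀ i, 4 ≤ cA x m (x i) + cB x m (x i) := by
    intro i
    have h1 : 0 < cA x m (x i) := card_pos.2 ⟨i, by simp⟩
    have := (hF (x i)).1
    omega
  have hcard : ∀ r, ¬ m ∣ r → ((univ.filter fun j => m ∣ x j - r) ∪
      (univ.filter fun j => m ∣ x j + r)).card = cA x m r + cB x m r := fun r h =>
    card_union_of_disjoint (M1B_.disj x m r (h2 r h))
  have hcov : ∀ j, m ∣ x j ∨ m ∣ x j - x i0 ∨ m ∣ x j + x i0 := by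
    intro j
    by_contra hj
    simp only [not_or] at hj
    obtain ⟨a, b, c⟩ := hj
    have hd : Disjoint ((univ.filter fun l => m ∣ x l - x i0) ∪
        (univ.filter fun l => m ∣ x l + x i0)) ((univ.filter fun l => m ∣ x l - x j) ∪
        (univ.filter fun l => m ∣ x l + x j)) := by
      rw [disjoint_left]
      intro l h1 h3
      simp only [mem_union, mem_filter, mem_univ, true_and] at h1 h3
      rcases h1 with h1 | h1 <;> rcases h3 with h3 | h3
      · exact b (by
          have := dvd_sub h1 h3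
          rwa [show x l - x i0 - (x l - x j) = x j - x i0 by ring] at this)
      · exact c (by
          have := dvd_sub h3 h1
          rwa [show x l + x j - (x l - x i0) = x j + x i0 by ring] at this)
      · exact c (by
          have := dvd_sub h1 h3
          rwa [show x l + x i0 - (x l - x j) = x j + x i0 by ring] at this)
      · exact b (by
          have := dvd_sub h3 h1
          rwa [show x l + x j - (x l + x i0) = x j - x i0 by ring] at this)
    have h7 := card_le_univ (((univ.filter fun l => m ∣ x l - x i0) ∪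
        (univ.filter fun l => m ∣ x l + x i0)) ∪ ((univ.filter fun l => m ∣ x l - x j) ∪
        (univ.filter fun l => m ∣ x l + x j)))
    rw [card_union_of_disjoint hd, hcard _ hr, hcard _ a, Fintype.card_fin] at h7
    have := hge i0
    have := hge j
    omega
  obtain ⟨Z, hZ⟩ : ∃ Z : Finset (Fin 7), Z = univ.filter fun j => m ∣ x j := ⟨_, rfl⟩
  have hZm : ∀ j, j ∈ Z ↔ m ∣ x j := fun j => by simp [hZ]
  have hd : Disjoint Z ((univ.filter fun l => m ∣ x l - x i0) ∪
      (univ.filter fun l => m ∣ x l + x i0)) := by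
    rw [disjoint_left]
    intro l h1 h3
    rw [hZm] at h1
    simp only [mem_union, mem_filter, mem_univ, true_and] at h3
    rcases h3 with h3 | h3
    · exact hr (by
        have := dvd_sub h1 h3
        rwa [show x l - (x l - x i0) = x i0 by ring] at this)
    · exact hr (by
        have := dvd_sub h3 h1
        rwa [show x l + x i0 - x l = x i0 by ring] at this)
  have hu : Z ∪ ((univ.filter fun l => m ∣ x l - x i0) ∪
      (univ.filter fun l => m ∣ x l + x i0)) = univ := by
    refine eq_univ_of_forall fun j => ?_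
    simp only [mem_union, mem_filter, mem_univ, true_and, hZm]
    exact hcov j
  have hn : Z.card + (cA x m (x i0) + cB x m (x i0)) = 7 := by
    rw [← hcard _ hr, ← card_union_of_disjoint hd, hu, card_univ, Fintype.card_fin]
  have hs : ∑ j ∈ Z, x j + g1 x m (x i0) = 0 := by
    unfold g1
    rw [← sum_union (M1B_.disj x m _ (h2 _ hr)), ← sum_union hd, hu]
    exact hS.pte.1
  have hA : cA x m 0 = Z.card := by simp [cA, hZ]
  have hB : cB x m 0 = Z.card := by simp [cB, hZ]
  have hG : g1 x m 0 = 2 * ∑ j ∈ Z, x j := by simp [g1, hZ, two_mul]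
  obtain ⟨f1, f2, -⟩ := hF 0
  obtain ⟨-, e2, e3⟩ := hF (x i0)
  have h4 := hge i0
  rw [hA, hB] at f1 f2
  have hcase : Z.card = 0 ∨ Z.card = 2 ∨ Z.card = 3 := by omega
  rcases hcase with h | h | h
  · rw [card_eq_zero.1 h, sum_empty, zero_add] at hs
    exact e3 (by omega) hs
  · have h0 := f2 (by omega)
    obtain ⟨a, b, hab, hZab⟩ := card_eq_two.1 h
    rw [hG, hZab, sum_pair hab] at h0
    exact hS.pte.2.2.2 a b (by omega)
  · rw [e2 (by omega), add_zero] at hs
    refine (hALG x hS.pte Z h).1 p (x i0) hp hp2 (fun i hi => hpm.trans ((hZm i).1 hi)) hi0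
      (fun i hi => ?_) hs
    rcases hcov i with h1 | h1 | h1
    · exact absurd ((hZm i).2 h1) hi
    · exact Or.inl (hpm.trans h1)
    · exact Or.inr (hpm.trans h1)

end Pool.Agent.Lib.SH56
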