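import Pool.Agent.Lib.SH56.Blue

/-! Row M1C: a power of two above two occurs at most once. -/

open Polynomial Finset

namespace Pool.Agent.Lib.SH56

namespace M1C_

/-- sign of a point inside the ball of `r` -/
def eps (m r y : ℤ) : ℤ :=
  (if 2 * m ∣ y - r then 1 else 0) - (if 2 * m ∣ y - (r + m) then 1 else 0)

theorem notboth {m r y : ℤ} (hm : m ≠ 0) (h1 : 2 * m ∣ y - r) (h2 : 2 * m ∣ y - (r + m)) :
    False := by
  have h3 : 2 * m ∣ 1 * m := by
    have := dvd_sub h1 h2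
    rwa [show y - r - (y - (r + m)) = 1 * m by ring] at this
  have h4 : (2 : ℤ) ∣ 1 := Int.dvd_of_mul_dvd_mul_right hm h3
  omega

theorem halves {m r y : ℤ} (h : m ∣ y - r) : 2 * m ∣ y - r ∨ 2 * m ∣ y - (r + m) := by
  obtain ⟨c, hc⟩ := h
  rcases Int.even_or_odd' c with ⟨d, hd | hd⟩
  · exact Or.inl ⟨d, by rw [hc, hd]; ring⟩
  · exact Or.inr ⟨d, by rw [show y - (r + m) = y - r - m by ring, hc, hd]; ring⟩

theorem tri {m : ℤ} (hm : m ≠ 0) (r y : ℤ) :
    (eps m r y = 1 ∧ 2 * m ∣ y - r) ∨ (eps m r y = -1 ∧ 2 * m ∣ y - (r + m)) ∨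
      (eps m r y = 0 ∧ ¬ m ∣ y - r) := by
  unfold eps
  by_cases h1 : 2 * m ∣ y - r
  · have h2 : ¬ 2 * m ∣ y - (r + m) := fun h => notboth hm h1 h
    exact Or.inl ⟨by rw [if_pos h1, if_neg h2]; rfl, h1⟩
  · by_cases h2 : 2 * m ∣ y - (r + m)
    · exact Or.inr (Or.inl ⟨by rw [if_neg h1, if_pos h2]; rfl, h2⟩)
    · exact Or.inr (Or.inr ⟨by rw [if_neg h1, if_neg h2]; rfl,
        fun h => (halves h).elim h1 h2⟩)

theorem vals {m : ℤ} (hm : m ≠ 0) (r y : ℤ) :
    eps m r y = 1 ∨ eps m r y = -1 ∨ eps m r y = 0 := by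
  rcases tri hm r y with h | h | h
  · exact Or.inl h.1
  · exact Or.inr (Or.inl h.1)
  · exact Or.inr (Or.inr h.1)

theorem zero_iff {m : ℤ} (hm : m ≠ 0) (r y : ℤ) : eps m r y = 0 ↔ ¬ m ∣ y - r := by
  rcases tri hm r y with h | h | h
  · refine ⟨fun h0 => by omega, fun h0 => (h0 ?_).elim⟩
    exact (Dvd.intro_left 2 rfl).trans h.2
  · refine ⟨fun h0 => by omega, fun h0 => (h0 ?_).elim⟩
    have h1 : m ∣ y - (r + m) := (Dvd.intro_left 2 rfl).trans h.2
    have h2 := dvd_add h1 (dvd_refl m)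
    rwa [show y - (r + m) + m = y - r by ring] at h2
  · exact ⟨fun _ => h.2, fun _ => h.1⟩

theorem self_one {m : ℤ} (hm : m ≠ 0) (r : ℤ) : eps m r r = 1 := by
  have h1 : 2 * m ∣ r - r := by rw [sub_self]; exact dvd_zero _
  have h2 : ¬ 2 * m ∣ r - (r + m) := fun h => notboth hm h1 h
  unfold eps
  rw [if_pos h1, if_neg h2]; rfl

theorem neg_zero_ball (m y : ℤ) : eps m 0 (-y) = eps m 0 y := by
  have h1 : 2 * m ∣ -y - 0 ↔ 2 * m ∣ y - 0 := by
    rw [sub_zero, sub_zero, dvd_neg]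
  have h2 : 2 * m ∣ -y - (0 + m) ↔ 2 * m ∣ y - (0 + m) := by
    rw [show -y - (0 + m) = -(y - (0 + m)) - 2 * m by ring]
    exact (dvd_sub_left (dvd_refl _)).trans dvd_neg
  unfold eps
  simp only [h1, h2]

theorem opp {m : ℤ} (hm : m ≠ 0) (r y : ℤ) (hy : ¬ m ∣ y) :
    eps m r y = 0 ∨ eps m r (-y) = 0 ∨ eps m r (-y) = -eps m r y := by
  have key : ∀ t : ℤ, 2 * m ∣ y - t → 2 * m ∣ -y - t → False := by
    intro t h1 h2
    have h3 := dvd_sub h1 h2
    rw [show y - t - (-y - t) = 2 * y by ring] at h3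
    exact hy (Int.dvd_of_mul_dvd_mul_left (by norm_num) h3)
  rcases tri hm r y with h | h | h <;> rcases tri hm r (-y) with g | g | g
  · exact (key _ h.2 g.2).elim
  · omega
  · omega
  · omega
  · exact (key _ h.2 g.2).elim
  · omega
  · omega
  · omega
  · omega

theorem lone {m u v w : ℤ} (hm : m ≠ 0) (hw : ¬ m ∣ w) (huv : m ∣ v - u) (huv' : m ∣ -v - u)
    (h1 : ¬ m ∣ w - u) (h2 : ¬ m ∣ -w - u)
    (h0 : eps m w u + eps m w v + eps m w w - eps m w (-u) - eps m w (-v) - eps m w (-w) = 0) :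
    False := by
  have e1 : eps m w u = 0 := (zero_iff hm _ _).2 fun h => h1 (dvd_sub_comm.1 h)
  have e2 : eps m w (-u) = 0 := (zero_iff hm _ _).2 fun h => h2 (by
    rwa [show -u - w = -w - u by ring] at h)
  have e3 : eps m w v = 0 := (zero_iff hm _ _).2 fun h => h1 (by
    have := dvd_sub huv h
    rwa [show v - u - (v - w) = w - u by ring] at this)
  have e4 : eps m w (-v) = 0 := (zero_iff hm _ _).2 fun h => h1 (by
    have := dvd_sub huv' h
    rwa [show -v - u - (-v - w) = w - u by ring] at this)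
  have e5 := self_one hm w
  have e6 := opp hm w w hw
  omega

theorem half {m u v w : ℤ} (hm : m ≠ 0) (hu : ¬ m ∣ u) (hv : ¬ m ∣ v) (hw : ¬ m ∣ w)
    (h2u : m ∣ 2 * u)
    (h0 : ∀ r, r = u ∨ r = v ∨ r = w →
      eps m r u + eps m r v + eps m r w - eps m r (-u) - eps m r (-v) - eps m r (-w) = 0) :
    False := by
  have sy : ∀ y, m ∣ y - u ↔ m ∣ -y - u := by
    intro y
    rw [show -y - u = -(y - u) - 2 * u by ring]
    exact ((dvd_sub_left h2u).trans dvd_neg).symm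
  have z : ∀ y, eps m u y = 0 ↔ eps m u (-y) = 0 := by
    intro y
    rw [zero_iff hm, zero_iff hm, sy]
  have a0 := h0 u (Or.inl rfl)
  have a1 := self_one hm u
  have a2 := opp hm u u hu
  have a3 := opp hm u v hv
  have a4 := opp hm u w hw
  have zu := z u
  have zv := z v
  have zw := z w
  have tv := vals hm u v
  have tw := vals hm u w
  have hc : (eps m u v ≠ 0 ∧ eps m u w = 0) ∨ (eps m u w ≠ 0 ∧ eps m u v = 0) := by omega
  rcases hc with ⟨c1, c2⟩ | ⟨c1, c2⟩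
  · have d1 : m ∣ v - u := by_contra fun h => c1 ((zero_iff hm _ _).2 h)
    have d2 : ¬ m ∣ w - u := (zero_iff hm _ _).1 c2
    exact lone hm hw d1 ((sy v).1 d1) d2 (fun h => d2 ((sy w).2 h)) (h0 w (Or.inr (Or.inr rfl)))
  · have d1 : m ∣ w - u := by_contra fun h => c1 ((zero_iff hm _ _).2 h)
    have d2 : ¬ m ∣ v - u := (zero_iff hm _ _).1 c2
    have := h0 v (Or.inr (Or.inl rfl))
    exact lone hm hv d1 ((sy w).1 d1) d2 (fun h => d2 ((sy v).2 h)) (by omega)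

theorem atmost {m : ℤ} (hm : m ≠ 0) (r y : ℤ) (hy : ¬ m ∣ 2 * y) :
    eps m r y = 0 ∨ eps m r (-y) = 0 := by
  by_contra h
  obtain ⟨h1, h2⟩ := not_or.1 h
  have d1 : m ∣ y - r := by_contra fun h => h1 ((zero_iff hm _ _).2 h)
  have d2 : m ∣ -y - r := by_contra fun h => h2 ((zero_iff hm _ _).2 h)
  have := dvd_sub d1 d2
  rw [show y - r - (-y - r) = 2 * y by ring] at this
  exact hy this

theorem two_pts {u v p q : ℤ} (huv : u + v ≠ 0) (c : u = v → p = q) (hp : p = 1 ∨ p = -1)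
    (hq : q = 1 ∨ q = -1) : p * u + q * v ≠ 0 := by
  rcases hp with rfl | rfl <;> rcases hq with rfl | rfl <;> omega

theorem three_pts {u v w p q t : ℤ} (s0 : u + v + w ≠ 0)
    (s1 : u + v + w ≠ 2 * u) (s2 : u + v + w ≠ 2 * v) (s3 : u + v + w ≠ 2 * w)
    (hp : p = 1 ∨ p = -1) (hq : q = 1 ∨ q = -1) (ht : t = 1 ∨ t = -1) :
    p * u + q * v + t * w ≠ 0 := by
  rcases hp with rfl | rfl <;> rcases hq with rfl | rfl <;> rcases ht with rfl | rfl <;> omega

theorem one_pt {u p : ℤ} (hu : u + u ≠ 0) (hp : p = 1 ∨ p = -1) : p * u ≠ 0 := by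
  rcases hp with rfl | rfl <;> omega

theorem zball {u v w p q t : ℤ} (hu : u + u ≠ 0) (hv : v + v ≠ 0) (hw : w + w ≠ 0)
    (huv : u + v ≠ 0) (huw : u + w ≠ 0) (hvw : v + w ≠ 0) (s0 : u + v + w ≠ 0)
    (s1 : u + v + w ≠ 2 * u) (s2 : u + v + w ≠ 2 * v) (s3 : u + v + w ≠ 2 * w)
    (c1 : u = v → p = q) (c2 : u = w → p = t) (c3 : v = w → q = t)
    (hp : p = 1 ∨ p = -1 ∨ p = 0) (hq : q = 1 ∨ q = -1 ∨ q = 0) (ht : t = 1 ∨ t = -1 ∨ t = 0)
    (h : p * u + q * v + t * w = 0) : p = 0 ∧ q = 0 ∧ t = 0 := by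
  rcases or_assoc.2 hp with hp | rfl <;> rcases or_assoc.2 hq with hq | rfl <;>
    rcases or_assoc.2 ht with ht | rfl
  · exact (three_pts s0 s1 s2 s3 hp hq ht h).elim
  · exact (two_pts huv c1 hp hq (by linarith)).elim
  · exact (two_pts huw c2 hp ht (by linarith)).elim
  · exact (one_pt hu hp (by linarith)).elim
  · exact (two_pts hvw c3 hq ht (by linarith)).elim
  · exact (one_pt hv hq (by linarith)).elim
  · exact (one_pt hw ht (by linarith)).elim
  · exact ⟨rfl, rfl, rfl⟩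

theorem shape {p q t o : ℤ} (hp : p = 1 ∨ p = -1 ∨ p = 0) (hq : q = 1 ∨ q = -1 ∨ q = 0)
    (ht : t = 1 ∨ t = -1 ∨ t = 0) (ho : o = 1 ∨ o = -1 ∨ o = 0) (a : p = 0 ∨ q = 0)
    (b : t = 0 ∨ o = 0) (h : 1 + p + t - q - 0 - o = 0) :
    (p = -1 ∧ q = 0 ∧ t = 0 ∧ o = 0) ∨ (p = 0 ∧ q = 1 ∧ t = 0 ∧ o = 0) ∨
      (p = 0 ∧ q = 0 ∧ t = -1 ∧ o = 0) ∨ (p = 0 ∧ q = 0 ∧ t = 0 ∧ o = 1) := by
  rcases a with rfl | rfl <;> rcases b with rfl | rfl <;> omega

theorem core {m u v w : ℤ} (hm : m ≠ 0) (hu : u + u ≠ 0) (hv : v + v ≠ 0) (hw : w + w ≠ 0)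
    (huv : u + v ≠ 0) (huw : u + w ≠ 0) (hvw : v + w ≠ 0) (s0 : u + v + w ≠ 0)
    (s1 : u + v + w ≠ 2 * u) (s2 : u + v + w ≠ 2 * v) (s3 : u + v + w ≠ 2 * w)
    (h0 : ∀ r, r = u ∨ r = v ∨ r = w →
      eps m r u + eps m r v + eps m r w - eps m r (-u) - eps m r (-v) - eps m r (-w) = 0)
    (h1 : ∀ r, r = 0 ∨ r = u → (eps m r u + eps m r (-u)) * u + (eps m r v + eps m r (-v)) * v +
      (eps m r w + eps m r (-w)) * w = 0) : False := by
  have b0 := h1 0 (Or.inl rfl)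
  rw [neg_zero_ball, neg_zero_ball, neg_zero_ball] at b0
  have hz : eps m 0 u = 0 ∧ eps m 0 v = 0 ∧ eps m 0 w = 0 :=
    zball hu hv hw huv huw hvw s0 s1 s2 s3 (fun h => congrArg (eps m 0) h)
      (fun h => congrArg (eps m 0) h) (fun h => congrArg (eps m 0) h) (vals hm 0 u) (vals hm 0 v)
      (vals hm 0 w) (by linarith)
  have nu : ¬ m ∣ u := by simpa using (zero_iff hm _ _).1 hz.1
  have nv : ¬ m ∣ v := by simpa using (zero_iff hm _ _).1 hz.2.1
  have nw : ¬ m ∣ w := by simpa using (zero_iff hm _ _).1 hz.2.2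
  by_cases du : m ∣ 2 * u
  · exact half hm nu nv nw du h0
  by_cases dv : m ∣ 2 * v
  · exact half hm nv nu nw dv fun r hr => by have := h0 r (by tauto); linarith
  by_cases dw : m ∣ 2 * w
  · exact half hm nw nu nv dw fun r hr => by have := h0 r (by tauto); linarith
  have a0 := h0 u (Or.inl rfl)
  have a1 := h1 u (Or.inr rfl)
  have a2 := self_one hm u
  have a6 : eps m u (-u) = 0 := (atmost hm u u du).resolve_left (by rw [a2]; norm_num)
  have f1 : u = v → eps m u u = eps m u v := fun h => congrArg (eps m u) h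
  have f2 : u = w → eps m u u = eps m u w := fun h => congrArg (eps m u) h
  rw [a2] at f1 f2
  rw [a2, a6] at a1 a0
  rcases shape (vals hm u v) (vals hm u (-v)) (vals hm u w) (vals hm u (-w)) (atmost hm u v dv)
    (atmost hm u w dw) (by linarith) with ⟨p, q, t, o⟩ | ⟨p, q, t, o⟩ | ⟨p, q, t, o⟩ | ⟨p, q, t, o⟩
  · rw [p, q, t, o] at a1
    have := f1 (by linarith)
    omega
  · rw [p, q, t, o] at a1
    exact huv (by linarith)
  · rw [p, q, t, o] at a1
    have := f2 (by linarith)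
    omega
  · rw [p, q, t, o] at a1
    exact huw (by linarith)

theorem flip (M y r : ℤ) : M ∣ y + r ↔ M ∣ -y - r := by
  rw [show -y - r = -(y + r) by ring, dvd_neg]

theorem diff0 (x : Fin 7 → ℤ) (m r : ℤ) : g0 x (2 * m) r - g0 x (2 * m) (r + m) =
    ∑ j, (eps m r (x j) - eps m r (-x j)) := by
  unfold g0 cA cB eps
  simp only [Finset.natCast_card_filter, flip, Finset.sum_sub_distrib]
  ring

theorem diff1 (x : Fin 7 → ℤ) (m r : ℤ) : g1 x (2 * m) r - g1 x (2 * m) (r + m) =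
    ∑ j, (eps m r (x j) + eps m r (-x j)) * x j := by
  unfold g1 eps
  simp only [Finset.sum_filter, flip]
  rw [← Finset.sum_add_distrib, ← Finset.sum_add_distrib, ← Finset.sum_sub_distrib]
  refine Finset.sum_congr rfl fun j _ => ?_
  split_ifs <;> ring

theorem odd_zero {m r y : ℤ} (hm : m ≠ 0) (h2 : 2 ∣ m) (hr : Even r) (hy : Odd y) :
    eps m r y = 0 := by
  refine (zero_iff hm _ _).2 fun h => ?_
  have h3 := h2.trans h
  obtain ⟨a, ha⟩ := hr
  obtain ⟨b, hb⟩ := hy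
  omega

end M1C_

open M1C_ in
theorem bM1C (hNET : NET) (_hSPLIT : SPLIT) (hTWO : TWO) (hALG : ALG) : M1C := by
  intro x R s h k hk
  by_contra hc
  have hc2 : 2 ≤ s.count (2 ^ (k + 1)) := by omega
  have hmem : 2 ^ (k + 1) ∈ s := Multiset.count_pos.1 (by omega)
  obtain ⟨n0, n1⟩ := hNET x R s h.toPre 2 k Nat.prime_two
  obtain ⟨I, hI, hev, hod⟩ := hTWO x R s h
  obtain ⟨s0, s1⟩ := (hALG x h.pte I hI).2 hev hod
  obtain ⟨a, b, c, hab, hac, hbc, rfl⟩ := Finset.card_eq_three.1 hI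
  obtain ⟨m, hmdef⟩ : ∃ m : ℤ, m = ((2 : ℕ) : ℤ) ^ k := ⟨_, rfl⟩
  have hM : ((2 : ℕ) : ℤ) ^ (k + 1) = 2 * m := by rw [hmdef, pow_succ]; push_cast; ring
  have hm : m ≠ 0 := by rw [hmdef]; positivity
  have h2 : 2 ∣ m := by rw [hmdef]; exact dvd_pow_self _ (by omega)
  have red : ∀ f : Fin 7 → ℤ, (∀ j ∉ ({a, b, c} : Finset (Fin 7)), f j = 0) →
      ∑ j, f j = f a + f b + f c := by
    intro f hf
    rw [← Finset.sum_subset (Finset.subset_univ {a, b, c}) fun j _ hj => hf j hj,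
      Finset.sum_insert (by simp [hab, hac]), Finset.sum_pair hbc, add_assoc]
  have hS : ∑ i ∈ ({a, b, c} : Finset (Fin 7)), x i = x a + x b + x c := by
    rw [Finset.sum_insert (by simp [hab, hac]), Finset.sum_pair hbc, add_assoc]
  rw [hS] at s0 s1
  have ea := hev a (by simp)
  have eb := hev b (by simp)
  have ec := hev c (by simp)
  have ne := h.pte.2.2.2
  refine core hm (ne a a) (ne b b) (ne c c) (ne a b) (ne a c) (ne b c) s0 (s1 a (by simp))
    (s1 b (by simp)) (s1 c (by simp)) (fun r hr => ?_) fun r hr => ?_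
  · have hr2 : Even r := by rcases hr with rfl | rfl | rfl <;> assumption
    have e := n0 hmem r 1
    rw [hM, ← hmdef, one_mul] at e
    have d := diff0 x m r
    rw [red _ fun j hj => by
      rw [odd_zero hm h2 hr2 (hod j hj), odd_zero hm h2 hr2 (hod j hj).neg, sub_zero]] at d
    omega
  · have hr2 : Even r := by
      rcases hr with rfl | rfl
      · exact Even.zero
      · exact ea
    have e := n1 hc2 r 1
    rw [hM, ← hmdef, one_mul] at e
    have d := diff1 x m r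
    rw [red _ fun j hj => by
      rw [odd_zero hm h2 hr2 (hod j hj), odd_zero hm h2 hr2 (hod j hj).neg, add_zero,
        zero_mul]] at d
    rw [← d, e, sub_self]

end Pool.Agent.Lib.SH56
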