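import Pool.Agent.Lib.SH56.Blue

/-! Row NET: net counts and net sums are constant on sibling classes. -/

open Polynomial Finset

namespace Pool.Agent.Lib.SH56

namespace NET_

theorem per (f : ℤ → ℤ) (c : ℤ) (h : ∀ r, f r = f (r + c)) (r j : ℤ) : f (r + j * c) = f r := by
  induction j using Int.induction_on with
  | zero => simp
  | succ i ih =>
    have e : r + ((i : ℤ) + 1) * c = r + (i : ℤ) * c + c := by ring
    rw [e, ← h, ih]
  | pred i ih =>
    have e : r + (-(i : ℤ) - 1) * c + c = r + (-(i : ℤ)) * c := by ring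
    rw [h, e, ih]

theorem cls0 (x : Fin 7 → ℤ) (m r : ℤ) :
    cls x (fun _ => 1) (fun _ => -1) 1 m r = (g0 x m r : ℂ) := by
  simp [cls, g0, cA, cB, sub_eq_add_neg]

theorem cls1 (x : Fin 7 → ℤ) (m r : ℤ) : cls x x x 1 m r = (g1 x m r : ℂ) := by
  simp [cls, g1]

theorem step (hS : SIB) (x α β : Fin 7 → ℤ) (p k : ℕ) (hp : p.Prime) (z : ℂ)
    (hz : IsPrimitiveRoot z (p ^ (k + 1))) (h : tot x α β z = 0) (r : ℤ) :
    cls x α β 1 ((p : ℤ) ^ (k + 1)) r = cls x α β 1 ((p : ℤ) ^ (k + 1)) (r + (p : ℤ) ^ k) := by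
  obtain ⟨η, hη, hr⟩ := hS x α β 1 p k z one_pos hp
    (fun hd => hp.one_lt.ne' (Nat.dvd_one.mp hd)) (by rw [mul_one]; exact hz) h
  have e : η = 1 := by
    have := hη.pow_eq_one
    rwa [pow_one] at this
  rw [e] at hr
  exact hr r

end NET_

theorem bNET (hSIB : SIB) (hROOTS : ROOTS) : NET := by
  intro x R s hP p k hp
  have hne : p ^ (k + 1) ≠ 0 := pow_ne_zero _ hp.ne_zero
  have hz := Complex.isPrimitiveRoot_exp (p ^ (k + 1)) hne
  obtain ⟨h0, h1⟩ := hROOTS x R s hP _ _ hz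
  refine ⟨fun hs r j => ?_, fun hs r j => ?_⟩
  · refine NET_.per (fun r => g0 x ((p : ℤ) ^ (k + 1)) r) _ (fun r => ?_) r j
    have := NET_.step hSIB x _ _ p k hp _ hz (h0 hs) r
    rw [NET_.cls0, NET_.cls0] at this
    exact_mod_cast this
  · refine NET_.per (fun r => g1 x ((p : ℤ) ^ (k + 1)) r) _ (fun r => ?_) r j
    have := NET_.step hSIB x _ _ p k hp _ hz (h1 hs) r
    rw [NET_.cls1, NET_.cls1] at this
    exact_mod_cast this

end Pool.Agent.Lib.SH56
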