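import Pool.Agent.Lib.SH56.Blue

/-! Row NRM: the norm of the antisymmetric polynomial at the primitive roots of prime order. -/

open Polynomial Finset

namespace Pool.Agent.Lib.SH56

namespace NRM_

theorem base {K : Type} [Field K] {w : K} {m : ℕ} (hw : IsPrimitiveRoot w (m + 1)) :
    ∏ a ∈ Ico 1 (m + 1), (w ^ a - 1) = (-1) ^ m * ((m : K) + 1) := by
  have h := hw.prod_pow_sub_one_eq_order
  rw [Finset.prod_Ico_eq_prod_range, Nat.add_sub_cancel, ← h, ← mul_assoc, ← mul_pow,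
    neg_one_mul, neg_neg, one_pow, one_mul]
  exact prod_congr rfl fun a _ => by rw [add_comm 1 a]

theorem phi {K : Type} [Field K] {w : K} {m : ℕ} (hw : IsPrimitiveRoot w (m + 1))
    (hq : (m + 1).Prime) (n : ℕ) : 2 ≤ n → ¬ (m + 1) ∣ n →
    ∏ a ∈ Ico 1 (m + 1), eval (w ^ a) (cyclotomic n K) = 1 := by
  induction n using Nat.strong_induction_on with
  | _ n ih =>
    intro h2 hd
    have hc : n.Coprime (m + 1) := ((Nat.Prime.coprime_iff_not_dvd hq).2 hd).symm
    have h1 := base (hw.pow_of_coprime n hc)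
    have h0 := base hw
    have hne : ∏ a ∈ Ico 1 (m + 1), (w ^ a - 1) ≠ 0 := by
      refine prod_ne_zero_iff.2 fun a ha => sub_ne_zero.2 fun h => ?_
      have h4 := mem_Ico.1 ha
      have h5 := Nat.le_of_dvd (by omega) (hw.dvd_of_pow_eq_one a h)
      omega
    have h3 : ∏ d ∈ n.divisors, ∏ a ∈ Ico 1 (m + 1), eval (w ^ a) (cyclotomic d K) =
        ∏ a ∈ Ico 1 (m + 1), (w ^ a - 1) := by
      rw [prod_comm, h0, ← h1]
      refine prod_congr rfl fun a _ => ?_
      rw [← eval_prod, prod_cyclotomic_eq_X_pow_sub_one (by omega), eval_sub, eval_pow, eval_X,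
        eval_one, ← pow_mul, ← pow_mul, mul_comm]
    have h6 : 1 ∈ n.properDivisors := Nat.mem_properDivisors.2 ⟨one_dvd n, by omega⟩
    have h7 : ∏ d ∈ n.properDivisors.erase 1,
        ∏ a ∈ Ico 1 (m + 1), eval (w ^ a) (cyclotomic d K) = 1 := by
      refine prod_eq_one fun d hd' => ?_
      obtain ⟨e1, e2⟩ := mem_erase.1 hd'
      obtain ⟨e3, e4⟩ := Nat.mem_properDivisors.1 e2
      have e5 : 0 < d := Nat.pos_of_dvd_of_pos e3 (by omega)
      exact ih d e4 (by omega) fun h => hd (h.trans e3)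
    have h8 : ∏ a ∈ Ico 1 (m + 1), eval (w ^ a) (cyclotomic 1 K) =
        ∏ a ∈ Ico 1 (m + 1), (w ^ a - 1) :=
      prod_congr rfl fun a _ => by rw [cyclotomic_one, eval_sub, eval_X, eval_one]
    rw [← Nat.insert_self_properDivisors (show n ≠ 0 by omega),
      prod_insert Nat.self_notMem_properDivisors, ← mul_prod_erase _ _ h6, h7, h8, mul_one] at h3
    exact mul_right_cancel₀ hne (h3.trans (one_mul _).symm)

theorem cycn {K : Type} [Field K] {w : K} {m : ℕ} (hw : IsPrimitiveRoot w (m + 1))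
    (hq : (m + 1).Prime) (s : Multiset ℕ) : (∀ n ∈ s, 2 ≤ n) → (∀ n ∈ s, ¬ (m + 1) ∣ n) →
    ∏ a ∈ Ico 1 (m + 1), eval₂ (Int.castRingHom K) (w ^ a) (cyc s) = 1 := by
  induction s using Multiset.induction_on with
  | empty =>
    intro _ _
    refine prod_eq_one fun a _ => ?_
    rw [cyc, Multiset.map_zero, Multiset.prod_zero, eval₂_one]
  | cons n s ih =>
    intro h2 hd
    have e : cyc (n ::ₘ s) = cyclotomic n ℤ * cyc s := by
      rw [cyc, Multiset.map_cons, Multiset.prod_cons, cyc]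
    have h1 := ih (fun k hk => h2 k (Multiset.mem_cons_of_mem hk))
      fun k hk => hd k (Multiset.mem_cons_of_mem hk)
    have h3 := phi hw hq n (h2 n (Multiset.mem_cons_self _ _)) (hd n (Multiset.mem_cons_self _ _))
    have h4 : ∀ a, eval₂ (Int.castRingHom K) (w ^ a) (cyc (n ::ₘ s)) =
        eval (w ^ a) (cyclotomic n K) * eval₂ (Int.castRingHom K) (w ^ a) (cyc s) := by
      intro a
      rw [e, eval₂_mul, ← eval_map, map_cyclotomic_int]
    rw [prod_congr rfl fun a _ => h4 a, prod_mul_distrib, h1, h3, one_mul]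

theorem pw {K : Type} [Field K] {u : K} {q : ℕ} (hu : u ^ q = 1) {a b : ℕ}
    (h : (q : ℤ) ∣ (a : ℤ) - b) : u ^ a = u ^ b := by
  have h1 : b ≡ a [MOD q] := Nat.modEq_iff_dvd.2 h
  rw [← Nat.div_add_mod a q, ← Nat.div_add_mod b q, pow_add, pow_add, pow_mul, pow_mul, hu,
    one_pow, one_pow, h1]

theorem tri {K : Type} [Field K] {w : K} {m : ℕ} (hw : w ^ (m + 1) = 1) (R : ℕ) :
    (∏ a ∈ Ico 1 (m + 1), (w ^ a) ^ R) ^ 2 = 1 := by
  have h1 : ∑ a ∈ Ico 1 (m + 1), a = ∑ a ∈ range (m + 1), a := by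
    rw [range_eq_Ico, sum_eq_sum_Ico_succ_bot (Nat.succ_pos m), zero_add]
  rw [prod_pow, prod_pow_eq_pow_sum, h1, ← pow_mul, ← pow_mul, mul_comm R 2, ← mul_assoc,
    sum_range_id_mul_two, mul_assoc, pow_mul, hw, one_pow]

end NRM_

theorem bNRM : NRM := by
  intro x R s h q l w hq hl hw hd y hy
  have := Fact.mk hl
  obtain ⟨m, rfl⟩ : ∃ m, q = m + 1 := ⟨q - 1, by have := hq.pos; omega⟩
  have h1 := NRM_.cycn hw hq s h.two hd
  have h2 := NRM_.base hw
  have h3 := NRM_.tri hw.pow_eq_one R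
  have h4 : ∀ a, (w ^ a) ^ R * FF (m + 1) w y a =
      (w ^ a - 1) ^ 7 * eval₂ (Int.castRingHom (ZMod l)) (w ^ a) (cyc s) := by
    intro a
    have hu : (w ^ a) ^ (m + 1) = 1 := by rw [← pow_mul, mul_comm, pow_mul, hw.pow_eq_one, one_pow]
    have e := congrArg (eval₂ (Int.castRingHom (ZMod l)) (w ^ a)) h.eq
    rw [eval₂_mul, eval₂_pow, eval₂_sub, eval₂_X, eval₂_one, PP, eval₂_finsetSum] at e
    rw [← e, FF, mul_sum]
    refine sum_congr rfl fun i _ => ?_
    obtain ⟨e1, c, e2⟩ := hy i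
    have e3 := abs_le.1 (h.le i)
    rw [eval₂_sub, eval₂_X_pow, eval₂_X_pow, mul_sub, pow_mul, pow_mul, ← pow_add, ← pow_add,
      NRM_.pw hu (a := ((R : ℤ) + x i).toNat) (b := R + y i) ⟨c, ?_⟩,
      NRM_.pw hu (a := ((R : ℤ) - x i).toNat) (b := R + (m + 1 - y i)) ⟨-c - 1, ?_⟩]
    · rw [Int.toNat_of_nonneg (by omega), Nat.cast_add, Nat.cast_sub e1.le]
      linear_combination -e2
    · rw [Int.toNat_of_nonneg (by omega), Nat.cast_add]
      linear_combination e2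
  have h5 : (∏ a ∈ Ico 1 (m + 1), (w ^ a) ^ R) * ∏ a ∈ Ico 1 (m + 1), FF (m + 1) w y a =
      ((-1) ^ m * ((m : ZMod l) + 1)) ^ 7 := by
    rw [← prod_mul_distrib, prod_congr rfl fun a _ => h4 a, prod_mul_distrib, h1, prod_pow, h2,
      mul_one]
  have h6 : ((-1 : ZMod l) ^ m) ^ 14 = 1 := by
    rw [← pow_mul, mul_comm, pow_mul]
    norm_num
  rw [← one_mul (_ ^ 2), ← h3, ← mul_pow, h5, ← pow_mul, mul_pow, h6, one_mul, Nat.cast_add,
    Nat.cast_one]

end Pool.Agent.Lib.SH56
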