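import Mathlib
import Pool.Agent.Lib.SH56.Blue

open Polynomial Finset

namespace Pool.Agent.Lib.SH56

namespace PAIR_

theorem neg_eq_iff {z : ℂ} {n : ℕ} (hn : 0 < n) (hz : IsPrimitiveRoot z n) (a b : ℤ) :
    z ^ (-b) = z ^ a ↔ (n : ℤ) ∣ a + b := by
  have h0 : z ≠ 0 := hz.ne_zero hn.ne'
  rw [← hz.zpow_eq_one_iff_dvd, zpow_add₀ h0, zpow_neg]
  constructor
  · intro h
    rw [← h]
    exact inv_mul_cancel₀ (zpow_ne_zero b h0)
  · intro h
    exact (eq_inv_of_mul_eq_one_left h).symm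

end PAIR_

theorem bPAIR : PAIR := by
  intro x hx m n z hn hz hc h0
  have hA : ∀ i, univ.filter (fun j => m ∣ x j - x i) = {i} := by
    intro i
    obtain ⟨a, ha⟩ := card_eq_one.1 (hc i).1
    have hi : i ∈ univ.filter (fun j => m ∣ x j - x i) :=
      mem_filter.2 ⟨mem_univ _, by rw [sub_self]; exact dvd_zero m⟩
    rw [ha, mem_singleton] at hi
    rw [ha, hi]
  choose τ hτ using fun i => card_eq_one.1 (hc i).2
  have hm : ∀ i, m ∣ x i + x (τ i) := by
    intro i
    have hi : τ i ∈ univ.filter (fun j => m ∣ x j + x i) := by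
      rw [hτ i]
      exact mem_singleton_self _
    rw [add_comm]
    exact (mem_filter.1 hi).2
  have hinv : Function.Involutive τ := by
    intro i
    have hi : i ∈ univ.filter (fun j => m ∣ x j + x (τ i)) := mem_filter.2 ⟨mem_univ _, hm i⟩
    rw [hτ (τ i), mem_singleton] at hi
    exact hi.symm
  have hd : ∀ i, (n : ℤ) ∣ x i + x (τ i) := by
    intro i
    have h := h0 (x i)
    unfold cls at h
    rw [hA i, hτ i, sum_singleton, sum_singleton] at h
    rw [← PAIR_.neg_eq_iff hn hz]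
    push_cast at h
    linear_combination -h
  refine ⟨⟨hinv.toPerm τ, hd, hm⟩, fun z' hz' h => ?_⟩
  unfold cls at h
  rw [hA 0, hτ 0, sum_singleton, sum_singleton, (PAIR_.neg_eq_iff hn hz' _ _).2 (hd 0),
    ← add_mul, mul_eq_zero] at h
  rcases h with h | h
  · exact hx.2.2.2 0 (τ 0) (by exact_mod_cast h)
  · exact zpow_ne_zero _ (hz'.ne_zero hn.ne') h

end Pool.Agent.Lib.SH56
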