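import Pool.Agent.Lib.SH56.Blue

/-! Row PATH: two disjoint near-perfect matchings on seven points. -/

namespace Pool.Agent.Lib.SH56

namespace PATH_

/-- seven distinct points give a permutation -/
lemma perm (a0 a1 a2 a3 a4 a5 a6 : Fin 7) (h : [a0, a1, a2, a3, a4, a5, a6].Nodup) :
    (∃ e : Equiv.Perm (Fin 7), e 0 = a0 ∧ e 1 = a1 ∧ e 2 = a2 ∧ e 3 = a3 ∧ e 4 = a4 ∧ e 5 = a5 ∧
      e 6 = a6) ∧ ∀ y, y ∈ [a0, a1, a2, a3, a4, a5, a6] := by
  have hi : Function.Injective ![a0, a1, a2, a3, a4, a5, a6] := List.nodup_ofFn.1 h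
  have hb := Finite.injective_iff_bijective.1 hi
  refine ⟨⟨Equiv.ofBijective _ hb, rfl, rfl, rfl, rfl, rfl, rfl, rfl⟩, fun y => ?_⟩
  exact (List.mem_ofFn' ![a0, a1, a2, a3, a4, a5, a6] y).2 (hb.2 y)

lemma fresh (l : List (Fin 7)) (h : l.length < 7) : ∃ b, b ∉ l := by
  by_contra hc
  have h1 : (Finset.univ : Finset (Fin 7)) ⊆ l.toFinset := fun b _ =>
    List.mem_toFinset.2 (by_contra fun hb => hc ⟨b, hb⟩)
  have h2 := (Finset.card_le_card h1).trans (List.toFinset_card_le l)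
  rw [Finset.card_univ, Fintype.card_fin] at h2
  omega

variable {α : Type} (s t : α → α) (a f : α)

lemma nd7 (hs : ∀ i, s (s i) = i) (ht : ∀ i, t (t i) = i) (ha : s a = a)
    (ha' : ∀ y, s y = y → y = a) (h0 : s a ≠ t a) (h2 : t (s (t a)) ≠ s (t a))
    (h4 : t (s (t (s (t a)))) ≠ s (t (s (t a)))) :
    [a, t a, s (t a), t (s (t a)), s (t (s (t a))), t (s (t (s (t a)))),
      s (t (s (t (s (t a)))))].Nodup := by
  simp only [List.nodup_cons, List.mem_cons, List.not_mem_nil, List.nodup_nil, not_or]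
  and_intros <;> grind

lemma nd5 (hs : ∀ i, s (s i) = i) (ht : ∀ i, t (t i) = i) (ha : s a = a)
    (ha' : ∀ y, s y = y → y = a) (hne : ∀ i, s i ≠ t i) (h2 : t (s (t a)) ≠ s (t a)) (b : α)
    (hb : b ∉ [a, t a, s (t a), t (s (t a)), s (t (s (t a)))]) :
    [a, t a, s (t a), t (s (t a)), s (t (s (t a))), b, s b].Nodup := by
  simp only [List.nodup_cons, List.mem_cons, List.not_mem_nil, List.nodup_nil] at hb ⊢
  grind

lemma nd3 (hs : ∀ i, s (s i) = i) (ht : ∀ i, t (t i) = i) (ha : s a = a)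
    (ha' : ∀ y, s y = y → y = a) (hf' : ∀ y, t y = y → y = f) (hne : ∀ i, s i ≠ t i)
    (h2 : t (s (t a)) = s (t a)) (b : α) (hb : b ∉ [a, t a, s (t a)]) :
    [a, t a, s (t a), b, s b, t (s b), s (t (s b))].Nodup := by
  simp only [List.nodup_cons, List.mem_cons, List.not_mem_nil, List.nodup_nil, not_or] at hb ⊢
  and_intros <;> grind

/-- a point outside the matched pairs -/
lemma last (ht : ∀ i, t (t i) = i) (a0 a1 a2 a3 a4 a5 a6 : α)
    (h : [a0, a1, a2, a3, a4, a5, a6].Nodup) (h0 : t a0 = a1) (h4 : t a4 = a5)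
    (hm : t a6 ∈ [a0, a1, a2, a3, a4, a5, a6]) : t a6 = a2 ∨ t a6 = a3 ∨ t a6 = a6 := by
  simp only [List.nodup_cons, List.mem_cons, List.not_mem_nil, List.nodup_nil] at h hm
  grind

end PATH_

theorem bPATH : PATH := by
  rintro σ τ hs ht ⟨a, ha, ha'⟩ ⟨f, -, hf'⟩ hne
  by_cases h2 : τ (σ (τ a)) = σ (τ a)
  · obtain ⟨b, hb⟩ := PATH_.fresh [a, τ a, σ (τ a)] (by simp)
    have hn := PATH_.nd3 σ τ a f hs ht ha ha' hf' hne h2 b hb
    obtain ⟨⟨e, e0, e1, e2, e3, e4, e5, e6⟩, hall⟩ := PATH_.perm _ _ _ _ _ _ _ hn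
    have hl := PATH_.last τ ht _ _ _ _ _ _ _ hn rfl rfl (hall _)
    refine ⟨e, ?_⟩
    rw [e0, e1, e2, e3, e4, e5, e6]
    refine ⟨ha, rfl, rfl, rfl, rfl, rfl, Or.inr ⟨h2, ?_⟩⟩
    have h6 : σ (τ a) ≠ σ (τ (σ b)) := fun h => by simp [h] at hn
    rcases hl with h | h | h
    · exact absurd (τ.injective (h2.trans h.symm)) h6
    · exact h
    · exact absurd ((hf' _ h2).trans (hf' _ h).symm) h6
  by_cases h4 : τ (σ (τ (σ (τ a)))) = σ (τ (σ (τ a)))
  · obtain ⟨b, hb⟩ := PATH_.fresh [a, τ a, σ (τ a), τ (σ (τ a)), σ (τ (σ (τ a)))] (by simp)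
    have hn := PATH_.nd5 σ τ a hs ht ha ha' hne h2 b hb
    have hm := (PATH_.perm _ _ _ _ _ _ _ hn).2 (τ b)
    have h5 := hf' _ h4
    have h6 := hf' b
    have h7 := hne b
    have h8 := ht b
    have h9 := ht a
    have h10 := ht (σ (τ a))
    simp only [List.mem_cons, List.not_mem_nil] at hm hb
    exfalso
    grind
  · have hn := PATH_.nd7 σ τ a hs ht ha ha' (hne a) h2 h4
    obtain ⟨⟨e, e0, e1, e2, e3, e4, e5, e6⟩, hall⟩ := PATH_.perm _ _ _ _ _ _ _ hn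
    have hl := PATH_.last τ ht _ _ _ _ _ _ _ hn rfl rfl (hall _)
    refine ⟨e, ?_⟩
    rw [e0, e1, e2, e3, e4, e5, e6]
    refine ⟨ha, rfl, rfl, rfl, rfl, rfl, Or.inl ⟨rfl, ?_⟩⟩
    have h8 := ht (σ (τ (σ (τ (σ (τ a))))))
    have h10 := ht (σ (τ a))
    simp only [List.nodup_cons, List.mem_cons, List.not_mem_nil, List.nodup_nil] at hn
    grind

end Pool.Agent.Lib.SH56
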