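import Pool.Agent.Lib.SH56.Blue

/-! Row RED1: a short multiple of the seventh power of `X - 1` has seven plus and seven minus
exponents. -/

open Polynomial Finset

namespace Pool.Agent.Lib.SH56

namespace RED1_

theorem fn (T : Finset ℕ) (c : ℕ → ℕ) : ∃ (k : ℕ) (a : Fin k → ℕ), (∀ i, 0 < c (a i)) ∧
    k = ∑ j ∈ T, c j ∧ ∑ i, (X : ℤ[X]) ^ a i = ∑ j ∈ T, C (c j : ℤ) * X ^ j := by
  let e := (Fintype.equivFin (Σ j : T, Fin (c j))).symm
  refine ⟨_, fun i => (e i).1, fun i => (e i).2.pos, ?_, ?_⟩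
  · rw [Fintype.card_sigma, ← Finset.sum_coe_sort T c]
    exact Finset.sum_congr rfl fun j _ => Fintype.card_fin _
  · rw [Equiv.sum_comp e fun x => (X : ℤ[X]) ^ (x.1 : ℕ), Fintype.sum_sigma,
      ← Finset.sum_coe_sort T fun j => C (c j : ℤ) * (X : ℤ[X]) ^ j]
    refine Finset.sum_congr rfl fun j _ => ?_
    refine (Finset.sum_const ((X : ℤ[X]) ^ (j : ℕ))).trans ?_
    rw [Finset.card_univ, Fintype.card_fin, nsmul_eq_mul, map_natCast]

theorem xd (c : ℤ) (n : ℕ) : X * derivative (C c * X ^ n : ℤ[X]) = C (c * n) * X ^ n := by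
  cases n with
  | zero => simp
  | succ n =>
    rw [derivative_C_mul, derivative_X_pow_succ, Nat.cast_succ, map_mul]
    ring

theorem dv {k l : ℕ} (a : Fin k → ℕ) (b : Fin l → ℕ) (j : ℕ) : ∀ m : ℕ,
    (X - 1 : ℤ[X]) ^ (m + j) ∣ ∑ i, X ^ a i - ∑ i, X ^ b i →
    (X - 1 : ℤ[X]) ^ m ∣
      ∑ i, C ((a i : ℤ) ^ j) * X ^ a i - ∑ i, C ((b i : ℤ) ^ j) * X ^ b i := by
  induction j with
  | zero => intro m h; simpa using h
  | succ j ih =>
    intro m h
    have h1 := pow_sub_one_dvd_derivative_of_pow_dvd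
      (ih (m + 1) (by rw [add_assoc, add_comm 1 j]; exact h))
    have h2 := h1.mul_left X
    rw [Nat.add_sub_cancel, derivative_sub, mul_sub, derivative_sum, derivative_sum, mul_sum,
      mul_sum] at h2
    simp only [xd, ← pow_succ] at h2
    exact h2

theorem ps {k l m j : ℕ} (a : Fin k → ℕ) (b : Fin l → ℕ)
    (h : (X - 1 : ℤ[X]) ^ m ∣ ∑ i, X ^ a i - ∑ i, X ^ b i) (hj : j < m) :
    ∑ i, (a i : ℤ) ^ j = ∑ i, (b i : ℤ) ^ j := by
  obtain ⟨q, hq⟩ := dv a b j 1 ((pow_dvd_pow _ (by omega)).trans h)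
  have e := congrArg (eval 1) hq
  simp only [eval_sub, eval_finsetSum, eval_mul, eval_C, eval_pow, eval_X, one_pow, mul_one,
    eval_one, sub_self, pow_one, zero_mul] at e
  exact sub_eq_zero.1 e

theorem newton {k : ℕ} (a b : Fin k → ℤ) (h : ∀ j ≤ k, ∑ i, a i ^ j = ∑ i, b i ^ j) (i : Fin k) :
    ∃ j, a i = b j := by
  have hp : ∀ (f : Fin k → ℤ) (j : ℕ),
      MvPolynomial.aeval f (MvPolynomial.psum (Fin k) ℤ j) = ∑ i, f i ^ j := fun f j => by
    simp [MvPolynomial.psum]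
  have he : ∀ j, j ≤ k → MvPolynomial.aeval a (MvPolynomial.esymm (Fin k) ℤ j) =
      MvPolynomial.aeval b (MvPolynomial.esymm (Fin k) ℤ j) := by
    intro j
    induction j using Nat.strong_induction_on with
    | _ j ih =>
      intro hj
      rcases Nat.eq_zero_or_pos j with rfl | h0
      · rw [MvPolynomial.esymm_zero, map_one, map_one]
      have ea := congrArg (MvPolynomial.aeval a) (MvPolynomial.mul_esymm_eq_sum (Fin k) ℤ j)
      have eb := congrArg (MvPolynomial.aeval b) (MvPolynomial.mul_esymm_eq_sum (Fin k) ℤ j)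
      simp only [map_mul, map_sum, map_pow, map_neg, map_one, map_natCast, hp] at ea eb
      refine mul_left_cancel₀ (Nat.cast_ne_zero.2 h0.ne' : (j : ℤ) ≠ 0) ?_
      rw [ea, eb]
      refine congrArg _ (Finset.sum_congr rfl fun p hp' => ?_)
      rw [Finset.mem_filter, HasAntidiagonal.mem_antidiagonal] at hp'
      rw [ih p.1 hp'.2 (by omega), h p.2 (by omega)]
  have hc : ∀ f : Fin k → ℤ, Multiset.card ((univ : Finset (Fin k)).val.map f) = k := fun f => by
    rw [Multiset.card_map]; exact Fintype.card_fin k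
  have e : ((univ.val.map a).map fun r => (X : ℤ[X]) + C r).prod =
      ((univ.val.map b).map fun r => (X : ℤ[X]) + C r).prod := by
    rw [Multiset.prod_X_add_C_eq_sum_esymm, Multiset.prod_X_add_C_eq_sum_esymm, hc, hc]
    refine Finset.sum_congr rfl fun j hj => ?_
    have h1 := he j (Nat.lt_succ_iff.1 (Finset.mem_range.1 hj))
    rw [MvPolynomial.aeval_esymm_eq_multiset_esymm, MvPolynomial.aeval_esymm_eq_multiset_esymm]
      at h1
    rw [h1]
  rw [Multiset.map_map, Multiset.map_map] at e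
  have e' : ∏ j, (X + C (a j) : ℤ[X]) = ∏ j, (X + C (b j) : ℤ[X]) := e
  have e2 := congrArg (eval (-a i)) e'
  simp only [eval_prod, eval_add, eval_X, eval_C] at e2
  rw [Finset.prod_eq_zero (mem_univ i) (neg_add_cancel _), eq_comm, Finset.prod_eq_zero_iff] at e2
  obtain ⟨j, -, hj⟩ := e2
  exact ⟨j, neg_add_eq_zero.1 hj⟩

theorem cyc_ne (s : Multiset ℕ) : cyc s ≠ 0 := fun h => by
  obtain ⟨n, -, hn⟩ := Multiset.mem_map.1 (Multiset.prod_eq_zero_iff.1 h)
  exact cyclotomic_ne_zero n ℤ hn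

end RED1_

open RED1_ in
theorem bRED1 : RED1 := by
  intro s _ hl
  have hX : (X - 1 : ℤ[X]) ≠ 0 := by rw [← C_1]; exact X_sub_C_ne_zero 1
  have h0 : (X - 1 : ℤ[X]) ^ 7 * cyc s ≠ 0 := mul_ne_zero (pow_ne_zero _ hX) (cyc_ne s)
  have h7 : (X - 1 : ℤ[X]) ^ 7 ∣ (X - 1) ^ 7 * cyc s := Dvd.intro _ rfl
  have h8 : 1 ∈ s → (X - 1 : ℤ[X]) ^ 8 ∣ (X - 1) ^ 7 * cyc s := fun h1 => by
    rw [pow_succ (X - 1 : ℤ[X]) 7]
    refine mul_dvd_mul_left _ (Multiset.dvd_prod (Multiset.mem_map.2 ⟨1, h1, ?_⟩))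
    exact cyclotomic_one ℤ
  generalize (X - 1 : ℤ[X]) ^ 7 * cyc s = P at hl h0 h7 h8 ⊢
  obtain ⟨k, a, ha, hk, hA⟩ := fn P.support fun j => (P.coeff j).toNat
  obtain ⟨l, b, hb, hl', hB⟩ := fn P.support fun j => (-P.coeff j).toNat
  have hab : ∀ i j, a i ≠ b j := fun i j e => by
    have h1 : 0 < (P.coeff (a i)).toNat := ha i
    have h2 : 0 < (-P.coeff (b j)).toNat := hb j
    rw [e] at h1; omega
  have hP : P = ∑ i, X ^ a i - ∑ i, X ^ b i := by
    rw [hA, hB, ← Finset.sum_sub_distrib]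
    refine P.as_sum_support_C_mul_X_pow.trans (Finset.sum_congr rfl fun j _ => ?_)
    rw [← sub_mul, ← map_sub, Int.toNat_sub_toNat_neg]
  have hlen : (k : ℤ) + l = len P := by
    rw [hk, hl', Nat.cast_sum, Nat.cast_sum, ← Finset.sum_add_distrib]
    refine Finset.sum_congr rfl fun j _ => ?_
    rcases abs_cases (P.coeff j) with h | h <;> omega
  rw [hP] at h7 h8
  have hkl : k = l := by
    have e := ps a b h7 (j := 0) (by omega)
    simp only [pow_zero, Finset.sum_const, Finset.card_univ, Fintype.card_fin, nsmul_eq_mul,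
      mul_one] at e
    exact Nat.cast_injective e
  clear hk hl' hA hB
  subst hkl
  have key : ∀ m, (X - 1 : ℤ[X]) ^ m ∣ ∑ i, X ^ a i - ∑ i, X ^ b i → m ≤ k := fun m hm => by
    by_contra hc
    rcases Nat.eq_zero_or_pos k with rfl | hk
    · exact h0 (by rw [hP, Fin.sum_univ_zero, Fin.sum_univ_zero, sub_self])
    obtain ⟨j, hj⟩ := newton (fun i => (a i : ℤ)) (fun i => (b i : ℤ))
      (fun j hj => ps a b hm (by omega)) ⟨0, hk⟩
    exact hab _ j (Nat.cast_injective hj)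
  have k7 : k = 7 := by have := key 7 h7; omega
  subst k7
  refine ⟨a, b, hab, hP.trans (Finset.sum_sub_distrib _ _).symm,
    fun j hj => ps a b h7 (by omega), fun h1 => ?_⟩
  have := key 8 (h8 h1)
  omega

end Pool.Agent.Lib.SH56
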