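import Pool.Agent.Lib.SH56.Blue

/-! Row RED2: an antireciprocal polynomial of length fourteen is antisymmetric. -/

open Polynomial Finset

namespace Pool.Agent.Lib.SH56

namespace RED2_

/-- multiplicity of an exponent -/
def ct (a : Fin 7 → ℕ) (n : ℕ) : ℕ := (univ.filter fun i => n = a i).card

lemma coeff_eq (a b : Fin 7 → ℕ) (n : ℕ) :
    (∑ i, ((X : ℤ[X]) ^ a i - X ^ b i)).coeff n = (ct a n : ℤ) - ct b n := by
  rw [finsetSum_coeff]
  simp only [coeff_sub, coeff_X_pow, Finset.sum_sub_distrib, ct, Finset.sum_boole]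

lemma ct_pos (a : Fin 7 → ℕ) (n : ℕ) : 0 < ct a n ↔ ∃ i, n = a i := by
  unfold ct
  rw [Finset.card_pos]
  constructor
  · rintro ⟨i, hi⟩; exact ⟨i, (mem_filter.1 hi).2⟩
  · rintro ⟨i, hi⟩; exact ⟨i, mem_filter.2 ⟨mem_univ _, hi⟩⟩

lemma ct_disj {a b : Fin 7 → ℕ} (h : ∀ i j, a i ≠ b j) (n : ℕ) : ct a n = 0 ∨ ct b n = 0 := by
  by_contra hn
  rw [not_or] at hn
  obtain ⟨i, hi⟩ := (ct_pos a n).1 (Nat.pos_of_ne_zero hn.1)
  obtain ⟨j, hj⟩ := (ct_pos b n).1 (Nat.pos_of_ne_zero hn.2)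
  exact h i j (hi.symm.trans hj)

lemma sum_eq {M : Type} [AddCommMonoid M] {b c : Fin 7 → ℕ} (h : ∀ n, ct b n = ct c n)
    (f : ℕ → M) : ∑ i, f (b i) = ∑ i, f (c i) := by
  have e : Multiset.map b univ.val = Multiset.map c univ.val := by
    refine Multiset.ext.2 fun n => ?_
    rw [Multiset.count_map, Multiset.count_map]
    exact h n
  have e2 := congrArg (fun m => (Multiset.map f m).sum) e
  simp only [Multiset.map_map] at e2
  exact e2

end RED2_

open RED2_ in
theorem bRED2 (hREV : REV) : RED2 := by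
  intro s a b hs hab hP hk
  obtain ⟨hrev, hmon, -⟩ := hREV s hs
  rw [hP] at hrev hmon
  set d := (∑ i, ((X : ℤ[X]) ^ a i - X ^ b i)).natDegree with hd
  have ha : ∀ i, a i ≤ d := fun i => by
    refine le_natDegree_of_ne_zero ?_
    rw [coeff_eq]
    have h1 := (ct_pos a (a i)).2 ⟨i, rfl⟩
    have h2 := ct_disj hab (a i)
    omega
  have hb : ∀ i, b i ≤ d := fun i => by
    refine le_natDegree_of_ne_zero ?_
    rw [coeff_eq]
    have h1 := (ct_pos b (b i)).2 ⟨i, rfl⟩
    have h2 := ct_disj hab (b i)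
    omega
  have hc : ∀ n, ct b n = ct (fun i => d - a i) n := by
    intro n
    by_cases hn : n ≤ d
    · have h1 := congrArg (fun p => Polynomial.coeff p n) hrev
      simp only [coeff_reverse, coeff_neg, coeff_eq] at h1
      rw [← hd, revAt_le hn] at h1
      have h2 := ct_disj hab n
      have h3 := ct_disj hab (d - n)
      have h4 : ct (fun i => d - a i) n = ct a (d - n) := by
        unfold ct
        refine congrArg Finset.card (Finset.filter_congr fun i _ => ?_)
        have := ha i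
        show n = d - a i ↔ d - n = a i
        omega
      omega
    · have h1 : ¬ 0 < ct b n := fun h => by
        obtain ⟨i, hi⟩ := (ct_pos b n).1 h
        have := hb i
        omega
      have h2 : ¬ 0 < ct (fun i => d - a i) n := fun h => by
        obtain ⟨i, hi⟩ := (ct_pos _ n).1 h
        have : n = d - a i := hi
        omega
      omega
  have hz : ∀ f : ℤ → ℤ, ∑ i, f (b i) = ∑ i, f ((d : ℤ) - a i) := fun f => by
    rw [sum_eq hc fun n => f (n : ℤ)]
    exact Finset.sum_congr rfl fun i _ => by rw [Nat.cast_sub (ha i)]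
  have k1 := hk 1 (by norm_num)
  have k2 := hk 2 (by norm_num)
  have k3 := hk 3 (by norm_num)
  have k4 := hk 4 (by norm_num)
  have k5 := hk 5 (by norm_num)
  have z0 := hz fun t => t
  simp only [Fin.sum_univ_seven, pow_one] at k1 k2 k3 k4 k5 z0
  obtain ⟨R, hR⟩ : ∃ R : ℕ, d = 2 * R := ⟨d / 2, by omega⟩
  have hR' : (d : ℤ) = 2 * R := by exact_mod_cast hR
  have z3 := hz fun t => (t - R) ^ 3
  have z5 := hz fun t => (t - R) ^ 5
  simp only [Fin.sum_univ_seven, hR'] at z0 z3 z5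
  refine ⟨fun i => (a i : ℤ) - R, R, ⟨?_, ?_, ?_, fun i j hij => ?_⟩, fun i => ?_, ?_, hs, ?_⟩
  · simp only [Fin.sum_univ_seven]; omega
  · have : 2 * ∑ i, ((a i : ℤ) - R) ^ 3 = 0 := by
      simp only [Fin.sum_univ_seven]
      linear_combination z3 + k3 - 3 * (R : ℤ) * k2 + 3 * (R : ℤ) ^ 2 * k1
    exact (mul_eq_zero.1 this).resolve_left two_ne_zero
  · have : 2 * ∑ i, ((a i : ℤ) - R) ^ 5 = 0 := by
      simp only [Fin.sum_univ_seven]
      linear_combination z5 + k5 - 5 * (R : ℤ) * k4 + 10 * (R : ℤ) ^ 2 * k3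
        - 10 * (R : ℤ) ^ 3 * k2 + 5 * (R : ℤ) ^ 4 * k1
    exact (mul_eq_zero.1 this).resolve_left two_ne_zero
  · have hij' : (a i : ℤ) - R + ((a j : ℤ) - R) = 0 := hij
    have h1 : 0 < ct (fun i => d - a i) (a i) :=
      (ct_pos _ _).2 ⟨j, by show a i = d - a j; have := ha j; omega⟩
    rw [← hc] at h1
    obtain ⟨l, hl⟩ := (ct_pos b _).1 h1
    exact hab i l hl
  · have := ha i
    rw [abs_le]
    constructor <;> omega
  · have h1 : (∑ i, ((X : ℤ[X]) ^ a i - X ^ b i)).coeff d = 1 := hmon.coeff_natDegree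
    rw [coeff_eq] at h1
    obtain ⟨i, hi⟩ := (ct_pos a d).1 (by omega)
    exact ⟨i, by show (a i : ℤ) - R = R; omega⟩
  · rw [hP, PP, Finset.sum_sub_distrib, Finset.sum_sub_distrib,
      sum_eq hc fun n => (X : ℤ[X]) ^ n]
    refine congrArg₂ (· - ·) (Finset.sum_congr rfl fun i _ => ?_)
      (Finset.sum_congr rfl fun i _ => ?_)
    · have e : ((R : ℤ) + ((a i : ℤ) - R)).toNat = a i := by omega
      rw [e]
    · have := ha i
      have e : ((R : ℤ) - ((a i : ℤ) - R)).toNat = d - a i := by omega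
      rw [e]

end Pool.Agent.Lib.SH56
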