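import Pool.Agent.Lib.SH56.Blue

open Polynomial Finset

namespace Pool.Agent.Lib.SH56

namespace RED3_

theorem tn (p : ℕ) (u : ℤ) (hu : 0 ≤ u) : ((p : ℤ) * u).toNat = p * u.toNat := by
  obtain ⟨a, rfl⟩ := Int.eq_ofNat_of_zero_le hu
  rw [← Nat.cast_mul, Int.toNat_natCast, Int.toNat_natCast]

theorem cyc_monic (s : Multiset ℕ) : (cyc s).Monic :=
  monic_multiset_prod_of_monic s _ fun n _ => cyclotomic.monic n ℤ

theorem root_cyc {s : Multiset ℕ} (hs : ∀ n ∈ s, 2 ≤ n) {w : ℂ}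
    (h : aeval w ((X - 1) ^ 7 * cyc s) = 0) : ∃ n, 0 < n ∧ w ^ n = 1 := by
  rw [map_mul, mul_eq_zero] at h
  rcases h with h | h
  · rw [map_pow, pow_eq_zero_iff (by norm_num), map_sub, aeval_X, map_one, sub_eq_zero] at h
    exact ⟨1, one_pos, by rw [h, one_pow]⟩
  · unfold cyc at h
    rw [map_multiset_prod, Multiset.prod_eq_zero_iff, Multiset.map_map, Multiset.mem_map] at h
    obtain ⟨n, hn, h0⟩ := h
    have h1 := aeval_eq_zero_of_dvd_aeval_eq_zero (cyclotomic.dvd_X_pow_sub_one n ℤ) h0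
    rw [map_sub, map_pow, aeval_X, map_one, sub_eq_zero] at h1
    exact ⟨n, lt_of_lt_of_le two_pos (hs n hn), h1⟩

theorem cyc_one {s : Multiset ℕ} (hs : ∀ n ∈ s, 2 ≤ n) : ¬ (cyc s).IsRoot 1 := by
  intro h
  unfold cyc at h
  rw [IsRoot, eval_multiset_prod, Multiset.prod_eq_zero_iff, Multiset.map_map,
    Multiset.mem_map] at h
  obtain ⟨n, hn, h0⟩ := h
  have h1 : IsPrimitiveRoot (1 : ℤ) n :=
    (isRoot_cyclotomic_iff_charZero (lt_of_lt_of_le two_pos (hs n hn))).1 h0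
  exact h1.ne_one (hs n hn) rfl

theorem split (s : Multiset ℕ) :
    cyc s = (X - 1) ^ s.count 1 * cyc (s.filter fun n => ¬ n = 1) := by
  conv_lhs => rw [← Multiset.filter_add_not (fun n => n = 1) s]
  unfold cyc
  rw [Multiset.map_add, Multiset.prod_add, Multiset.filter_eq', Multiset.map_replicate,
    Multiset.prod_replicate, cyclotomic_one]

theorem step (hK : KRON) (hD : DER7) {x : Fin 7 → ℤ} {R : ℕ} {s : Multiset ℕ} (h : Pre x R s)
    {p : ℕ} (hp : 0 < p) (hd : ∀ i, (p : ℤ) ∣ x i) :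
    ∃ x' R' s', Pre x' R' s' ∧ R = p * R' := by
  choose y hy using hd
  obtain ⟨i0, hi0⟩ := h.top
  have hR : p ∣ R := Int.natCast_dvd_natCast.1 ⟨y i0, by rw [← hi0, hy]⟩
  obtain ⟨R', rfl⟩ := hR
  have pp : (0 : ℤ) < p := by exact_mod_cast hp
  have p0 : (p : ℤ) ≠ 0 := pp.ne'
  have hpte : PTE y := by
    obtain ⟨h1, h3, h5, hne⟩ := h.pte
    refine ⟨?_, ?_, ?_, fun i j hij => hne i j (by rw [hy, hy, ← mul_add, hij, mul_zero])⟩
    · simp only [hy, ← Finset.mul_sum] at h1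
      exact (mul_eq_zero.1 h1).resolve_left p0
    · simp only [hy, mul_pow, ← Finset.mul_sum] at h3
      exact (mul_eq_zero.1 h3).resolve_left (pow_ne_zero _ p0)
    · simp only [hy, mul_pow, ← Finset.mul_sum] at h5
      exact (mul_eq_zero.1 h5).resolve_left (pow_ne_zero _ p0)
  have hle : ∀ i, |y i| ≤ R' := fun i => by
    have := h.le i
    rw [hy, abs_mul, Nat.abs_cast, Nat.cast_mul] at this
    exact le_of_mul_le_mul_left this pp
  have hex : expand ℤ p (PP y R') = PP x (p * R') := by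
    unfold PP
    rw [map_sum]
    refine Finset.sum_congr rfl fun i _ => ?_
    have h1 := abs_le.1 (hle i)
    rw [map_sub, map_pow, map_pow, expand_X, ← pow_mul, ← pow_mul, hy, Nat.cast_mul, ← mul_add,
      ← mul_sub, tn p _ (by omega), tn p _ (by omega)]
  have hm : (PP y R').Monic := by
    rw [← monic_expand_iff hp, hex, h.eq]
    exact ((monic_X_sub_C (1 : ℤ)).pow 7).mul (cyc_monic s)
  obtain ⟨t, ht, e⟩ := hK _ hm (fun z hz => by
    obtain ⟨w, rfl⟩ := IsAlgClosed.exists_pow_nat_eq z hp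
    rw [← expand_aeval, hex, h.eq] at hz
    obtain ⟨n, hn, h1⟩ := root_cyc h.two hz
    exact ⟨n, hn, by rw [← pow_mul, mul_comm, pow_mul, h1, one_pow]⟩)
  have h2 : ∀ n ∈ t.filter fun n => ¬ n = 1, 2 ≤ n := fun n hn => by
    have h3 := Multiset.mem_filter.1 hn
    have h4 := ht n h3.1
    have h5 := h3.2
    omega
  obtain ⟨d6, d7⟩ := hD y R' hpte hle
  have hy0 : ∏ j, y j ≠ 0 := Finset.prod_ne_zero_iff.2 fun j _ h0 =>
    hpte.2.2.2 j j (by rw [h0, add_zero])
  have m6 : 6 < rootMultiplicity 1 (PP y R') :=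
    (lt_rootMultiplicity_iff_isRoot_iterate_derivative hm.ne_zero).2 d6
  have m7 : ¬ 7 < rootMultiplicity 1 (PP y R') := fun h7 => by
    have h8 := (lt_rootMultiplicity_iff_isRoot_iterate_derivative hm.ne_zero).1 h7 7 le_rfl
    rw [IsRoot, d7] at h8
    exact mul_ne_zero (by norm_num) hy0 h8
  have mc : rootMultiplicity 1 (PP y R') = t.count 1 := by
    have h9 := hm.ne_zero
    rw [e, split] at h9 ⊢
    rw [rootMultiplicity_mul h9, rootMultiplicity_eq_zero (cyc_one h2), add_zero, ← C_1,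
      rootMultiplicity_X_sub_C_pow]
  have c7 : t.count 1 = 7 := by omega
  refine ⟨y, R', _, ⟨hpte, hle, ⟨i0, ?_⟩, h2, by rw [e, split, c7]⟩, rfl⟩
  rw [hy, Nat.cast_mul] at hi0
  exact mul_left_cancel₀ p0 hi0

end RED3_

theorem bRED3 (hKRON : KRON) (hDER7 : DER7) : RED3 := by
  intro x R
  induction R using Nat.strong_induction_on generalizing x with
  | _ R ih =>
    intro s h
    by_cases hp : ∀ p : ℕ, p.Prime → ∃ i, ¬ (p : ℤ) ∣ x i
    · exact ⟨x, R, s, h, hp⟩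
    simp only [not_forall, not_exists, not_not] at hp
    obtain ⟨p, hp, hd⟩ := hp
    obtain ⟨x', R', s', h', e⟩ := RED3_.step hKRON hDER7 h hp.pos hd
    obtain ⟨i, hi⟩ := h'.top
    have h0 : 0 < R' := Nat.pos_of_ne_zero fun h0 =>
      h'.pte.2.2.2 i i (by rw [hi, h0]; rfl)
    have h2 := hp.two_le
    exact ih R' (by rw [e]; nlinarith) x' s' h'

end Pool.Agent.Lib.SH56
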