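import Pool.Agent.Lib.SH56.Blue

open Polynomial Finset

namespace Pool.Agent.Lib.SH56

namespace REV_

theorem rev_one : (1 : ℤ[X]).reverse = 1 := by
  have := reverse_C (1 : ℤ)
  rwa [C_1] at this

theorem rev_pow_sub (n : ℕ) : ((X : ℤ[X]) ^ n - 1).reverse = -(X ^ n - 1) := by
  have h := reverse_add_C ((X : ℤ[X]) ^ n) (-1)
  have h2 := reverse_X_pow_mul (1 : ℤ[X]) n
  rw [mul_one, rev_one] at h2
  rw [h2, natDegree_X_pow, C_neg, C_1] at h
  rw [sub_eq_add_neg, h]
  ring

theorem rev_lin : ((X : ℤ[X]) - 1).reverse = -(X - 1) := by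
  have := rev_pow_sub 1
  rwa [pow_one] at this

theorem rev_prod (t : Finset ℕ) (h : ∀ i ∈ t, (cyclotomic i ℤ).reverse = cyclotomic i ℤ) :
    (∏ i ∈ t, cyclotomic i ℤ).reverse = ∏ i ∈ t, cyclotomic i ℤ := by
  induction t using Finset.induction_on with
  | empty => simpa using rev_one
  | insert a t ha ih =>
    rw [prod_insert ha, reverse_mul_of_domain, h a (mem_insert_self _ _),
      ih fun i hi => h i (mem_insert_of_mem hi)]

theorem rev_cyc (n : ℕ) : 2 ≤ n → (cyclotomic n ℤ).reverse = cyclotomic n ℤ := by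
  induction n using Nat.strong_induction_on with
  | _ n ih =>
    intro hn
    have h1 : 1 ∈ n.properDivisors := Nat.one_mem_properDivisors_iff_one_lt.2 (by omega)
    have h := prod_cyclotomic_eq_X_pow_sub_one (by omega : 0 < n) ℤ
    rw [← Nat.insert_self_properDivisors (by omega), prod_insert Nat.self_notMem_properDivisors,
      ← mul_prod_erase _ _ h1, cyclotomic_one] at h
    have hq := rev_prod (n.properDivisors.erase 1) fun i hi => by
      have h2 := mem_erase.1 hi
      have h3 := Nat.mem_properDivisors.1 h2.2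
      have h4 := Nat.pos_of_mem_properDivisors h2.2
      exact ih i h3.2 (by omega)
    have hr := congrArg reverse h
    rw [reverse_mul_of_domain, reverse_mul_of_domain, hq, rev_lin, rev_pow_sub, ← h] at hr
    have hne : ((X : ℤ[X]) - 1) * ∏ i ∈ n.properDivisors.erase 1, cyclotomic i ℤ ≠ 0 :=
      mul_ne_zero (by simpa using X_sub_C_ne_zero (1 : ℤ))
        (prod_ne_zero_iff.2 fun i _ => cyclotomic_ne_zero i ℤ)
    refine mul_right_cancel₀ hne ?_
    linear_combination -hr

theorem cyc_cons (a : ℕ) (s : Multiset ℕ) : cyc (a ::ₘ s) = cyclotomic a ℤ * cyc s := by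
  rw [cyc, Multiset.map_cons, Multiset.prod_cons, cyc]

theorem cyc_all (s : Multiset ℕ) : (∀ n ∈ s, 2 ≤ n) → (cyc s).reverse = cyc s ∧ (cyc s).Monic ∧
    (cyc s).natDegree = (s.map Nat.totient).sum := by
  induction s using Multiset.induction_on with
  | empty =>
    intro _
    have : cyc 0 = 1 := by simp [cyc]
    rw [this]
    exact ⟨rev_one, monic_one, by simp⟩
  | cons a s ih =>
    intro h
    obtain ⟨h1, h2, h3⟩ := ih fun n hn => h n (Multiset.mem_cons_of_mem hn)
    rw [cyc_cons, reverse_mul_of_domain, h1, rev_cyc a (h a (Multiset.mem_cons_self _ _)),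
      (cyclotomic.monic a ℤ).natDegree_mul h2, h3, natDegree_cyclotomic, Multiset.map_cons,
      Multiset.sum_cons]
    exact ⟨rfl, (cyclotomic.monic a ℤ).mul h2, rfl⟩

theorem rev_pow (k : ℕ) : (((X : ℤ[X]) - 1) ^ k).reverse = (-(X - 1)) ^ k := by
  induction k with
  | zero => simpa using rev_one
  | succ k ih => rw [pow_succ, reverse_mul_of_domain, ih, rev_lin, pow_succ]

end REV_

theorem bREV : REV := by
  intro s hs
  obtain ⟨h1, h2, h3⟩ := REV_.cyc_all s hs
  have hm : ((X : ℤ[X]) - 1).Monic := by simpa using monic_X_sub_C (1 : ℤ)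
  have hd : ((X : ℤ[X]) - 1).natDegree = 1 := by simpa using natDegree_X_sub_C (1 : ℤ)
  refine ⟨?_, (hm.pow 7).mul h2, ?_⟩
  · rw [reverse_mul_of_domain, h1, REV_.rev_pow]
    ring
  · rw [(hm.pow 7).natDegree_mul h2, hm.natDegree_pow, hd, h3]

end Pool.Agent.Lib.SH56
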