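import Pool.Agent.Lib.SH56.Blue

namespace Pool.Agent.Lib.SH56

namespace ROOT_

theorem sp_big {q : ℕ} (h : 11 ≤ q) : sp q = 1 := by
  unfold sp
  rw [if_neg (by omega), if_neg (by omega), if_neg (by omega), if_neg (by omega)]

theorem small {p : ℕ} (hp : p.Prime) (h : p < 11) : p ^ sp p ∣ MM := by
  have h2 := hp.two_le
  interval_cases p
  · exact ⟨3 ^ 7 * 5 ^ 3 * 7 ^ 2, by decide +kernel⟩
  · exact ⟨2 ^ 8 * 5 ^ 3 * 7 ^ 2, by decide +kernel⟩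
  · exact absurd hp (by decide)
  · exact ⟨2 ^ 8 * 3 ^ 7 * 7 ^ 2, by decide +kernel⟩
  · exact absurd hp (by decide)
  · exact ⟨2 ^ 8 * 3 ^ 7 * 5 ^ 3, by decide +kernel⟩
  · exact absurd hp (by decide)
  · exact absurd hp (by decide)
  · exact absurd hp (by decide)

end ROOT_

theorem bROOT (hROOT1 : ROOT1) (hROOT2 : ROOT2) : ROOT := by
  intro x R s hS n hn
  by_cases h1 : ∃ p : ℕ, p.Prime ∧ p ^ (sp p + 1) ∣ n
  · obtain ⟨p, hp, hd⟩ := h1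
    exact Or.inr (hROOT1 x R s hS n hn p hp hd)
  by_cases h2 : ∃ q : ℕ, q.Prime ∧ 11 ≤ q ∧ q ∣ n
  · obtain ⟨q, hq, h11, m, rfl⟩ := h2
    refine Or.inr (hROOT2 x R s hS m q hq h11 (fun hm => h1 ⟨q, hq, ?_⟩) hn)
    rw [ROOT_.sp_big h11, pow_succ, pow_one]
    exact Nat.mul_dvd_mul_left q hm
  refine Or.inl ((Nat.dvd_iff_prime_pow_dvd_dvd MM n).2 fun p k hp hk => ?_)
  rcases Nat.eq_zero_or_pos k with rfl | hk0
  · rw [pow_zero]
    exact one_dvd _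
  have hpn : p ∣ n := (dvd_pow_self p hk0.ne').trans hk
  have hlt : p < 11 := not_le.1 fun h => h2 ⟨p, hp, h, hpn⟩
  have hle : k ≤ sp p := not_lt.1 fun h => h1 ⟨p, hp, (pow_dvd_pow p h).trans hk⟩
  exact (pow_dvd_pow p hle).trans (ROOT_.small hp hlt)

end Pool.Agent.Lib.SH56
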