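import Pool.Agent.Lib.SH56.Blue

/-! Roots whose order has a deep prime power come from a matching. -/

open Polynomial Finset

namespace Pool.Agent.Lib.SH56

namespace ROOT1_

theorem two_le (x : Fin 7 → ℤ) (z : ℂ) (hz : z ≠ 0) (m : ℤ) (i : Fin 7)
    (h : cls x (fun _ => 1) (fun _ => -1) z m (x i) = 0) :
    2 ≤ cA x m (x i) + cB x m (x i) := by
  by_contra hlt
  have hi : i ∈ univ.filter (fun j => m ∣ x j - x i) := by simp
  have h1 : 0 < cA x m (x i) := card_pos.2 ⟨i, hi⟩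
  have hA : (univ.filter fun j => m ∣ x j - x i).card = 1 := by
    have : cA x m (x i) = 1 := by omega
    exact this
  have hB : (univ.filter fun j => m ∣ x j + x i) = ∅ := by
    have : cB x m (x i) = 0 := by omega
    exact card_eq_zero.1 this
  obtain ⟨a, ha⟩ := card_eq_one.1 hA
  unfold cls at h
  rw [ha, hB, sum_singleton, sum_empty, add_zero, Int.cast_one, one_mul] at h
  exact zpow_ne_zero _ hz h

end ROOT1_

theorem bROOT1 (hROOTS : ROOTS) (hBALL : BALL) (hDEEP : DEEP) (hPAIR : PAIR) : ROOT1 := by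
  intro x R s hS n hn p hp hd
  have h2 : 2 ≤ n := hS.two n hn
  have h0 : 0 < n := by omega
  have hz := Complex.isPrimitiveRoot_exp n h0.ne'
  obtain ⟨hr1, hr2⟩ := hROOTS x R s hS.toPre n _ hz
  have hb := hBALL x _ _ n p (sp p) _ h0 hp hz hd (hr1 hn)
  have hone := hDEEP x R s hS p (sp p) hp le_rfl
    fun i => ROOT1_.two_le x _ (hz.ne_zero h0.ne') _ i (hb _)
  obtain ⟨⟨σ, hσ, -⟩, hne⟩ := hPAIR x hS.pte _ n _ h0 hz hone hb
  refine ⟨?_, σ, hσ⟩
  have hc : 0 < s.count n := Multiset.count_pos.2 hn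
  by_contra hcn
  exact hne _ hz (hBALL x x x n p (sp p) _ h0 hp hz hd (hr2 (by omega)) _)

end Pool.Agent.Lib.SH56
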