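import Pool.Agent.Lib.SH56.Blue

/-! Row ROOT2: an index `q * n` with a large prime `q` not dividing `n` is matched. -/

open Polynomial Finset

namespace Pool.Agent.Lib.SH56

namespace ROOT2_

theorem cA_le (x : Fin 7 → ℤ) (m r : ℤ) : cA x m r ≤ 7 := by
  unfold cA
  exact (card_filter_le _ _).trans (by simp)

theorem not_dvd720 {q : ℕ} (hq : q.Prime) (h11 : 11 ≤ q) : ¬ q ∣ 720 := by
  intro h
  have e : (720 : ℕ) = 2 ^ 4 * 3 ^ 2 * 5 := by norm_num
  rw [e] at h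
  rcases (Nat.Prime.dvd_mul hq).1 h with h | h
  · rcases (Nat.Prime.dvd_mul hq).1 h with h | h
    · have := Nat.le_of_dvd (by norm_num) (hq.dvd_of_dvd_pow h)
      omega
    · have := Nat.le_of_dvd (by norm_num) (hq.dvd_of_dvd_pow h)
      omega
  · have := Nat.le_of_dvd (by norm_num) h
    omega

theorem empty_class (hEXC : EXC) (hSUMV : SUMV) (hSPLIT : SPLIT) {x : Fin 7 → ℤ} {R : ℕ}
    {s : Multiset ℕ} (h : Sol x R s) {q : ℕ} (hq : q.Prime) (h11 : 11 ≤ q) :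
    ∃ r : ℤ, cA x ((q : ℤ) ^ 1) r = 0 ∧ cB x ((q : ℤ) ^ 1) r = 0 := by
  by_cases hd : ∃ i, (q : ℤ) ∣ x i
  · obtain ⟨i, hi⟩ := hd
    have h1 := hSUMV x h.pte q hq i 1
    rw [Icc_self, sum_singleton] at h1
    have h2 : 1 ≤ cB x ((q : ℤ) ^ 1) (x i) := by
      unfold cB
      refine card_pos.2 ⟨i, mem_filter.2 ⟨mem_univ _, ?_⟩⟩
      rw [pow_one]
      exact dvd_add hi hi
    obtain ⟨L, e, hB, hV, i', hi'⟩ := hEXC x R s h q hq
    have he : e = 0 := by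
      by_contra hne
      have h3 : q ^ 1 ≤ q ^ e := Nat.pow_le_pow_right hq.pos (by omega)
      have h4 := cA_le x ((q : ℤ) ^ (L + 1)) (x i')
      rw [pow_one] at h3
      omega
    have hv : padicValNat q 720 = 0 := padicValNat.eq_zero_of_not_dvd (not_dvd720 hq h11)
    have hbal : Bal x ((q : ℤ) ^ 1) := (hB 1).2 (by omega)
    have h5 := (hSPLIT x 1 q 0 one_ne_zero hq.pos).1
    have h6 := cA_le x 1 0
    by_contra hno
    have h7 : ∀ j ∈ range q, 1 ≤ cA x (1 * (q : ℤ)) (0 + (j : ℤ) * 1) := by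
      intro j _
      by_contra hz
      apply hno
      refine ⟨0 + (j : ℤ) * 1, ?_, ?_⟩
      · rw [pow_one]
        rw [one_mul] at hz
        omega
      · rw [← hbal, pow_one]
        rw [one_mul] at hz
        omega
    have h8 := card_nsmul_le_sum (range q) _ 1 h7
    rw [card_range, smul_eq_mul, mul_one] at h8
    omega
  · refine ⟨0, ?_, ?_⟩
    · unfold cA
      refine card_eq_zero.2 (filter_eq_empty_iff.2 fun j _ hj => hd ⟨j, ?_⟩)
      rwa [pow_one, sub_zero] at hj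
    · unfold cB
      refine card_eq_zero.2 (filter_eq_empty_iff.2 fun j _ hj => hd ⟨j, ?_⟩)
      rwa [pow_one, add_zero] at hj

theorem const_of_step {f : ℤ → ℂ} (h : ∀ r, f r = f (r + 1)) (r : ℤ) : f r = f 0 := by
  induction r using Int.induction_on with
  | zero => rfl
  | succ k ih => rw [← h, ih]
  | pred k ih => rw [h, sub_add_cancel, ih]

theorem cls_empty {x α β : Fin 7 → ℤ} {z : ℂ} {m r : ℤ} (hA : cA x m r = 0) (hB : cB x m r = 0) :
    cls x α β z m r = 0 := by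
  unfold cA at hA
  unfold cB at hB
  unfold cls
  rw [card_eq_zero.1 hA, card_eq_zero.1 hB, sum_empty, sum_empty, add_zero]

theorem cls_zero (hSIB : SIB) {x α β : Fin 7 → ℤ} {n q : ℕ} {z : ℂ} (hn : 0 < n) (hq : q.Prime)
    (hqn : ¬ q ∣ n) (hz : IsPrimitiveRoot z (q * n)) (ht : tot x α β z = 0) {r0 : ℤ}
    (hA : cA x ((q : ℤ) ^ 1) r0 = 0) (hB : cB x ((q : ℤ) ^ 1) r0 = 0) :
    ∃ η : ℂ, IsPrimitiveRoot η n ∧ ∀ r, cls x α β η ((q : ℤ) ^ 1) r = 0 := by
  have hz' : IsPrimitiveRoot z (q ^ (0 + 1) * n) := by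
    rw [zero_add, pow_one]
    exact hz
  obtain ⟨η, hη, hs⟩ := hSIB x α β n q 0 z hn hq hqn hz' ht
  refine ⟨η, hη, fun r => ?_⟩
  have hs' : ∀ r, cls x α β η ((q : ℤ) ^ 1) r = cls x α β η ((q : ℤ) ^ 1) (r + 1) := by
    intro r
    have := hs r
    rwa [zero_add, pow_zero] at this
  have h1 := const_of_step (f := fun r => cls x α β η ((q : ℤ) ^ 1) r) hs' r
  have h2 := const_of_step (f := fun r => cls x α β η ((q : ℤ) ^ 1) r) hs' r0
  exact h1.trans (h2.symm.trans (cls_empty hA hB))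

theorem two_le {x : Fin 7 → ℤ} {η : ℂ} {m : ℤ} (hη : η ≠ 0) (i : Fin 7)
    (h : cls x (fun _ => 1) (fun _ => -1) η m (x i) = 0) :
    2 ≤ cA x m (x i) + cB x m (x i) := by
  by_contra hlt
  have hi : i ∈ univ.filter fun j => m ∣ x j - x i :=
    mem_filter.2 ⟨mem_univ _, by rw [sub_self]; exact dvd_zero _⟩
  have h1 : 1 ≤ cA x m (x i) := card_pos.2 ⟨i, hi⟩
  have hA : cA x m (x i) = 1 := by omega
  have hB : cB x m (x i) = 0 := by omega
  unfold cA at hA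
  unfold cB at hB
  obtain ⟨a, ha⟩ := card_eq_one.1 hA
  unfold cls at h
  rw [ha, card_eq_zero.1 hB, sum_empty, add_zero, sum_singleton, Int.cast_one, one_mul] at h
  exact zpow_ne_zero _ hη h

end ROOT2_

theorem bROOT2 (hROOTS : ROOTS) (hSIB : SIB) (hEXC : EXC) (hSUMV : SUMV) (_hUNI0 : UNI0)
    (hSPLIT : SPLIT) (hDEEP : DEEP) (hPAIR : PAIR) : ROOT2 := by
  intro x R s h n q hq h11 hqn hs
  have hn : 0 < n := Nat.pos_of_ne_zero fun h0 => hqn (h0 ▸ dvd_zero q)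
  have hqn0 : q * n ≠ 0 := Nat.mul_ne_zero hq.ne_zero hn.ne'
  have hz := Complex.isPrimitiveRoot_exp (q * n) hqn0
  obtain ⟨hr1, hr2⟩ := hROOTS x R s h.toPre (q * n) _ hz
  obtain ⟨r0, hA, hB⟩ := ROOT2_.empty_class hEXC hSUMV hSPLIT h hq h11
  obtain ⟨η, hη, hc⟩ := ROOT2_.cls_zero hSIB hn hq hqn hz (hr1 hs) hA hB
  have hsp : sp q ≤ 1 := by
    unfold sp
    rw [if_neg (by omega), if_neg (by omega), if_neg (by omega), if_neg (by omega)]
  have hone := hDEEP x R s h q 1 hq hsp fun i => ROOT2_.two_le (hη.ne_zero hn.ne') i (hc _)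
  obtain ⟨⟨σ, hσ, hσq⟩, hne⟩ := hPAIR x h.pte ((q : ℤ) ^ 1) n η hn hη hone hc
  refine ⟨?_, σ, fun i => ?_⟩
  · have h1 : 1 ≤ s.count (q * n) := Multiset.one_le_count_iff_mem.2 hs
    by_contra hne1
    obtain ⟨η', hη', hc'⟩ := ROOT2_.cls_zero hSIB hn hq hqn hz (hr2 (by omega)) hA hB
    exact hne η' hη' (hc' _)
  · have hcop : IsCoprime (q : ℤ) (n : ℤ) :=
      Nat.isCoprime_iff_coprime.2 ((Nat.Prime.coprime_iff_not_dvd hq).2 hqn)
    have h1 := hσq i
    rw [pow_one] at h1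
    rw [Nat.cast_mul]
    exact hcop.mul_dvd h1 (hσ i)

end Pool.Agent.Lib.SH56
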