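import Pool.Agent.Lib.SH56.Blue

open Polynomial Finset

namespace Pool.Agent.Lib.SH56

namespace ROOTS_

theorem pw (z : ℂ) {e : ℤ} (he : 0 ≤ e) : z ^ e.toNat = z ^ e := by
  rw [← zpow_natCast, Int.toNat_of_nonneg he]

theorem dpw (z : ℂ) (k : ℕ) : z * aeval z (derivative (X ^ k : ℤ[X])) = k * z ^ k := by
  rw [derivative_X_pow]
  cases k with
  | zero => simp
  | succ k =>
    rw [map_mul, aeval_C, map_pow, aeval_X, Nat.add_sub_cancel, map_natCast, pow_succ]
    ring

theorem cast_toNat {e : ℤ} (he : 0 ≤ e) : ((e.toNat : ℕ) : ℂ) = (e : ℂ) := by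
  rw [← Int.cast_natCast, Int.toNat_of_nonneg he]

theorem ev0 {x : Fin 7 → ℤ} {R : ℕ} (hle : ∀ i, |x i| ≤ R) {z : ℂ} (hz : z ≠ 0) :
    aeval z (PP x R) = z ^ (R : ℤ) * tot x (fun _ => 1) (fun _ => -1) z := by
  unfold PP tot
  rw [map_sum, mul_sum]
  refine sum_congr rfl fun i _ => ?_
  have a := abs_le.1 (hle i)
  rw [map_sub, map_pow, map_pow, aeval_X, pw z (by omega), pw z (by omega), zpow_add₀ hz,
    sub_eq_add_neg (R : ℤ), zpow_add₀ hz]
  push_cast
  ring

theorem ev1 {x : Fin 7 → ℤ} {R : ℕ} (hle : ∀ i, |x i| ≤ R) {z : ℂ} (hz : z ≠ 0) :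
    z * aeval z (derivative (PP x R)) =
      z ^ (R : ℤ) * (R * tot x (fun _ => 1) (fun _ => -1) z + tot x x x z) := by
  unfold PP tot
  rw [derivative_sum, map_sum, mul_sum, mul_sum, ← sum_add_distrib, mul_sum]
  refine sum_congr rfl fun i _ => ?_
  have a := abs_le.1 (hle i)
  rw [derivative_sub, map_sub, mul_sub, dpw, dpw, pw z (by omega), pw z (by omega),
    cast_toNat (by omega), cast_toNat (by omega), zpow_add₀ hz, sub_eq_add_neg (R : ℤ),
    zpow_add₀ hz]
  push_cast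
  ring

theorem root {n : ℕ} (hn : 0 < n) {z : ℂ} (h : IsPrimitiveRoot z n) :
    aeval z (cyclotomic n ℤ) = 0 := by
  rw [aeval_def, eval₂_eq_eval_map, map_cyclotomic]
  exact h.isRoot_cyclotomic hn

end ROOTS_

open ROOTS_ in
theorem bROOTS : ROOTS := by
  intro x R s h n z hz
  have one : n ∈ s → tot x (fun _ => 1) (fun _ => -1) z = 0 := by
    intro hs
    have hn : 0 < n := by have := h.two n hs; omega
    have z0 := hz.ne_zero hn.ne'
    obtain ⟨Q, hQ⟩ : cyclotomic n ℤ ∣ cyc s :=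
      Multiset.dvd_prod (Multiset.mem_map_of_mem (fun n => cyclotomic n ℤ) hs)
    have e := ev0 h.le z0
    rw [h.eq, hQ, map_mul, map_mul, root hn hz, zero_mul, mul_zero] at e
    exact (mul_eq_zero.1 e.symm).resolve_left (zpow_ne_zero _ z0)
  refine ⟨one, fun h2 => ?_⟩
  have hs : n ∈ s := Multiset.count_pos.1 (by omega)
  have hn : 0 < n := by have := h.two n hs; omega
  have z0 := hz.ne_zero hn.ne'
  obtain ⟨Q, hQ⟩ : cyclotomic n ℤ ^ 2 ∣ cyc s := by
    have := Multiset.prod_dvd_prod_of_le (Multiset.map_le_map (f := fun n => cyclotomic n ℤ)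
      (Multiset.le_count_iff_replicate_le.1 h2))
    rwa [Multiset.map_replicate, Multiset.prod_replicate] at this
  have e := ev1 h.le z0
  have k : (X - 1) ^ 7 * (cyclotomic n ℤ ^ 2 * Q) =
      cyclotomic n ℤ * (cyclotomic n ℤ * ((X - 1) ^ 7 * Q)) := by ring
  rw [h.eq, hQ, k, derivative_mul, one hs] at e
  simp only [map_add, map_mul, root hn hz, zero_mul, mul_zero, zero_add] at e
  exact (mul_eq_zero.1 e.symm).resolve_left (zpow_ne_zero _ z0)

end Pool.Agent.Lib.SH56
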