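import Pool.Agent.Lib.SH56.Blue

/-! Row SIB: sibling classes carry equal sums. -/

open Finset

namespace Pool.Agent.Lib.SH56

namespace SIB_

lemma geo {ω : ℂ} {q : ℕ} (hω : IsPrimitiveRoot ω q) (m : ℤ) :
    ∑ u ∈ range q, (ω ^ m) ^ u = if (q : ℤ) ∣ m then (q : ℂ) else 0 := by
  by_cases h : (q : ℤ) ∣ m
  · rw [if_pos h, (hω.zpow_eq_one_iff_dvd m).2 h]
    simp only [one_pow, sum_const, card_range, nsmul_eq_mul, mul_one]
  · have h1 : ω ^ m ≠ 1 := fun h0 => h ((hω.zpow_eq_one_iff_dvd m).1 h0)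
    have h2 : (ω ^ m) ^ q = 1 := by
      rw [← zpow_natCast, ← zpow_mul, mul_comm, zpow_mul, zpow_natCast, hω.pow_eq_one, one_zpow]
    rw [if_neg h, geom_sum_eq h1, h2, sub_self, zero_div]

lemma term {ω : ℂ} (h0 : ω ≠ 0) (η : ℂ) (e r : ℤ) (u : ℕ) :
    (ω ^ (-r)) ^ u * (ω ^ u * η) ^ e = η ^ e * (ω ^ (e - r)) ^ u := by
  have h1 : (ω ^ u) ^ e = (ω ^ e) ^ u := by
    rw [← zpow_natCast, ← zpow_mul, mul_comm, zpow_mul, zpow_natCast]
  rw [mul_zpow, h1, sub_eq_add_neg, zpow_add₀ h0, mul_pow]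
  ring

lemma dft (x α β : Fin 7 → ℤ) {ω : ℂ} {q : ℕ} (hq : 0 < q) (hω : IsPrimitiveRoot ω q) (η : ℂ)
    (r : ℤ) : (q : ℂ) * cls x α β η q r =
      ∑ u ∈ range q, (ω ^ (-r)) ^ u * tot x α β (ω ^ u * η) := by
  have h0 : ω ≠ 0 := hω.ne_zero hq.ne'
  have e1 : ∀ u : ℕ, (ω ^ (-r)) ^ u * tot x α β (ω ^ u * η) =
      ∑ j, ((α j : ℂ) * η ^ x j * (ω ^ (x j - r)) ^ u +
        (β j : ℂ) * η ^ (-x j) * (ω ^ (-x j - r)) ^ u) := fun u => by
    rw [tot, mul_sum]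
    refine sum_congr rfl fun j _ => ?_
    rw [mul_assoc, mul_assoc, ← term h0, ← term h0]
    ring
  rw [sum_congr rfl fun u _ => e1 u, sum_comm, cls, sum_filter, sum_filter, ← sum_add_distrib,
    mul_sum]
  refine sum_congr rfl fun j _ => ?_
  have e2 : (q : ℤ) ∣ -x j - r ↔ (q : ℤ) ∣ x j + r := by
    rw [show -x j - r = -(x j + r) by ring, dvd_neg]
  rw [sum_add_distrib, ← mul_sum, ← mul_sum, geo hω, geo hω]
  simp only [e2]
  split_ifs <;> ring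

end SIB_

theorem bSIB (hCONJ : CONJ) : SIB := by
  intro x α β n p k z hn hp hpn hz htot
  have hq : 0 < p ^ (k + 1) := pow_pos hp.pos _
  have hN : 0 < p ^ (k + 1) * n := Nat.mul_pos hq hn
  have hco : (p ^ (k + 1)).Coprime n := ((Nat.Prime.coprime_iff_not_dvd hp).2 hpn).pow_left _
  obtain ⟨A, hA0, hA1⟩ := Nat.chineseRemainder hco 0 1
  obtain ⟨B, hB1, hB0⟩ := Nat.chineseRemainder hco 1 0
  obtain ⟨a, ha⟩ := Nat.modEq_zero_iff_dvd.1 hA0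
  obtain ⟨b, hb⟩ := Nat.modEq_zero_iff_dvd.1 hB0
  have cA' : A.Coprime n := by
    rw [Nat.Coprime, hA1.gcd_eq]; exact Nat.gcd_one_left _
  have cB' : B.Coprime (p ^ (k + 1)) := by
    rw [Nat.Coprime, hB1.gcd_eq]; exact Nat.gcd_one_left _
  have hη : IsPrimitiveRoot (z ^ A) n := by
    rw [ha] at cA'
    rw [ha, pow_mul]
    exact (hz.pow hN rfl).pow_of_coprime a cA'.coprime_mul_left
  have hω : IsPrimitiveRoot (z ^ B) (p ^ (k + 1)) := by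
    rw [hb] at cB'
    rw [hb, pow_mul]
    exact (hz.pow hN (mul_comm _ _)).pow_of_coprime b cB'.coprime_mul_left
  have hvan : ∀ u : ℕ, ¬ p ∣ u → tot x α β ((z ^ B) ^ u * z ^ A) = 0 := fun u hu => by
    have m1 : B * u + A ≡ 1 * u + 0 [MOD p ^ (k + 1)] := (hB1.mul_right u).add hA0
    have m2 : B * u + A ≡ 0 * u + 1 [MOD n] := (hB0.mul_right u).add hA1
    have c1 : (B * u + A).Coprime (p ^ (k + 1)) := by
      rw [Nat.Coprime, m1.gcd_eq, one_mul, add_zero]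
      exact ((Nat.Prime.coprime_iff_not_dvd hp).2 hu).symm.pow_right _
    have c2 : (B * u + A).Coprime n := by
      rw [Nat.Coprime, m2.gcd_eq, zero_mul, zero_add]; exact Nat.gcd_one_left _
    rw [← pow_mul, ← pow_add]
    exact hCONJ x α β _ _ z hN hz (c1.mul_right c2) htot
  refine ⟨z ^ A, hη, fun r => ?_⟩
  have hq0 : ((p ^ (k + 1) : ℕ) : ℂ) ≠ 0 := Nat.cast_ne_zero.2 hq.ne'
  have h0 : z ^ B ≠ 0 := hω.ne_zero hq.ne'
  have key : cls x α β (z ^ A) ((p ^ (k + 1) : ℕ) : ℤ) r =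
      cls x α β (z ^ A) ((p ^ (k + 1) : ℕ) : ℤ) (r + (p : ℤ) ^ k) := by
    apply mul_left_cancel₀ hq0
    rw [SIB_.dft x α β hq hω, SIB_.dft x α β hq hω]
    refine sum_congr rfl fun u _ => ?_
    by_cases hu : p ∣ u
    · obtain ⟨c, rfl⟩ := hu
      have h1 : ((z ^ B) ^ (-(p : ℤ) ^ k)) ^ (p * c) = 1 := by
        rw [← zpow_natCast, ← zpow_mul, hω.zpow_eq_one_iff_dvd]
        exact ⟨-(c : ℤ), by push_cast; ring⟩
      rw [neg_add, zpow_add₀ h0, mul_pow, h1, mul_one]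
    · rw [hvan u hu, mul_zero, mul_zero]
  rw [Nat.cast_pow] at key
  exact key

end Pool.Agent.Lib.SH56
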