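import Pool.Agent.Lib.SH56.B_SIEVE2c

/-! Soundness of the checker: reduction to canonical patterns. -/

open Finset

namespace Pool.Agent.Lib.SH56.SIEVE2_

def Good (q n l g w : ℕ) (e : Fin 7 → ℕ) : Prop :=
  (∀ i, e i < n) → ∑ i, (g : ZMod q) ^ e i = 0 → ∑ i, ((g : ZMod q) ^ e i) ^ 3 = 0 →
    ∑ i, ((g : ZMod q) ^ e i) ^ 5 = 0 → (∀ i j, (g : ZMod q) ^ e i + (g : ZMod q) ^ e j ≠ 0) →
    (∏ k ∈ range n, ∑ i, S q n l g w (k + e i)) ^ 2 ≠ (q : ZMod l) ^ 14

variable {q n l h g w tg i3 k2 GG IV FA RO RR LA BA LG TT : ℕ}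

theorem good_perm {e : Fin 7 → ℕ} (σ : Equiv.Perm (Fin 7)) (H : Good q n l g w (e ∘ σ)) :
    Good q n l g w e := by
  intro hn p1 p3 p5 pn
  have := H (fun i => hn _) ((Equiv.sum_comp σ fun i => (g : ZMod q) ^ e i).trans p1)
    ((Equiv.sum_comp σ fun i => ((g : ZMod q) ^ e i) ^ 3).trans p3)
    ((Equiv.sum_comp σ fun i => ((g : ZMod q) ^ e i) ^ 5).trans p5) fun i j => pn _ _
  rwa [← prod_congr rfl fun k _ => Equiv.sum_comp σ fun i => S q n l g w (k + e i)]

theorem Ok.gh (o : Ok q n l h g w tg i3 k2 GG IV FA RO RR LA BA LG TT) :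
    (g : ZMod q) ^ h = -1 := by
  have := mc o.c.2.2.2.2.2.2.2.2.1
  rwa [o.n1, Nat.cast_pow] at this

theorem Ok.Sh (o : Ok q n l h g w tg i3 k2 GG IV FA RO RR LA BA LG TT) (j : ℕ) :
    S q n l g w (j + h) = -S q n l g w j := by
  have a : g ^ (j + h) % q = n * g ^ j % q := cm (by push_cast; rw [pow_add, o.gh, o.n1]; ring)
  have b : n * g ^ (j + h) % q = g ^ j % q := cm (by push_cast; rw [pow_add, o.gh, o.n1]; ring)
  rw [S, S, a, b, neg_sub]

theorem prod_sh {R : Type} [CommMonoid R] (n : ℕ) (F : ℕ → R) (hF : ∀ k, F (k + n) = F k) (c : ℕ) :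
    ∏ k ∈ range n, F (k + c) = ∏ k ∈ range n, F k := by
  induction c with
  | zero => rfl
  | succ c ih =>
    rw [← ih]
    cases n with
    | zero => rfl
    | succ m =>
      rw [prod_range_succ, prod_range_succ', show m + (c + 1) = c + (m + 1) by omega, hF, zero_add]
      congr 1
      exact prod_congr rfl fun k _ => by rw [show k + (c + 1) = k + 1 + c by omega]

theorem good_shift [Fact q.Prime] (o : Ok q n l h g w tg i3 k2 GG IV FA RO RR LA BA LG TT)
    {e e' : Fin 7 → ℕ} (c : ℕ) (hs : ∀ i, e' i < n ∧ (e' i + c = e i ∨ e' i + c = e i + n))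
    (H : Good q n l g w e') : Good q n l g w e := by
  intro hn p1 p3 p5 pn
  have nh := o.c.2.1
  have Sn : ∀ j, S q n l g w (j + n) = S q n l g w j := fun j => by
    rw [show j + n = j + h + h by omega, o.Sh, o.Sh, neg_neg]
  have gn : (g : ZMod q) ^ n = 1 := by
    rw [show (g : ZMod q) ^ n = (g : ZMod q) ^ (h + h) by rw [← nh], pow_add, o.gh]; ring
  have g0 : (g : ZMod q) ^ c ≠ 0 := pow_ne_zero _ fun h0 => by
    have := o.c.2.2.1
    have := o.c.1
    rw [h0, zero_pow (by omega)] at gn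
    exact zero_ne_one gn
  have r : ∀ i, (g : ZMod q) ^ e i = (g : ZMod q) ^ e' i * (g : ZMod q) ^ c := fun i => by
    rcases (hs i).2 with t | t <;> rw [← pow_add, t]
    rw [pow_add, gn, mul_one]
  simp only [r, mul_pow, ← sum_mul, ← add_mul] at p1 p3 p5 pn
  have := H (fun i => (hs i).1) ((mul_eq_zero.1 p1).resolve_right g0)
    ((mul_eq_zero.1 p3).resolve_right (pow_ne_zero _ g0))
    ((mul_eq_zero.1 p5).resolve_right (pow_ne_zero _ g0)) fun i j => left_ne_zero_of_mul (pn i j)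
  rw [← prod_sh n (fun k => ∑ i, S q n l g w (k + e' i)) (fun k => sum_congr rfl fun i _ => by
    rw [show k + n + e' i = k + e' i + n by omega, Sn]) c] at this
  rwa [prod_congr rfl fun k _ => sum_congr rfl fun i _ => (?_ : S q n l g w (k + e i) =
    S q n l g w (k + c + e' i))]
  rcases (hs i).2 with t | t
  · rw [show k + c + e' i = k + e i by omega]
  · rw [show k + c + e' i = k + e i + n by omega, Sn]

theorem bad_false {n d M f : ℕ} (H : f % 2 = 0 → d ≤ f ∧ f + M ≤ n) : bad n d M f = false := by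
  rw [Bool.eq_false_iff]
  intro hb
  simp only [bad, Bool.and_eq_true, Bool.or_eq_true, Nat.beq_eq, Nat.ble_eq, Nat.add_eq] at hb
  have h1 : f % 2 = 0 := hb.1
  have := hb.2
  have := H h1
  omega

theorem good_can [Fact q.Prime] (o : Ok q n l h g w tg i3 k2 GG IV FA RO RR LA BA LG TT)
    (C : ∀ j < h, l1 q n l h tg i3 k2 GG IV FA RO RR LA LG TT j 1 = true) {a : Fin 7 → ℕ}
    {j1 j2 j3 : ℕ} (a0 : a 0 = 0) (a1 : a 1 = 2 * j1) (a2 : a 2 = 2 * j2) (a3 : a 3 = 2 * j3)
    (o1 : j1 ≤ j2) (o2 : j2 ≤ j3) (H : ∀ i, 3 ≤ i → a i % 2 = 0 → a 3 ≤ a i ∧ a i + a 1 ≤ n ∧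
      a i + (a 2 - a 1) ≤ n ∧ a i + (a 3 - a 2) ≤ n) : Good q n l g w a := by
  intro hn p1 p3 p5 pn
  have nh := o.c.2.1
  have n3 := hn 3
  have h3 := H 3 le_rfl (by omega)
  have t0 := allr_sound (allr_sound (C j1 (by omega)) j1 le_rfl (by omega)) j2 o1 (by omega)
  unfold l2 l3 at t0
  have t := allr_sound t0 j3 o2 (by unfold up; omega)
  have x3 : Nat.mod (Nat.shiftRight GG (Nat.mul 18 j3)) 512 = l9 GG (2 * j3) := by
    show _ = Nat.mod (Nat.shiftRight GG (9 * (2 * j3))) 512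
    rw [show 9 * (2 * j3) = Nat.mul 18 j3 by show _ = 18 * j3; omega]
  simp only [Fin.sum_univ_seven, a0, a1, a2, a3, pow_zero, one_pow] at p1 p3 p5
  have b : ∀ i, 3 ≤ i → bad n (2 * j3) (2 * max (max j1 (j2 - j1)) (j3 - j2)) (a i) = false :=
    fun i hi => bad_false fun he => by
      have := H i hi he
      omega
  have := core o (by omega) (by omega) (by omega) rfl rfl x3 t _ rfl _ rfl (a 4) (a 5) (a 6) (hn _)
    (hn _) (hn _) (by linear_combination p1) (by linear_combination p3) (by linear_combination p5)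
    (mul_ne_zero (mul_ne_zero (pn _ _) (pn _ _)) (pn _ _)) (b _ (by decide)) (b _ (by decide))
    (b _ (by decide))
  have e : PP q n l h g w (2 * j1) (2 * j2) (2 * j3) (a 4) (a 5) (a 6) =
      ∏ k ∈ range h, ∑ i, S q n l g w (k + a i) := prod_congr rfl fun k _ => by
    simp only [Fin.sum_univ_seven, a0, a1, a2, a3, add_zero]
    ring
  have e2 : (∏ k ∈ range h, ∑ i, S q n l g w (h + k + a i)) ^ 2 =
      (∏ k ∈ range h, ∑ i, S q n l g w (k + a i)) ^ 2 := by
    rw [← prod_pow, ← prod_pow]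
    refine prod_congr rfl fun k _ => ?_
    rw [sum_congr rfl fun i _ => (by rw [show h + k + a i = k + a i + h by omega, o.Sh] :
      S q n l g w (h + k + a i) = -S q n l g w (k + a i)), sum_neg_distrib, neg_sq]
  rw [show range n = range (h + h) by rw [← nh], prod_range_add, mul_pow, e2, ← pow_add, ← e]
  exact this

theorem good_even [Fact q.Prime] (o : Ok q n l h g w tg i3 k2 GG IV FA RO RR LA BA LG TT)
    (C : ∀ j < h, l1 q n l h tg i3 k2 GG IV FA RO RR LA LG TT j 1 = true) (m : ℕ) :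
    ∀ e : Fin 7 → ℕ, (∀ i, e i < n) → ∑ i, e i % 2 ≤ 3 → (∀ i, e i % 2 = 0 → e i < m) →
      Good q n l g w e := by
  have nh := o.c.2.1
  induction m with
  | zero =>
    intro e _ h1 h2
    have := h2 0; have := h2 1; have := h2 2; have := h2 3
    rw [Fin.sum_univ_seven] at h1
    omega
  | succ m ih =>
    intro e hn h1 h2
    obtain ⟨σ, hσ⟩ : ∃ σ : Equiv.Perm (Fin 7),
        Monotone ((fun i => if e i % 2 = 0 then e i else e i + n) ∘ σ) :=
      ⟨_, Tuple.monotone_sort _⟩
    apply good_perm σ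
    rw [← Equiv.sum_comp σ fun i => e i % 2] at h1
    have hk : ∀ i j, i ≤ j → (e ∘ σ) j % 2 = 0 → (e ∘ σ) i % 2 = 0 ∧ (e ∘ σ) i ≤ (e ∘ σ) j := by
      intro i j hij hj
      have := hσ hij
      have := hn (σ j)
      simp only [Function.comp] at *
      split_ifs at * <;> omega
    have hn' : ∀ i, (e ∘ σ) i < n := fun i => hn _
    have h2' : ∀ i, (e ∘ σ) i % 2 = 0 → (e ∘ σ) i < m + 1 := fun i => h2 _
    have h1' : ∑ i, (e ∘ σ) i % 2 ≤ 3 := h1
    generalize e ∘ σ = a at hk hn' h2' h1' ⊢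
    have step : ∀ c, c % 2 = 0 → c < n →
        (∀ i, a i % 2 = 0 → (c ≤ a i → a i - c < m) ∧ (a i < c → a i + n - c < m)) →
        Good q n l g w a := fun c c2 cn hc => by
      have p : ∀ i, (if c ≤ a i then a i - c else a i + n - c) % 2 = a i % 2 := fun i => by
        split_ifs <;> omega
      refine good_shift o (e' := fun i => if c ≤ a i then a i - c else a i + n - c) c
        (fun i => ?_) (ih _ (fun i => ?_) (by simpa only [p] using h1') fun i hi => ?_)
      · have := hn' i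
        split_ifs <;> omega
      · have := hn' i
        split_ifs <;> omega
      · rw [p] at hi
        have := hc i hi
        split_ifs <;> omega
    have e3 : a 3 % 2 = 0 := by
      have := hk 3 4 (by decide); have := hk 3 5 (by decide); have := hk 3 6 (by decide)
      rw [Fin.sum_univ_seven] at h1'
      omega
    have k0 := hk 0 3 (by decide) e3
    have k1 := hk 1 3 (by decide) e3
    have k2 := hk 2 3 (by decide) e3
    have k3 := hk 1 2 (by decide) k2.1
    by_cases z : a 0 = 0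
    swap
    · refine step (a 0) k0.1 (hn' _) fun i hi => ?_
      have := hk 0 i (Fin.zero_le _) hi
      have := h2' i hi
      omega
    have gap : ∀ s t f : Fin 7, (∀ i, i ≤ s ∨ t ≤ i) → a s % 2 = 0 → a t % 2 = 0 → a f % 2 = 0 →
        n < a f + (a t - a s) → Good q n l g w a := fun s t f hst hs ht hf hv => by
      refine step (a t) ht (hn' _) fun i hi => ?_
      have := h2' i hi
      have := h2' f hf
      have := hn' f
      have := hn' t
      rcases hst i with u | u
      · have := hk i s u hs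
        omega
      · have := hk t i u hi
        omega
    by_contra hc
    refine hc (good_can o C (j1 := a 1 / 2) (j2 := a 2 / 2) (j3 := a 3 / 2) z (by omega) (by omega)
      (by omega) (by omega) (by omega) fun i hi he => ⟨(hk 3 i hi he).2, ?_, ?_, ?_⟩)
    · exact not_lt.1 fun hv => hc (gap 0 1 i (by decide) k0.1 k1.1 he (by omega))
    · exact not_lt.1 fun hv => hc (gap 1 2 i (by decide) k1.1 k2.1 he hv)
    · exact not_lt.1 fun hv => hc (gap 2 3 i (by decide) k2.1 e3 he hv)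

theorem good_all [Fact q.Prime] (o : Ok q n l h g w tg i3 k2 GG IV FA RO RR LA BA LG TT)
    (C : ∀ j < h, l1 q n l h tg i3 k2 GG IV FA RO RR LA LG TT j 1 = true) (e : Fin 7 → ℕ) :
    Good q n l g w e := by
  intro hn
  have nh := o.c.2.1
  by_cases h1 : ∑ i, e i % 2 ≤ 3
  · exact good_even o C n e hn h1 (fun i _ => hn i) hn
  have p : ∀ i, (if 1 ≤ e i then e i - 1 else e i + n - 1) % 2 = 1 - e i % 2 ∧
      (if 1 ≤ e i then e i - 1 else e i + n - 1) < n := fun i => by
    have := hn i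
    split_ifs <;> omega
  refine good_shift o (e' := fun i => if 1 ≤ e i then e i - 1 else e i + n - 1) 1
    (fun i => ⟨(p i).2, ?_⟩) (good_even o C n _ (fun i => (p i).2) ?_ fun i _ => (p i).2) hn
  · have := hn i
    split_ifs <;> omega
  · simp only [(p _).1]
    rw [Fin.sum_univ_seven] at h1 ⊢
    omega

theorem l1_one {lo k : ℕ} (H : l1 q n l h tg i3 k2 GG IV FA RO RR LA LG TT lo k = true) (j : ℕ)
    (h1 : lo ≤ j) (h2 : j < lo + k) : l1 q n l h tg i3 k2 GG IV FA RO RR LA LG TT j 1 = true := by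
  have a : ∀ f : ℕ → Bool, f j = true → allr j 1 f = true := fun f hf => by
    show (Bool.rec false true (f j) : Bool) = true
    rw [hf]
  exact a _ (allr_sound H j h1 h2)

theorem sv (qp : q.Prime) (lp : l.Prime)
    (h1 : t1 q n l h g w tg i3 k2 GG IV FA RO LA BA LG TT = true) (h2 : t2 q n RO RR LA = true)
    (C : ∀ j < h, l1 q n l h tg i3 k2 GG IV FA RO RR LA LG TT j 1 = true) : SV q := by
  have o := ok_of h1 h2
  have := Fact.mk qp
  obtain ⟨qn, -, -, -, l1, -, -, -, -, -, wq, w1⟩ := o.c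
  have wq' : (w : ZMod l) ^ q = 1 := by simpa using mc wq
  have w1' : (w : ZMod l) ≠ 1 := fun h0 => w1 (by
    rw [cm (h0.trans Nat.cast_one.symm), Nat.mod_eq_of_lt l1])
  refine ⟨l, w, lp, orderOf_eq_prime wq' w1' ▸ IsPrimitiveRoot.orderOf _, ?_⟩
  intro y yq p1 p3 p5 pn
  have L := fun i => o.L (y i) (Nat.pos_of_ne_zero fun h0 => pn i i (by simp [h0])) (yq i)
  have cy : ∀ i, (g : ZMod q) ^ l10 LG (y i) = y i := fun i => by simpa using mc (L i).1
  have := good_all o C (fun i => l10 LG (y i)) (fun i => (L i).2.1)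
    (by simpa [cy] using (ZMod.natCast_eq_zero_iff _ _).2 p1)
    (by simpa [cy] using (ZMod.natCast_eq_zero_iff _ _).2 p3)
    (by simpa [cy] using (ZMod.natCast_eq_zero_iff _ _).2 p5)
    (fun i j h0 => pn i j ((ZMod.natCast_eq_zero_iff _ _).1 (by simpa [cy] using h0)))
  have g0 : (g : ZMod q) ≠ 0 := fun h0 => by
    have := cy 0
    have t := o.gh
    have := o.c.2.1
    have := o.c.2.2.1
    rw [h0, zero_pow (by omega)] at t
    exact one_ne_zero (neg_eq_zero.1 t.symm)
  rwa [prod_nbij' (t := range n) (g := fun k => ∑ i, S q n l g w (k + l10 LG (y i)))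
    (fun a => l10 LG a) (fun k => g ^ k % q) ?_ ?_ ?_ ?_ ?_]
  · intro a ha
    exact mem_range.2 (o.L a (mem_Ico.1 ha).1 (mem_Ico.1 ha).2).2.1
  · intro k _
    refine mem_Ico.2 ⟨Nat.pos_of_ne_zero fun h0 => pow_ne_zero k g0 ?_, Nat.mod_lt _ qp.pos⟩
    simpa using mc h0
  · intro a ha
    exact (o.L a (mem_Ico.1 ha).1 (mem_Ico.1 ha).2).1
  · intro k hk
    exact (o.G k (mem_range.1 hk)).2
  · intro a ha
    have ca : (g : ZMod q) ^ l10 LG a = a := by
      simpa using mc (o.L a (mem_Ico.1 ha).1 (mem_Ico.1 ha).2).1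
    refine sum_congr rfl fun i _ => ?_
    have u : a * y i % q = g ^ (l10 LG a + l10 LG (y i)) % q :=
      cm (by push_cast; rw [pow_add, ca, cy])
    have v : a * (q - y i) % q = n * g ^ (l10 LG a + l10 LG (y i)) % q :=
      cm (by push_cast [Nat.cast_sub (yq i).le, ZMod.natCast_self]; rw [pow_add, ca, cy, o.n1]; ring)
    rw [S, ← u, ← v, ← pow_eq_pow_mod _ wq', ← pow_eq_pow_mod _ wq']

end Pool.Agent.Lib.SH56.SIEVE2_
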