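import Pool.Agent.Lib.SH56.B_SIEVE2d0
import Pool.Agent.Lib.SH56.B_SIEVE2d1
import Pool.Agent.Lib.SH56.B_SIEVE2d2
import Pool.Agent.Lib.SH56.B_SIEVE2d3
import Pool.Agent.Lib.SH56.B_SIEVE2d4
import Pool.Agent.Lib.SH56.B_SIEVE2d5
import Pool.Agent.Lib.SH56.B_SIEVE2d6
import Pool.Agent.Lib.SH56.B_SIEVE2d7
import Pool.Agent.Lib.SH56.B_SIEVE2d8
import Pool.Agent.Lib.SH56.B_SIEVE2d9
import Pool.Agent.Lib.SH56.B_SIEVE2e

/-! The sieve. -/

namespace Pool.Agent.Lib.SH56

open SIEVE2_ in
theorem bSIEVE2 : SIEVE := by
  intro q hq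
  simp only [QL, List.mem_cons, List.not_mem_nil, or_false] at hq
  rcases hq with rfl | rfl | rfl | rfl | rfl | rfl | rfl | rfl | rfl | rfl | rfl | rfl | rfl |
    rfl | rfl | rfl | rfl | rfl | rfl | rfl | rfl | rfl | rfl | rfl | rfl |
    rfl | rfl | rfl | rfl | rfl | rfl | rfl | rfl | rfl | rfl | rfl | rfl
  · exact sv (by norm_num) (by norm_num) Q11.a1 Q11.a2 fun j hj =>
      l1_one Q11.c0 j (by omega) (by omega)
  · exact sv (by norm_num) (by norm_num) Q19.a1 Q19.a2 fun j hj =>
      l1_one Q19.c0 j (by omega) (by omega)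
  · exact sv (by norm_num) (by norm_num) Q79.a1 Q79.a2 fun j hj =>
      l1_one Q79.c0 j (by omega) (by omega)
  · exact sv (by norm_num) (by norm_num) Q83.a1 Q83.a2 fun j hj =>
      l1_one Q83.c0 j (by omega) (by omega)
  · exact sv (by norm_num) (by norm_num) Q89.a1 Q89.a2 fun j hj =>
      l1_one Q89.c0 j (by omega) (by omega)
  · exact sv (by norm_num) (by norm_num) Q101.a1 Q101.a2 fun j hj =>
      l1_one Q101.c0 j (by omega) (by omega)
  · exact sv (by norm_num) (by norm_num) Q103.a1 Q103.a2 fun j hj =>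
      l1_one Q103.c0 j (by omega) (by omega)
  · exact sv (by norm_num) (by norm_num) Q109.a1 Q109.a2 fun j hj =>
      l1_one Q109.c0 j (by omega) (by omega)
  · exact sv (by norm_num) (by norm_num) Q113.a1 Q113.a2 fun j hj =>
      l1_one Q113.c0 j (by omega) (by omega)
  · exact sv (by norm_num) (by norm_num) Q127.a1 Q127.a2 fun j hj =>
      l1_one Q127.c0 j (by omega) (by omega)
  · exact sv (by norm_num) (by norm_num) Q131.a1 Q131.a2 fun j hj =>
      l1_one Q131.c0 j (by omega) (by omega)
  · exact sv (by norm_num) (by norm_num) Q137.a1 Q137.a2 fun j hj =>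
      l1_one Q137.c0 j (by omega) (by omega)
  · exact sv (by norm_num) (by norm_num) Q139.a1 Q139.a2 fun j hj =>
      l1_one Q139.c0 j (by omega) (by omega)
  · exact sv (by norm_num) (by norm_num) Q149.a1 Q149.a2 fun j hj =>
      l1_one Q149.c0 j (by omega) (by omega)
  · exact sv (by norm_num) (by norm_num) Q151.a1 Q151.a2 fun j hj =>
      l1_one Q151.c0 j (by omega) (by omega)
  · refine sv (by norm_num) (by norm_num) Q157.a1 Q157.a2 fun j hj => ?_
    rcases Nat.lt_or_ge j 26 with _ | _
    · exact l1_one Q157.c0 j (by omega) (by omega)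
    exact l1_one Q157.c1 j (by omega) (by omega)
  · refine sv (by norm_num) (by norm_num) Q163.a1 Q163.a2 fun j hj => ?_
    rcases Nat.lt_or_ge j 22 with _ | _
    · exact l1_one Q163.c0 j (by omega) (by omega)
    exact l1_one Q163.c1 j (by omega) (by omega)
  · refine sv (by norm_num) (by norm_num) Q167.a1 Q167.a2 fun j hj => ?_
    rcases Nat.lt_or_ge j 21 with _ | _
    · exact l1_one Q167.c0 j (by omega) (by omega)
    exact l1_one Q167.c1 j (by omega) (by omega)
  · refine sv (by norm_num) (by norm_num) Q173.a1 Q173.a2 fun j hj => ?_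
    rcases Nat.lt_or_ge j 19 with _ | _
    · exact l1_one Q173.c0 j (by omega) (by omega)
    exact l1_one Q173.c1 j (by omega) (by omega)
  · refine sv (by norm_num) (by norm_num) Q179.a1 Q179.a2 fun j hj => ?_
    rcases Nat.lt_or_ge j 17 with _ | _
    · exact l1_one Q179.c0 j (by omega) (by omega)
    exact l1_one Q179.c1 j (by omega) (by omega)
  · refine sv (by norm_num) (by norm_num) Q181.a1 Q181.a2 fun j hj => ?_
    rcases Nat.lt_or_ge j 16 with _ | _
    · exact l1_one Q181.c0 j (by omega) (by omega)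
    exact l1_one Q181.c1 j (by omega) (by omega)
  · refine sv (by norm_num) (by norm_num) Q191.a1 Q191.a2 fun j hj => ?_
    rcases Nat.lt_or_ge j 14 with _ | _
    · exact l1_one Q191.c0 j (by omega) (by omega)
    exact l1_one Q191.c1 j (by omega) (by omega)
  · refine sv (by norm_num) (by norm_num) Q193.a1 Q193.a2 fun j hj => ?_
    rcases Nat.lt_or_ge j 14 with _ | _
    · exact l1_one Q193.c0 j (by omega) (by omega)
    rcases Nat.lt_or_ge j 42 with _ | _
    · exact l1_one Q193.c1 j (by omega) (by omega)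
    exact l1_one Q193.c2 j (by omega) (by omega)
  · refine sv (by norm_num) (by norm_num) Q197.a1 Q197.a2 fun j hj => ?_
    rcases Nat.lt_or_ge j 13 with _ | _
    · exact l1_one Q197.c0 j (by omega) (by omega)
    rcases Nat.lt_or_ge j 33 with _ | _
    · exact l1_one Q197.c1 j (by omega) (by omega)
    exact l1_one Q197.c2 j (by omega) (by omega)
  · refine sv (by norm_num) (by norm_num) Q199.a1 Q199.a2 fun j hj => ?_
    rcases Nat.lt_or_ge j 13 with _ | _
    · exact l1_one Q199.c0 j (by omega) (by omega)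
    rcases Nat.lt_or_ge j 32 with _ | _
    · exact l1_one Q199.c1 j (by omega) (by omega)
    exact l1_one Q199.c2 j (by omega) (by omega)
  · refine sv (by norm_num) (by norm_num) Q211.a1 Q211.a2 fun j hj => ?_
    rcases Nat.lt_or_ge j 11 with _ | _
    · exact l1_one Q211.c0 j (by omega) (by omega)
    rcases Nat.lt_or_ge j 26 with _ | _
    · exact l1_one Q211.c1 j (by omega) (by omega)
    exact l1_one Q211.c2 j (by omega) (by omega)
  · refine sv (by norm_num) (by norm_num) Q223.a1 Q223.a2 fun j hj => ?_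
    rcases Nat.lt_or_ge j 10 with _ | _
    · exact l1_one Q223.c0 j (by omega) (by omega)
    rcases Nat.lt_or_ge j 22 with _ | _
    · exact l1_one Q223.c1 j (by omega) (by omega)
    rcases Nat.lt_or_ge j 41 with _ | _
    · exact l1_one Q223.c2 j (by omega) (by omega)
    exact l1_one Q223.c3 j (by omega) (by omega)
  · refine sv (by norm_num) (by norm_num) Q227.a1 Q227.a2 fun j hj => ?_
    rcases Nat.lt_or_ge j 9 with _ | _
    · exact l1_one Q227.c0 j (by omega) (by omega)
    rcases Nat.lt_or_ge j 20 with _ | _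
    · exact l1_one Q227.c1 j (by omega) (by omega)
    rcases Nat.lt_or_ge j 35 with _ | _
    · exact l1_one Q227.c2 j (by omega) (by omega)
    exact l1_one Q227.c3 j (by omega) (by omega)
  · refine sv (by norm_num) (by norm_num) Q229.a1 Q229.a2 fun j hj => ?_
    rcases Nat.lt_or_ge j 9 with _ | _
    · exact l1_one Q229.c0 j (by omega) (by omega)
    rcases Nat.lt_or_ge j 20 with _ | _
    · exact l1_one Q229.c1 j (by omega) (by omega)
    rcases Nat.lt_or_ge j 35 with _ | _
    · exact l1_one Q229.c2 j (by omega) (by omega)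
    exact l1_one Q229.c3 j (by omega) (by omega)
  · refine sv (by norm_num) (by norm_num) Q233.a1 Q233.a2 fun j hj => ?_
    rcases Nat.lt_or_ge j 9 with _ | _
    · exact l1_one Q233.c0 j (by omega) (by omega)
    rcases Nat.lt_or_ge j 20 with _ | _
    · exact l1_one Q233.c1 j (by omega) (by omega)
    rcases Nat.lt_or_ge j 34 with _ | _
    · exact l1_one Q233.c2 j (by omega) (by omega)
    exact l1_one Q233.c3 j (by omega) (by omega)
  · refine sv (by norm_num) (by norm_num) Q239.a1 Q239.a2 fun j hj => ?_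
    rcases Nat.lt_or_ge j 8 with _ | _
    · exact l1_one Q239.c0 j (by omega) (by omega)
    rcases Nat.lt_or_ge j 18 with _ | _
    · exact l1_one Q239.c1 j (by omega) (by omega)
    rcases Nat.lt_or_ge j 30 with _ | _
    · exact l1_one Q239.c2 j (by omega) (by omega)
    exact l1_one Q239.c3 j (by omega) (by omega)
  · refine sv (by norm_num) (by norm_num) Q241.a1 Q241.a2 fun j hj => ?_
    rcases Nat.lt_or_ge j 8 with _ | _
    · exact l1_one Q241.c0 j (by omega) (by omega)
    rcases Nat.lt_or_ge j 18 with _ | _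
    · exact l1_one Q241.c1 j (by omega) (by omega)
    rcases Nat.lt_or_ge j 30 with _ | _
    · exact l1_one Q241.c2 j (by omega) (by omega)
    exact l1_one Q241.c3 j (by omega) (by omega)
  · refine sv (by norm_num) (by norm_num) Q251.a1 Q251.a2 fun j hj => ?_
    rcases Nat.lt_or_ge j 7 with _ | _
    · exact l1_one Q251.c0 j (by omega) (by omega)
    rcases Nat.lt_or_ge j 15 with _ | _
    · exact l1_one Q251.c1 j (by omega) (by omega)
    rcases Nat.lt_or_ge j 25 with _ | _
    · exact l1_one Q251.c2 j (by omega) (by omega)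
    rcases Nat.lt_or_ge j 38 with _ | _
    · exact l1_one Q251.c3 j (by omega) (by omega)
    exact l1_one Q251.c4 j (by omega) (by omega)
  · refine sv (by norm_num) (by norm_num) Q257.a1 Q257.a2 fun j hj => ?_
    rcases Nat.lt_or_ge j 7 with _ | _
    · exact l1_one Q257.c0 j (by omega) (by omega)
    rcases Nat.lt_or_ge j 15 with _ | _
    · exact l1_one Q257.c1 j (by omega) (by omega)
    rcases Nat.lt_or_ge j 24 with _ | _
    · exact l1_one Q257.c2 j (by omega) (by omega)
    rcases Nat.lt_or_ge j 35 with _ | _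
    · exact l1_one Q257.c3 j (by omega) (by omega)
    exact l1_one Q257.c4 j (by omega) (by omega)
  · refine sv (by norm_num) (by norm_num) Q263.a1 Q263.a2 fun j hj => ?_
    rcases Nat.lt_or_ge j 7 with _ | _
    · exact l1_one Q263.c0 j (by omega) (by omega)
    rcases Nat.lt_or_ge j 14 with _ | _
    · exact l1_one Q263.c1 j (by omega) (by omega)
    rcases Nat.lt_or_ge j 23 with _ | _
    · exact l1_one Q263.c2 j (by omega) (by omega)
    rcases Nat.lt_or_ge j 33 with _ | _
    · exact l1_one Q263.c3 j (by omega) (by omega)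
    rcases Nat.lt_or_ge j 49 with _ | _
    · exact l1_one Q263.c4 j (by omega) (by omega)
    exact l1_one Q263.c5 j (by omega) (by omega)
  · refine sv (by norm_num) (by norm_num) Q269.a1 Q269.a2 fun j hj => ?_
    rcases Nat.lt_or_ge j 6 with _ | _
    · exact l1_one Q269.c0 j (by omega) (by omega)
    rcases Nat.lt_or_ge j 13 with _ | _
    · exact l1_one Q269.c1 j (by omega) (by omega)
    rcases Nat.lt_or_ge j 21 with _ | _
    · exact l1_one Q269.c2 j (by omega) (by omega)
    rcases Nat.lt_or_ge j 30 with _ | _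
    · exact l1_one Q269.c3 j (by omega) (by omega)
    rcases Nat.lt_or_ge j 42 with _ | _
    · exact l1_one Q269.c4 j (by omega) (by omega)
    exact l1_one Q269.c5 j (by omega) (by omega)
  · refine sv (by norm_num) (by norm_num) Q271.a1 Q271.a2 fun j hj => ?_
    rcases Nat.lt_or_ge j 6 with _ | _
    · exact l1_one Q271.c0 j (by omega) (by omega)
    rcases Nat.lt_or_ge j 13 with _ | _
    · exact l1_one Q271.c1 j (by omega) (by omega)
    rcases Nat.lt_or_ge j 21 with _ | _
    · exact l1_one Q271.c2 j (by omega) (by omega)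
    rcases Nat.lt_or_ge j 30 with _ | _
    · exact l1_one Q271.c3 j (by omega) (by omega)
    rcases Nat.lt_or_ge j 41 with _ | _
    · exact l1_one Q271.c4 j (by omega) (by omega)
    exact l1_one Q271.c5 j (by omega) (by omega)

end Pool.Agent.Lib.SH56
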