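import Pool.Agent.Lib.SH56.Blue

/-! A kernel checker for the sieve: definitions. -/

namespace Pool.Agent.Lib.SH56.SIEVE2_

def l9 (X i : ℕ) : ℕ := Nat.mod (Nat.shiftRight X (Nat.mul 9 i)) 512

def l10 (X i : ℕ) : ℕ := Nat.mod (Nat.shiftRight X (Nat.mul 10 i)) 1024

def l18 (X i : ℕ) : ℕ := Nat.mod (Nat.shiftRight X (Nat.mul 18 i)) 262144

def l24 (X i : ℕ) : ℕ := Nat.mod (Nat.shiftRight X (Nat.mul 24 i)) 16777216

noncomputable def allr (lo k : ℕ) (f : ℕ → Bool) : Bool :=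
  Nat.rec (motive := fun _ => Bool) true (fun i ih => Bool.rec false ih (f (Nat.add lo i))) k

noncomputable def nrm (h : ℕ) : ℕ → ℕ :=
  Nat.rec (motive := fun _ => ℕ → ℕ) (fun _ => 1)
    (fun _ ih v => Nat.mul (Nat.mod v 16777216) (ih (Nat.shiftRight v 24))) h

def bad (n d M f : ℕ) : Bool :=
  Nat.beq (Nat.mod f 2) 0 && (Nat.ble (Nat.add f 1) d || Nat.ble (Nat.add n 1) (Nat.add f M))

noncomputable def fin3 (n l h tg TT v d M f1 f2 f3 : ℕ) : Bool :=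
  bad n d M f1 || (bad n d M f2 || (bad n d M f3 ||
  !(Nat.beq (Nat.mod (Nat.pow (Nat.mod (nrm h (Nat.add (Nat.add v
    (Nat.shiftRight TT (Nat.mul 24 d))) (Nat.add (Nat.add (Nat.shiftRight TT (Nat.mul 24 f1))
    (Nat.shiftRight TT (Nat.mul 24 f2))) (Nat.shiftRight TT (Nat.mul 24 f3))))) l) 4) l) tg)))

def yv (q n i3 a1 lam r : ℕ) : ℕ :=
  Nat.mod (Nat.mul (Nat.add (Nat.mul lam r) (Nat.mul n a1)) i3) q

noncomputable def hit (q n l h tg i3 LG TT v d M a1 lam r1 r2 : ℕ) : Bool :=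
  fin3 n l h tg TT v d M (l10 LG (yv q n i3 a1 lam r1)) (l10 LG (yv q n i3 a1 lam r2))
    (l10 LG (yv q n i3 a1 lam (Nat.mod (Nat.mul n (Nat.add r1 r2)) q)))

noncomputable def kk (q n l h tg i3 LA LG TT v j1 j2 j3 a1 A r : ℕ) : Bool :=
  hit q n l h tg i3 LG TT v (2 * j3) (2 * max (max j1 (j2 - j1)) (j3 - j2)) a1 (l9 LA A)
    (Nat.sub (Nat.div r 512) 1) (Nat.mod r 512)

noncomputable def g4 (K : ℕ → ℕ → ℕ → Bool) (a1 A r : ℕ) : Bool :=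
  Bool.rec (K a1 A r) true (Nat.beq r 0)

noncomputable def g3 (q k2 FA RO RR : ℕ) (K : ℕ → ℕ → ℕ → Bool) (a1 c D A : ℕ) : Bool :=
  g4 K a1 A (Nat.mod (Nat.shiftRight RR (Nat.mul 18 (Nat.add
    (Nat.mod (Nat.shiftRight RO (Nat.mul 10 A)) 1024) (Nat.mod (Nat.mul
      (Nat.mod (Nat.shiftRight FA (Nat.mul 9 A)) 512)
      (Nat.add D (Nat.mul k2 (Nat.mul a1 (Nat.add A (Nat.mul 4 c)))))) q)))) 262144)

noncomputable def g2 (q k2 IV FA RO RR : ℕ) (K : ℕ → ℕ → ℕ → Bool) (a1 c D E : ℕ) : Bool :=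
  g3 q k2 FA RO RR K a1 c D (Nat.mod (Nat.add (Nat.mul 6 c)
    (Nat.mul E (Nat.mod (Nat.shiftRight IV (Nat.mul 9 D)) 512))) q)

noncomputable def g1 (q k2 IV FA RO RR : ℕ) (K : ℕ → ℕ → ℕ → Bool) (P3 P5 z a1 : ℕ) : Bool :=
  g2 q k2 IV FA RO RR K a1 (Nat.mul a1 a1)
    (Nat.mod (Nat.add (Nat.add (Nat.pow a1 3) P3) (Nat.pow z 3)) q)
    (Nat.add (Nat.add (Nat.pow a1 5) P5) (Nat.pow z 5))

noncomputable def g0 (q k2 IV FA RO RR : ℕ) (K : ℕ → ℕ → ℕ → Bool) (p1 P3 P5 x : ℕ) : Bool :=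
  g1 q k2 IV FA RO RR K P3 P5 (Nat.sub q x) (Nat.add p1 x)

noncomputable def l3 (q k2 GG IV FA RO RR : ℕ) (K : ℕ → ℕ → ℕ → ℕ → Bool)
    (lo k p1 P3 P5 : ℕ) : Bool :=
  allr lo k fun j3 => g0 q k2 IV FA RO RR (K j3) p1 P3 P5
    (Nat.mod (Nat.shiftRight GG (Nat.mul 18 j3)) 512)

/-- number of values of the third logarithm -/
def up (h j1 j2 : ℕ) : ℕ :=
  min (h - 1) (min (h - j1) (min (h + j1 - j2) ((h + j2) / 2))) + 1 - j2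

noncomputable def l2 (q n l h tg i3 k2 GG IV FA RO RR LA LG TT j1 j2 x1 x2 : ℕ) : Bool :=
  l3 q k2 GG IV FA RO RR (kk q n l h tg i3 LA LG TT (Nat.add (Nat.add TT
    (Nat.shiftRight TT (Nat.mul 24 (2 * j1)))) (Nat.shiftRight TT (Nat.mul 24 (2 * j2)))) j1 j2)
    j2 (up h j1 j2) (1 + x1 + x2) (n * (1 + x1 ^ 3 + x2 ^ 3)) (n * (1 + x1 ^ 5 + x2 ^ 5))

noncomputable def l1 (q n l h tg i3 k2 GG IV FA RO RR LA LG TT lo k : ℕ) : Bool :=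
  allr lo k fun j1 => allr j1 (h - j1) fun j2 =>
    l2 q n l h tg i3 k2 GG IV FA RO RR LA LG TT j1 j2 (l9 GG (2 * j1)) (l9 GG (2 * j2))

/-- constants and the tables of one variable -/
noncomputable def t1 (q n l h g w tg i3 k2 GG IV FA RO LA BA LG TT : ℕ) : Bool :=
  decide (q = n + 1 ∧ n = h + h ∧ 11 ≤ q ∧ q ≤ 500 ∧ 1 < l ∧ l ≤ 2097152 ∧ (9 * k2 + 2) % q = 0 ∧
    3 * i3 % q = 1 ∧ g ^ h % q = n ∧ tg = q ^ 14 % l ∧ w ^ q % l = 1 ∧ w % l ≠ 1) &&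
  (allr 0 n fun d => decide (l9 GG d = g ^ d % q ∧ l10 LG (g ^ d % q) = d)) &&
  (allr 1 n fun x => decide (g ^ l10 LG x % q = x ∧ l10 LG x < n ∧
    (5 * x * l9 IV x + 27) % q = 0)) &&
  (allr 0 q fun A => decide (l9 LA A ^ 3 * l9 FA A % q = 9 ∧ l9 LA A ^ 2 * l9 BA A % q = A ∧
    l9 LA (l9 BA A) = 1 ∧ l10 RO (l9 BA A) = l10 RO A ∧ l9 BA A < q)) &&
  (allr 0 (n + h) fun j => decide (l24 TT j =
    (w ^ (g ^ j % q) + (l - 1) * w ^ (n * g ^ j % q)) % l))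

noncomputable def t4 (q RO RR LA u v t A : ℕ) : Bool :=
  Bool.rec true (Nat.beq (l18 RR (Nat.add (l10 RO A) (Nat.mod (Nat.mul (Nat.mul u v) t) q)))
    (Nat.add (Nat.mul (Nat.add u 1) 512) v)) (Nat.beq (l9 LA A) 1)

noncomputable def t3 (q RO RR LA u v t : ℕ) : Bool :=
  Bool.rec true (t4 q RO RR LA u v t
    (Nat.mod (Nat.add (Nat.mul u v) (Nat.mul (Nat.add u v) t)) q)) (Nat.ble v t)

/-- the root table -/
noncomputable def t2 (q n RO RR LA : ℕ) : Bool :=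
  allr 0 q fun u => allr u (Nat.sub q u) fun v =>
    t3 q RO RR LA u v (Nat.mod (Nat.mul n (Nat.add u v)) q)

end Pool.Agent.Lib.SH56.SIEVE2_
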