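import Pool.Agent.Lib.SH56.B_SIEVE2a

/-! Soundness of the checker: one quadruple. -/

open Finset

namespace Pool.Agent.Lib.SH56.SIEVE2_

theorem allr_sound {lo k : ℕ} {f : ℕ → Bool} (h : allr lo k f = true) :
    ∀ i, lo ≤ i → i < lo + k → f i = true := by
  induction k with
  | zero => intro i h1 h2; omega
  | succ k ih =>
    have h' : (Bool.rec false (allr lo k f) (f (lo + k)) : Bool) = true := h
    intro i h1 h2
    cases hf : f (lo + k) with
    | false => rw [hf] at h'; cases h'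
    | true =>
      rw [hf] at h'
      rcases Nat.lt_or_ge i (lo + k) with h3 | h3
      · exact ih h' i h1 h3
      · rwa [show i = lo + k by omega]

theorem l24_shift (X a k : ℕ) : l24 (Nat.shiftRight X (Nat.mul 24 a)) k = l24 X (k + a) := by
  show ((X >>> (24 * a)) >>> (24 * k)) % 16777216 = (X >>> (24 * (k + a))) % 16777216
  rw [← Nat.shiftRight_add]
  congr 2
  ring

theorem nrm_eq (h : ℕ) : ∀ X0 X1 X2 X3 X4 X5 X6 : ℕ,
    (∀ k < h, l24 X0 k < 2097152 ∧ l24 X1 k < 2097152 ∧ l24 X2 k < 2097152 ∧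
      l24 X3 k < 2097152 ∧ l24 X4 k < 2097152 ∧ l24 X5 k < 2097152 ∧ l24 X6 k < 2097152) →
    nrm h (X0 + X1 + X2 + X3 + (X4 + X5 + X6)) = ∏ k ∈ range h,
      (l24 X0 k + l24 X1 k + l24 X2 k + l24 X3 k + (l24 X4 k + l24 X5 k + l24 X6 k)) := by
  induction h with
  | zero => intros; rfl
  | succ h ih =>
    intro X0 X1 X2 X3 X4 X5 X6 hb
    have s : ∀ X k, l24 (X / 16777216) k = l24 X (k + 1) := fun X k => by
      have := l24_shift X 1 k
      rwa [show Nat.shiftRight X (Nat.mul 24 1) = X / 16777216 from Nat.shiftRight_eq_div_pow X 24]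
        at this
    have z : ∀ X, l24 X 0 = X % 16777216 := fun X => rfl
    have h0 := hb 0 (by omega)
    simp only [z] at h0
    have e : nrm (h + 1) (X0 + X1 + X2 + X3 + (X4 + X5 + X6)) =
        (X0 + X1 + X2 + X3 + (X4 + X5 + X6)) % 16777216 *
          nrm h ((X0 + X1 + X2 + X3 + (X4 + X5 + X6)) >>> 24) := rfl
    rw [e, Nat.shiftRight_eq_div_pow, prod_range_succ', show (2 : ℕ) ^ 24 = 16777216 by norm_num,
      show (X0 + X1 + X2 + X3 + (X4 + X5 + X6)) / 16777216 = X0 / 16777216 + X1 / 16777216 +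
        X2 / 16777216 + X3 / 16777216 + (X4 / 16777216 + X5 / 16777216 + X6 / 16777216) by omega,
      ih _ _ _ _ _ _ _ (fun k hk => by simp only [s]; exact hb (k + 1) (by omega)), mul_comm]
    simp only [s, z]
    congr 1
    omega

theorem alg {F : Type} [Field F] (a b c a1 a3 a5 iv k2 i3 : F) (h1 : a1 + (a + b + c) = 0)
    (h3 : a3 + (a ^ 3 + b ^ 3 + c ^ 3) = 0) (h5 : a5 + (a ^ 5 + b ^ 5 + c ^ 5) = 0)
    (hi : 5 * (a1 ^ 3 - a3) * iv + 27 = 0) (hk : 9 * k2 + 2 = 0) (h : 3 * i3 = 1) (A : F)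
    (hA : A = 6 * (a1 * a1) + (a1 ^ 5 - a5) * iv) :
    (3 * a + a1) * (3 * b + a1) + ((3 * a + a1) + (3 * b + a1)) * (3 * c + a1) = A ∧
    (3 * a + a1) * (3 * b + a1) * (3 * c + a1) =
      9 * ((a1 ^ 3 - a3) + k2 * (a1 * (A + 4 * (a1 * a1)))) := by
  obtain rfl : a1 = -(a + b + c) := by linear_combination h1
  obtain rfl : a3 = -(a ^ 3 + b ^ 3 + c ^ 3) := by linear_combination h3
  obtain rfl : a5 = -(a ^ 5 + b ^ 5 + c ^ 5) := by linear_combination h5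
  have h3' : (3 : F) ≠ 0 := fun h0 => by rw [h0, zero_mul] at h; exact zero_ne_one h
  have e : (3 * a + -(a + b + c)) * (3 * b + -(a + b + c)) +
      ((3 * a + -(a + b + c)) + (3 * b + -(a + b + c))) * (3 * c + -(a + b + c)) = A := by
    apply mul_left_cancel₀ h3'
    rw [hA]
    linear_combination (-((a + b + c) ^ 2 - (a * b + a * c + b * c))) * hi
  refine ⟨e, ?_⟩
  linear_combination (2 * (a + b + c)) * e +
    ((a + b + c) * (A + 4 * (-(a + b + c) * -(a + b + c)))) * hk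

theorem sym3 (P : ℕ → ℕ → ℕ → Prop) (f : ℕ → ℕ) (s1 : ∀ a b c, P a b c → P b a c)
    (s2 : ∀ a b c, P a b c → P a c b) (h : ∀ a b c, f a ≤ f b → f b ≤ f c → P a b c) (a b c : ℕ) :
    P a b c := by
  rcases le_total (f a) (f b) with h1 | h1 <;> rcases le_total (f b) (f c) with h2 | h2 <;>
    rcases le_total (f a) (f c) with h3 | h3
  · exact h _ _ _ h1 h2
  · exact h _ _ _ h1 h2
  · exact s2 _ _ _ (h _ _ _ h3 h2)
  · exact s2 _ _ _ (s1 _ _ _ (h _ _ _ h3 h1))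
  · exact s1 _ _ _ (h _ _ _ h1 h3)
  · exact s1 _ _ _ (s2 _ _ _ (h _ _ _ h2 h3))
  · exact s1 _ _ _ (h _ _ _ h1 h3)
  · exact s1 _ _ _ (s2 _ _ _ (s1 _ _ _ (h _ _ _ h2 h1)))

structure Ok (q n l h g w tg i3 k2 GG IV FA RO RR LA BA LG TT : ℕ) : Prop where
  c : q = n + 1 ∧ n = h + h ∧ 11 ≤ q ∧ q ≤ 500 ∧ 1 < l ∧ l ≤ 2097152 ∧ (9 * k2 + 2) % q = 0 ∧
    3 * i3 % q = 1 ∧ g ^ h % q = n ∧ tg = q ^ 14 % l ∧ w ^ q % l = 1 ∧ w % l ≠ 1
  G : ∀ d < n, l9 GG d = g ^ d % q ∧ l10 LG (g ^ d % q) = d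
  L : ∀ x, 1 ≤ x → x < q → g ^ l10 LG x % q = x ∧ l10 LG x < n ∧ (5 * x * l9 IV x + 27) % q = 0
  A : ∀ A < q, l9 LA A ^ 3 * l9 FA A % q = 9 ∧ l9 LA A ^ 2 * l9 BA A % q = A ∧
    l9 LA (l9 BA A) = 1 ∧ l10 RO (l9 BA A) = l10 RO A ∧ l9 BA A < q
  T : ∀ j < n + h, l24 TT j = (w ^ (g ^ j % q) + (l - 1) * w ^ (n * g ^ j % q)) % l
  R : ∀ u v, u ≤ v → v < q → v ≤ n * (u + v) % q →
    l9 LA ((u * v + (u + v) * (n * (u + v) % q)) % q) = 1 →
    l18 RR (l10 RO ((u * v + (u + v) * (n * (u + v) % q)) % q) +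
      u * v * (n * (u + v) % q) % q) = (u + 1) * 512 + v

theorem ok_of {q n l h g w tg i3 k2 GG IV FA RO RR LA BA LG TT : ℕ}
    (h1 : t1 q n l h g w tg i3 k2 GG IV FA RO LA BA LG TT = true) (h2 : t2 q n RO RR LA = true) :
    Ok q n l h g w tg i3 k2 GG IV FA RO RR LA BA LG TT := by
  simp only [t1, Bool.and_eq_true, decide_eq_true_eq] at h1
  obtain ⟨⟨⟨⟨a, b⟩, c⟩, d⟩, e⟩ := h1
  refine ⟨a, fun x hx => of_decide_eq_true (allr_sound b x (by omega) (by omega)),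
    fun x h0 hx => of_decide_eq_true (allr_sound c x h0 (by omega)),
    fun x hx => of_decide_eq_true (allr_sound d x (by omega) (by omega)),
    fun x hx => of_decide_eq_true (allr_sound e x (by omega) (by omega)), ?_⟩
  intro u v huv hv ht hl
  have := allr_sound (allr_sound h2 u (by omega) (by omega)) v huv
    (by show v < u + (q - u); omega)
  have e1 : Nat.ble v (Nat.mod (Nat.mul n (Nat.add u v)) q) = true := Nat.ble_eq_true_of_le ht
  unfold t3 at this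
  rw [e1] at this
  have e2 : Nat.beq (l9 LA (Nat.mod (Nat.add (Nat.mul u v) (Nat.mul (Nat.add u v)
    (Nat.mod (Nat.mul n (Nat.add u v)) q))) q)) 1 = true := by
    rw [Nat.beq_eq]; exact hl
  unfold t4 at this
  rw [e2] at this
  exact Nat.eq_of_beq_eq_true this

end Pool.Agent.Lib.SH56.SIEVE2_
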