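import Pool.Agent.Lib.SH56.B_SIEVE2b

/-! Soundness of the checker: the core lemma. -/

open Finset

namespace Pool.Agent.Lib.SH56.SIEVE2_

def S (q n l g w j : ℕ) : ZMod l :=
  (w : ZMod l) ^ (g ^ j % q) - (w : ZMod l) ^ (n * g ^ j % q)

def PP (q n l h g w a b c d e f : ℕ) : ZMod l :=
  ∏ k ∈ range h, (S q n l g w k + S q n l g w (k + a) + S q n l g w (k + b) + S q n l g w (k + c) +
    (S q n l g w (k + d) + S q n l g w (k + e) + S q n l g w (k + f)))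

variable {q n l h g w tg i3 k2 GG IV FA RO RR LA BA LG TT : ℕ}

theorem cm {q a b : ℕ} (h : (a : ZMod q) = b) : a % q = b % q :=
  (ZMod.natCast_eq_natCast_iff' a b q).1 h

theorem mc {q a b : ℕ} (h : a % q = b) : (a : ZMod q) = b := by rw [← h, ZMod.natCast_mod]

theorem Ok.n1 (o : Ok q n l h g w tg i3 k2 GG IV FA RO RR LA BA LG TT) : (n : ZMod q) = -1 := by
  have : ((n + 1 : ℕ) : ZMod q) = 0 := by rw [← o.c.1]; exact ZMod.natCast_self q
  push_cast at this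
  linear_combination this

theorem Ok.i (o : Ok q n l h g w tg i3 k2 GG IV FA RO RR LA BA LG TT) :
    3 * (i3 : ZMod q) = 1 := by
  have := mc o.c.2.2.2.2.2.2.2.1
  push_cast at this
  exact this

theorem fin3_sound (o : Ok q n l h g w tg i3 k2 GG IV FA RO RR LA BA LG TT) {a b d M e f t : ℕ}
    (ha : a < n) (hb : b < n) (hd : d < n) (he : e < n) (hf : f < n) (ht : t < n)
    (H : fin3 n l h tg TT (Nat.add (Nat.add TT (Nat.shiftRight TT (Nat.mul 24 a)))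
      (Nat.shiftRight TT (Nat.mul 24 b))) d M e f t = true) (b1 : bad n d M e = false)
    (b2 : bad n d M f = false) (b3 : bad n d M t = false) :
    PP q n l h g w a b d e f t ^ 4 ≠ (q : ZMod l) ^ 14 := by
  obtain ⟨-, -, -, -, l1, l2, -, -, -, tq, -, -⟩ := o.c
  have lt : ∀ j < n + h, l24 TT j < 2097152 := fun j hj => by
    rw [o.T j hj]; exact lt_of_lt_of_le (Nat.mod_lt _ (by omega)) l2
  have cs : ∀ j < n + h, ((l24 TT j : ℕ) : ZMod l) = S q n l g w j := fun j hj => by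
    rw [o.T j hj, ZMod.natCast_mod, Nat.cast_add, Nat.cast_mul, Nat.cast_sub l1.le,
      ZMod.natCast_self, S]
    push_cast
    ring
  have e0 := nrm_eq h TT (Nat.shiftRight TT (Nat.mul 24 a)) (Nat.shiftRight TT (Nat.mul 24 b))
    (Nat.shiftRight TT (Nat.mul 24 d)) (Nat.shiftRight TT (Nat.mul 24 e))
    (Nat.shiftRight TT (Nat.mul 24 f)) (Nat.shiftRight TT (Nat.mul 24 t)) (fun k hk => by
      simp only [l24_shift]
      exact ⟨lt _ (by omega), lt _ (by omega), lt _ (by omega), lt _ (by omega), lt _ (by omega),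
        lt _ (by omega), lt _ (by omega)⟩)
  simp only [fin3, b1, b2, b3, Bool.false_or, Bool.not_eq_true', Nat.add_eq] at H
  rw [e0] at H
  intro hq
  refine Nat.ne_of_beq_eq_false H ?_
  show (_ % l) ^ 4 % l = tg
  rw [← Nat.pow_mod, tq]
  apply cm
  rw [Nat.cast_pow, Nat.cast_pow, ← hq, Nat.cast_prod, PP]
  congr 1
  refine prod_congr rfl fun k hk => ?_
  have := mem_range.1 hk
  simp only [l24_shift, Nat.cast_add]
  rw [cs, cs, cs, cs, cs, cs, cs] <;> omega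

theorem yv_sound (o : Ok q n l h g w tg i3 k2 GG IV FA RO RR LA BA LG TT) {a1 lam r f : ℕ}
    (hf : f < n) (H : (lam : ZMod q) * r = 3 * (g : ZMod q) ^ f + a1) :
    l10 LG (yv q n i3 a1 lam r) = f := by
  have : yv q n i3 a1 lam r = g ^ f % q := by
    show (lam * r + n * a1) * i3 % q = _
    apply cm
    push_cast
    rw [H, o.n1]
    linear_combination (g : ZMod q) ^ f * o.i
  rw [this, (o.G f hf).2]

theorem root [Fact q.Prime] (o : Ok q n l h g w tg i3 k2 GG IV FA RO RR LA BA LG TT) {A Z : ℕ}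
    (hA : A < q) (U V W : ZMod q) (h0 : ((l9 LA A : ℕ) : ZMod q) ≠ 0) (h1 : U + V + W = 0)
    (h2 : ((l9 LA A : ℕ) : ZMod q) ^ 2 * (U * V + (U + V) * W) = A)
    (h3 : ((l9 LA A : ℕ) : ZMod q) ^ 3 * (U * V * W) = 9 * Z) (o1 : U.val ≤ V.val)
    (o2 : V.val ≤ W.val) : l18 RR (l10 RO A + l9 FA A * Z % q) = (U.val + 1) * 512 + V.val ∧
      n * (U.val + V.val) % q = W.val := by
  obtain ⟨a1, a2, a3, a4, a5⟩ := o.A A hA
  have c1 := mc a1
  have c2 := mc a2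
  push_cast at c1 c2
  have t : n * (U.val + V.val) % q = W.val := by
    rw [← Nat.mod_eq_of_lt (ZMod.val_lt W)]
    apply cm
    push_cast
    simp only [ZMod.natCast_val, ZMod.cast_id', id_eq, o.n1]
    linear_combination -h1
  have e2 : (U.val * V.val + (U.val + V.val) * W.val) % q = l9 BA A := by
    rw [← Nat.mod_eq_of_lt a5]
    apply cm
    push_cast
    simp only [ZMod.natCast_val, ZMod.cast_id', id_eq]
    apply mul_left_cancel₀ (pow_ne_zero 2 h0)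
    rw [h2, c2]
  have e3 : U.val * V.val * W.val % q = l9 FA A * Z % q := by
    apply cm
    push_cast
    simp only [ZMod.natCast_val, ZMod.cast_id', id_eq]
    apply mul_left_cancel₀ (pow_ne_zero 3 h0)
    rw [h3, ← c1, mul_assoc]
  have := o.R U.val V.val o1 (ZMod.val_lt V) (by rw [t]; exact o2) (by rw [t, e2]; exact a3)
  rw [t, e2, e3, a4] at this
  exact ⟨this, t⟩

theorem core [Fact q.Prime] (o : Ok q n l h g w tg i3 k2 GG IV FA RO RR LA BA LG TT)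
    {j1 j2 j3 : ℕ} (h1 : 2 * j1 < n) (h2 : 2 * j2 < n) (h3 : 2 * j3 < n) {x1 x2 x3 : ℕ}
    (e1 : x1 = l9 GG (2 * j1)) (e2 : x2 = l9 GG (2 * j2)) (e3 : x3 = l9 GG (2 * j3))
    (H : g0 q k2 IV FA RO RR (kk q n l h tg i3 LA LG TT (Nat.add (Nat.add TT
      (Nat.shiftRight TT (Nat.mul 24 (2 * j1)))) (Nat.shiftRight TT (Nat.mul 24 (2 * j2)))) j1 j2 j3)
      (1 + x1 + x2) (n * (1 + x1 ^ 3 + x2 ^ 3)) (n * (1 + x1 ^ 5 + x2 ^ 5)) x3 = true)
    (γ : ZMod q) (hγ : γ = g) (M : ℕ) (hM : M = 2 * max (max j1 (j2 - j1)) (j3 - j2)) (a b c : ℕ) :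
    a < n → b < n → c < n →
    1 + γ ^ (2 * j1) + γ ^ (2 * j2) + γ ^ (2 * j3) + (γ ^ a + γ ^ b + γ ^ c) = 0 →
    1 + (γ ^ (2 * j1)) ^ 3 + (γ ^ (2 * j2)) ^ 3 + (γ ^ (2 * j3)) ^ 3 +
      ((γ ^ a) ^ 3 + (γ ^ b) ^ 3 + (γ ^ c) ^ 3) = 0 →
    1 + (γ ^ (2 * j1)) ^ 5 + (γ ^ (2 * j2)) ^ 5 + (γ ^ (2 * j3)) ^ 5 +
      ((γ ^ a) ^ 5 + (γ ^ b) ^ 5 + (γ ^ c) ^ 5) = 0 →
    (γ ^ a + γ ^ b) * (γ ^ a + γ ^ c) * (γ ^ b + γ ^ c) ≠ 0 →
    bad n (2 * j3) M a = false → bad n (2 * j3) M b = false → bad n (2 * j3) M c = false →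
    PP q n l h g w (2 * j1) (2 * j2) (2 * j3) a b c ^ 4 ≠ (q : ZMod l) ^ 14 := by
  have q0 : 0 < q := by have := o.c.1; omega
  have cx : ∀ d < n, ((l9 GG d : ℕ) : ZMod q) = γ ^ d := fun d hd => by
    rw [(o.G d hd).1, ZMod.natCast_mod, hγ, Nat.cast_pow]
  have x3q : x3 ≤ q := by rw [e3, (o.G _ h3).1]; exact (Nat.mod_lt _ q0).le
  have c1 := cx _ h1
  have c2 := cx _ h2
  have c3 := cx _ h3
  rw [← e1] at c1
  rw [← e2] at c2
  rw [← e3] at c3
  obtain ⟨a1, ha1⟩ : ∃ a1, a1 = 1 + x1 + x2 + x3 := ⟨_, rfl⟩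
  obtain ⟨D, hD⟩ : ∃ D, D = (a1 ^ 3 + n * (1 + x1 ^ 3 + x2 ^ 3) + (q - x3) ^ 3) % q := ⟨_, rfl⟩
  obtain ⟨A, hA⟩ : ∃ A, A = (6 * (a1 * a1) +
    (a1 ^ 5 + n * (1 + x1 ^ 5 + x2 ^ 5) + (q - x3) ^ 5) * l9 IV D) % q := ⟨_, rfl⟩
  have H' : g4 (kk q n l h tg i3 LA LG TT (Nat.add (Nat.add TT
      (Nat.shiftRight TT (Nat.mul 24 (2 * j1)))) (Nat.shiftRight TT (Nat.mul 24 (2 * j2)))) j1 j2 j3)
      a1 A (l18 RR (l10 RO A + l9 FA A * (D + k2 * (a1 * (A + 4 * (a1 * a1)))) % q)) = true := by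
    subst hA hD ha1
    exact H
  have Aq : A < q := hA ▸ Nat.mod_lt _ q0
  have cD : (D : ZMod q) = (a1 : ZMod q) ^ 3 - (1 + x1 ^ 3 + x2 ^ 3 + x3 ^ 3) := by
    rw [hD, ZMod.natCast_mod]
    push_cast [Nat.cast_sub x3q, ZMod.natCast_self, o.n1]
    ring
  have cA : (A : ZMod q) = 6 * ((a1 : ZMod q) * a1) +
      ((a1 : ZMod q) ^ 5 - (1 + x1 ^ 5 + x2 ^ 5 + x3 ^ 5)) * (l9 IV D : ℕ) := by
    rw [hA, ZMod.natCast_mod]
    push_cast [Nat.cast_sub x3q, ZMod.natCast_self, o.n1]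
    ring
  have ca : (a1 : ZMod q) = 1 + x1 + x2 + x3 := by rw [ha1]; push_cast; rfl
  have n3 : (3 : ZMod q) ≠ 0 := fun h0 => by
    have := o.i
    rw [h0, zero_mul] at this
    exact zero_ne_one this
  have l0 : ((l9 LA A : ℕ) : ZMod q) ≠ 0 := fun h0 => by
    have := mc (o.A A Aq).1
    push_cast at this
    rw [h0] at this
    exact mul_ne_zero n3 n3 (by linear_combination -this)
  have ck : 9 * (k2 : ZMod q) + 2 = 0 := by
    have := mc o.c.2.2.2.2.2.2.1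
    push_cast at this
    exact this
  rw [← c1, ← c2, ← c3, ← ca]
  revert a b c
  refine sym3 _ (fun f => ((3 * γ ^ f + a1) / (l9 LA A : ℕ)).val) ?_ ?_ ?_
  · intro a b c P ha hb hc p1 p3 p5 pn b1 b2 b3
    have := P hb ha hc (by linear_combination p1) (by linear_combination p3)
      (by linear_combination p5) (fun h0 => pn (by linear_combination h0)) b2 b1 b3
    rwa [show PP q n l h g w (2 * j1) (2 * j2) (2 * j3) b a c = PP q n l h g w (2 * j1) (2 * j2)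
      (2 * j3) a b c from prod_congr rfl fun k _ => by ring]
  · intro a b c P ha hb hc p1 p3 p5 pn b1 b2 b3
    have := P ha hc hb (by linear_combination p1) (by linear_combination p3)
      (by linear_combination p5) (fun h0 => pn (by linear_combination h0)) b1 b3 b2
    rwa [show PP q n l h g w (2 * j1) (2 * j2) (2 * j3) a c b = PP q n l h g w (2 * j1) (2 * j2)
      (2 * j3) a b c from prod_congr rfl fun k _ => by ring]
  intro a b c o1 o2 ha hb hc p1 p3 p5 pn b1 b2 b3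
  have D0 : D ≠ 0 := fun h0 => by
    rw [h0, Nat.cast_zero, show (a1 : ZMod q) = -(γ ^ a + γ ^ b + γ ^ c) by linear_combination p1]
      at cD
    exact mul_ne_zero n3 pn (by linear_combination cD - p3)
  have ci := mc (o.L D (by omega) (hD ▸ Nat.mod_lt _ q0)).2.2
  push_cast at ci
  rw [cD] at ci
  obtain ⟨s2, s3⟩ := alg _ _ _ _ _ _ _ _ _ p1 p3 p5 ci ck o.i _ cA
  obtain ⟨r1, r2⟩ := root o (Z := D + k2 * (a1 * (A + 4 * (a1 * a1)))) Aq _ _ _ l0
    (by field_simp; linear_combination 3 * p1) (by rw [← s2]; field_simp)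
    (by push_cast; rw [cD, ← s3]; field_simp) o1 o2
  have vq : ((3 * γ ^ b + a1) / (l9 LA A : ℕ)).val < q := ZMod.val_lt _
  have := o.c.2.2.2.1
  have y : ∀ f < n, l10 LG (yv q n i3 a1 (l9 LA A) ((3 * γ ^ f + a1) / (l9 LA A : ℕ)).val) = f :=
    fun f hf => yv_sound o hf (by
      simp only [ZMod.natCast_val, ZMod.cast_id', id_eq, ← hγ]; field_simp)
  have ya := y a ha
  have yb := y b hb
  have yc := y c hc
  rw [r1] at H'
  rw [← r2] at yc
  generalize ((3 * γ ^ a + a1) / (l9 LA A : ℕ)).val = u at H' ya yc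
  generalize ((3 * γ ^ b + a1) / (l9 LA A : ℕ)).val = v at H' yb yc vq
  have z : Nat.beq ((u + 1) * 512 + v) 0 = false := by
    cases hz : Nat.beq ((u + 1) * 512 + v) 0
    · rfl
    · have := Nat.eq_of_beq_eq_true hz
      omega
  unfold g4 at H'
  rw [z] at H'
  have H2 : fin3 n l h tg TT (Nat.add (Nat.add TT (Nat.shiftRight TT (Nat.mul 24 (2 * j1))))
      (Nat.shiftRight TT (Nat.mul 24 (2 * j2)))) (2 * j3) (2 * max (max j1 (j2 - j1)) (j3 - j2))
      (l10 LG (yv q n i3 a1 (l9 LA A) (((u + 1) * 512 + v) / 512 - 1)))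
      (l10 LG (yv q n i3 a1 (l9 LA A) (((u + 1) * 512 + v) % 512)))
      (l10 LG (yv q n i3 a1 (l9 LA A)
        (n * (((u + 1) * 512 + v) / 512 - 1 + ((u + 1) * 512 + v) % 512) % q))) = true := H'
  rw [show ((u + 1) * 512 + v) / 512 - 1 = u by omega, show ((u + 1) * 512 + v) % 512 = v by omega,
    ya, yb, yc, ← hM] at H2
  exact fin3_sound o h1 h2 h3 ha hb hc H2 b1 b2 b3

end Pool.Agent.Lib.SH56.SIEVE2_
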