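import Pool.Agent.Lib.SH56.Blue

/-! Row SMALL: many primes divide the constant, so the degree is large. -/

open Polynomial Finset

namespace Pool.Agent.Lib.SH56

namespace SMALL_

theorem ql_prime : ∀ q ∈ QL, q.Prime ∧ 11 ≤ q := by
  intro q hq
  simp only [QL, List.mem_cons, List.not_mem_nil, or_false] at hq
  rcases hq with h | h | h | h | h | h | h | h | h | h | h | h | h | h | h | h | h | h | h | h |
    h | h | h | h | h | h | h | h | h | h | h | h | h | h | h | h | h <;>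
  (subst h; exact ⟨by norm_num, by norm_num⟩)

theorem not_dvd_MM {q : ℕ} (hq : q.Prime) (h11 : 11 ≤ q) : ¬ q ∣ MM := by
  intro h
  have key : ∀ p k : ℕ, 0 < p → p ≤ 7 → ¬ q ∣ p ^ k := fun p k hp h7 hd => by
    have := Nat.le_of_dvd hp (hq.dvd_of_dvd_pow hd)
    omega
  rcases (Nat.Prime.dvd_mul hq).1 h with h | h
  · rcases (Nat.Prime.dvd_mul hq).1 h with h | h
    · rcases (Nat.Prime.dvd_mul hq).1 h with h | h
      · exact key 2 8 (by omega) (by omega) h
      · exact key 3 7 (by omega) (by omega) h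
    · exact key 5 3 (by omega) (by omega) h
  · exact key 7 2 (by omega) (by omega) h

theorem dvd_pow_sum {x : Fin 7 → ℤ} {y : Fin 7 → ℕ} {q : ℕ} (h : ∀ i, (q : ℤ) ∣ x i - y i)
    (k : ℕ) (hx : ∑ i, x i ^ k = 0) : q ∣ ∑ i, y i ^ k := by
  have h1 : (q : ℤ) ∣ ∑ i, (x i ^ k - (y i : ℤ) ^ k) :=
    Finset.dvd_sum fun i _ => (h i).trans (sub_dvd_pow_sub_pow _ _ k)
  rw [Finset.sum_sub_distrib, hx, zero_sub, dvd_neg] at h1
  exact_mod_cast h1

theorem q_dvd (hS : SIEVE) (hN : NRM) (hR : ROOT) (hC : CONST) {x : Fin 7 → ℤ} {R : ℕ}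
    {s : Multiset ℕ} (h : Sol x R s) {q : ℕ} (hq : q ∈ QL) : (q : ℤ) ∣ 2 * ∏ j, x j := by
  by_contra hn
  obtain ⟨hp, h11⟩ := ql_prime q hq
  have hpair : ∀ i j, ¬ (q : ℤ) ∣ x i + x j := fun i j hd => hn (by
    rw [← (hC x h.pte).1 i]
    exact hd.trans (Finset.dvd_prod_of_mem (fun j => x i + x j) (Finset.mem_univ j)))
  have hs : ∀ n ∈ s, ¬ q ∣ n := fun n hn' hd => by
    rcases hR x R s h n hn' with h1 | ⟨_, σ, h1⟩
    · exact not_dvd_MM hp h11 (hd.trans h1)
    · exact hpair 0 (σ 0) ((Int.natCast_dvd_natCast.2 hd).trans (h1 0))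
  have hq0 : (0 : ℤ) < q := by exact_mod_cast hp.pos
  have hy : ∀ i, ∃ y : ℕ, y < q ∧ (q : ℤ) ∣ x i - y := fun i => by
    have h0 := Int.emod_nonneg (x i) hq0.ne'
    have h1 := Int.emod_lt_of_pos (x i) hq0
    refine ⟨(x i % q).toNat, by omega, ?_⟩
    rw [Int.toNat_of_nonneg h0]
    exact Int.dvd_self_sub_emod
  choose y hy using hy
  obtain ⟨l, w, hl, hw, hsv⟩ := hS q hq
  have hd : ∀ i, (q : ℤ) ∣ x i - y i := fun i => (hy i).2
  refine hsv y (fun i => (hy i).1) ?_ (dvd_pow_sum hd 3 h.pte.2.1) (dvd_pow_sum hd 5 h.pte.2.2.1)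
    (fun i j hij => hpair i j ?_) (hN x R s h.toPre q l w hp hl hw hs y hy)
  · have := dvd_pow_sum hd 1 (by simpa only [pow_one] using h.pte.1)
    simpa only [pow_one] using this
  · have h1 : (q : ℤ) ∣ (y i : ℤ) + y j := by exact_mod_cast hij
    have e : x i + x j = (x i - y i) + (x j - y j) + ((y i : ℤ) + y j) := by ring
    rw [e]
    exact dvd_add (dvd_add (hd i) (hd j)) h1

theorem prod_dvd (c : ℕ) : ∀ (L : List ℕ), L.Pairwise Nat.Coprime → (∀ q ∈ L, q ∣ c) →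
    L.prod ∣ c
  | [], _, _ => by rw [List.prod_nil]; exact one_dvd c
  | a :: L, hp, hd => by
    rw [List.prod_cons]
    rw [List.pairwise_cons] at hp
    exact Nat.Coprime.mul_dvd_of_dvd_of_dvd (Nat.coprime_list_prod_right_iff.2 hp.1)
      (hd a List.mem_cons_self) (prod_dvd c L hp.2 fun q hq => hd q (List.mem_cons_of_mem _ hq))

theorem ql_pair : (720 :: QL).Pairwise Nat.Coprime := by decide +kernel

theorem ql_big : 2 * (5 * 10 ^ 11) ^ 7 < (720 :: QL).prod := by decide +kernel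

end SMALL_

open SMALL_ in
theorem bSMALL (hS : SIEVE) (hN : NRM) (hR : ROOT) (hC : CONST) (hV : VAL) : SMALL := by
  intro x R s h
  by_contra hlt
  have hR' : R ≤ 5 * 10 ^ 11 := by omega
  have hd : (720 :: QL).prod ∣ (2 * ∏ j, x j).natAbs := by
    refine prod_dvd _ _ ql_pair fun q hq => ?_
    rcases List.mem_cons.1 hq with rfl | hq
    · exact Int.natCast_dvd.1 (hV x R s h.toPre).1
    · exact Int.natCast_dvd.1 (q_dvd hS hN hR hC h hq)
  have hne : (2 * ∏ j, x j : ℤ) ≠ 0 := by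
    refine mul_ne_zero (by omega) (Finset.prod_ne_zero_iff.2 fun j _ h0 => ?_)
    exact h.pte.2.2.2 j j (by rw [h0, add_zero])
  have h1 := Nat.le_of_dvd (Int.natAbs_pos.2 hne) hd
  have h2 : (∏ j, x j).natAbs ≤ R ^ 7 := by
    have e : (∏ j, x j).natAbs = ∏ j, (x j).natAbs := map_prod Int.natAbsHom x univ
    have h3 := Finset.prod_le_pow_card univ (fun j => (x j).natAbs) R fun j _ => by
      have := h.le j
      rw [Int.abs_eq_natAbs] at this
      exact_mod_cast this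
    rw [Finset.card_univ, Fintype.card_fin] at h3
    exact e ▸ h3
  have h4 : R ^ 7 ≤ (5 * 10 ^ 11) ^ 7 := Nat.pow_le_pow_left hR' 7
  rw [Int.natAbs_mul] at h1
  have h5 : (2 : ℤ).natAbs = 2 := rfl
  rw [h5] at h1
  exact absurd (h1.trans (Nat.mul_le_mul_left 2 (h2.trans h4))) (not_le.2 ql_big)

end Pool.Agent.Lib.SH56
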