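import Pool.Agent.Lib.SH56.Blue

/-! A residue class splits into the classes of the next level. -/

open Finset

namespace Pool.Agent.Lib.SH56

namespace SPLIT_

lemma key (y r m a : ℤ) (p : ℕ) (hm : m ≠ 0) (hp : 0 < p) :
    (if m ∣ y - r then a else 0) =
      ∑ j ∈ range p, if m * p ∣ y - (r + j * m) then a else 0 := by
  by_cases h : m ∣ y - r
  · obtain ⟨k, hk⟩ := h
    have hp' : (0 : ℤ) < p := by exact_mod_cast hp
    have h0 := Int.emod_nonneg k hp'.ne'
    have h1 := Int.emod_lt_of_pos k hp'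
    have hj : ∀ j : ℕ, m * p ∣ y - (r + j * m) ↔ (p : ℤ) ∣ k - j := by
      intro j
      rw [show y - (r + j * m) = m * (k - j) by linear_combination hk]
      exact mul_dvd_mul_iff_left hm
    have hc : (((k % p).toNat : ℕ) : ℤ) = k % p := Int.toNat_of_nonneg h0
    rw [if_pos ⟨k, hk⟩, sum_eq_single (k % p).toNat]
    · rw [if_pos]
      rw [hj, hc]
      exact Int.dvd_self_sub_emod
    · intro j hj1 hj2
      rw [if_neg]
      rw [hj]
      intro hd
      apply hj2
      have h2 : (j : ℤ) % p = k % p := Int.modEq_iff_dvd.2 hd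
      have h3 : (j : ℤ) % p = j :=
        Int.emod_eq_of_lt (Int.natCast_nonneg j) (by exact_mod_cast mem_range.1 hj1)
      omega
    · intro hn
      exact absurd (mem_range.2 (by omega)) hn
  · rw [if_neg h]
    refine (sum_eq_zero fun j _ => if_neg fun hd => h ?_).symm
    have h2 : m ∣ y - (r + j * m) := (dvd_mul_right m p).trans hd
    rw [show y - r = y - (r + j * m) + m * j by ring]
    exact dvd_add h2 (dvd_mul_right _ _)

lemma wA (x w : Fin 7 → ℤ) (m : ℤ) (p : ℕ) (r : ℤ) (hm : m ≠ 0) (hp : 0 < p) :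
    ∑ i ∈ univ.filter (fun i => m ∣ x i - r), w i =
      ∑ j ∈ range p, ∑ i ∈ univ.filter (fun i => m * p ∣ x i - (r + j * m)), w i := by
  simp only [sum_filter]
  rw [sum_comm]
  exact sum_congr rfl fun i _ => key _ _ _ _ _ hm hp

lemma wB (x w : Fin 7 → ℤ) (m : ℤ) (p : ℕ) (r : ℤ) (hm : m ≠ 0) (hp : 0 < p) :
    ∑ i ∈ univ.filter (fun i => m ∣ x i + r), w i =
      ∑ j ∈ range p, ∑ i ∈ univ.filter (fun i => m * p ∣ x i + (r + j * m)), w i := by
  have h := wA (fun i => -x i) w m p r hm hp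
  have e : ∀ a b c : ℤ, a ∣ -b - c ↔ a ∣ b + c := fun a b c => by
    rw [show -b - c = -(b + c) by ring, dvd_neg]
  simpa only [e] using h

end SPLIT_

open SPLIT_ in
theorem bSPLIT : SPLIT := by
  intro x m p r hm hp
  have hA : (cA x m r : ℤ) = ∑ j ∈ range p, (cA x (m * p) (r + j * m) : ℤ) := by
    simpa only [cA, card_eq_sum_ones, Nat.cast_sum, Nat.cast_one] using
      wA x (fun _ => 1) m p r hm hp
  have hB : (cB x m r : ℤ) = ∑ j ∈ range p, (cB x (m * p) (r + j * m) : ℤ) := by
    simpa only [cB, card_eq_sum_ones, Nat.cast_sum, Nat.cast_one] using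
      wB x (fun _ => 1) m p r hm hp
  refine ⟨by exact_mod_cast hA, by exact_mod_cast hB, ?_, ?_⟩
  · simp only [g0, sum_sub_distrib]
    rw [hA, hB]
  · simp only [g1, sum_add_distrib]
    rw [wA x x m p r hm hp, wB x x m p r hm hp]

end Pool.Agent.Lib.SH56
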