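import Pool.Agent.Lib.SH56.Blue

/-! The class counts over all levels are bounded by the valuation of the constant. -/

open Finset

namespace Pool.Agent.Lib.SH56

theorem bSUMV (hC : CONST) : SUMV := by
  intro x hx p hp i T
  have := Fact.mk hp
  have e := (hC x hx).1 i
  have n0 : ∏ j, (x i + x j) ≠ 0 := prod_ne_zero_iff.2 fun j _ => hx.2.2.2 i j
  have s : ∑ t ∈ Icc 1 T, cB x ((p : ℤ) ^ t) (x i) =
      ∑ j, ((Icc 1 T).filter fun t => (p : ℤ) ^ t ∣ x j + x i).card := by
    simp only [cB, card_filter]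
    exact sum_comm
  have d : ∀ j, (p : ℤ) ^ ((Icc 1 T).filter fun t => (p : ℤ) ^ t ∣ x j + x i).card ∣ x i + x j := by
    intro j
    rw [add_comm (x i), padicValInt_dvd_iff]
    refine Or.inr ((card_le_card (t := Icc 1 (padicValInt p (x j + x i))) fun t ht => ?_).trans
      (by simp))
    rw [mem_filter, mem_Icc, padicValInt_dvd_iff] at ht
    exact mem_Icc.2 ⟨ht.1.1, ht.2.resolve_left (hx.2.2.2 j i)⟩
  have f := prod_dvd_prod_of_dvd (s := univ) _ _ fun j _ => d j
  rw [prod_pow_eq_pow_sum, padicValInt_dvd_iff] at f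
  rw [s, VV, ← e]
  exact f.resolve_left n0

end Pool.Agent.Lib.SH56
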