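import Pool.Agent.Lib.SH56.Blue

/-! Two large disjoint matchings. -/

open Finset

namespace Pool.Agent.Lib.SH56

namespace TOP_

theorem gg_dvd (x : Fin 7 → ℤ) (σ : Equiv.Perm (Fin 7)) (i : Fin 7) :
    gg x σ ∣ (x i + x (σ i)).natAbs := Finset.gcd_dvd (mem_univ i)

theorem mt_of_dvd (x : Fin 7 → ℤ) (σ : Equiv.Perm (Fin 7)) {G : ℕ} (h : G ∣ gg x σ) : Mt x G σ :=
  fun i => Int.natCast_dvd.2 (h.trans (gg_dvd x σ i))

theorem prod_le (hU : UNI) {x : Fin 7 → ℤ} {R : ℕ} {s : Multiset ℕ} (h : Sol x R s)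
    {σ τ : Equiv.Perm (Fin 7)} (hne : σ ≠ τ) {i : Fin 7} (hi : σ i = τ i) :
    gg x σ * gg x τ ≤ 720 * (2 * R) := by
  have h1 : Nat.gcd (gg x σ) (gg x τ) ∣ 720 :=
    hU x R s h σ τ hne _ (mt_of_dvd x σ (Nat.gcd_dvd_left _ _))
      (mt_of_dvd x τ (Nat.gcd_dvd_right _ _))
  have h2 : Nat.lcm (gg x σ) (gg x τ) ∣ (x i + x (σ i)).natAbs :=
    Nat.lcm_dvd (gg_dvd x σ i) (hi ▸ gg_dvd x τ i)
  have h3 : (x i + x (σ i)).natAbs ≤ 2 * R := by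
    have a := abs_le.1 (h.le i)
    have b := abs_le.1 (h.le (σ i))
    omega
  rw [← Nat.gcd_mul_lcm]
  exact Nat.mul_le_mul (Nat.le_of_dvd (by norm_num) h1)
    ((Nat.le_of_dvd (Int.natAbs_pos.2 (h.pte.2.2.2 i (σ i))) h2).trans h3)

theorem sum_le {ι : Type} (S : Finset ι) (g : ι → ℕ) (c d k : ℕ) (hk : S.card ≤ k)
    (h : ∀ a ∈ S, c * g a ≤ d) : c * ∑ a ∈ S, g a ≤ k * d := by
  rw [mul_sum]
  exact (sum_le_card_nsmul S _ d h).trans (Nat.mul_le_mul_right d hk)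

end TOP_

open TOP_ in
theorem bTOP (hCNT : CNT) (hUNI : UNI) (hINV : INV) : TOP := by
  intro x R s h hR
  have hc := hCNT x R s h
  have hM : MM = 3429216000 := by norm_num [MM]
  rw [hM] at hc
  obtain ⟨F, hF⟩ : ∃ F, F = univ.filter (fun σ => ¬ gg x σ ∣ 720) := ⟨_, rfl⟩
  rw [← hF] at hc
  obtain ⟨L, hL⟩ : ∃ L, L = F.filter (fun σ => 2 * R < 37000 * gg x σ) := ⟨_, rfl⟩
  have hLF : ∀ σ ∈ L, ¬ gg x σ ∣ 720 ∧ 2 * R < 37000 * gg x σ := fun σ hσ => by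
    rw [hL, mem_filter, hF, mem_filter] at hσ
    exact ⟨hσ.1.2, hσ.2⟩
  have hdis : ∀ σ ∈ L, ∀ τ ∈ L, σ ≠ τ → ∀ i, σ i ≠ τ i := fun σ hσ τ hτ hne i hi => by
    have h1 := prod_le hUNI h hne hi
    have h2 := Nat.mul_le_mul (hLF σ hσ).2.le (hLF τ hτ).2.le
    have h3 : 10 ^ 12 * (2 * R) ≤ 2 * R * (2 * R) := Nat.mul_le_mul_right _ hR
    have h4 : 37000 * gg x σ * (37000 * gg x τ) = 1369000000 * (gg x σ * gg x τ) := by ring
    rw [h4] at h2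
    omega
  have hcard : L.card ≤ 7 := by
    have := card_le_card_of_injOn (s := L) (t := (univ : Finset (Fin 7))) (fun σ => σ 0)
      (fun _ _ => mem_univ _) fun σ hσ τ hτ e => by
        by_contra hne
        exact hdis σ hσ τ hτ hne 0 e
    simpa using this
  have hsplit := sum_filter_add_sum_filter_not F (fun σ => 2 * R < 37000 * gg x σ) (gg x)
  rw [← hL] at hsplit
  have hsm := sum_le (F.filter fun σ => ¬ 2 * R < 37000 * gg x σ) (gg x) 37000 (2 * R) 5040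
    ((card_le_univ _).trans (by rw [Fintype.card_perm, Fintype.card_fin]; rfl))
    fun σ hσ => not_lt.1 (mem_filter.1 hσ).2
  obtain ⟨σ, hσ, h9⟩ : ∃ σ ∈ L, 2 * R < 9 * gg x σ := by
    by_contra hn
    have := sum_le L (gg x) 9 (2 * R) 7 hcard fun a ha => not_lt.1 fun hlt => hn ⟨a, ha, hlt⟩
    omega
  obtain ⟨τ, hτ, h19⟩ : ∃ τ ∈ L.erase σ, 2 * R < 19 * gg x τ := by
    by_contra hn
    have h6 : (L.erase σ).card ≤ 6 := by
      rw [card_erase_of_mem hσ]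
      omega
    have h1 := sum_le (L.erase σ) (gg x) 19 (2 * R) 6 h6
      fun a ha => not_lt.1 fun hlt => hn ⟨a, ha, hlt⟩
    have h2 := add_sum_erase L (gg x) hσ
    have h3 := (hINV x R s h σ (hLF σ hσ).1).2.2
    omega
  have hτ' := mem_of_mem_erase hτ
  exact ⟨σ, τ, (hLF σ hσ).1, (hLF τ hτ').1, hdis σ hσ τ hτ' (ne_of_mem_erase hτ).symm, h9, h19⟩

end Pool.Agent.Lib.SH56
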