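import Pool.Agent.Lib.SH56.Blue

/-! Row TWO: three even and four odd entries. -/

open Polynomial Finset

namespace Pool.Agent.Lib.SH56

namespace TWO_

theorem sg (k R : ℕ) (a : ℤ) (h : (k : ℤ) % 2 = ((R : ℤ) + a) % 2) :
    (-1 : ℤ) ^ k = (-1) ^ R * (if Even a then 1 else -1) := by
  rcases Nat.even_or_odd k with hk | hk <;> rcases Nat.even_or_odd R with hR | hR <;>
    by_cases ha : Even a
  all_goals
    rw [hk.neg_one_pow, hR.neg_one_pow]
    first
      | (rw [if_pos ha]; norm_num; done)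
      | (rw [if_neg ha]; norm_num; done)
      | (exfalso
         first
           | rw [Nat.even_iff] at hk
           | rw [Nat.odd_iff] at hk
         first
           | rw [Nat.even_iff] at hR
           | rw [Nat.odd_iff] at hR
         rw [Int.even_iff] at ha
         omega)

theorem der_pow (k : ℕ) :
    eval (-1 : ℤ) (derivative ((X : ℤ[X]) ^ k)) = -(k : ℤ) * (-1) ^ k := by
  rw [derivative_X_pow]
  rcases k with _ | k
  · simp
  · simp only [eval_mul, eval_C, eval_pow, eval_X, Nat.add_sub_cancel, pow_succ]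
    ring

theorem cyc_cons (n : ℕ) (s : Multiset ℕ) : cyc (n ::ₘ s) = cyclotomic n ℤ * cyc s := by
  simp [cyc]

theorem two_dvd (t : ℕ) (ht : 1 ≤ t) : (2 : ℤ) ∣ eval (-1) (cyclotomic (2 ^ t) ℤ) := by
  obtain ⟨k, rfl⟩ : ∃ k, t = k + 1 := ⟨t - 1, by omega⟩
  have : Fact (Nat.Prime 2) := ⟨Nat.prime_two⟩
  have h1 : eval (1 : ℤ) (cyclotomic (2 ^ (k + 1)) ℤ) = (2 : ℕ) :=
    eval_one_cyclotomic_prime_pow k
  have h2 := sub_dvd_eval_sub (1 : ℤ) (-1) (cyclotomic (2 ^ (k + 1)) ℤ)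
  rw [h1] at h2
  have h3 : (2 : ℤ) ∣ ((2 : ℕ) : ℤ) - eval (-1) (cyclotomic (2 ^ (k + 1)) ℤ) := by
    have e : (1 : ℤ) - -1 = 2 := by norm_num
    rwa [e] at h2
  have h4 : (2 : ℤ) ∣ ((2 : ℕ) : ℤ) := by norm_num
  have h5 := dvd_sub h4 h3
  rwa [sub_sub_cancel] at h5

theorem pow_dvd (T : ℕ) (s : Multiset ℕ) :
    (2 : ℤ) ^ (∑ t ∈ Icc 1 T, s.count (2 ^ t)) ∣ eval (-1) (cyc s) := by
  induction s using Multiset.induction_on with
  | empty => simp
  | cons n s ih =>
    rw [cyc_cons, eval_mul]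
    have e : ∑ t ∈ Icc 1 T, (n ::ₘ s).count (2 ^ t) =
        (∑ t ∈ Icc 1 T, if 2 ^ t = n then 1 else 0) + ∑ t ∈ Icc 1 T, s.count (2 ^ t) := by
      rw [← sum_add_distrib]
      refine sum_congr rfl fun t _ => ?_
      rw [Multiset.count_cons, add_comm]
    rw [e, pow_add]
    refine mul_dvd_mul ?_ ih
    by_cases h : ∃ t ∈ Icc 1 T, 2 ^ t = n
    · obtain ⟨t0, ht0, rfl⟩ := h
      have e1 : (∑ t ∈ Icc 1 T, if 2 ^ t = 2 ^ t0 then 1 else 0) = 1 := by
        rw [sum_eq_single t0]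
        · simp
        · intro b _ hb
          rw [if_neg]
          intro hh
          exact hb (Nat.pow_right_injective le_rfl hh)
        · intro hh
          exact absurd ht0 hh
      rw [e1, pow_one]
      exact two_dvd t0 (mem_Icc.mp ht0).1
    · have e0 : (∑ t ∈ Icc 1 T, if 2 ^ t = n then 1 else 0) = 0 := by
        refine sum_eq_zero fun t ht => ?_
        rw [if_neg]
        intro hh
        exact h ⟨t, ht, hh⟩
      rw [e0, pow_zero]
      exact one_dvd _

theorem expo {x : Fin 7 → ℤ} {R : ℕ} (h : ∀ i, |x i| ≤ R) (i : Fin 7) :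
    ((((R : ℤ) + x i).toNat : ℕ) : ℤ) = R + x i ∧ ((((R : ℤ) - x i).toNat : ℕ) : ℤ) = R - x i := by
  have := abs_le.mp (h i)
  constructor <;> apply Int.toNat_of_nonneg <;> omega

theorem val0 {x : Fin 7 → ℤ} {R : ℕ} (h : ∀ i, |x i| ≤ R) : eval (-1) (PP x R) = 0 := by
  rw [PP, eval_finsetSum]
  refine sum_eq_zero fun i _ => ?_
  obtain ⟨h1, h2⟩ := expo h i
  have a1 := sg ((R : ℤ) + x i).toNat R (x i) (by rw [h1])
  have a2 := sg ((R : ℤ) - x i).toNat R (x i) (by rw [h2]; omega)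
  rw [eval_sub, eval_pow, eval_pow, eval_X, a1, a2, sub_self]

theorem val1 {x : Fin 7 → ℤ} {R : ℕ} (h : ∀ i, |x i| ≤ R) (h0 : ∑ i, x i = 0) :
    eval (-1) (derivative (PP x R)) =
      -(-1) ^ R * (4 * ∑ i ∈ univ.filter (fun i => Even (x i)), x i) := by
  have e : 4 * ∑ i ∈ univ.filter (fun i => Even (x i)), x i =
      ∑ i, (if Even (x i) then 1 else -1) * (2 * x i) := by
    have e1 : ∀ i, (if Even (x i) then 1 else -1) * (2 * x i) =
        4 * (if Even (x i) then x i else 0) - 2 * x i := by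
      intro i
      split_ifs <;> ring
    simp only [e1]
    rw [sum_sub_distrib, ← mul_sum, ← mul_sum, h0, sum_filter]
    ring
  rw [e, mul_sum, PP, derivative_sum, eval_finsetSum]
  refine sum_congr rfl fun i _ => ?_
  obtain ⟨h1, h2⟩ := expo h i
  have a1 := sg ((R : ℤ) + x i).toNat R (x i) (by rw [h1])
  have a2 := sg ((R : ℤ) - x i).toNat R (x i) (by rw [h2]; omega)
  rw [derivative_sub, eval_sub, der_pow, der_pow, a1, a2, h1, h2]
  ring

theorem two_mem {x : Fin 7 → ℤ} {R : ℕ} {s : Multiset ℕ} (h : Pre x R s) : 2 ∈ s := by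
  have h0 := val0 h.le
  rw [h.eq, eval_mul] at h0
  have h1 : eval (-1 : ℤ) (cyc s) = 0 := by
    rcases mul_eq_zero.mp h0 with h2 | h2
    · exfalso
      simp only [eval_pow, eval_sub, eval_X, eval_one] at h2
      norm_num at h2
    · exact h2
  rw [cyc, eval_multiset_prod, Multiset.prod_eq_zero_iff, Multiset.map_map] at h1
  obtain ⟨n, hn, hz⟩ := Multiset.mem_map.mp h1
  have hpos : 0 < n := lt_of_lt_of_le (by norm_num) (h.two n hn)
  have hp : IsPrimitiveRoot (-1 : ℤ) n := (isRoot_cyclotomic_iff_charZero hpos).mp hz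
  have h2 : IsPrimitiveRoot (-1 : ℤ) 2 := IsPrimitiveRoot.neg_one 0 (by norm_num)
  rw [← hp.unique h2]
  exact hn

theorem key (hVAL : VAL) {x : Fin 7 → ℤ} {R : ℕ} {s : Multiset ℕ} (h : Pre x R s) :
    (2 : ℤ) ^ VV 2 x ∣ ∑ i ∈ univ.filter (fun i => Even (x i)), x i := by
  obtain ⟨s', rfl⟩ := Multiset.exists_cons_of_mem (two_mem h)
  have hT : ∀ t, 2 ^ t ∈ (2 ::ₘ s') → t ≤ (2 ::ₘ s').sum := fun t ht =>
    le_trans (Nat.lt_two_pow_self).le (Multiset.le_sum_of_mem ht)
  have h1T : 1 ≤ (2 ::ₘ s').sum := hT 1 (by simp)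
  have hV := (hVAL x R _ h).2 2 Nat.prime_two _ hT
  generalize (2 ::ₘ s').sum = T at hV h1T
  have h720 : padicValNat 2 720 = 4 := by
    have : Fact (Nat.Prime 2) := ⟨Nat.prime_two⟩
    have e : (720 : ℕ) = 2 ^ 4 * 45 := by norm_num
    rw [e, padicValNat.mul (by norm_num) (by norm_num), padicValNat.prime_pow,
      padicValNat.eq_zero_of_not_dvd (by norm_num)]
  have e : ∑ t ∈ Icc 1 T, (2 ::ₘ s').count (2 ^ t) = 1 + ∑ t ∈ Icc 1 T, s'.count (2 ^ t) := by
    have e1 : (∑ t ∈ Icc 1 T, if 2 ^ t = 2 then 1 else 0) = 1 := by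
      rw [sum_eq_single 1]
      · simp
      · intro b _ hb
        rw [if_neg]
        intro hh
        exact hb (Nat.pow_right_injective le_rfl (hh.trans (pow_one 2).symm))
      · intro hh
        exact absurd (mem_Icc.mpr ⟨le_rfl, h1T⟩) hh
    have e2 : ∑ t ∈ Icc 1 T, (2 ::ₘ s').count (2 ^ t) =
        (∑ t ∈ Icc 1 T, if 2 ^ t = 2 then 1 else 0) + ∑ t ∈ Icc 1 T, s'.count (2 ^ t) := by
      rw [← sum_add_distrib]
      refine sum_congr rfl fun t _ => ?_
      rw [Multiset.count_cons, add_comm]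
    rw [e2, e1]
  have hd := val1 h.le h.pte.1
  rw [h.eq, cyc_cons, cyclotomic_two] at hd
  have e2 : eval (-1 : ℤ) (derivative ((X - 1) ^ 7 * ((X + 1) * cyc s'))) =
      -128 * eval (-1) (cyc s') := by
    simp only [derivative_mul, eval_add, eval_mul, eval_pow, eval_sub, eval_X, eval_one,
      derivative_add, derivative_X, derivative_one, eval_zero]
    ring
  rw [e2] at hd
  obtain ⟨c, hc⟩ := pow_dvd T s'
  rw [hV, h720, e]
  generalize (∑ i ∈ univ.filter (fun i => Even (x i)), x i) = S at hd ⊢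
  generalize (∑ t ∈ Icc 1 T, s'.count (2 ^ t)) = N at hc ⊢
  rw [hc] at hd
  refine ⟨(-1) ^ R * c, ?_⟩
  have hsq : ((-1 : ℤ) ^ R) * (-1) ^ R = 1 := by
    rw [← mul_pow]
    norm_num
  have e3 : (2 : ℤ) ^ (4 + (1 + N)) = 32 * 2 ^ N := by
    rw [pow_add, pow_add]
    ring
  rw [e3]
  have h4 : 4 * S = 4 * (32 * 2 ^ N * ((-1) ^ R * c)) := by
    linear_combination (-1) ^ R * hd - 4 * S * hsq
  omega

end TWO_

open TWO_ in
theorem bTWO (hVAL : VAL) (hCONST : CONST) (_hM1A : M1A) : TWO := by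
  intro x R s h
  have hk := key hVAL h.toPre
  have hx : ∀ i, x i ≠ 0 := fun i hi => h.pte.2.2.2 i i (by rw [hi, add_zero])
  have hC : (2 * ∏ i, x i) ≠ 0 := mul_ne_zero two_ne_zero (prod_ne_zero_iff.mpr fun i _ => hx i)
  have hno : ¬ (2 * ∑ i ∈ univ.filter (fun i => Even (x i)), x i) ∣ 2 * ∏ i, x i := by
    intro hd
    have h1 : (2 : ℤ) ^ (VV 2 x + 1) ∣ 2 * ∏ i, x i := by
      refine dvd_trans ?_ hd
      rw [pow_succ, mul_comm]
      exact mul_dvd_mul_left 2 hk
    have : Fact (Nat.Prime 2) := ⟨Nat.prime_two⟩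
    have h2 := (padicValInt_dvd_iff (p := 2) (VV 2 x + 1) (2 * ∏ i, x i)).mp (by exact_mod_cast h1)
    rcases h2 with h2 | h2
    · exact hC h2
    · have : VV 2 x = padicValInt 2 (2 * ∏ i, x i) := rfl
      omega
  have hsum := sum_filter_add_sum_filter_not univ (fun i => Even (x i)) x
  rw [h.pte.1] at hsum
  have hcard := card_filter_add_card_filter_not (s := (univ : Finset (Fin 7))) (fun i => Even (x i))
  rw [card_univ, Fintype.card_fin] at hcard
  have hE : Even (∑ i ∈ univ.filter (fun i => Even (x i)), x i) :=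
    even_sum _ fun i hi => (mem_filter.mp hi).2
  have hO : Even (∑ i ∈ univ.filter (fun i => ¬ Even (x i)), (x i - 1)) :=
    even_sum _ fun i hi => by
      have := (mem_filter.mp hi).2
      rw [Int.even_iff] at this ⊢
      omega
  rw [sum_sub_distrib, sum_const, nsmul_eq_mul, mul_one] at hO
  have hpos : 0 < (univ.filter (fun i => ¬ Even (x i))).card := by
    obtain ⟨i, hi⟩ := h.prim 2 Nat.prime_two
    refine card_pos.mpr ⟨i, mem_filter.mpr ⟨mem_univ i, fun he => hi ?_⟩⟩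
    exact_mod_cast he.two_dvd
  have h1 : (univ.filter (fun i => Even (x i))).card ≠ 1 := by
    intro hh
    obtain ⟨e, he⟩ := card_eq_one.mp hh
    apply hno
    rw [he, sum_singleton]
    exact mul_dvd_mul_left 2 (dvd_prod_of_mem x (mem_univ e))
  have h2 : (univ.filter (fun i => ¬ Even (x i))).card ≠ 2 := by
    intro hh
    obtain ⟨a, b, hab, he⟩ := card_eq_two.mp hh
    apply hno
    rw [he, sum_pair hab] at hsum
    have e : ∑ i ∈ univ.filter (fun i => Even (x i)), x i = -(x a + x b) := by linarith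
    rw [e, ← (hCONST x h.pte).1 a]
    have hd : ∏ j ∈ ({a, b} : Finset (Fin 7)), (x a + x j) ∣ ∏ j, (x a + x j) :=
      prod_dvd_prod_of_subset _ _ _ (subset_univ _)
    rw [prod_pair hab] at hd
    exact dvd_trans ⟨-x a, by ring⟩ hd
  refine ⟨univ.filter (fun i => Even (x i)), ?_, fun i hi => (mem_filter.mp hi).2, fun i hi => ?_⟩
  · rw [Int.even_iff] at hE hO
    omega
  · rw [← Int.not_even_iff_odd]
    intro he
    exact hi (mem_filter.mpr ⟨mem_univ i, he⟩)

end Pool.Agent.Lib.SH56
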