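import Pool.Agent.Lib.SH56.Blue

open Polynomial Finset

namespace Pool.Agent.Lib.SH56

namespace UNI_

theorem bal {x : Fin 7 → ℤ} {m : ℤ} {σ : Equiv.Perm (Fin 7)} (h : ∀ i, m ∣ x i + x (σ i)) :
    Bal x m := by
  intro r
  unfold cA cB
  refine Finset.card_equiv σ fun j => ?_
  rw [mem_filter, mem_filter]
  refine ⟨fun hj => ⟨mem_univ _, ?_⟩, fun hj => ⟨mem_univ _, ?_⟩⟩
  · have e : x (σ j) + r = (x j + x (σ j)) - (x j - r) := by ring
    rw [e]
    exact dvd_sub (h j) hj.2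
  · have e : x j - r = (x j + x (σ j)) - (x (σ j) + r) := by ring
    rw [e]
    exact dvd_sub (h j) hj.2

end UNI_

theorem bUNI (hUNI0 : UNI0) : UNI := by
  intro x R s hs σ τ hne G hσ hτ
  refine (Nat.dvd_iff_prime_pow_dvd_dvd 720 G).2 fun p k hp hk => ?_
  have hk' : (p : ℤ) ^ k ∣ (G : ℤ) := by exact_mod_cast hk
  obtain ⟨i, hi⟩ : ∃ i, σ i ≠ τ i := by
    by_contra hcon
    exact hne (Equiv.ext fun i => not_not.1 fun h => hcon ⟨i, h⟩)
  have h2 : 2 ≤ cB x ((p : ℤ) ^ k) (x i) := by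
    unfold cB
    refine Finset.one_lt_card.2 ⟨σ i, ?_, τ i, ?_, hi⟩
    · rw [mem_filter, add_comm]
      exact ⟨mem_univ _, hk'.trans (hσ i)⟩
    · rw [mem_filter, add_comm]
      exact ⟨mem_univ _, hk'.trans (hτ i)⟩
  have h3 := hUNI0 x R s hs p k i hp (UNI_.bal fun j => hk'.trans (hσ j)) h2
  have : Fact p.Prime := ⟨hp⟩
  exact (padicValNat_dvd_iff_le (by norm_num)).2 h3

end Pool.Agent.Lib.SH56
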