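import Pool.Agent.Lib.SH56.Blue

/-! Row UNI0: a balanced level with a double opposite class is at most the valuation of 720. -/

open Finset

namespace Pool.Agent.Lib.SH56

namespace UNI0_

theorem ext (f : ℕ → ℕ) (c T d : ℕ) (h : ∀ t, T < t → t ≤ T + d → c ≤ f t) :
    ∑ t ∈ Icc 1 T, f t + c * d ≤ ∑ t ∈ Icc 1 (T + d), f t := by
  induction d with
  | zero => simp
  | succ d ih =>
    have h1 := ih fun t a b => h t a (by omega)
    have h2 := h (T + d + 1) (by omega) (by omega)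
    rw [← add_assoc, sum_Icc_succ_top (by omega), mul_add, mul_one]
    omega

theorem cA_mono (x : Fin 7 → ℤ) {m m' : ℤ} (h : m ∣ m') (r : ℤ) : cA x m' r ≤ cA x m r :=
  card_le_card fun _ hj => mem_filter.2 ⟨mem_univ _, h.trans (mem_filter.1 hj).2⟩

theorem cB_mono (x : Fin 7 → ℤ) {m m' : ℤ} (h : m ∣ m') (r : ℤ) : cB x m' r ≤ cB x m r :=
  card_le_card fun _ hj => mem_filter.2 ⟨mem_univ _, h.trans (mem_filter.1 hj).2⟩

theorem cA_pos (x : Fin 7 → ℤ) (m : ℤ) (i : Fin 7) : 1 ≤ cA x m (x i) :=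
  card_pos.2 ⟨i, mem_filter.2 ⟨mem_univ _, by rw [sub_self]; exact dvd_zero _⟩⟩

theorem three (x : Fin 7 → ℤ) (I : Finset (Fin 7)) (hI : I.card = 3) (he : ∀ i ∈ I, Even (x i))
    (ho : ∀ i ∉ I, Odd (x i)) (i : Fin 7) : 3 ≤ cB x 2 (x i) := by
  by_cases hi : i ∈ I
  · rw [← hI]
    exact card_le_card fun j hj =>
      mem_filter.2 ⟨mem_univ _, ((he j hj).add (he i hi)).two_dvd⟩
  · have h4 : Iᶜ.card = 4 := by rw [card_compl, hI, Fintype.card_fin]
    have h5 : Iᶜ.card ≤ cB x 2 (x i) := card_le_card fun j hj =>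
      mem_filter.2 ⟨mem_univ _, ((ho j (mem_compl.1 hj)).add_odd (ho i hi)).two_dvd⟩
    omega

theorem big (p e : ℕ) (hp : 2 ≤ p) (he : 1 ≤ e) (h : ¬ (p = 2 ∧ e = 1)) : e + 2 ≤ p ^ e := by
  obtain ⟨k, rfl⟩ : ∃ k, e = k + 1 := ⟨e - 1, by omega⟩
  have h1 : k < p ^ k := Nat.lt_pow_self (by omega)
  rw [pow_succ]
  rcases Nat.eq_zero_or_pos k with rfl | hk
  · rw [pow_zero, one_mul]; omega
  · nlinarith

end UNI0_

open UNI0_ in
theorem bUNI0 (hEXC : EXC) (hSUMV : SUMV) (hTWO : TWO) : UNI0 := by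
  intro x R s h p T i hp hb h2
  obtain ⟨L, e, hL, hV, i0, h0⟩ := hEXC x R s h p hp
  obtain ⟨d, rfl⟩ := Nat.exists_eq_add_of_le ((hL T).1 hb)
  have s1 := hSUMV x h.pte p hp i (T + d)
  have s0 := hSUMV x h.pte p hp i0 (0 + (T + d))
  have lo : ∀ t ≤ T, 2 ≤ cB x ((p : ℤ) ^ t) (x i) := fun t ht =>
    h2.trans (cB_mono x (pow_dvd_pow _ ht) _)
  have a1 := ext (fun t => cB x ((p : ℤ) ^ t) (x i)) 1 T d fun t _ b =>
    (cA_pos x _ i).trans ((hL t).2 b (x i)).le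
  have a2 := ext (fun t => cB x ((p : ℤ) ^ t) (x i)) 2 0 T fun t _ b => lo t (by omega)
  have a0 := ext (fun t => cB x ((p : ℤ) ^ t) (x i0)) (p ^ e) 0 (T + d) fun t _ b =>
    (h0.trans (cA_mono x (pow_dvd_pow _ (by omega)) _)).trans ((hL t).2 (by omega) (x i0)).le
  rw [zero_add T] at a2
  rcases Nat.eq_zero_or_pos e with rfl | he
  · omega
  by_cases h21 : p = 2 ∧ e = 1
  · obtain ⟨rfl, rfl⟩ := h21
    rcases Nat.eq_zero_or_pos T with rfl | hT
    · exact Nat.zero_le _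
    obtain ⟨T', rfl⟩ : ∃ T', T = 1 + T' := ⟨T - 1, by omega⟩
    obtain ⟨I, hI, he', ho⟩ := hTWO x R s h
    have a3 := ext (fun t => cB x (((2 : ℕ) : ℤ) ^ t) (x i)) 2 1 T' fun t _ b => lo t b
    have a4 : 3 ≤ ∑ t ∈ Icc 1 1, cB x (((2 : ℕ) : ℤ) ^ t) (x i) := by
      rw [Icc_self, sum_singleton, pow_one]
      exact three x I hI he' ho i
    omega
  · have b1 := Nat.mul_le_mul_right (T + d) (big p e hp.two_le he h21)
    have b2 : (e + 2) * (T + d) ≤ padicValNat p 720 + (T + d) + e := by omega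
    by_contra hn
    have b3 := Nat.mul_le_mul_left e (show 1 ≤ T + d by omega)
    rw [add_mul] at b2
    omega

end Pool.Agent.Lib.SH56
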