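import Pool.Agent.Lib.SH56.Blue

/-! Row UP: a product of cyclotomic polynomials of length sixteen. -/

open Polynomial Finset

namespace Pool.Agent.Lib.SH56

namespace UP_

theorem len_sum (c : ℕ → ℤ) (n : ℕ) :
    len (∑ i ∈ range n, monomial i (c i)) = ∑ i ∈ range n, |c i| := by
  have hc : ∀ j, (∑ i ∈ range n, monomial i (c i) : ℤ[X]).coeff j =
      if j ∈ range n then c j else 0 := by
    intro j
    rw [finsetSum_coeff]
    simp only [coeff_monomial]
    rw [Finset.sum_ite_eq']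
  unfold len
  have hsub : (∑ i ∈ range n, monomial i (c i) : ℤ[X]).support ⊆ range n := by
    intro j hj
    by_contra hn
    rw [mem_support_iff, hc, if_neg hn] at hj
    exact hj rfl
  rw [Finset.sum_subset hsub]
  · refine Finset.sum_congr rfl fun j hj => ?_
    rw [hc, if_pos hj]
  · intro j _ hj
    rw [notMem_support_iff.mp hj, abs_zero]

/-- the coefficients of the product -/
def cf (i : ℕ) : ℤ :=
  ([-1, 1, 1, 0, 0, -1, -1, 0, 0, 0, 1, 1, 0, -1, 0, 0, 0, 0, 0, 0, 1, 0, -1, -1, 0, 0, 0, 1, 1,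
    0, 0, -1, -1, 1] : List ℤ).getD i 0

theorem cyc_four : cyclotomic 4 ℤ = X ^ 2 + 1 := by
  have h := cyclotomic_prime_pow_eq_geom_sum (R := ℤ) (p := 2) (n := 1) Nat.prime_two
  have h4 : (2 : ℕ) ^ (1 + 1) = 4 := by norm_num
  rw [h4] at h
  rw [h]
  simp only [Finset.sum_range_succ, Finset.sum_range_zero]
  ring

theorem cyc_prime (p : ℕ) (hp : p.Prime) : cyclotomic p ℤ = ∑ i ∈ range p, X ^ i := by
  have := Fact.mk hp
  exact cyclotomic_prime ℤ p

theorem prod_eq : (X - 1) ^ 7 * cyc {2, 2, 3, 4, 5, 7, 11} =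
    ∑ i ∈ range 34, monomial i (cf i) := by
  have h1 : cyc {2, 2, 3, 4, 5, 7, 11} = cyclotomic 2 ℤ * (cyclotomic 2 ℤ * (cyclotomic 3 ℤ *
      (cyclotomic 4 ℤ * (cyclotomic 5 ℤ * (cyclotomic 7 ℤ * cyclotomic 11 ℤ))))) := by
    simp only [cyc, Multiset.insert_eq_cons, Multiset.map_cons, Multiset.prod_cons,
      Multiset.map_singleton, Multiset.prod_singleton]
  rw [h1, cyc_four, cyc_prime 2 (by norm_num), cyc_prime 3 (by norm_num),
    cyc_prime 5 (by norm_num), cyc_prime 7 (by norm_num), cyc_prime 11 (by norm_num)]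
  simp only [Finset.sum_range_succ, Finset.sum_range_zero, ← C_mul_X_pow_eq_monomial, cf,
    List.getD_cons_succ, List.getD_cons_zero, map_neg, map_one, map_zero]
  ring

end UP_

theorem bUP : UP := by
  refine ⟨{2, 2, 3, 4, 5, 7, 11}, by decide, ?_⟩
  rw [UP_.prod_eq, UP_.len_sum]
  decide

end Pool.Agent.Lib.SH56
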