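import Pool.Agent.Lib.SH56.Blue

/-! The valuation of the constant. -/

open Polynomial Finset

namespace Pool.Agent.Lib.SH56

namespace VAL_

theorem one {n p T : ℕ} (hn : 2 ≤ n) (hp : p.Prime) (hT : ∀ t, p ^ t = n → t ≤ T) :
    (cyclotomic n ℤ).eval 1 ≠ 0 ∧ padicValInt p ((cyclotomic n ℤ).eval 1) =
      ∑ t ∈ Icc 1 T, if p ^ t = n then 1 else 0 := by
  have := Fact.mk hp
  by_cases h : ∃ q k : ℕ, q.Prime ∧ q ^ k = n
  · obtain ⟨q, k, hq, rfl⟩ := h
    have := Fact.mk hq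
    obtain ⟨j, rfl⟩ : ∃ j, k = j + 1 := by
      rcases k with _ | j
      · rw [pow_zero] at hn
        omega
      · exact ⟨j, rfl⟩
    rw [eval_one_cyclotomic_prime_pow, padicValInt.of_nat]
    refine ⟨Int.natCast_ne_zero.2 hq.ne_zero, ?_⟩
    by_cases e : p = q
    · subst e
      rw [padicValNat_self, sum_eq_single (j + 1), if_pos rfl]
      · exact fun t _ ht => if_neg fun h => ht (Nat.pow_right_injective hp.two_le h)
      · exact fun h => absurd (mem_Icc.2 ⟨by omega, hT _ rfl⟩) h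
    · rw [padicValNat_primes e]
      refine (sum_eq_zero fun t ht => if_neg fun h => e ?_).symm
      have h1 := (mem_Icc.1 ht).1
      exact (Nat.prime_dvd_prime_iff_eq hp hq).1
        (hp.dvd_of_dvd_pow (h ▸ dvd_pow_self p (by omega)))
  · rw [eval_one_cyclotomic_not_prime_pow fun {q} hq k hk => h ⟨q, k, hq, hk⟩]
    refine ⟨one_ne_zero, ?_⟩
    rw [padicValInt.one]
    exact (sum_eq_zero fun t _ => if_neg fun ht => h ⟨p, t, hp, ht⟩).symm

theorem all {p T : ℕ} (hp : p.Prime) (s : Multiset ℕ) : (∀ n ∈ s, 2 ≤ n) →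
    (∀ t, p ^ t ∈ s → t ≤ T) → (cyc s).eval 1 ≠ 0 ∧
      padicValInt p ((cyc s).eval 1) = ∑ t ∈ Icc 1 T, s.count (p ^ t) := by
  have := Fact.mk hp
  induction s using Multiset.induction_on with
  | empty => intro _ _; simp [cyc]
  | cons n s ih =>
    intro h1 h2
    obtain ⟨k1, k2⟩ := ih (fun m hm => h1 m (Multiset.mem_cons_of_mem hm))
      fun t ht => h2 t (Multiset.mem_cons_of_mem ht)
    obtain ⟨k3, k4⟩ := one (h1 n (Multiset.mem_cons_self n s)) hp
      fun t ht => h2 t (ht ▸ Multiset.mem_cons_self _ s)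
    have h3 : (cyc (n ::ₘ s)).eval 1 = (cyclotomic n ℤ).eval 1 * (cyc s).eval 1 := by
      rw [cyc, Multiset.map_cons, Multiset.prod_cons, eval_mul, cyc]
    rw [h3, padicValInt.mul k3 k1, k2, k4, ← sum_add_distrib]
    refine ⟨mul_ne_zero k3 k1, sum_congr rfl fun t _ => ?_⟩
    rw [Multiset.count_cons, add_comm]

end VAL_

theorem bVAL (hDER7 : DER7) : VAL := by
  intro x R s h
  have h1 := (hDER7 x R h.pte h.le).2
  have h2 := aeval_iterate_derivative_self (A := ℤ) (PP x R) 7 1 (p' := cyc s)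
    (by rw [Algebra.algebraMap_self, map_id, h.eq, C_1])
  rw [coe_aeval_eq_eval, h1, nsmul_eq_mul] at h2
  have h3 : 2 * ∏ i, x i = 720 * (cyc s).eval 1 := by
    have h4 : ((Nat.factorial 7 : ℕ) : ℤ) = 5040 := by norm_num [Nat.factorial]
    rw [h4] at h2
    linarith
  refine ⟨⟨_, h3⟩, fun p hp T hT => ?_⟩
  have := Fact.mk hp
  obtain ⟨k1, k2⟩ := VAL_.all hp s h.two hT
  rw [VV, h3, padicValInt.mul (by norm_num) k1, k2]
  rfl

end Pool.Agent.Lib.SH56
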