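import Pool.Agent.Lib.SH56.Blue2

namespace Pool.Agent.Lib.SH56

namespace Z0_

theorem loop (lo cnt : ℕ) (p : ℕ → Bool) :
    allR lo cnt p = true ↔ ∀ i, lo ≤ i → i < lo + cnt → p i = true := by
  induction cnt with
  | zero =>
    constructor
    · intro _ i a b; omega
    · intro _; rfl
  | succ n ih =>
    have e : allR lo (n + 1) p = cond (p (lo + n)) (allR lo n p) false := rfl
    rw [e]
    constructor
    · intro h i a b
      cases hp : p (lo + n) with
      | false => rw [hp] at h; exact absurd h (by simp)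
      | true =>
        rw [hp] at h
        rcases Nat.lt_or_ge i (lo + n) with c | c
        · exact ih.1 h i a c
        · have : i = lo + n := by omega
          rw [this]; exact hp
    · intro h
      rw [h (lo + n) (by omega) (by omega)]
      exact ih.2 fun i a b => h i a (by omega)

end Z0_

theorem bZ0 : Z0 := by
  refine ⟨Z0_.loop, fun D hq hl h => ?_⟩
  simp only [Dat.small, Bool.and_eq_true, Z0_.loop, Nat.beq_eq, Nat.ble_eq, Nat.blt_eq,
    Bool.not_eq_true', ← Bool.not_eq_true] at h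
  obtain ⟨⟨⟨⟨⟨⟨⟨⟨⟨⟨⟨⟨⟨h1, h2⟩, h3⟩, h4⟩, h5⟩, h6⟩, h7⟩, h8⟩, h9⟩, h10⟩, h11⟩, h12⟩, h13⟩, h14⟩ := h
  exact ⟨hq, hl, h1, h2, h3, h4, h5, h6, h7, h8, h9, h10,
    fun j hj => h11 j (by omega) (by omega), fun j hj => h12 j (by omega) (by omega),
    fun v a b => h13 v a (by omega), fun j hj => h14 j (by omega) (by omega)⟩

end Pool.Agent.Lib.SH56
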