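import Pool.Agent.Lib.SH56.Blue2

namespace Pool.Agent.Lib.SH56

open Finset

namespace Z1_

theorem term {R : Type} [CommRing R] (w : R) (q a y : ℕ) (hq : 0 < q) (hw : w ^ q = 1)
    (hy : y ≤ q) :
    w ^ (a * y % q) - w ^ (q - a * y % q) = w ^ (a * y) - w ^ (a * (q - y)) := by
  have h0 : w ^ (a * y % q) = w ^ (a * y) := (pow_eq_pow_mod _ hw).symm
  have h1 : w ^ (q - a * y % q) * w ^ (a * y) = 1 := by
    rw [← h0, ← pow_add, Nat.sub_add_cancel (Nat.mod_lt _ hq).le, hw]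
  have h2 : w ^ (a * (q - y)) * w ^ (a * y) = 1 := by
    rw [← pow_add, ← mul_add, Nat.sub_add_cancel hy, mul_comm, pow_mul, hw, one_pow]
  rw [h0]
  linear_combination w ^ (q - a * y % q) * h2 - w ^ (a * (q - y)) * h1

theorem ne0 (D : Dat) (S : Sm D) (j : ℕ) : D.g ^ j % D.q ≠ 0 := by
  intro h
  have h1 : D.q ∣ D.g := S.qp.dvd_of_dvd_pow (Nat.dvd_of_mod_eq_zero h)
  have h2 := S.qn
  have h3 := S.nh
  have h4 := S.q4
  have h5 : D.q ∣ D.g ^ D.h := dvd_pow h1 (by omega)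
  have h6 := S.gh
  rw [Nat.mod_eq_zero_of_dvd h5] at h6
  omega

end Z1_

theorem bZ1 : Z1 := by
  intro D S H
  have hq := S.qn
  have hq4 := S.q4
  have hw : (D.w : ZMod D.l) ^ D.q = 1 := by
    have h := congrArg (Nat.cast : ℕ → ZMod D.l) S.wq
    rwa [ZMod.natCast_mod, Nat.cast_pow, Nat.cast_one] at h
  have hw1 : (D.w : ZMod D.l) ≠ 1 := by
    intro h
    have h1 : ((D.w : ℕ) : ZMod D.l) = ((1 : ℕ) : ZMod D.l) := by rw [h, Nat.cast_one]
    have h2 := (ZMod.natCast_eq_natCast_iff' _ _ _).mp h1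
    rw [Nat.mod_eq_of_lt S.lp.one_lt] at h2
    exact S.w1 h2
  have : Fact D.q.Prime := ⟨S.qp⟩
  refine ⟨D.l, D.w, S.lp, ?_, fun y hy h1 h3 h5 hp => ?_⟩
  · have h := IsPrimitiveRoot.orderOf (D.w : ZMod D.l)
    rwa [orderOf_eq_prime hw hw1] at h
  have hy1 : ∀ i, 1 ≤ y i := fun i => by
    by_contra h
    have h0 : y i = 0 := by omega
    exact hp i i (by rw [h0]; exact dvd_zero _)
  let k : Fin 7 → ℕ := fun i => f9 D.LG (y i)
  have hk : ∀ i, k i < D.n := fun i => (S.pwlg _ (hy1 i) (hy i)).1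
  have hg : ∀ i, D.g ^ k i % D.q = y i := fun i =>
    (S.pw _ (by have := hk i; omega)).symm.trans (S.pwlg _ (hy1 i) (hy i)).2
  have hc : ∀ i, (D.g : ZMod D.q) ^ k i = (y i : ZMod D.q) := fun i => by
    rw [← hg i, ZMod.natCast_mod, Nat.cast_pow]
  have hA : Adm D.q D.g (List.ofFn k) := by
    refine ⟨?_, ?_, ?_, ?_⟩
    · rw [List.map_ofFn, List.sum_ofFn]
      have h := (ZMod.natCast_eq_zero_iff _ _).mpr h1
      push_cast at h
      simpa only [Function.comp_apply, hc] using h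
    · rw [List.map_ofFn, List.sum_ofFn]
      have h := (ZMod.natCast_eq_zero_iff _ _).mpr h3
      push_cast at h
      simpa only [Function.comp_apply, hc] using h
    · rw [List.map_ofFn, List.sum_ofFn]
      have h := (ZMod.natCast_eq_zero_iff _ _).mpr h5
      push_cast at h
      simpa only [Function.comp_apply, hc] using h
    · intro u hu v hv h
      obtain ⟨i, rfl⟩ := List.mem_ofFn.mp hu
      obtain ⟨j, rfl⟩ := List.mem_ofFn.mp hv
      rw [hc, hc, ← Nat.cast_add] at h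
      exact hp i j ((ZMod.natCast_eq_zero_iff _ _).mp h)
  have hR := H (List.ofFn k) List.length_ofFn (fun u hu => by
    obtain ⟨i, rfl⟩ := List.mem_ofFn.mp hu
    exact hk i) hA
  have hN : NN D (List.ofFn k) = ∏ a ∈ Ico 1 D.q, FF D.q (D.w : ZMod D.l) y a := by
    unfold NN
    refine Finset.prod_nbij' (fun j => f9 D.PW j) (fun a => f9 D.LG a) ?_ ?_ ?_ ?_ ?_
    · intro j hj
      have hj' := mem_range.mp hj
      rw [mem_Ico, S.pw j (by omega)]
      exact ⟨Nat.one_le_iff_ne_zero.mpr (Z1_.ne0 D S j), Nat.mod_lt _ (by omega)⟩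
    · intro a ha
      exact mem_range.mpr (S.pwlg a (mem_Ico.mp ha).1 (mem_Ico.mp ha).2).1
    · intro j hj
      exact S.lgpw j (mem_range.mp hj)
    · intro a ha
      exact (S.pwlg a (mem_Ico.mp ha).1 (mem_Ico.mp ha).2).2
    · intro j hj
      have hj' := mem_range.mp hj
      rw [List.map_ofFn, List.sum_ofFn, S.pw j (by omega)]
      unfold FF
      refine Finset.sum_congr rfl fun i _ => ?_
      have h : D.g ^ (k i + j) % D.q = D.g ^ j % D.q * y i % D.q := by
        rw [← hg i, ← Nat.mul_mod, ← pow_add, add_comm]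
      show TT D (k i + j) = _
      unfold TT
      rw [h]
      exact Z1_.term _ _ _ _ (by omega) hw (hy i).le
  rwa [hN] at hR

end Pool.Agent.Lib.SH56
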