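import Pool.Agent.Lib.SH56.Blue2

/-! The least window of four points on a circle. -/

namespace Pool.Agent.Lib.SH56

namespace Z2_

theorem ok (lo hi n p : ℕ) (h1 : lo ≤ p) (h2 : p ≤ hi) (h3 : p ≤ n) :
    ok1 lo hi (p % n) = true := by
  unfold ok1
  rcases h3.lt_or_eq with h | h
  · rw [Nat.mod_eq_of_lt h, Nat.ble_eq_true_of_le h1, Nat.ble_eq_true_of_le h2]
    rfl
  · rw [h, Nat.mod_self]
    cases Nat.ble lo 0
    · rfl
    · exact Nat.ble_eq_true_of_le (Nat.zero_le hi)

theorem sh (n a p : ℕ) (ha : a ≤ n) (hp : a ≤ p) : (p % n + (n - a)) % n = (p - a) % n := by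
  rw [Nat.mod_add_mod, show p + (n - a) = p - a + n by omega, Nat.add_mod_right]

end Z2_

theorem bZ2 : Z2 := by
  intro n R hn hperm hshift hbase L hL hlt
  have key : ∀ a p1 p2 p3 p4 p5 p6 : ℕ, a < n → a ≤ p1 → p1 ≤ p2 → p2 ≤ p3 → p3 ≤ p4 → p4 ≤ p5 →
      p5 ≤ p6 → p6 ≤ a + n → p3 + p1 ≤ p4 + a → p3 + p2 ≤ p5 + a → p3 + p3 ≤ p6 + a →
      p3 + p4 ≤ a + n + a → p3 + p5 ≤ p1 + n + a → p3 + p6 ≤ p2 + n + a →
      R [a % n, p1 % n, p2 % n, p3 % n, p4 % n, p5 % n, p6 % n] := by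
    intro a p1 p2 p3 p4 p5 p6 ha h1 h2 h3 h4 h5 h6 h7 w1 w2 w3 w4 w5 w6
    refine hshift _ (n - a) ?_
    simp only [List.map_cons, List.map_nil]
    rw [Z2_.sh n a a ha.le le_rfl, Z2_.sh n a p1 ha.le h1, Z2_.sh n a p2 ha.le (by omega),
      Z2_.sh n a p3 ha.le (by omega), Z2_.sh n a p4 ha.le (by omega),
      Z2_.sh n a p5 ha.le (by omega), Z2_.sh n a p6 ha.le (by omega), Nat.sub_self, Nat.zero_mod,
      Nat.mod_eq_of_lt (show p1 - a < n by omega), Nat.mod_eq_of_lt (show p2 - a < n by omega),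
      Nat.mod_eq_of_lt (show p3 - a < n by omega)]
    exact hbase _ _ _ _ _ _ (by omega) (by omega) (by omega) (by omega) (by omega) (by omega)
      (Nat.mod_lt _ hn) (Nat.mod_lt _ hn) (Nat.mod_lt _ hn)
      (Z2_.ok _ _ _ _ (by omega) (by omega) (by omega))
      (Z2_.ok _ _ _ _ (by omega) (by omega) (by omega))
      (Z2_.ok _ _ _ _ (by omega) (by omega) (by omega))
  have hp : (L.insertionSort (· ≤ ·)).Perm L := List.perm_insertionSort _ L
  have hs : (L.insertionSort (· ≤ ·)).Pairwise (· ≤ ·) := List.pairwise_insertionSort _ L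
  have hl : (L.insertionSort (· ≤ ·)).length = 7 := hp.length_eq.trans hL
  have hb : ∀ k ∈ L.insertionSort (· ≤ ·), k < n := fun k hk => hlt k (hp.mem_iff.1 hk)
  refine hperm _ _ hp ?_
  generalize L.insertionSort (· ≤ ·) = M at hs hl hb
  match M, hl with
  | [k0, k1, k2, k3, k4, k5, k6], _ =>
    simp only [List.pairwise_cons, List.mem_cons, List.not_mem_nil, or_false, forall_eq_or_imp,
      forall_eq] at hs hb
    obtain ⟨⟨a1, -⟩, ⟨a2, -⟩, ⟨a3, -⟩, ⟨a4, -⟩, ⟨a5, -⟩, a6, -⟩ := hs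
    obtain ⟨b0, b1, b2, b3, b4, b5, b6⟩ := hb
    have e0 := Nat.mod_eq_of_lt b0
    have e1 := Nat.mod_eq_of_lt b1
    have e2 := Nat.mod_eq_of_lt b2
    have e3 := Nat.mod_eq_of_lt b3
    have e4 := Nat.mod_eq_of_lt b4
    have e5 := Nat.mod_eq_of_lt b5
    have e6 := Nat.mod_eq_of_lt b6
    obtain ⟨W, hW, c0, c1, c2, c3, c4, c5, c6⟩ : ∃ W : ℕ,
        (W + k0 = k3 ∨ W + k1 = k4 ∨ W + k2 = k5 ∨ W + k3 = k6 ∨ W + k4 = k0 + n ∨
          W + k5 = k1 + n ∨ W + k6 = k2 + n) ∧ W + k0 ≤ k3 ∧ W + k1 ≤ k4 ∧ W + k2 ≤ k5 ∧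
          W + k3 ≤ k6 ∧ W + k4 ≤ k0 + n ∧ W + k5 ≤ k1 + n ∧ W + k6 ≤ k2 + n := by
      have hex : ∃ W : ℕ, W + k0 = k3 ∨ W + k1 = k4 ∨ W + k2 = k5 ∨ W + k3 = k6 ∨
          W + k4 = k0 + n ∨ W + k5 = k1 + n ∨ W + k6 = k2 + n := ⟨k3 - k0, Or.inl (by omega)⟩
      refine ⟨Nat.find hex, Nat.find_spec hex, ?_, ?_, ?_, ?_, ?_, ?_, ?_⟩
      · have := Nat.find_min' hex (m := k3 - k0) (by omega); omega
      · have := Nat.find_min' hex (m := k4 - k1) (by omega); omega
      · have := Nat.find_min' hex (m := k5 - k2) (by omega); omega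
      · have := Nat.find_min' hex (m := k6 - k3) (by omega); omega
      · have := Nat.find_min' hex (m := k0 + n - k4) (by omega); omega
      · have := Nat.find_min' hex (m := k1 + n - k5) (by omega); omega
      · have := Nat.find_min' hex (m := k2 + n - k6) (by omega); omega
    have fin : ∀ A B : List ℕ, R (A ++ B) → R (B ++ A) :=
      fun A B => hperm _ _ List.perm_append_comm
    rcases hW with h | h | h | h | h | h | h
    · have := key k0 k1 k2 k3 k4 k5 k6 b0 a1 a2 a3 a4 a5 a6 (by omega) (by omega) (by omega)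
        (by omega) (by omega) (by omega) (by omega)
      rwa [e0, e1, e2, e3, e4, e5, e6] at this
    · have := key k1 k2 k3 k4 k5 k6 (k0 + n) b1 a2 a3 a4 a5 a6 (by omega) (by omega) (by omega)
        (by omega) (by omega) (by omega) (by omega) (by omega)
      simp only [Nat.add_mod_right, e0, e1, e2, e3, e4, e5, e6] at this
      exact fin [k1, k2, k3, k4, k5, k6] [k0] this
    · have := key k2 k3 k4 k5 k6 (k0 + n) (k1 + n) b2 a3 a4 a5 a6 (by omega) (by omega) (by omega)
        (by omega) (by omega) (by omega) (by omega) (by omega) (by omega)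
      simp only [Nat.add_mod_right, e0, e1, e2, e3, e4, e5, e6] at this
      exact fin [k2, k3, k4, k5, k6] [k0, k1] this
    · have := key k3 k4 k5 k6 (k0 + n) (k1 + n) (k2 + n) b3 a4 a5 a6 (by omega) (by omega)
        (by omega) (by omega) (by omega) (by omega) (by omega) (by omega) (by omega) (by omega)
      simp only [Nat.add_mod_right, e0, e1, e2, e3, e4, e5, e6] at this
      exact fin [k3, k4, k5, k6] [k0, k1, k2] this
    · have := key k4 k5 k6 (k0 + n) (k1 + n) (k2 + n) (k3 + n) b4 a5 a6 (by omega) (by omega)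
        (by omega) (by omega) (by omega) (by omega) (by omega) (by omega) (by omega) (by omega)
        (by omega)
      simp only [Nat.add_mod_right, e0, e1, e2, e3, e4, e5, e6] at this
      exact fin [k4, k5, k6] [k0, k1, k2, k3] this
    · have := key k5 k6 (k0 + n) (k1 + n) (k2 + n) (k3 + n) (k4 + n) b5 a6 (by omega) (by omega)
        (by omega) (by omega) (by omega) (by omega) (by omega) (by omega) (by omega) (by omega)
        (by omega) (by omega)
      simp only [Nat.add_mod_right, e0, e1, e2, e3, e4, e5, e6] at this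
      exact fin [k5, k6] [k0, k1, k2, k3, k4] this
    · have := key k6 (k0 + n) (k1 + n) (k2 + n) (k3 + n) (k4 + n) (k5 + n) b6 (by omega) (by omega)
        (by omega) (by omega) (by omega) (by omega) (by omega) (by omega) (by omega) (by omega)
        (by omega) (by omega) (by omega)
      simp only [Nat.add_mod_right, e0, e1, e2, e3, e4, e5, e6] at this
      exact fin [k6] [k0, k1, k2, k3, k4, k5] this

end Pool.Agent.Lib.SH56
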