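import Pool.Agent.Lib.SH56.Blue2

/-! Row Z3A: the lookup when the missing triple has a nonzero sum. -/

namespace Pool.Agent.Lib.SH56

namespace Z3A_

theorem neg_cast (D : Dat) (h : Sm D) (j : ℕ) (hj : j < D.n) :
    ((Nat.sub D.q (f9 D.PW j) : ℕ) : ZMod D.q) = -(D.g : ZMod D.q) ^ j := by
  have hq := h.qn
  have h1 := h.pw j (by omega)
  have h2 : f9 D.PW j ≤ D.q := by rw [h1]; exact (Nat.mod_lt _ (by omega)).le
  rw [Nat.sub_eq, Nat.cast_sub h2, h1, ZMod.natCast_self, ZMod.natCast_mod, Nat.cast_pow, zero_sub]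

theorem one_cast (D : Dat) (h : Sm D) : ((Nat.sub D.q 1 : ℕ) : ZMod D.q) = -1 := by
  have hq := h.qn
  rw [Nat.sub_eq, Nat.cast_sub (by omega), ZMod.natCast_self, Nat.cast_one, zero_sub]

theorem pow_n (D : Dat) (h : Sm D) : (D.g : ZMod D.q) ^ D.n = 1 := by
  have h1 : (D.g : ZMod D.q) ^ D.h = -1 := by
    have h2 : ((D.g ^ D.h % D.q : ℕ) : ZMod D.q) = (D.n : ZMod D.q) := by rw [h.gh]
    rw [ZMod.natCast_mod, Nat.cast_pow] at h2
    have h3 : ((D.n + 1 : ℕ) : ZMod D.q) = 0 := by rw [← h.qn, ZMod.natCast_self]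
    rw [Nat.cast_add, Nat.cast_one] at h3
    rw [h2]
    exact eq_neg_of_add_eq_zero_left h3
  rw [h.nh, pow_add, h1]
  ring

theorem pow_shift (D : Dat) (h : Sm D) (e s : ℕ) :
    (D.g : ZMod D.q) ^ ((e + s) % D.n) = (D.g : ZMod D.q) ^ e * (D.g : ZMod D.q) ^ s := by
  rw [← pow_add]
  conv_rhs => rw [← Nat.mod_add_div (e + s) D.n, pow_add, pow_mul, pow_n D h, one_pow, mul_one]

theorem md_cast (q a : ℕ) : ((Nat.mod a q : ℕ) : ZMod q) = (a : ZMod q) := ZMod.natCast_mod a q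

theorem add_cast (q a b : ℕ) : ((Nat.add a b : ℕ) : ZMod q) = (a : ZMod q) + b := Nat.cast_add a b

theorem mul_cast (q a b : ℕ) : ((Nat.mul a b : ℕ) : ZMod q) = (a : ZMod q) * b := Nat.cast_mul a b

theorem c3_cast (q a : ℕ) : ((c3 a : ℕ) : ZMod q) = (a : ZMod q) ^ 3 := by
  unfold c3
  rw [mul_cast, mul_cast]
  ring

theorem c5_cast (q a : ℕ) : ((c5 a : ℕ) : ZMod q) = (a : ZMod q) ^ 5 := by
  unfold c5
  rw [mul_cast, mul_cast, mul_cast]
  ring

end Z3A_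

open Z3A_ in
theorem bZ3A (hZT : ZT) (hZN : ZN) : Z3A := by
  intro D b c d x y z hS htab hb hc hd hx hy hz hA hne hQ
  haveI : Fact D.q.Prime := ⟨hS.qp⟩
  have hq := hS.qn
  have h512 := hS.q512
  have hq0 : 0 < D.q := by omega
  obtain ⟨a1, a3, a5, ap⟩ := hA
  simp only [List.map_cons, List.map_nil, List.sum_cons, List.sum_nil, pow_zero] at a1 a3 a5
  unfold QD quad at hQ
  generalize hs1 : Nat.mod (Nat.add (Nat.add (Nat.add (Nat.sub D.q 1) (Nat.sub D.q (f9 D.PW b)))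
    (Nat.sub D.q (f9 D.PW c))) (Nat.sub D.q (f9 D.PW d))) D.q = s1 at hQ
  generalize hs3 : Nat.mod (Nat.add (Nat.add (Nat.add (c3 (Nat.sub D.q 1))
    (c3 (Nat.sub D.q (f9 D.PW b)))) (c3 (Nat.sub D.q (f9 D.PW c))))
    (c3 (Nat.sub D.q (f9 D.PW d)))) D.q = s3 at hQ
  generalize hs5 : Nat.mod (Nat.add (Nat.add (Nat.add (c5 (Nat.sub D.q 1))
    (c5 (Nat.sub D.q (f9 D.PW b)))) (c5 (Nat.sub D.q (f9 D.PW c))))
    (c5 (Nat.sub D.q (f9 D.PW d)))) D.q = s5 at hQ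
  have e1 : (s1 : ZMod D.q) =
      (D.g : ZMod D.q) ^ x + (D.g : ZMod D.q) ^ y + (D.g : ZMod D.q) ^ z := by
    rw [← hs1, md_cast, add_cast, add_cast, add_cast, one_cast D hS, neg_cast D hS b hb,
      neg_cast D hS c hc, neg_cast D hS d hd]
    linear_combination -a1
  have e3 : (s3 : ZMod D.q) = ((D.g : ZMod D.q) ^ x) ^ 3 + ((D.g : ZMod D.q) ^ y) ^ 3 +
      ((D.g : ZMod D.q) ^ z) ^ 3 := by
    rw [← hs3, md_cast, add_cast, add_cast, add_cast, c3_cast, c3_cast, c3_cast, c3_cast,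
      one_cast D hS, neg_cast D hS b hb, neg_cast D hS c hc, neg_cast D hS d hd]
    linear_combination -a3
  have e5 : (s5 : ZMod D.q) = ((D.g : ZMod D.q) ^ x) ^ 5 + ((D.g : ZMod D.q) ^ y) ^ 5 +
      ((D.g : ZMod D.q) ^ z) ^ 5 := by
    rw [← hs5, md_cast, add_cast, add_cast, add_cast, c5_cast, c5_cast, c5_cast, c5_cast,
      one_cast D hS, neg_cast D hS b hb, neg_cast D hS c hc, neg_cast D hS d hd]
    linear_combination -a5
  have hlt : s1 < D.q := by rw [← hs1]; exact Nat.mod_lt _ hq0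
  have hs0 : s1 ≠ 0 := by
    rintro rfl
    exact hne (by rw [← e1, Nat.cast_zero])
  obtain ⟨hsn, hpw⟩ := hS.pwlg s1 (by omega) hlt
  have hbeq : Nat.beq s1 0 = false := by
    cases s1 with
    | zero => exact absurd rfl hs0
    | succ k => rfl
  unfold br at hQ
  rw [hbeq, cond_false] at hQ
  generalize f9 D.LG s1 = s at hQ hsn hpw
  have hgs : (D.g : ZMod D.q) ^ s = (s1 : ZMod D.q) := by
    rw [← hpw, hS.pw s (by omega), ZMod.natCast_mod, Nat.cast_pow]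
  have hj : ((f9 D.PW (Nat.sub D.n s) : ℕ) : ZMod D.q) * (D.g : ZMod D.q) ^ s = 1 := by
    rw [Nat.sub_eq, hS.pw (D.n - s) (by omega), ZMod.natCast_mod, Nat.cast_pow, ← pow_add,
      Nat.sub_add_cancel hsn.le, pow_n D hS]
  generalize f9 D.PW (Nat.sub D.n s) = j at hQ hj
  obtain ⟨e, f, t, hef, hft, htn, hP⟩ := hZN.1 D.n s x y z hsn.le hx hy hz
  have p1 := (hP.map fun k => (D.g : ZMod D.q) ^ k).sum_eq
  have p3 := (hP.map fun k => ((D.g : ZMod D.q) ^ k) ^ 3).sum_eq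
  have p5 := (hP.map fun k => ((D.g : ZMod D.q) ^ k) ^ 5).sum_eq
  simp only [List.map_cons, List.map_nil, List.sum_cons, List.sum_nil, pow_shift D hS] at p1 p3 p5
  have hm : ∀ k ∈ [(e + s) % D.n, (f + s) % D.n, (t + s) % D.n], k ∈ [0, b, c, d, x, y, z] := by
    intro k hk
    have := hP.subset hk
    simp only [List.mem_cons, List.not_mem_nil, or_false] at this ⊢
    tauto
  have hpair : ∀ u v : ℕ, (u + s) % D.n ∈ [(e + s) % D.n, (f + s) % D.n, (t + s) % D.n] →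
      (v + s) % D.n ∈ [(e + s) % D.n, (f + s) % D.n, (t + s) % D.n] →
      (D.g : ZMod D.q) ^ u + (D.g : ZMod D.q) ^ v ≠ 0 := by
    intro u v hu hv h0
    refine ap _ (hm _ hu) _ (hm _ hv) ?_
    rw [pow_shift D hS, pow_shift D hS, ← add_mul, h0, zero_mul]
  have hchk := hZT D 1 _ hS le_rfl htab e f t hef hft htn
    (by rw [Nat.cast_one]
        linear_combination (j : ZMod D.q) * p1 - (j : ZMod D.q) * e1 - (j : ZMod D.q) * hgs -
          ((D.g : ZMod D.q) ^ e + (D.g : ZMod D.q) ^ f + (D.g : ZMod D.q) ^ t - 1) * hj)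
    (hpair e f (by simp) (by simp)) (hpair e t (by simp) (by simp))
    (hpair f t (by simp) (by simp)) (ku D.q s3 j) (kw D.q s5 j) (Nat.mod_lt _ hq0)
    (Nat.mod_lt _ hq0)
    (by
      have h3 : ((j : ZMod D.q) * (D.g : ZMod D.q) ^ s) ^ 3 = 1 := by rw [hj, one_pow]
      unfold ku
      rw [md_cast, mul_cast, c3_cast, e3]
      linear_combination -(j : ZMod D.q) ^ 3 * p3 + (((D.g : ZMod D.q) ^ e) ^ 3 +
        ((D.g : ZMod D.q) ^ f) ^ 3 + ((D.g : ZMod D.q) ^ t) ^ 3) * h3)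
    (by
      have h5 : ((j : ZMod D.q) * (D.g : ZMod D.q) ^ s) ^ 5 = 1 := by rw [hj, one_pow]
      unfold kw
      rw [md_cast, mul_cast, c5_cast, e5]
      linear_combination -(j : ZMod D.q) ^ 5 * p5 + (((D.g : ZMod D.q) ^ e) ^ 5 +
        ((D.g : ZMod D.q) ^ f) ^ 5 + ((D.g : ZMod D.q) ^ t) ^ 5) * h5)
  rw [Nat.eq_of_beq_eq_true hchk, hZN.2 _ _ _ _ _ _ _ _ _ _ _ e f t s (by omega) (by omega)] at hQ
  exact ⟨_, _, _, hP, hQ⟩

end Pool.Agent.Lib.SH56
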