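import Pool.Agent.Lib.SH56.Blue2

/-! The lookup when the last three residues have sum zero. -/

namespace Pool.Agent.Lib.SH56

namespace Z3B_

theorem gn {D : Dat} (h : Sm D) : (D.g : ZMod D.q) ^ D.n = 1 := by
  have h1 : (D.g : ZMod D.q) ^ D.h = (D.n : ZMod D.q) := by
    rw [← h.gh, ZMod.natCast_mod, Nat.cast_pow]
  have h2 : (D.n : ZMod D.q) + 1 = 0 := by
    have : ((D.n + 1 : ℕ) : ZMod D.q) = 0 := by rw [← h.qn]; exact ZMod.natCast_self _
    simpa using this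
  have h3 : (D.g : ZMod D.q) ^ D.n = (D.g : ZMod D.q) ^ D.h * (D.g : ZMod D.q) ^ D.h := by
    rw [← pow_add, ← h.nh]
  rw [h3, h1]
  linear_combination ((D.n : ZMod D.q) - 1) * h2

theorem pwc {D : Dat} (h : Sm D) {j : ℕ} (hj : j < D.q) :
    ((f9 D.PW j : ℕ) : ZMod D.q) = (D.g : ZMod D.q) ^ j ∧ f9 D.PW j < D.q := by
  rw [h.pw j hj]
  exact ⟨by rw [ZMod.natCast_mod, Nat.cast_pow], Nat.mod_lt _ h.qp.pos⟩

theorem ngc {D : Dat} (h : Sm D) {j : ℕ} (hj : j < D.q) :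
    ((D.q - f9 D.PW j : ℕ) : ZMod D.q) = -(D.g : ZMod D.q) ^ j := by
  rw [Nat.cast_sub (pwc h hj).2.le, ZMod.natCast_self, (pwc h hj).1, zero_sub]

theorem inj {q a b : ℕ} (ha : a < q) (hb : b < q) (h : (a : ZMod q) = (b : ZMod q)) : a = b := by
  have := (ZMod.natCast_eq_natCast_iff' a b q).1 h
  rwa [Nat.mod_eq_of_lt ha, Nat.mod_eq_of_lt hb] at this

theorem shift {D : Dat} (h : Sm D) {s : ℕ} (hs : s ≤ D.n) (e : ℕ) :
    (D.g : ZMod D.q) ^ e = (D.g : ZMod D.q) ^ ((e + s) % D.n) * (D.g : ZMod D.q) ^ (D.n - s) := by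
  rw [← pow_eq_pow_mod _ (gn h), ← pow_add, show e + s + (D.n - s) = e + D.n by omega, pow_add,
    gn h, mul_one]

theorem key (hZT : ZT) (hZN : ZN) (D : Dat) (b c d x y z s3 s5 : ℕ) (h : Sm D)
    (ht : D.tab0 = true) (hx : x < D.n) (hy : y < D.n) (hz : z < D.n)
    (hp : ∀ u ∈ [x, y, z], ∀ v ∈ [x, y, z], (D.g : ZMod D.q) ^ u + (D.g : ZMod D.q) ^ v ≠ 0)
    (h1 : (D.g : ZMod D.q) ^ x + (D.g : ZMod D.q) ^ y + (D.g : ZMod D.q) ^ z = 0)
    (l3 : s3 < D.q)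
    (h3 : (s3 : ZMod D.q) =
      ((D.g : ZMod D.q) ^ x) ^ 3 + ((D.g : ZMod D.q) ^ y) ^ 3 + ((D.g : ZMod D.q) ^ z) ^ 3)
    (h5 : (s5 : ZMod D.q) =
      ((D.g : ZMod D.q) ^ x) ^ 5 + ((D.g : ZMod D.q) ^ y) ^ 5 + ((D.g : ZMod D.q) ^ z) ^ 5)
    (hq : br D.q D.n D.h D.l D.bad D.msk D.PW D.LG D.BB D.T0 D.BT D.T1 b c d 0 s3 s5 = true) :
    ∃ e f t : ℕ, [e, f, t].Perm [x, y, z] ∧
      fin7 D.q D.h D.l D.bad D.msk D.PW D.BB b c d (b + d) (D.n + c - d) e f t = true := by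
  haveI : Fact D.q.Prime := ⟨h.qp⟩
  have qn := h.qn
  have q4 := h.q4
  have q5 := h.q512
  have g0 : (D.g : ZMod D.q) ≠ 0 := by
    intro e
    have := gn h
    rw [e, zero_pow (by omega)] at this
    exact zero_ne_one this
  have n3 : (3 : ZMod D.q) ≠ 0 := by
    intro e
    have : (3 : ℕ) = 0 := inj (q := D.q) (by omega) (by omega) (by simpa using e)
    omega
  have s0 : s3 ≠ 0 := by
    intro e
    rw [e, Nat.cast_zero] at h3
    have : (3 : ZMod D.q) * (D.g : ZMod D.q) ^ x * (D.g : ZMod D.q) ^ y *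
        (D.g : ZMod D.q) ^ z = 0 := by
      generalize (D.g : ZMod D.q) ^ x = X at *
      generalize (D.g : ZMod D.q) ^ y = Y at *
      generalize (D.g : ZMod D.q) ^ z = Z at *
      linear_combination -h3 - (X ^ 2 + Y ^ 2 + Z ^ 2 - X * Y - X * Z - Y * Z) * h1
    exact mul_ne_zero (mul_ne_zero (mul_ne_zero n3 (pow_ne_zero _ g0)) (pow_ne_zero _ g0))
      (pow_ne_zero _ g0) this
  obtain ⟨lg1, lg2⟩ := h.pwlg s3 (by omega) l3
  have hq' : dec D.q D.n D.h D.l D.bad D.msk D.PW D.BB b c d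
      (lk0 D.q D.LG D.T0 (ku D.q s3 (f9 D.PW (D.n - f9 D.LG s3 / 3)))
        (kw D.q s5 (f9 D.PW (D.n - f9 D.LG s3 / 3)))) (f9 D.LG s3 / 3) = true := hq
  generalize f9 D.LG s3 = k at lg1 lg2 hq'
  have hs : k / 3 ≤ D.n := by omega
  have gk : (s3 : ZMod D.q) = (D.g : ZMod D.q) ^ k := by rw [← lg2, (pwc h (by omega)).1]
  have gj := (pwc h (show D.n - k / 3 < D.q by omega)).1
  generalize f9 D.PW (D.n - k / 3) = j at gj hq'
  have u1 : ku D.q s3 j < D.q := Nat.mod_lt _ h.qp.pos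
  have w1 : kw D.q s5 j < D.q := Nat.mod_lt _ h.qp.pos
  have u2 : ((ku D.q s3 j : ℕ) : ZMod D.q) = s3 * (j : ZMod D.q) ^ 3 := by
    change ((s3 * (j * j * j) % D.q : ℕ) : ZMod D.q) = _
    rw [ZMod.natCast_mod]; push_cast; ring
  have w2 : ((kw D.q s5 j : ℕ) : ZMod D.q) = s5 * (j : ZMod D.q) ^ 5 := by
    change ((s5 * (j * j * j * (j * j)) % D.q : ℕ) : ZMod D.q) = _
    rw [ZMod.natCast_mod]; push_cast; ring
  have u3 : ku D.q s3 j = f9 D.PW (k % 3) := by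
    refine inj u1 (pwc h (by omega)).2 ?_
    rw [u2, (pwc h (show k % 3 < D.q by omega)).1, gk, gj, ← pow_mul, ← pow_add,
      show k + (D.n - k / 3) * 3 = k % 3 + D.n * 3 by omega, pow_add, pow_mul, gn h, one_pow,
      mul_one]
  have u4 : f9 D.LG (ku D.q s3 j) = k % 3 := by rw [u3, h.lgpw _ (by omega)]
  obtain ⟨e, f, t, ef, ft, tn, P⟩ := hZN.1 D.n (k / 3) x y z hs hx hy hz
  have p1 := (P.map fun i => (D.g : ZMod D.q) ^ i).sum_eq
  have p3 := (P.map fun i => ((D.g : ZMod D.q) ^ i) ^ 3).sum_eq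
  have p5 := (P.map fun i => ((D.g : ZMod D.q) ^ i) ^ 5).sum_eq
  simp only [List.map_cons, List.map_nil, List.sum_cons, List.sum_nil, add_zero] at p1 p3 p5
  have me : (e + k / 3) % D.n ∈ [x, y, z] := P.subset (by simp)
  have mf : (f + k / 3) % D.n ∈ [x, y, z] := P.subset (by simp)
  have mt : (t + k / 3) % D.n ∈ [x, y, z] := P.subset (by simp)
  have j0 : (j : ZMod D.q) ≠ 0 := by rw [gj]; exact pow_ne_zero _ g0
  have se := shift h hs e
  have sf := shift h hs f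
  have st := shift h hs t
  rw [← gj] at se sf st
  have ck := hZT D 0 _ h (by omega) ht e f t ef ft tn
    (by rw [se, sf, st, Nat.cast_zero]; linear_combination (j : ZMod D.q) * (p1 + h1))
    (by rw [se, sf, ← add_mul]; exact mul_ne_zero (hp _ me _ mf) j0)
    (by rw [se, st, ← add_mul]; exact mul_ne_zero (hp _ me _ mt) j0)
    (by rw [sf, st, ← add_mul]; exact mul_ne_zero (hp _ mf _ mt) j0)
    (ku D.q s3 j) (kw D.q s5 j) u1 w1
    (by rw [u2, se, sf, st, h3]; linear_combination -(j : ZMod D.q) ^ 3 * p3)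
    (by rw [w2, se, sf, st, h5]; linear_combination -(j : ZMod D.q) ^ 5 * p5)
  have nb : Nat.ble 3 (k % 3) = false := by
    rw [← Bool.not_eq_true, Nat.ble_eq]; omega
  rw [u4, nb, cond_false, Nat.beq_eq] at ck
  rw [ck, hZN.2 _ _ _ _ _ _ _ _ _ _ _ e f t _ (by omega) (by omega)] at hq'
  exact ⟨_, _, _, P, hq'⟩

end Z3B_

open Z3B_ in
theorem bZ3B (hZT : ZT) (hZN : ZN) : Z3B := by
  intro D b c d x y z h ht hb hc hd hx hy hz hA h1 hq
  obtain ⟨a1, a3, a5, ap⟩ := hA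
  simp only [List.map_cons, List.map_nil, List.sum_cons, List.sum_nil, add_zero, pow_zero]
    at a1 a3 a5
  have qn := h.qn
  have m0 : ((D.q - 1 : ℕ) : ZMod D.q) = -1 := by
    rw [Nat.cast_sub (by omega), ZMod.natCast_self, Nat.cast_one, zero_sub]
  have mb := ngc h (show b < D.q by omega)
  have mc := ngc h (show c < D.q by omega)
  have md := ngc h (show d < D.q by omega)
  have hq' : br D.q D.n D.h D.l D.bad D.msk D.PW D.LG D.BB D.T0 D.BT D.T1 b c d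
      ((D.q - 1 + (D.q - f9 D.PW b) + (D.q - f9 D.PW c) + (D.q - f9 D.PW d)) % D.q)
      ((c3 (D.q - 1) + c3 (D.q - f9 D.PW b) + c3 (D.q - f9 D.PW c) + c3 (D.q - f9 D.PW d)) % D.q)
      ((c5 (D.q - 1) + c5 (D.q - f9 D.PW b) + c5 (D.q - f9 D.PW c) + c5 (D.q - f9 D.PW d)) % D.q)
        = true := hq
  generalize D.q - 1 = n0 at m0 hq'
  generalize D.q - f9 D.PW b = nb at mb hq'
  generalize D.q - f9 D.PW c = nc at mc hq'
  generalize D.q - f9 D.PW d = nd at md hq'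
  have k3 : ∀ a : ℕ, ((c3 a : ℕ) : ZMod D.q) = (a : ZMod D.q) ^ 3 := fun a => by
    change ((a * a * a : ℕ) : ZMod D.q) = _
    push_cast; ring
  have k5 : ∀ a : ℕ, ((c5 a : ℕ) : ZMod D.q) = (a : ZMod D.q) ^ 5 := fun a => by
    change ((a * a * a * (a * a) : ℕ) : ZMod D.q) = _
    push_cast; ring
  have s1 : (n0 + nb + nc + nd) % D.q = 0 := by
    refine inj (Nat.mod_lt _ h.qp.pos) h.qp.pos ?_
    rw [ZMod.natCast_mod]; push_cast
    rw [m0, mb, mc, md]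
    linear_combination h1 - a1
  rw [s1] at hq'
  refine key hZT hZN D b c d x y z _ _ h ht hx hy hz (fun u hu v hv => ap u ?_ v ?_) h1
    (Nat.mod_lt _ h.qp.pos) ?_ ?_ hq'
  · exact List.mem_cons_of_mem _ (List.mem_cons_of_mem _ (List.mem_cons_of_mem _
      (List.mem_cons_of_mem _ hu)))
  · exact List.mem_cons_of_mem _ (List.mem_cons_of_mem _ (List.mem_cons_of_mem _
      (List.mem_cons_of_mem _ hv)))
  · rw [ZMod.natCast_mod]; push_cast
    rw [k3, k3, k3, k3, m0, mb, mc, md]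
    linear_combination -a3
  · rw [ZMod.natCast_mod]; push_cast
    rw [k5, k5, k5, k5, m0, mb, mc, md]
    linear_combination -a5

end Pool.Agent.Lib.SH56
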