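import Pool.Agent.Lib.SH56.Blue2

/-! Row Z4: the last test of the checker. -/

namespace Pool.Agent.Lib.SH56

namespace Z4_

theorem p4_cast (l x : ℕ) : ((p4 l x : ℕ) : ZMod l) = (x : ZMod l) ^ 4 := by
  have h : p4 l x = (x * x % l) * (x * x % l) % l := rfl
  rw [h, ZMod.natCast_mod, Nat.cast_mul, ZMod.natCast_mod, Nat.cast_mul]
  ring

theorem p4_mod (l x : ℕ) : p4 l x % l = p4 l x := by
  have h : p4 l x = (x * x % l) * (x * x % l) % l := rfl
  rw [h, Nat.mod_mod]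

theorem prs_pair (D : Dat) (hS : Sm D) (L : List ℕ) (hL : ∀ k ∈ L, k < D.q)
    (hp : prs D.q D.PW L = true) :
    ∃ u ∈ L, ∃ v ∈ L, (D.g : ZMod D.q) ^ u + (D.g : ZMod D.q) ^ v = 0 := by
  unfold prs at hp
  obtain ⟨u, hu, hp1⟩ := List.any_eq_true.mp hp
  obtain ⟨v, hv, hp2⟩ := List.any_eq_true.mp hp1
  have h0 : (f9 D.PW u + f9 D.PW v) % D.q = 0 := Nat.eq_of_beq_eq_true hp2
  refine ⟨u, hu, v, hv, ?_⟩
  rw [hS.pw u (hL u hu), hS.pw v (hL v hv)] at h0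
  have h1 : (((D.g ^ u % D.q + D.g ^ v % D.q) % D.q : ℕ) : ZMod D.q) = 0 := by
    rw [h0, Nat.cast_zero]
  rw [ZMod.natCast_mod, Nat.cast_add, ZMod.natCast_mod, ZMod.natCast_mod, Nat.cast_pow,
    Nat.cast_pow] at h1
  exact h1

end Z4_

theorem bZ4 (hZ4A : Z4A) (hZ4B : Z4B) : Z4 := by
  intro D b c d e f t lo hi hS hb hc hd he hf ht h1 h2 h3 hfin hA hN
  unfold fin7 at hfin
  rw [h1, h2, h3, cond_true, cond_true, cond_true] at hfin
  have hX := hZ4A D b c d e f t hS hb hc hd he hf ht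
  have hY := hZ4B D [0, b, c, d, e, f, t] hS
  generalize nl D.l D.h (Nat.mod (Nat.add (Nat.add (Nat.add (Nat.add (Nat.add (Nat.add
      (sh D.BB 0) (sh D.BB b)) (sh D.BB c)) (sh D.BB d)) (sh D.BB e)) (sh D.BB f)) (sh D.BB t))
      D.msk) 1 = x at hfin hX
  have hE : p4 D.l x = D.bad := by
    have hc4 : ((p4 D.l x : ℕ) : ZMod D.l) = ((D.q ^ 14 : ℕ) : ZMod D.l) := by
      rw [Z4_.p4_cast, hX, ← hY, hN, Nat.cast_pow]
    have hm := (ZMod.natCast_eq_natCast_iff' _ _ _).mp hc4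
    rw [Z4_.p4_mod] at hm
    rw [hm, hS.bad]
  have hb1 : Nat.beq (p4 D.l x) D.bad = true := by
    rw [hE]
    exact Nat.beq_refl _
  rw [hb1, cond_true] at hfin
  have hq := hS.qn
  have hL : ∀ k ∈ [0, b, c, d, e, f, t], k < D.q := by
    intro k hk
    simp only [List.mem_cons, List.not_mem_nil, or_false] at hk
    omega
  obtain ⟨u, hu, v, hv, huv⟩ := Z4_.prs_pair D hS _ hL hfin
  exact hA.2.2.2 u hu v hv huv

end Pool.Agent.Lib.SH56
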