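import Pool.Agent.Lib.SH56.Blue2

/-! The packed product. -/

namespace Pool.Agent.Lib.SH56

namespace Z4A_

theorem sh_succ (BB m : ℕ) : sh BB (m + 1) = sh BB m / 4294967296 := by
  have h : ∀ k, sh BB k = BB / 2 ^ (32 * k) := fun k => Nat.shiftRight_eq_div_pow BB (32 * k)
  rw [h, h, Nat.div_div_eq_div_mul, mul_add, pow_add]
  norm_num

theorem split (BB s : ℕ) (L : List ℕ) :
    (L.map fun k => sh BB (k + s)).sum =
      (L.map fun k => sh BB (k + s) % 4294967296).sum +
        4294967296 * (L.map fun k => sh BB (k + (s + 1))).sum := by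
  induction L with
  | nil => simp
  | cons a L ih =>
    simp only [List.map_cons, List.sum_cons]
    rw [ih, ← add_assoc a s 1, sh_succ]
    omega

theorem nl_succ (l h W acc : ℕ) :
    nl l (h + 1) W acc = nl l h (W / 4294967296) (acc * (W % 4294967296) % l) := rfl

theorem key (l BB : ℕ) (L : List ℕ) (h : ℕ) : ∀ s acc : ℕ,
    (∀ j, j < h → (L.map fun k => sh BB (k + (s + j)) % 4294967296).sum < 4294967296) →
    ((nl l h ((L.map fun k => sh BB (k + s)).sum % 4294967296 ^ h) acc : ℕ) : ZMod l) =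
      (acc : ZMod l) * ∏ j ∈ Finset.range h,
        (((L.map fun k => sh BB (k + (s + j)) % 4294967296).sum : ℕ) : ZMod l) := by
  induction h with
  | zero =>
    intro s acc _
    rw [Finset.prod_range_zero, mul_one]
    rfl
  | succ h ih =>
    intro s acc hb
    have h0 : (L.map fun k => sh BB (k + s) % 4294967296).sum < 4294967296 := hb 0 (by omega)
    have hs := split BB s L
    have e1 : (L.map fun k => sh BB (k + s)).sum / 4294967296 =
        (L.map fun k => sh BB (k + (s + 1))).sum := by omega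
    have e2 : (L.map fun k => sh BB (k + s)).sum % 4294967296 =
        (L.map fun k => sh BB (k + s) % 4294967296).sum := by omega
    have e3 : ∀ j, s + 1 + j = s + (j + 1) := fun j => by omega
    rw [nl_succ, pow_succ', Nat.mod_mul_right_div_self, Nat.mod_mul_right_mod, e1, e2,
      ih (s + 1) _ (fun j hj => by rw [e3]; exact hb (j + 1) (by omega)), Finset.prod_range_succ',
      ZMod.natCast_mod, Nat.cast_mul]
    simp only [e3, Nat.add_zero]
    ring

theorem tn_cast (q l w v : ℕ) (hl : 0 < l) :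
    ((tn q l w v : ℕ) : ZMod l) = (w : ZMod l) ^ v - (w : ZMod l) ^ (q - v) := by
  have h : tn q l w v = (w ^ v + (l - w ^ (q - v) % l)) % l := rfl
  rw [h, ZMod.natCast_mod, Nat.cast_add, Nat.cast_sub (Nat.mod_lt _ hl).le, ZMod.natCast_self,
    ZMod.natCast_mod, Nat.cast_pow, Nat.cast_pow]
  ring

theorem tn_lt (q l w v : ℕ) (hl : 0 < l) : tn q l w v < l := Nat.mod_lt _ hl

end Z4A_

theorem bZ4A : Z4A := by
  intro D b c d e f t hD hb hc hd he hf ht
  have hl : 0 < D.l := hD.lp.pos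
  have hle := hD.lle
  have hlane : ∀ k j, k < D.n → j < D.h →
      sh D.BB (k + (0 + j)) % 4294967296 = tn D.q D.l D.w (D.g ^ (k + j) % D.q) := by
    intro k j hk hj
    rw [Nat.zero_add]
    exact hD.bb _ (by omega)
  have h0 : 0 < D.n := by omega
  have hk := Z4A_.key D.l D.BB [0, b, c, d, e, f, t] D.h 0 1 (fun j hj => by
    simp only [List.map_cons, List.map_nil, List.sum_cons, List.sum_nil]
    rw [hlane _ _ h0 hj, hlane _ _ hb hj, hlane _ _ hc hj, hlane _ _ hd hj, hlane _ _ he hj,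
      hlane _ _ hf hj, hlane _ _ ht hj]
    have a0 := Z4A_.tn_lt D.q D.l D.w (D.g ^ (0 + j) % D.q) hl
    have a1 := Z4A_.tn_lt D.q D.l D.w (D.g ^ (b + j) % D.q) hl
    have a2 := Z4A_.tn_lt D.q D.l D.w (D.g ^ (c + j) % D.q) hl
    have a3 := Z4A_.tn_lt D.q D.l D.w (D.g ^ (d + j) % D.q) hl
    have a4 := Z4A_.tn_lt D.q D.l D.w (D.g ^ (e + j) % D.q) hl
    have a5 := Z4A_.tn_lt D.q D.l D.w (D.g ^ (f + j) % D.q) hl
    have a6 := Z4A_.tn_lt D.q D.l D.w (D.g ^ (t + j) % D.q) hl
    omega)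
  have hW : Nat.mod (Nat.add (Nat.add (Nat.add (Nat.add (Nat.add (Nat.add
      (sh D.BB 0) (sh D.BB b)) (sh D.BB c)) (sh D.BB d)) (sh D.BB e)) (sh D.BB f)) (sh D.BB t))
      D.msk = ([0, b, c, d, e, f, t].map fun k => sh D.BB (k + 0)).sum % 4294967296 ^ D.h := by
    rw [hD.msk]
    simp only [List.map_cons, List.map_nil, List.sum_cons, List.sum_nil, Nat.add_zero, Nat.add_eq,
      Nat.add_assoc]
    rfl
  rw [hW, hk, Nat.cast_one, one_mul]
  refine Finset.prod_congr rfl fun j hj => ?_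
  have hj' := Finset.mem_range.1 hj
  simp only [List.map_cons, List.map_nil, List.sum_cons, List.sum_nil]
  rw [hlane _ _ h0 hj', hlane _ _ hb hj', hlane _ _ hc hj', hlane _ _ hd hj', hlane _ _ he hj',
    hlane _ _ hf hj', hlane _ _ ht hj']
  simp only [Nat.cast_add, Nat.cast_zero, Z4A_.tn_cast _ _ _ _ hl, TT]

end Pool.Agent.Lib.SH56
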