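import Pool.Agent.Lib.SH56.Blue2

namespace Pool.Agent.Lib.SH56

namespace Z4B_

theorem half {D : Dat} (S : Sm D) (m : ℕ) : TT D (m + D.h) = -TT D m := by
  have hq := S.qn
  have h4 := S.q4
  have hh := S.nh
  have hv : D.g ^ m % D.q < D.q := Nat.mod_lt _ (by omega)
  have h0 : D.g ^ m % D.q ≠ 0 := fun h => by
    have h1 : D.q ∣ D.g := S.qp.dvd_of_dvd_pow (Nat.dvd_of_mod_eq_zero h)
    have h2 : D.g ^ D.h % D.q = 0 := Nat.mod_eq_zero_of_dvd (dvd_pow h1 (by omega))
    have h3 := S.gh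
    omega
  have e : D.g ^ (m + D.h) % D.q = D.q - D.g ^ m % D.q := by
    rw [pow_add, Nat.mul_mod, S.gh]
    obtain ⟨u, hu⟩ := Nat.exists_eq_succ_of_ne_zero h0
    obtain ⟨r, hr⟩ : ∃ r, D.n = u + r := ⟨D.n - u, by omega⟩
    have e1 : D.g ^ m % D.q * D.n = r + D.q * u := by
      rw [hu, hq, hr, Nat.succ_eq_add_one]
      ring
    rw [e1, Nat.add_mul_mod_self_left, Nat.mod_eq_of_lt (by omega)]
    omega
  unfold TT
  rw [e, Nat.sub_sub_self hv.le, neg_sub]

theorem sum_half {D : Dat} (S : Sm D) (L : List ℕ) (j : ℕ) :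
    (L.map fun k => TT D (k + (D.h + j))).sum = -(L.map fun k => TT D (k + j)).sum := by
  induction L with
  | nil => simp
  | cons a L ih =>
    rw [List.map_cons, List.map_cons, List.sum_cons, List.sum_cons, ih,
      show a + (D.h + j) = a + j + D.h by ring, half S, neg_add]

end Z4B_

theorem bZ4B : Z4B := by
  intro D L S
  unfold NN
  rw [S.nh, Finset.prod_range_add, mul_pow]
  have e : (∏ j ∈ Finset.range D.h, (L.map fun k => TT D (k + (D.h + j))).sum) ^ 2 =
      (∏ j ∈ Finset.range D.h, (L.map fun k => TT D (k + j)).sum) ^ 2 := by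
    rw [← Finset.prod_pow, ← Finset.prod_pow]
    exact Finset.prod_congr rfl fun j _ => by rw [Z4B_.sum_half S, neg_sq]
  rw [e, ← pow_add]

end Pool.Agent.Lib.SH56
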