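import Pool.Agent.Lib.SH56.Blue2

/-! Row Z5: invariance under permutations and shifts of the logarithms. -/

namespace Pool.Agent.Lib.SH56

namespace Z5_

lemma g_pow_n {D : Dat} (h : Sm D) : (D.g : ZMod D.q) ^ D.n = 1 := by
  have h1 : (D.g : ZMod D.q) ^ D.h = -1 := by
    have e : ((D.g ^ D.h % D.q : ℕ) : ZMod D.q) = (D.n : ZMod D.q) := by rw [h.gh]
    rw [ZMod.natCast_mod, Nat.cast_pow] at e
    have e2 : ((D.n + 1 : ℕ) : ZMod D.q) = 0 := by rw [← h.qn]; exact ZMod.natCast_self _
    rw [Nat.cast_add, Nat.cast_one] at e2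
    rw [e]
    exact eq_neg_of_add_eq_zero_left e2
  rw [h.nh, pow_add, h1]
  ring

lemma g_mod {D : Dat} (h : Sm D) (k : ℕ) : (D.g : ZMod D.q) ^ (k % D.n) = (D.g : ZMod D.q) ^ k := by
  conv_rhs => rw [← Nat.mod_add_div k D.n, pow_add, pow_mul, g_pow_n h, one_pow, mul_one]

lemma TT_eq {D : Dat} {a b : ℕ} (e : (D.g : ZMod D.q) ^ a = (D.g : ZMod D.q) ^ b) :
    TT D a = TT D b := by
  have e2 : D.g ^ a % D.q = D.g ^ b % D.q := by
    rw [← ZMod.natCast_eq_natCast_iff', Nat.cast_pow, Nat.cast_pow, e]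
  unfold TT
  rw [e2]

lemma prod_shift {M : Type} [CommMonoid M] (F : ℕ → M) (n : ℕ) (hF : ∀ j, F (j + n) = F j)
    (s : ℕ) : ∏ j ∈ Finset.range n, F (j + s) = ∏ j ∈ Finset.range n, F j := by
  induction s with
  | zero => rfl
  | succ s ih =>
    rw [← ih]
    cases n with
    | zero => rfl
    | succ m =>
      rw [Finset.prod_range_succ, Finset.prod_range_succ' fun j => F (j + s)]
      have e : F (m + (s + 1)) = F (0 + s) := by
        rw [← hF (0 + s)]
        exact congrArg F (by omega)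
      rw [e]
      exact congrArg (· * F (0 + s))
        (Finset.prod_congr rfl fun j _ => congrArg F (by omega))

lemma sum_shift {D : Dat} (h : Sm D) (L : List ℕ) (s m : ℕ)
    (e : (L.map fun k => ((D.g : ZMod D.q) ^ k) ^ m).sum = 0) :
    ((L.map fun k => (k + s) % D.n).map fun k => ((D.g : ZMod D.q) ^ k) ^ m).sum = 0 := by
  rw [List.map_map]
  have e2 : ((fun k => ((D.g : ZMod D.q) ^ k) ^ m) ∘ fun k => (k + s) % D.n) =
      fun k => ((D.g : ZMod D.q) ^ k) ^ m * ((D.g : ZMod D.q) ^ s) ^ m := by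
    funext k
    show ((D.g : ZMod D.q) ^ ((k + s) % D.n)) ^ m = _
    rw [g_mod h, pow_add, mul_pow]
  rw [e2, List.sum_map_mul_right, e, zero_mul]

end Z5_

open Z5_ in
theorem bZ5 : Z5 := by
  intro D h
  refine ⟨fun L M hp hR hA => ?_, fun L s hR hA => ?_⟩
  · have e : NN D M = NN D L :=
      Finset.prod_congr rfl fun j _ => (hp.map _).sum_eq.symm
    rw [e]
    exact hR ⟨(hp.map _).sum_eq.trans hA.1, (hp.map _).sum_eq.trans hA.2.1,
      (hp.map _).sum_eq.trans hA.2.2.1,
      fun u hu v hv => hA.2.2.2 u (hp.subset hu) v (hp.subset hv)⟩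
  · have hn : D.n ≠ 0 := by have := h.qn; have := h.q4; omega
    have hu : IsUnit ((D.g : ZMod D.q) ^ s) := (IsUnit.of_pow_eq_one (g_pow_n h) hn).pow s
    have e : NN D (L.map fun k => (k + s) % D.n) = NN D L := by
      unfold NN
      rw [← prod_shift (fun j => (L.map fun k => TT D (k + j)).sum) D.n (fun j => ?_) s]
      · refine Finset.prod_congr rfl fun j _ => ?_
        rw [List.map_map]
        refine congrArg List.sum (List.map_congr_left fun k _ => TT_eq ?_)
        rw [pow_add, g_mod h, ← pow_add]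
        exact congrArg _ (by omega)
      · refine congrArg List.sum (List.map_congr_left fun k _ => TT_eq ?_)
        rw [← add_assoc, pow_add, g_pow_n h, mul_one]
    rw [← e]
    refine hR ⟨?_, sum_shift h L s 3 hA.2.1, sum_shift h L s 5 hA.2.2.1, fun u hu' v hv' => ?_⟩
    · have := sum_shift h L s 1 (by simpa only [pow_one] using hA.1)
      simpa only [pow_one] using this
    · obtain ⟨a, ha, rfl⟩ := List.mem_map.1 hu'
      obtain ⟨b, hb, rfl⟩ := List.mem_map.1 hv'
      rw [g_mod h, g_mod h, pow_add, pow_add, ← add_mul]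
      exact fun e0 => hA.2.2.2 a ha b hb (hu.mul_left_eq_zero.1 e0)

end Pool.Agent.Lib.SH56
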