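import Pool.Agent.Lib.SH56.Blue2

/-! Row ZN: sorting a shifted triple, and decoding. -/

namespace Pool.Agent.Lib.SH56

namespace ZN_

theorem back (n s x : ℕ) (hs : s ≤ n) (hx : x < n) :
    ∃ a : ℕ, a < n ∧ (a + s) % n = x := by
  by_cases h : s ≤ x
  · refine ⟨x - s, by omega, ?_⟩
    rw [Nat.sub_add_cancel h, Nat.mod_eq_of_lt hx]
  · refine ⟨x + n - s, by omega, ?_⟩
    have e : x + n - s + s = x + n := by omega
    rw [e, Nat.add_mod_right, Nat.mod_eq_of_lt hx]

theorem srt (a b c : ℕ) : ∃ e f t : ℕ, e ≤ f ∧ f ≤ t ∧ [e, f, t].Perm [a, b, c] := by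
  have p1 : ∀ x y z : ℕ, [y, x, z].Perm [x, y, z] := fun x y z => List.Perm.swap x y [z]
  have p2 : ∀ x y z : ℕ, [x, z, y].Perm [x, y, z] :=
    fun x y z => List.Perm.cons x (List.Perm.swap y z [])
  rcases le_total a b with h1 | h1 <;> rcases le_total b c with h2 | h2 <;>
    rcases le_total a c with h3 | h3
  · exact ⟨a, b, c, h1, h2, List.Perm.refl _⟩
  · exact ⟨a, b, c, h1, h2, List.Perm.refl _⟩
  · exact ⟨a, c, b, h3, h2, p2 a b c⟩
  · exact ⟨c, a, b, h3, h1, (p1 a c b).trans (p2 a b c)⟩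
  · exact ⟨b, a, c, h1, h3, p1 a b c⟩
  · exact ⟨b, c, a, h2, h3, (p2 b a c).trans (p1 a b c)⟩
  · exact ⟨b, a, c, h1, h3, p1 a b c⟩
  · exact ⟨c, b, a, h2, h1, ((p1 b c a).trans (p2 b a c)).trans (p1 a b c)⟩

end ZN_

theorem bZN : ZN := by
  refine ⟨?_, ?_⟩
  · intro n s x y z hs hx hy hz
    obtain ⟨a, ha, ea⟩ := ZN_.back n s x hs hx
    obtain ⟨b, hb, eb⟩ := ZN_.back n s y hs hy
    obtain ⟨c, hc, ec⟩ := ZN_.back n s z hs hz
    obtain ⟨e, f, t, h1, h2, hp⟩ := ZN_.srt a b c
    refine ⟨e, f, t, h1, h2, ?_, ?_⟩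
    · have ht : t ∈ [a, b, c] := hp.subset (by simp)
      simp only [List.mem_cons, List.not_mem_nil, or_false] at ht
      rcases ht with h | h | h <;> omega
    · have := hp.map (fun k => (k + s) % n)
      simpa only [List.map_cons, List.map_nil, ea, eb, ec] using this
  · intro q n h l bad msk PW BB b c d e f t s he hf
    have h0 : Nat.beq (cd e f t) 0 = false := by
      apply Bool.eq_false_iff.mpr
      intro hh
      have := Nat.eq_of_beq_eq_true hh
      unfold cd at this
      simp only [Nat.add_eq, Nat.mul_eq] at this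
      omega
    have h1 : Nat.mod (Nat.div (cd e f t) 2) 512 = e := by
      show cd e f t / 2 % 512 = e
      unfold cd
      simp only [Nat.add_eq, Nat.mul_eq]
      omega
    have h2 : Nat.mod (Nat.div (cd e f t) 1024) 512 = f := by
      show cd e f t / 1024 % 512 = f
      unfold cd
      simp only [Nat.add_eq, Nat.mul_eq]
      omega
    have h3 : Nat.div (cd e f t) 524288 = t := by
      show cd e f t / 524288 = t
      unfold cd
      simp only [Nat.add_eq, Nat.mul_eq]
      omega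
    unfold dec
    rw [h0, h1, h2, h3]
    rfl

end Pool.Agent.Lib.SH56
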