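import Pool.Agent.Lib.SH56.Blue2

namespace Pool.Agent.Lib.SH56

namespace ZT_

theorem mod_eq {q x u : ℕ} (hu : u < q) (h : (x : ZMod q) = (u : ZMod q)) : Nat.mod x q = u := by
  have := (ZMod.natCast_eq_natCast_iff' x u q).1 h
  rw [Nat.mod_eq_of_lt hu] at this
  exact this

theorem beq0 {q a b : ℕ} (h : (a : ZMod q) + (b : ZMod q) ≠ 0) :
    Nat.beq (Nat.mod (Nat.add a b) q) 0 = false := by
  refine Bool.eq_false_iff.2 fun k => h ?_
  have k' : (a + b) % q = 0 := Nat.eq_of_beq_eq_true k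
  rw [← Nat.cast_add, ZMod.natCast_eq_zero_iff]
  exact Nat.dvd_of_mod_eq_zero k'

theorem c3_cast (q a : ℕ) : ((c3 a : ℕ) : ZMod q) = (a : ZMod q) ^ 3 := by
  have : c3 a = a ^ 3 := by show a * a * a = a ^ 3; ring
  rw [this, Nat.cast_pow]

theorem c5_cast (q a : ℕ) : ((c5 a : ℕ) : ZMod q) = (a : ZMod q) ^ 5 := by
  have : c5 a = a ^ 5 := by show a * a * a * (a * a) = a ^ 5; ring
  rw [this, Nat.cast_pow]

theorem add3 (q a b c : ℕ) :
    ((Nat.add (Nat.add a b) c : ℕ) : ZMod q) = (a : ZMod q) + (b : ZMod q) + (c : ZMod q) := by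
  show ((a + b + c : ℕ) : ZMod q) = _
  rw [Nat.cast_add, Nat.cast_add]

theorem sub_cast {q a : ℕ} (h : a ≤ q) : ((Nat.sub q a : ℕ) : ZMod q) = -(a : ZMod q) := by
  show ((q - a : ℕ) : ZMod q) = _
  rw [Nat.cast_sub h, ZMod.natCast_self, zero_sub]

end ZT_

open ZT_ in
theorem bZT (hZ0 : Z0) : ZT := by
  intro D s chk S _ h e f t ef ft tn hs n1 n2 n3 u w hu hw eu ew
  have qn := S.qn
  have nh := S.nh
  have q4 := S.q4
  haveI : Fact D.q.Prime := ⟨S.qp⟩
  have lt : ∀ j, j < D.q → f9 D.PW j < D.q := fun j hj => by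
    rw [S.pw j hj]; exact Nat.mod_lt _ (by omega)
  have ca : ∀ j, j < D.q → ((f9 D.PW j : ℕ) : ZMod D.q) = (D.g : ZMod D.q) ^ j := fun j hj => by
    rw [S.pw j hj, ZMod.natCast_mod, Nat.cast_pow]
  have g0 : (D.g : ZMod D.q) ≠ 0 := by
    intro k
    have a : ((D.g ^ D.h % D.q : ℕ) : ZMod D.q) = (D.n : ZMod D.q) := by rw [S.gh]
    rw [ZMod.natCast_mod, Nat.cast_pow, k, zero_pow (by omega), eq_comm,
      ZMod.natCast_eq_zero_iff] at a
    have := Nat.le_of_dvd (by omega) a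
    omega
  have h1 := (hZ0.1 _ _ _).1 h e (by omega) (by omega)
  have h2 := (hZ0.1 _ _ _).1 h1 f ef (by show f < e + (D.n - e); omega)
  have le := lt e (by omega)
  have lf := lt f (by omega)
  have ce := ca e (by omega)
  have cf := ca f (by omega)
  have ct := ca t (by omega)
  have tt : Nat.mod (Nat.add (Nat.add s (Nat.sub D.q (f9 D.PW e))) (Nat.sub D.q (f9 D.PW f))) D.q =
      f9 D.PW t := by
    refine mod_eq (lt t (by omega)) ?_
    rw [add3, sub_cast le.le, sub_cast lf.le, ce, cf, ct, ← hs]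
    ring
  have t0 : Nat.beq (f9 D.PW t) 0 = false := by
    refine Bool.eq_false_iff.2 fun k => pow_ne_zero t g0 ?_
    rw [← ct, Nat.eq_of_beq_eq_true k, Nat.cast_zero]
  have zz : z3 D.q (f9 D.PW e) (f9 D.PW f) (f9 D.PW t) = false := by
    unfold z3
    rw [beq0 (by rwa [ce, cf]), beq0 (by rwa [ce, ct]), beq0 (by rwa [cf, ct])]
    rfl
  have u3 : Nat.mod (Nat.add (Nat.add (c3 (f9 D.PW e)) (c3 (f9 D.PW f))) (c3 (f9 D.PW t))) D.q =
      u := mod_eq hu (by rw [add3, c3_cast, c3_cast, c3_cast, ce, cf, ct, eu])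
  have w5 : Nat.mod (Nat.add (Nat.add (c5 (f9 D.PW e)) (c5 (f9 D.PW f))) (c5 (f9 D.PW t))) D.q =
      w := mod_eq hw (by rw [add3, c5_cast, c5_cast, c5_cast, ce, cf, ct, ew])
  rw [tt] at h2
  unfold tabE at h2
  rw [t0, zz, u3, w5, S.lgpw t tn, Nat.ble_eq_true_of_le ft] at h2
  exact h2

end Pool.Agent.Lib.SH56
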