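import Pool.Agent.Lib.SH56.Blue2

/-! Row ZZ: assembly of the soundness of the checker. -/

namespace Pool.Agent.Lib.SH56

theorem bZZ (hZ1 : Z1) (hZ2 : Z2) (hZ5 : Z5) (hZ3A : Z3A) (hZ3B : Z3B) (hZ4 : Z4) : ZZ := by
  intro D hS h0 h1 hQ
  have hqn := hS.qn
  have hq4 := hS.q4
  have hn : 0 < D.n := by omega
  refine hZ1 D hS (hZ2 D.n (RR D) hn (hZ5 D hS).1 (hZ5 D hS).2 ?_)
  intro b c d x y z hbc hcd k1 k2 k3 k4 hx hy hz ox oy oz hAdm
  have hd : d < D.n := by omega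
  have hc : c < D.n := by omega
  have hb : b < D.n := by omega
  have hq : QD D b c d = true := hQ b c d hbc hcd k1 k2 k3 k4
  have key : ∃ e f t : ℕ, [e, f, t].Perm [x, y, z] ∧
      fin7 D.q D.h D.l D.bad D.msk D.PW D.BB b c d (b + d) (D.n + c - d) e f t = true := by
    by_cases hs : (D.g : ZMod D.q) ^ x + (D.g : ZMod D.q) ^ y + (D.g : ZMod D.q) ^ z = 0
    · exact hZ3B D b c d x y z hS h0 hb hc hd hx hy hz hAdm hs hq
    · exact hZ3A D b c d x y z hS h1 hb hc hd hx hy hz hAdm hs hq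
  obtain ⟨e, f, t, hperm, hfin⟩ := key
  have hmem : ∀ u ∈ [e, f, t], u < D.n ∧ ok1 (b + d) (D.n + c - d) u = true := by
    intro u hu
    have hu' : u ∈ [x, y, z] := hperm.subset hu
    rcases List.mem_cons.1 hu' with rfl | hu'
    · exact ⟨hx, ox⟩
    rcases List.mem_cons.1 hu' with rfl | hu'
    · exact ⟨hy, oy⟩
    rcases List.mem_cons.1 hu' with rfl | hu'
    · exact ⟨hz, oz⟩
    · exact absurd hu' List.not_mem_nil
  have he := hmem e List.mem_cons_self
  have hf := hmem f (List.mem_cons_of_mem _ List.mem_cons_self)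
  have ht := hmem t (List.mem_cons_of_mem _ (List.mem_cons_of_mem _ List.mem_cons_self))
  have hR : RR D [0, b, c, d, e, f, t] :=
    hZ4 D b c d e f t (b + d) (D.n + c - d) hS hb hc hd he.1 hf.1 ht.1 he.2 hf.2 ht.2 hfin
  exact (hZ5 D hS).1 _ _ ((((hperm.cons d).cons c).cons b).cons 0) hR hAdm

end Pool.Agent.Lib.SH56
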