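import Mathlib

/-! The checker of the sieve. -/

namespace Pool.Agent.Lib.SH56

inductive Tr
  | leaf : Nat → Tr
  | node : Tr → Tr → Tr

noncomputable def Tr.get (t : Tr) : Nat → Nat :=
  Tr.rec (motive := fun _ => Nat → Nat) (fun n _ => n)
    (fun _ _ l r k => cond (Nat.beq (Nat.mod k 2) 0) (l (Nat.div k 2)) (r (Nat.div k 2))) t

def f9 (T i : Nat) : Nat := Nat.mod (Nat.shiftRight T (Nat.mul 9 i)) 512

def f28 (T i : Nat) : Nat := Nat.mod (Nat.shiftRight T (Nat.mul 28 i)) 268435456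

noncomputable def allR (lo cnt : Nat) (p : Nat → Bool) : Bool :=
  Nat.rec (motive := fun _ => Bool) true (fun i ih => cond (p (Nat.add lo i)) ih false) cnt

def c3 (x : Nat) : Nat := Nat.mul (Nat.mul x x) x

def c5 (x : Nat) : Nat := Nat.mul (Nat.mul (Nat.mul x x) x) (Nat.mul x x)

noncomputable def nl (l h : Nat) : Nat → Nat → Nat :=
  Nat.rec (motive := fun _ => Nat → Nat → Nat) (fun _ acc => acc)
    (fun _ ih W acc => ih (Nat.div W 4294967296)
      (Nat.mod (Nat.mul acc (Nat.mod W 4294967296)) l)) h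

def sh (BB k : Nat) : Nat := Nat.shiftRight BB (Nat.mul 32 k)

def p4 (l x : Nat) : Nat := Nat.mod (Nat.mul (Nat.mod (Nat.mul x x) l) (Nat.mod (Nat.mul x x) l)) l

structure Dat where
  q : Nat
  n : Nat
  h : Nat
  l : Nat
  g : Nat
  w : Nat
  bad : Nat
  msk : Nat
  PW : Nat
  LG : Nat
  BB : Nat
  T0 : Nat
  BT : Nat
  T1 : Tr

def ok1 (lo hi x : Nat) : Bool :=
  cond (Nat.ble lo x) (Nat.ble x hi) (Nat.beq x 0)

def prs (q PW : Nat) (L : List Nat) : Bool :=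
  L.any fun u => L.any fun v => Nat.beq (Nat.mod (Nat.add (f9 PW u) (f9 PW v)) q) 0

noncomputable def fin7 (q h l bad msk PW BB b c d lo hi e f g : Nat) : Bool :=
  cond (ok1 lo hi e) (cond (ok1 lo hi f) (cond (ok1 lo hi g)
    (cond (Nat.beq (p4 l (nl l h (Nat.mod (Nat.add (Nat.add (Nat.add (Nat.add (Nat.add (Nat.add
      (sh BB 0) (sh BB b)) (sh BB c)) (sh BB d)) (sh BB e)) (sh BB f)) (sh BB g)) msk) 1)) bad)
      (prs q PW [0, b, c, d, e, f, g]) true) true) true) true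

noncomputable def dec (q n h l bad msk PW BB b c d code s : Nat) : Bool :=
  cond (Nat.beq code 0) true (fin7 q h l bad msk PW BB b c d (Nat.add b d)
    (Nat.sub (Nat.add n c) d)
    (Nat.mod (Nat.add (Nat.mod (Nat.div code 2) 512) s) n)
    (Nat.mod (Nat.add (Nat.mod (Nat.div code 1024) 512) s) n)
    (Nat.mod (Nat.add (Nat.div code 524288) s) n))

def ku (q s3 i : Nat) : Nat := Nat.mod (Nat.mul s3 (c3 i)) q

def kw (q s5 i : Nat) : Nat := Nat.mod (Nat.mul s5 (c5 i)) q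

def lk0 (q LG T0 u w : Nat) : Nat := f28 T0 (Nat.add (Nat.mul (f9 LG u) q) w)

noncomputable def lk1 (q BT : Nat) (T1 : Tr) (u w : Nat) : Nat :=
  cond (Nat.beq (Nat.mod (Nat.shiftRight BT (Nat.add (Nat.mul u q) w)) 2) 0) 0 (f28 (T1.get u) w)

noncomputable def br (q n h l bad msk PW LG BB T0 BT : Nat) (T1 : Tr) (b c d s1 s3 s5 : Nat) : Bool :=
  cond (Nat.beq s1 0)
    (dec q n h l bad msk PW BB b c d
      (lk0 q LG T0 (ku q s3 (f9 PW (Nat.sub n (Nat.div (f9 LG s3) 3))))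
        (kw q s5 (f9 PW (Nat.sub n (Nat.div (f9 LG s3) 3))))) (Nat.div (f9 LG s3) 3))
    (dec q n h l bad msk PW BB b c d
      (lk1 q BT T1 (ku q s3 (f9 PW (Nat.sub n (f9 LG s1)))) (kw q s5 (f9 PW (Nat.sub n (f9 LG s1)))))
      (f9 LG s1))

noncomputable def quad (q n h l bad msk PW LG BB T0 BT : Nat) (T1 : Tr) (b c d K1 K3 K5 m : Nat) :
    Bool :=
  br q n h l bad msk PW LG BB T0 BT T1 b c d (Nat.mod (Nat.add K1 m) q)
    (Nat.mod (Nat.add K3 (c3 m)) q) (Nat.mod (Nat.add K5 (c5 m)) q)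

noncomputable def pairL (q n h l bad msk PW LG BB T0 BT : Nat) (T1 : Tr) (top b c m0 mb mc : Nat) :
    Bool :=
  allR c (Nat.sub top c) fun d => quad q n h l bad msk PW LG BB T0 BT T1 b c d
    (Nat.add (Nat.add m0 mb) mc) (Nat.add (Nat.add (c3 m0) (c3 mb)) (c3 mc))
    (Nat.add (Nat.add (c5 m0) (c5 mb)) (c5 mc)) (Nat.sub q (f9 PW d))

noncomputable def mainL (q n h l bad msk PW LG BB T0 BT : Nat) (T1 : Tr) (top lo cnt : Nat) : Bool :=
  allR lo cnt fun b => allR b (Nat.sub top b) fun c =>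
    pairL q n h l bad msk PW LG BB T0 BT T1 top b c (Nat.sub q 1) (Nat.sub q (f9 PW b))
      (Nat.sub q (f9 PW c))

/-- the main loop on `lo ≤ b < lo + cnt` -/
noncomputable def Dat.main (D : Dat) (lo cnt : Nat) : Bool :=
  mainL D.q D.n D.h D.l D.bad D.msk D.PW D.LG D.BB D.T0 D.BT D.T1
    (Nat.add (Nat.div (Nat.mul 3 D.n) 7) 1) lo cnt

noncomputable def getF (t : Tr) : Nat → Nat :=
  Tr.rec (motive := fun _ => Nat → Nat) (fun n _ => n)
    (fun _ _ l r k => (Bool.rec (motive := fun _ => Nat)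
 (r (Nat.div k (nat_lit 2)))
 (l (Nat.div k (nat_lit 2)))
 (Nat.beq (Nat.mod k (nat_lit 2)) (nat_lit 0)))) t

noncomputable def nlF (l h : Nat) : Nat → Nat → Nat :=
  Nat.rec (motive := fun _ => Nat → Nat → Nat) (fun _ acc => acc)
    (fun _ ih W acc => ih (Nat.div W (nat_lit 4294967296)) (Nat.mod (Nat.mul acc (Nat.mod W (nat_lit 4294967296))) l)) h

noncomputable def decF (q n h l bad msk PW BB b c d code s : Nat) : Bool :=
  let lo := Nat.add b d
  let hi := Nat.sub (Nat.add n c) d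
  let e := (Nat.mod (Nat.add (Nat.mod (Nat.div code (nat_lit 2)) (nat_lit 512)) s) n)
  let f := (Nat.mod (Nat.add (Nat.mod (Nat.div code (nat_lit 1024)) (nat_lit 512)) s) n)
  let g := (Nat.mod (Nat.add (Nat.div code (nat_lit 524288)) s) n)
  (Bool.rec (motive := fun _ => Bool)
 (Bool.rec (motive := fun _ => Bool)
 true
 (Bool.rec (motive := fun _ => Bool)
 true
 (Bool.rec (motive := fun _ => Bool)
 true
 (Bool.rec (motive := fun _ => Bool)
 true
 (prs q PW [0, b, c, d, e, f, g])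
 (Nat.beq (p4 l (nlF l h (Nat.mod (Nat.add (Nat.add (Nat.add (Nat.add (Nat.add (Nat.add (Nat.shiftRight BB (Nat.mul (nat_lit 32) (nat_lit 0))) (Nat.shiftRight BB (Nat.mul (nat_lit 32) b))) (Nat.shiftRight BB (Nat.mul (nat_lit 32) c))) (Nat.shiftRight BB (Nat.mul (nat_lit 32) d))) (Nat.shiftRight BB (Nat.mul (nat_lit 32) e))) (Nat.shiftRight BB (Nat.mul (nat_lit 32) f))) (Nat.shiftRight BB (Nat.mul (nat_lit 32) g))) msk) (nat_lit 1))) bad))
 (Bool.rec (motive := fun _ => Bool)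
 (Nat.beq g (nat_lit 0))
 (Nat.ble g hi)
 (Nat.ble lo g)))
 (Bool.rec (motive := fun _ => Bool)
 (Nat.beq f (nat_lit 0))
 (Nat.ble f hi)
 (Nat.ble lo f)))
 (Bool.rec (motive := fun _ => Bool)
 (Nat.beq e (nat_lit 0))
 (Nat.ble e hi)
 (Nat.ble lo e)))
 true
 (Nat.beq code (nat_lit 0)))

noncomputable def pairF (q n h l bad msk PW LG BB T0 BT : Nat) (T1 : Tr) (top b c K1 K3 K5 : Nat) :
    Bool :=
  (Nat.rec (motive := fun _ => Bool) true (fun i ih =>
  let d := Nat.add c i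
  (Bool.rec (motive := fun _ => Bool)
 false
 ih
 (let m := (Nat.sub q (Nat.mod (Nat.shiftRight PW (Nat.mul (nat_lit 9) d)) (nat_lit 512)))
  let s1 := (Nat.mod (Nat.add K1 m) q)
  let s3 := (Nat.mod (Nat.add K3 (Nat.mul (Nat.mul m m) m)) q)
  let s5 := (Nat.mod (Nat.add K5 (Nat.mul (Nat.mul (Nat.mul m m) m) (Nat.mul m m))) q)
  (Bool.rec (motive := fun _ => Bool)
 (let s := (Nat.mod (Nat.shiftRight LG (Nat.mul (nat_lit 9) s1)) (nat_lit 512))
  let j := (Nat.mod (Nat.shiftRight PW (Nat.mul (nat_lit 9) (Nat.sub n s))) (nat_lit 512))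
  let u := (Nat.mod (Nat.mul s3 (Nat.mul (Nat.mul j j) j)) q)
  let w := (Nat.mod (Nat.mul s5 (Nat.mul (Nat.mul (Nat.mul j j) j) (Nat.mul j j))) q)
  (Bool.rec (motive := fun _ => Bool)
 (decF q n h l bad msk PW BB b c d (Nat.mod (Nat.shiftRight (getF T1 u) (Nat.mul (nat_lit 28) w)) (nat_lit 268435456)) s)
 true
 (Nat.beq (Nat.mod (Nat.shiftRight BT (Nat.add (Nat.mul u q) w)) (nat_lit 2)) (nat_lit 0))))
 (dec q n h l bad msk PW BB b c d (lk0 q LG T0 (ku q s3 (f9 PW (Nat.sub n (Nat.div (f9 LG s3) 3)))) (kw q s5 (f9 PW (Nat.sub n (Nat.div (f9 LG s3) 3))))) (Nat.div (f9 LG s3) 3))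
 (Nat.beq s1 (nat_lit 0)))))) (Nat.sub top c))

noncomputable def mainF (q n h l bad msk PW LG BB T0 BT : Nat) (T1 : Tr) (top lo cnt : Nat) :
    Bool :=
  allR lo cnt fun b => allR b (Nat.sub top b) fun c =>
    let m0 := Nat.sub q 1
    let mb := Nat.sub q (f9 PW b)
    let mc := Nat.sub q (f9 PW c)
    pairF q n h l bad msk PW LG BB T0 BT T1 top b c (Nat.add (Nat.add m0 mb) mc)
      (Nat.add (Nat.add (c3 m0) (c3 mb)) (c3 mc)) (Nat.add (Nat.add (c5 m0) (c5 mb)) (c5 mc))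

noncomputable def Dat.fast (D : Dat) (lo cnt : Nat) : Bool :=
  Dat.rec (motive := fun _ => Bool) (fun q n h l _ _ bad msk PW LG BB T0 BT T1 =>
    mainF q n h l bad msk PW LG BB T0 BT T1 (Nat.add (Nat.div (Nat.mul 3 n) 7) 1) lo cnt) D

theorem brec {α : Type} (a b : α) (c : Bool) :
    Bool.rec (motive := fun _ => α) b a c = cond c a b := by
  cases c <;> rfl

theorem getF_eq : getF = Tr.get := by
  funext t
  unfold getF Tr.get
  simp only [brec]

theorem nlF_eq : nlF = nl := rfl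

theorem decF_eq : decF = dec := by
  funext q n h l bad msk PW BB b c d code s
  unfold decF dec fin7 ok1 sh
  simp only [brec, nlF_eq]

theorem dec_cond (q n h l bad msk PW BB b c d x s : Nat) (t : Bool) :
    dec q n h l bad msk PW BB b c d (cond t 0 x) s =
      cond t true (dec q n h l bad msk PW BB b c d x s) := by
  cases t <;> rfl

theorem pairF_eq (q n h l bad msk PW LG BB T0 BT : Nat) (T1 : Tr) (top b c K1 K3 K5 : Nat) :
    pairF q n h l bad msk PW LG BB T0 BT T1 top b c K1 K3 K5 =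
      allR c (Nat.sub top c) fun d => quad q n h l bad msk PW LG BB T0 BT T1 b c d K1 K3 K5
        (Nat.sub q (f9 PW d)) := by
  unfold quad br lk1 pairF allR
  simp only [dec_cond, brec, decF_eq, getF_eq]
  rfl

theorem Dat.fast_eq (D : Dat) (lo cnt : Nat) : D.fast lo cnt = D.main lo cnt := by
  cases D
  unfold Dat.main mainL pairL
  simp only [← pairF_eq]
  rfl

def cd (e f g : Nat) : Nat :=
  Nat.add (Nat.add (Nat.add 1 (Nat.mul 2 e)) (Nat.mul 1024 f)) (Nat.mul 524288 g)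

def z3 (q a b t : Nat) : Bool :=
  cond (Nat.beq (Nat.mod (Nat.add a b) q) 0) true
    (cond (Nat.beq (Nat.mod (Nat.add a t) q) 0) true (Nat.beq (Nat.mod (Nat.add b t) q) 0))

def tabE (q LG : Nat) (chk : Nat → Nat → Nat → Bool) (e f a b t : Nat) : Bool :=
  cond (Nat.beq t 0) true (cond (Nat.ble f (f9 LG t)) (cond (z3 q a b t) true
    (chk (Nat.mod (Nat.add (Nat.add (c3 a) (c3 b)) (c3 t)) q)
      (Nat.mod (Nat.add (Nat.add (c5 a) (c5 b)) (c5 t)) q) (cd e f (f9 LG t)))) true)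

noncomputable def tabL (q n PW LG s : Nat) (chk : Nat → Nat → Nat → Bool) : Bool :=
  allR 0 n fun e => allR e (Nat.sub n e) fun f => tabE q LG chk e f (f9 PW e) (f9 PW f)
    (Nat.mod (Nat.add (Nat.add s (Nat.sub q (f9 PW e))) (Nat.sub q (f9 PW f))) q)

noncomputable def Dat.tab1 (D : Dat) : Bool :=
  tabL D.q D.n D.PW D.LG 1 fun u w code => Nat.beq (lk1 D.q D.BT D.T1 u w) code

noncomputable def Dat.tab0 (D : Dat) : Bool :=
  tabL D.q D.n D.PW D.LG 0 fun u w code =>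
    cond (Nat.ble 3 (f9 D.LG u)) true (Nat.beq (lk0 D.q D.LG D.T0 u w) code)

def tn (q l w v : Nat) : Nat :=
  Nat.mod (Nat.add (Nat.pow w v) (Nat.sub l (Nat.mod (Nat.pow w (Nat.sub q v)) l))) l

noncomputable def Dat.small (D : Dat) : Bool :=
  Nat.beq D.q (D.n + 1) && Nat.beq D.n (D.h + D.h) && Nat.ble 4 D.q && Nat.ble D.q 512 &&
  Nat.ble D.l 268435456 && Nat.beq (D.w ^ D.q % D.l) 1 && !(Nat.beq (D.w % D.l) 1) &&
  Nat.beq D.bad (D.q ^ 14 % D.l) && Nat.beq D.msk (4294967296 ^ D.h) &&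
  Nat.beq (D.g ^ D.h % D.q) D.n &&
  allR 0 D.q (fun j => Nat.beq (f9 D.PW j) (D.g ^ j % D.q)) &&
  allR 0 D.n (fun j => Nat.beq (f9 D.LG (f9 D.PW j)) j) &&
  allR 1 D.n (fun v => Nat.blt (f9 D.LG v) D.n && Nat.beq (f9 D.PW (f9 D.LG v)) v) &&
  allR 0 (D.n + D.h) (fun j => Nat.beq (sh D.BB j % 4294967296) (tn D.q D.l D.w (D.g ^ j % D.q)))

end Pool.Agent.Lib.SH56
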