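import Pool.Agent.Lib.SH56.Blue
import Pool.Agent.Lib.SH56.Chk

/-! Row texts for the soundness of the checker. -/

namespace Pool.Agent.Lib.SH56

structure Sm (D : Dat) : Prop where
  qp : D.q.Prime
  lp : D.l.Prime
  qn : D.q = D.n + 1
  nh : D.n = D.h + D.h
  q4 : 4 ≤ D.q
  q512 : D.q ≤ 512
  lle : D.l ≤ 268435456
  wq : D.w ^ D.q % D.l = 1
  w1 : D.w % D.l ≠ 1
  bad : D.bad = D.q ^ 14 % D.l
  msk : D.msk = 4294967296 ^ D.h
  gh : D.g ^ D.h % D.q = D.n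
  pw : ∀ j, j < D.q → f9 D.PW j = D.g ^ j % D.q
  lgpw : ∀ j, j < D.n → f9 D.LG (f9 D.PW j) = j
  pwlg : ∀ v, 1 ≤ v → v < D.q → f9 D.LG v < D.n ∧ f9 D.PW (f9 D.LG v) = v
  bb : ∀ j, j < D.n + D.h → sh D.BB j % 4294967296 = tn D.q D.l D.w (D.g ^ j % D.q)

def Adm (q g : ℕ) (L : List ℕ) : Prop :=
  (L.map fun k => (g : ZMod q) ^ k).sum = 0 ∧ (L.map fun k => ((g : ZMod q) ^ k) ^ 3).sum = 0 ∧
    (L.map fun k => ((g : ZMod q) ^ k) ^ 5).sum = 0 ∧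
    ∀ u ∈ L, ∀ v ∈ L, (g : ZMod q) ^ u + (g : ZMod q) ^ v ≠ 0

def TT (D : Dat) (m : ℕ) : ZMod D.l :=
  (D.w : ZMod D.l) ^ (D.g ^ m % D.q) - (D.w : ZMod D.l) ^ (D.q - D.g ^ m % D.q)

def NN (D : Dat) (L : List ℕ) : ZMod D.l :=
  ∏ j ∈ Finset.range D.n, (L.map fun k => TT D (k + j)).sum

def RR (D : Dat) (L : List ℕ) : Prop := Adm D.q D.g L → NN D L ^ 2 ≠ (D.q : ZMod D.l) ^ 14

noncomputable def QD (D : Dat) (b c d : ℕ) : Bool :=
  quad D.q D.n D.h D.l D.bad D.msk D.PW D.LG D.BB D.T0 D.BT D.T1 b c d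
    (Nat.add (Nat.add (Nat.sub D.q 1) (Nat.sub D.q (f9 D.PW b))) (Nat.sub D.q (f9 D.PW c)))
    (Nat.add (Nat.add (c3 (Nat.sub D.q 1)) (c3 (Nat.sub D.q (f9 D.PW b))))
      (c3 (Nat.sub D.q (f9 D.PW c))))
    (Nat.add (Nat.add (c5 (Nat.sub D.q 1)) (c5 (Nat.sub D.q (f9 D.PW b))))
      (c5 (Nat.sub D.q (f9 D.PW c))))
    (Nat.sub D.q (f9 D.PW d))

/-- the small check gives the small facts; the loop lemma -/
def Z0 : Prop :=
  (∀ (lo cnt : ℕ) (p : ℕ → Bool), allR lo cnt p = true ↔ ∀ i, lo ≤ i → i < lo + cnt → p i = true) ∧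
    ∀ D : Dat, D.q.Prime → D.l.Prime → D.small = true → Sm D

/-- from logarithms back to residues -/
def Z1 : Prop := ∀ D : Dat, Sm D →
  (∀ L : List ℕ, L.length = 7 → (∀ k ∈ L, k < D.n) → RR D L) → SV D.q

/-- the least window of four points on the circle of length `n` -/
def Z2 : Prop := ∀ (n : ℕ) (R : List ℕ → Prop), 0 < n →
  (∀ L M : List ℕ, L.Perm M → R L → R M) →
  (∀ (L : List ℕ) (s : ℕ), R (L.map fun k => (k + s) % n) → R L) →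
  (∀ b c d x y z : ℕ, b ≤ c → c ≤ d → 2 * d + b ≤ n → 2 * d + c ≤ n + b → 3 * d ≤ n + c →
    7 * d ≤ 3 * n → x < n → y < n → z < n → ok1 (b + d) (n + c - d) x = true →
    ok1 (b + d) (n + c - d) y = true → ok1 (b + d) (n + c - d) z = true →
    R [0, b, c, d, x, y, z]) →
  ∀ L : List ℕ, L.length = 7 → (∀ k ∈ L, k < n) → R L

/-- invariance -/
def Z5 : Prop := ∀ D : Dat, Sm D → (∀ L M : List ℕ, L.Perm M → RR D L → RR D M) ∧
  ∀ (L : List ℕ) (s : ℕ), RR D (L.map fun k => (k + s) % D.n) → RR D L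

/-- the table property -/
def ZT : Prop := ∀ (D : Dat) (s : ℕ) (chk : ℕ → ℕ → ℕ → Bool), Sm D → s ≤ 1 →
  tabL D.q D.n D.PW D.LG s chk = true → ∀ e f t : ℕ, e ≤ f → f ≤ t → t < D.n →
    (D.g : ZMod D.q) ^ e + (D.g : ZMod D.q) ^ f + (D.g : ZMod D.q) ^ t = (s : ZMod D.q) →
    (D.g : ZMod D.q) ^ e + (D.g : ZMod D.q) ^ f ≠ 0 →
    (D.g : ZMod D.q) ^ e + (D.g : ZMod D.q) ^ t ≠ 0 →
    (D.g : ZMod D.q) ^ f + (D.g : ZMod D.q) ^ t ≠ 0 →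
    ∀ u w : ℕ, u < D.q → w < D.q →
      (u : ZMod D.q) = ((D.g : ZMod D.q) ^ e) ^ 3 + ((D.g : ZMod D.q) ^ f) ^ 3 +
        ((D.g : ZMod D.q) ^ t) ^ 3 →
      (w : ZMod D.q) = ((D.g : ZMod D.q) ^ e) ^ 5 + ((D.g : ZMod D.q) ^ f) ^ 5 +
        ((D.g : ZMod D.q) ^ t) ^ 5 → chk u w (cd e f t) = true

/-- sorting a shifted triple, and decoding -/
def ZN : Prop :=
  (∀ n s x y z : ℕ, s ≤ n → x < n → y < n → z < n → ∃ e f t : ℕ, e ≤ f ∧ f ≤ t ∧ t < n ∧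
    [(e + s) % n, (f + s) % n, (t + s) % n].Perm [x, y, z]) ∧
  ∀ q n h l bad msk PW BB b c d e f t s : ℕ, e < 512 → f < 512 →
    dec q n h l bad msk PW BB b c d (cd e f t) s =
      fin7 q h l bad msk PW BB b c d (b + d) (n + c - d) ((e + s) % n) ((f + s) % n) ((t + s) % n)

/-- the lookup, first case -/
def Z3A : Prop := ∀ (D : Dat) (b c d x y z : ℕ), Sm D → D.tab1 = true →
  b < D.n → c < D.n → d < D.n → x < D.n → y < D.n → z < D.n →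
  Adm D.q D.g [0, b, c, d, x, y, z] →
  (D.g : ZMod D.q) ^ x + (D.g : ZMod D.q) ^ y + (D.g : ZMod D.q) ^ z ≠ 0 → QD D b c d = true →
  ∃ e f t : ℕ, [e, f, t].Perm [x, y, z] ∧
    fin7 D.q D.h D.l D.bad D.msk D.PW D.BB b c d (b + d) (D.n + c - d) e f t = true

/-- the lookup, second case -/
def Z3B : Prop := ∀ (D : Dat) (b c d x y z : ℕ), Sm D → D.tab0 = true →
  b < D.n → c < D.n → d < D.n → x < D.n → y < D.n → z < D.n →
  Adm D.q D.g [0, b, c, d, x, y, z] →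
  (D.g : ZMod D.q) ^ x + (D.g : ZMod D.q) ^ y + (D.g : ZMod D.q) ^ z = 0 → QD D b c d = true →
  ∃ e f t : ℕ, [e, f, t].Perm [x, y, z] ∧
    fin7 D.q D.h D.l D.bad D.msk D.PW D.BB b c d (b + d) (D.n + c - d) e f t = true

/-- the packed product -/
def Z4A : Prop := ∀ (D : Dat) (b c d e f t : ℕ), Sm D →
  b < D.n → c < D.n → d < D.n → e < D.n → f < D.n → t < D.n →
  ((nl D.l D.h (Nat.mod (Nat.add (Nat.add (Nat.add (Nat.add (Nat.add (Nat.add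
      (sh D.BB 0) (sh D.BB b)) (sh D.BB c)) (sh D.BB d)) (sh D.BB e)) (sh D.BB f)) (sh D.BB t))
      D.msk) 1 : ℕ) : ZMod D.l) =
    ∏ j ∈ Finset.range D.h, ([0, b, c, d, e, f, t].map fun k => TT D (k + j)).sum

/-- half of the product is enough -/
def Z4B : Prop := ∀ (D : Dat) (L : List ℕ), Sm D →
  NN D L ^ 2 = (∏ j ∈ Finset.range D.h, (L.map fun k => TT D (k + j)).sum) ^ 4

/-- the last test -/
def Z4 : Prop := ∀ (D : Dat) (b c d e f t lo hi : ℕ), Sm D →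
  b < D.n → c < D.n → d < D.n → e < D.n → f < D.n → t < D.n →
  ok1 lo hi e = true → ok1 lo hi f = true → ok1 lo hi t = true →
  fin7 D.q D.h D.l D.bad D.msk D.PW D.BB b c d lo hi e f t = true → RR D [0, b, c, d, e, f, t]

/-- soundness -/
def ZZ : Prop := ∀ D : Dat, Sm D → D.tab0 = true → D.tab1 = true →
  (∀ b c d : ℕ, b ≤ c → c ≤ d → 2 * d + b ≤ D.n → 2 * d + c ≤ D.n + b → 3 * d ≤ D.n + c →
    7 * d ≤ 3 * D.n → QD D b c d = true) → SV D.q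

end Pool.Agent.Lib.SH56
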