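import Pool.Agent.Lib.SH56.Blue2

/-! A faster main loop for the sieve. -/

namespace Pool.Agent.Lib.SH56

namespace F2

inductive L4
  | nil : L4
  | cons : Nat → Nat → Nat → Nat → L4 → L4

def lk (T i : Nat) : Nat := Nat.land (Nat.shiftRight T i) (nat_lit 65535)

noncomputable def three (q BT : Nat) (S1 : Nat → Nat → Nat → Nat → Bool) (d t u w : Nat) : Bool :=
  Bool.rec (motive := fun _ => Bool) (S1 d u w t) true
    (Nat.beq (Nat.land (Nat.shiftRight BT (Nat.add (Nat.mul u q) w)) (nat_lit 1)) (nat_lit 0))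

noncomputable def two (q BT L P : Nat) (S0 : Nat → Bool) (S1 : Nat → Nat → Nat → Nat → Bool)
    (d t v3 v5 : Nat) : Bool :=
  Bool.rec (motive := fun _ => Bool)
    (three q BT S1 d t
      (Nat.land (Nat.shiftRight P (Nat.add (Nat.mul (nat_lit 3) t)
        (Nat.land (Nat.shiftRight L v3) (nat_lit 65535)))) (nat_lit 65535))
      (Nat.land (Nat.shiftRight P (Nat.add (Nat.mul (nat_lit 5) t)
        (Nat.land (Nat.shiftRight L v5) (nat_lit 65535)))) (nat_lit 65535)))
    (S0 d) (Nat.beq t (nat_lit 0))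

noncomputable def inn (q BT N L P : Nat) (S0 : Nat → Bool) (S1 : Nat → Nat → Nat → Nat → Bool)
    (k1 k3 k5 dm : Nat) (E : L4) : Bool :=
  L4.rec (motive := fun _ => Bool) true (fun d x y z _ ih =>
    Bool.rec (motive := fun _ => Bool) true
      (Bool.rec (motive := fun _ => Bool) false ih
        (two q BT L P S0 S1 d (Nat.land (Nat.shiftRight N (Nat.add k1 x)) (nat_lit 65535))
          (Nat.add k3 y) (Nat.add k5 z))) (Nat.ble d dm)) E

def mn (a b : Nat) : Nat := Nat.sub a (Nat.sub a b)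

def dmx (n b c : Nat) : Nat :=
  mn (mn (Nat.div (Nat.sub n b) 2) (Nat.div (Nat.sub (Nat.add n b) c) 2)) (Nat.div (Nat.add n c) 3)

noncomputable def suf (p : Nat → Nat → Nat → Nat → L4 → Bool) (E : L4) : Bool :=
  L4.rec (motive := fun _ => Bool) true (fun d x y z tl ih =>
    Bool.rec (motive := fun _ => Bool) false ih (p d x y z (L4.cons d x y z tl))) E

noncomputable def slow (q n h l bad msk PW BB : Nat) (T1 : Tr) (b c d u w t : Nat) : Bool :=
  decF q n h l bad msk PW BB b c d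
    (Nat.land (Nat.shiftRight (getF T1 u) (Nat.mul (nat_lit 28) w)) (nat_lit 268435455))
    (Nat.sub n (Nat.div t (nat_lit 16)))

def X1 (q PW d : Nat) : Nat := Nat.mul 16 (Nat.sub q (f9 PW d))

def X3 (q PW d : Nat) : Nat := Nat.mul 16 (Nat.mod (c3 (Nat.sub q (f9 PW d))) q)

def X5 (q PW d : Nat) : Nat := Nat.mul 16 (Nat.mod (c5 (Nat.sub q (f9 PW d))) q)

noncomputable def main2 (q n h l bad msk PW BB BT : Nat) (T1 : Tr) (Q : Nat → Nat → Nat → Bool)
    (N L P : Nat) (E : L4) (lo cnt : Nat) : Bool :=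
  suf (fun b x y z E1 => cond (Nat.ble lo b) (cond (Nat.ble (Nat.add lo cnt) b) true
    (suf (fun c x' y' z' E2 => inn q BT N L P (Q b c) (slow q n h l bad msk PW BB T1 b c)
      (Nat.add (Nat.add (Nat.mul 16 (Nat.sub q 1)) x) x')
      (Nat.add (Nat.add (Nat.mul 16 (Nat.mod (c3 (Nat.sub q 1)) q)) y) y')
      (Nat.add (Nat.add (Nat.mul 16 (Nat.mod (c5 (Nat.sub q 1)) q)) z) z') (dmx n b c) E2) E1))
    true) E

noncomputable def okL (q n PW : Nat) (E : L4) : Nat → Bool :=
  L4.rec (motive := fun _ => Nat → Bool) (fun i => Nat.blt (3 * n) (7 * i))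
    (fun d x y z _ ih i => Nat.beq d i && Nat.beq x (X1 q PW i) && Nat.beq y (X3 q PW i) &&
      Nat.beq z (X5 q PW i) && ih (i + 1)) E

theorem allR_ok (lo : Nat) (p : Nat → Bool) : ∀ cnt, allR lo cnt p = true →
    ∀ i, lo ≤ i → i < lo + cnt → p i = true := by
  intro cnt
  induction cnt with
  | zero => intro _ i h1 h2; omega
  | succ k ih =>
    intro h i h1 h2
    have h' : cond (p (lo + k)) (allR lo k p) false = true := h
    cases hp : p (lo + k) with
    | false => rw [hp] at h'; exact absurd h' (by simp)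
    | true =>
      rw [hp] at h'
      by_cases hi : i = lo + k
      · rw [hi]; exact hp
      · exact ih h' i h1 (by omega)

theorem okL_cons {q n PW d x y z i : Nat} {tl : L4} (h : okL q n PW (.cons d x y z tl) i = true) :
    d = i ∧ x = X1 q PW i ∧ y = X3 q PW i ∧ z = X5 q PW i ∧ okL q n PW tl (i + 1) = true := by
  have h' : (Nat.beq d i && Nat.beq x (X1 q PW i) && Nat.beq y (X3 q PW i) &&
      Nat.beq z (X5 q PW i) && okL q n PW tl (i + 1)) = true := h
  simp only [Bool.and_eq_true, Nat.beq_eq] at h'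
  exact ⟨h'.1.1.1.1, h'.1.1.1.2, h'.1.1.2, h'.1.2, h'.2⟩

theorem okL_nil {q n PW i : Nat} (h : okL q n PW .nil i = true) : 3 * n < 7 * i := by
  have h' : Nat.blt (3 * n) (7 * i) = true := h
  simpa [Nat.blt_eq] using h'

theorem suf_ok {q n PW : Nat} (p : Nat → Nat → Nat → Nat → L4 → Bool) : ∀ (E : L4) (i : Nat),
    okL q n PW E i = true → suf p E = true → ∀ d, i ≤ d → 7 * d ≤ 3 * n →
    ∃ E', okL q n PW E' d = true ∧ p d (X1 q PW d) (X3 q PW d) (X5 q PW d) E' = true := by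
  intro E
  induction E with
  | nil => intro i h _ d h1 h2; have := okL_nil h; omega
  | cons d0 x y z tl ih =>
    intro i h hs d h1 h2
    obtain ⟨e0, e1, e3, e5, ht⟩ := okL_cons h
    have h' : cond (p d0 x y z (L4.cons d0 x y z tl)) (suf p tl) false = true :=
      (brec _ _ _).symm.trans hs
    cases hp : p d0 x y z (L4.cons d0 x y z tl) with
    | false => rw [hp] at h'; exact absurd h' (by simp)
    | true =>
      rw [hp] at h'
      by_cases hi : d = i
      · refine ⟨_, hi ▸ h, ?_⟩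
        rw [hi, ← e1, ← e3, ← e5, ← e0]
        exact hp
      · exact ih (i + 1) ht h' d (by omega) h2

theorem inn_ok {q n PW BT N L P k1 k3 k5 dm : Nat} (S0 : Nat → Bool)
    (S1 : Nat → Nat → Nat → Nat → Bool) : ∀ (E : L4) (i : Nat),
    okL q n PW E i = true → inn q BT N L P S0 S1 k1 k3 k5 dm E = true → ∀ d, i ≤ d → d ≤ dm →
    7 * d ≤ 3 * n → two q BT L P S0 S1 d (lk N (k1 + X1 q PW d)) (k3 + X3 q PW d)
      (k5 + X5 q PW d) = true := by
  intro E
  induction E with
  | nil => intro i h _ d h1 _ h2; have := okL_nil h; omega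
  | cons d0 x y z tl ih =>
    intro i h hs d h1 hd h2
    obtain ⟨e0, e1, e3, e5, ht⟩ := okL_cons h
    have h' : cond (Nat.ble d0 dm) (Bool.rec (motive := fun _ => Bool) false
        (inn q BT N L P S0 S1 k1 k3 k5 dm tl)
        (two q BT L P S0 S1 d0 (lk N (k1 + x)) (k3 + y) (k5 + z))) true = true :=
      (brec _ _ _).symm.trans hs
    have hb : Nat.ble d0 dm = true := Nat.ble_eq_true_of_le (by omega)
    rw [hb, cond_true, brec] at h'
    cases hp : two q BT L P S0 S1 d0 (lk N (k1 + x)) (k3 + y) (k5 + z) with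
    | false => rw [hp] at h'; exact absurd h' (by simp)
    | true =>
      rw [hp] at h'
      by_cases hi : d = i
      · rw [hi, ← e1, ← e3, ← e5, ← e0]
        exact hp
      · exact ih (i + 1) ht h' d (by omega) hd h2

end F2

open F2 in
/-- the check of the extra tables -/
noncomputable def Dat.ck2 (D : Dat) (N L P : Nat) (E : F2.L4) : Bool :=
  okL D.q D.n D.PW E 0 &&
  allR 0 (4 * D.q + 1) (fun v =>
    Nat.beq (lk N (16 * v)) (cond (Nat.beq (v % D.q) 0) 0 (16 * (D.n - f9 D.LG (v % D.q)))) &&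
    Nat.beq (lk L (16 * v))
      (cond (Nat.beq (v % D.q) 0) (16 * (6 * D.n + 1)) (16 * f9 D.LG (v % D.q)))) &&
  allR 0 (6 * D.n + 1) (fun i => Nat.beq (lk P (16 * i)) (D.g ^ i % D.q)) &&
  Nat.beq (Nat.shiftRight P (16 * (6 * D.n + 1))) 0

/-- the fast main loop on `lo ≤ b < lo + cnt` -/
noncomputable def Dat.fast2 (D : Dat) (N L P : Nat) (E : F2.L4) (lo cnt : Nat) : Bool :=
  F2.main2 D.q D.n D.h D.l D.bad D.msk D.PW D.BB D.BT D.T1 (QD D) N L P E lo cnt

namespace F2

theorem pw_ok {D : Dat} (hS : Sm D) {L P : Nat}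
    (hL : ∀ v, v < 4 * D.q + 1 → lk L (16 * v) =
      cond (Nat.beq (v % D.q) 0) (16 * (6 * D.n + 1)) (16 * f9 D.LG (v % D.q)))
    (hP : ∀ i, i < 6 * D.n + 1 → lk P (16 * i) = D.g ^ i % D.q)
    (hZ : Nat.shiftRight P (16 * (6 * D.n + 1)) = 0) (k r V : Nat) (hk : k ≤ 5) (hr : r ≤ D.n)
    (hV : V < 4 * D.q + 1) :
    lk P (k * (16 * r) + lk L (16 * V)) = (V % D.q) * (f9 D.PW r) ^ k % D.q := by
  have hq := hS.qn
  have hq4 := hS.q4
  rw [hL V hV]
  by_cases h0 : V % D.q = 0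
  · rw [h0]
    have h1 : P >>> (16 * (6 * D.n + 1)) = 0 := hZ
    have h2 : P >>> (k * (16 * r) + 16 * (6 * D.n + 1)) = 0 := by
      rw [add_comm, Nat.shiftRight_add, h1, Nat.zero_shiftRight]
    have h3 : lk P (k * (16 * r) + 16 * (6 * D.n + 1)) =
        (P >>> (k * (16 * r) + 16 * (6 * D.n + 1))) &&& 65535 := rfl
    have h4 : cond (Nat.beq 0 0) (16 * (6 * D.n + 1)) (16 * f9 D.LG 0) = 16 * (6 * D.n + 1) := rfl
    rw [h4, h3, h2]
    simp
  · have hb : Nat.beq (V % D.q) 0 = false := by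
      cases hc : Nat.beq (V % D.q) 0 with
      | false => rfl
      | true => exact absurd (Nat.eq_of_beq_eq_true hc) h0
    rw [hb, cond_false]
    obtain ⟨a1, a2⟩ := hS.pwlg (V % D.q) (by omega) (Nat.mod_lt _ (by omega))
    have hkr : k * r ≤ 5 * D.n := Nat.mul_le_mul hk hr
    have e : k * (16 * r) + 16 * f9 D.LG (V % D.q) = 16 * (f9 D.LG (V % D.q) + r * k) := by ring
    have hrk : r * k = k * r := Nat.mul_comm _ _
    rw [e, hP _ (by omega), hS.pw r (by omega)]
    have a3 := hS.pw (f9 D.LG (V % D.q)) (by omega)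
    rw [a2] at a3
    have m1 : D.g ^ f9 D.LG (V % D.q) ≡ V % D.q [MOD D.q] := by
      have := (Nat.mod_modEq (D.g ^ f9 D.LG (V % D.q)) D.q).symm
      rwa [← a3] at this
    have m2 : (D.g ^ r) ^ k ≡ (D.g ^ r % D.q) ^ k [MOD D.q] := (Nat.mod_modEq _ _).symm.pow k
    have m3 := m1.mul m2
    rw [pow_add, pow_mul]
    exact m3

theorem two_ok {D : Dat} (hS : Sm D) {N L P : Nat} {E : L4} (hC : D.ck2 N L P E = true)
    (S0 : Nat → Bool) (b c d V1 V3 V5 : Nat) (h1 : V1 < 4 * D.q + 1) (h3 : V3 < 4 * D.q + 1)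
    (h5 : V5 < 4 * D.q + 1)
    (h : two D.q D.BT L P S0 (slow D.q D.n D.h D.l D.bad D.msk D.PW D.BB D.T1 b c) d
      (lk N (16 * V1)) (16 * V3) (16 * V5) = true) :
    S0 d = true ∨ br D.q D.n D.h D.l D.bad D.msk D.PW D.LG D.BB D.T0 D.BT D.T1 b c d
      (V1 % D.q) (V3 % D.q) (V5 % D.q) = true := by
  unfold Dat.ck2 at hC
  simp only [Bool.and_eq_true] at hC
  obtain ⟨⟨⟨-, cA⟩, cP⟩, cZ⟩ := hC
  have hA := fun v (hv : v < 4 * D.q + 1) => allR_ok 0 _ _ cA v (Nat.zero_le _) (by omega)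
  have hP := fun i (hi : i < 6 * D.n + 1) =>
    Nat.eq_of_beq_eq_true (allR_ok 0 _ _ cP i (Nat.zero_le _) (by omega))
  simp only [Bool.and_eq_true] at hA
  have hL := fun v hv => Nat.eq_of_beq_eq_true (hA v hv).2
  have hN := Nat.eq_of_beq_eq_true (hA V1 h1).1
  have hZ := Nat.eq_of_beq_eq_true cZ
  have hq := hS.qn
  have hq4 := hS.q4
  have h' : cond (Nat.beq (lk N (16 * V1)) 0) (S0 d)
      (three D.q D.BT (slow D.q D.n D.h D.l D.bad D.msk D.PW D.BB D.T1 b c) d (lk N (16 * V1))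
        (lk P (3 * lk N (16 * V1) + lk L (16 * V3)))
        (lk P (5 * lk N (16 * V1) + lk L (16 * V5)))) = true := (brec _ _ _).symm.trans h
  cases hb : Nat.beq (V1 % D.q) 0 with
  | true =>
    rw [hb, cond_true] at hN
    rw [hN] at h'
    exact Or.inl h'
  | false =>
    right
    have h0 : V1 % D.q ≠ 0 := fun e => by rw [e] at hb; exact absurd hb (by decide)
    obtain ⟨a1, -⟩ := hS.pwlg (V1 % D.q) (by omega) (Nat.mod_lt _ (by omega))
    rw [hb, cond_false] at hN
    have hb2 : Nat.beq (16 * (D.n - f9 D.LG (V1 % D.q))) 0 = false := by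
      cases hc : Nat.beq (16 * (D.n - f9 D.LG (V1 % D.q))) 0 with
      | false => rfl
      | true => have := Nat.eq_of_beq_eq_true hc; omega
    rw [hN, hb2, cond_false, pw_ok hS hL hP hZ 3 _ V3 (by omega) (Nat.sub_le _ _) h3,
      pw_ok hS hL hP hZ 5 _ V5 (by omega) (Nat.sub_le _ _) h5] at h'
    have eu : ∀ s j : Nat, s * j ^ 3 % D.q = ku D.q s j := fun s j => by
      have e : c3 j = j ^ 3 := by
        show j * j * j = _
        ring
      show _ = s * c3 j % D.q
      rw [e]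
    have ew : ∀ s j : Nat, s * j ^ 5 % D.q = kw D.q s j := fun s j => by
      have e : c5 j = j ^ 5 := by
        show j * j * j * (j * j) = _
        ring
      show _ = s * c5 j % D.q
      rw [e]
    rw [eu, ew] at h'
    have es : Nat.sub D.n (Nat.div (16 * (D.n - f9 D.LG (V1 % D.q))) 16) = f9 D.LG (V1 % D.q) := by
      show D.n - 16 * (D.n - f9 D.LG (V1 % D.q)) / 16 = _
      omega
    have l1 : ∀ x : Nat, Nat.land x 1 = Nat.mod x 2 := fun x => Nat.and_one_is_mod x
    have l2 : ∀ x : Nat, Nat.land x 268435455 = Nat.mod x 268435456 := fun x =>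
      Nat.and_two_pow_sub_one_eq_mod x 28
    unfold three slow at h'
    rw [brec, decF_eq, getF_eq] at h'
    unfold br lk1 f28
    rw [hb, cond_false, dec_cond, ← l1, ← l2]
    exact Eq.trans (congrArg (fun s => cond _ true
      (dec D.q D.n D.h D.l D.bad D.msk D.PW D.BB b c d _ s)) es.symm) h'

end F2

open F2 in
theorem Dat.fast2_ok {D : Dat} (hS : Sm D) {N L P : Nat} {E : F2.L4} (hC : D.ck2 N L P E = true)
    {lo cnt : Nat} (hF : D.fast2 N L P E lo cnt = true) (b c d : Nat) (hlo : lo ≤ b)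
    (hhi : b < lo + cnt) (hbc : b ≤ c) (hcd : c ≤ d) (i1 : 2 * d + b ≤ D.n)
    (i2 : 2 * d + c ≤ D.n + b) (i3 : 3 * d ≤ D.n + c) (i4 : 7 * d ≤ 3 * D.n) :
    QD D b c d = true := by
  have hE : okL D.q D.n D.PW E 0 = true := by
    unfold Dat.ck2 at hC
    simp only [Bool.and_eq_true] at hC
    exact hC.1.1.1
  unfold Dat.fast2 main2 at hF
  obtain ⟨E1, o1, p1⟩ := suf_ok _ E 0 hE hF b (Nat.zero_le _) (by omega)
  have b1 : Nat.ble lo b = true := Nat.ble_eq_true_of_le hlo
  have b2 : Nat.ble (Nat.add lo cnt) b = false := by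
    cases hc : Nat.ble (Nat.add lo cnt) b with
    | false => rfl
    | true =>
      have : lo + cnt ≤ b := Nat.le_of_ble_eq_true hc
      omega
  simp only [b1, b2, cond_true, cond_false] at p1
  obtain ⟨E2, o2, p2⟩ := suf_ok _ E1 b o1 p1 c hbc (by omega)
  have hd : d ≤ dmx D.n b c := by
    show d ≤ ((D.n - b) / 2 - ((D.n - b) / 2 - (D.n + b - c) / 2)) -
      (((D.n - b) / 2 - ((D.n - b) / 2 - (D.n + b - c) / 2)) - (D.n + c) / 3)
    omega
  have p3 := inn_ok _ _ E2 c o2 p2 d hcd hd i4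
  have hq4 := hS.q4
  have hm : ∀ x : Nat, x % D.q < D.q := fun x => Nat.mod_lt _ (by omega)
  have key := two_ok hS hC (QD D b c) b c d
    (D.q - 1 + (D.q - f9 D.PW b) + (D.q - f9 D.PW c) + (D.q - f9 D.PW d))
    (c3 (D.q - 1) % D.q + c3 (D.q - f9 D.PW b) % D.q + c3 (D.q - f9 D.PW c) % D.q +
      c3 (D.q - f9 D.PW d) % D.q)
    (c5 (D.q - 1) % D.q + c5 (D.q - f9 D.PW b) % D.q + c5 (D.q - f9 D.PW c) % D.q +
      c5 (D.q - f9 D.PW d) % D.q) (by omega)
    (by
      have := hm (c3 (D.q - 1))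
      have := hm (c3 (D.q - f9 D.PW b))
      have := hm (c3 (D.q - f9 D.PW c))
      have := hm (c3 (D.q - f9 D.PW d))
      omega)
    (by
      have := hm (c5 (D.q - 1))
      have := hm (c5 (D.q - f9 D.PW b))
      have := hm (c5 (D.q - f9 D.PW c))
      have := hm (c5 (D.q - f9 D.PW d))
      omega)
    (by
      rw [Nat.mul_add, Nat.mul_add, Nat.mul_add, Nat.mul_add, Nat.mul_add, Nat.mul_add,
        Nat.mul_add, Nat.mul_add, Nat.mul_add]
      exact p3)
  rcases key with key | key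
  · exact key
  · have em : ∀ x y z w : Nat, (x % D.q + y % D.q + z % D.q + w % D.q) % D.q =
        (x + y + z + w) % D.q := fun x y z w =>
      (((Nat.mod_modEq x _).add (Nat.mod_modEq y _)).add (Nat.mod_modEq z _)).add
        (Nat.mod_modEq w _)
    rw [em, em] at key
    exact key

end Pool.Agent.Lib.SH56
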