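import Pool.Agent.Lib.SH56.Blue2

/-! A faster main loop for the sieve. -/

namespace Pool.Agent.Lib.SH56

namespace F3

noncomputable def nl2 (h : Nat) : Nat → Nat → Nat :=
  Nat.rec (motive := fun _ => Nat → Nat → Nat) (fun _ acc => acc)
    (fun _ ih W acc => ih (Nat.shiftRight W (nat_lit 32))
      (Nat.mul acc (Nat.mod W (nat_lit 4294967296)))) h

noncomputable def nl4 (r k : Nat) : Nat → Nat → Nat :=
  Nat.rec (motive := fun _ => Nat → Nat → Nat) (nl2 r)
    (fun _ ih W acc => ih (Nat.shiftRight W (nat_lit 160))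
      (Nat.mul (Nat.mul (Nat.mul (Nat.mul (Nat.mul acc (Nat.mod W (nat_lit 4294967296)))
        (Nat.mod (Nat.shiftRight W (nat_lit 32)) (nat_lit 4294967296)))
        (Nat.mod (Nat.shiftRight W (nat_lit 64)) (nat_lit 4294967296)))
        (Nat.mod (Nat.shiftRight W (nat_lit 96)) (nat_lit 4294967296)))
        (Nat.mod (Nat.shiftRight W (nat_lit 128)) (nat_lit 4294967296)))) k

noncomputable def frc (n : Nat) (f : Nat → Nat) : Nat :=
  Nat.rec (motive := fun _ => Nat) (f (nat_lit 0)) (fun k _ => f (Nat.succ k)) n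

noncomputable def nrm (q h l bad msk PW BB b c d e f g : Nat) : Bool :=
  Bool.rec (motive := fun _ => Bool) true (prs q PW [0, b, c, d, e, f, g])
    (Nat.beq (p4 l (Nat.mod (nl4 (Nat.mod h 5) (Nat.div h 5) (Nat.mod (Nat.add (Nat.add (Nat.add (Nat.add (Nat.add (Nat.add
      (sh BB 0) (sh BB b)) (sh BB c)) (sh BB d)) (sh BB e)) (sh BB f)) (sh BB g)) msk) 1) l)) bad)

noncomputable def fin2 (N : Nat → Nat → Nat → Bool) (lo hi e f g : Nat) : Bool :=
  Bool.rec (motive := fun _ => Bool) true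
    (Bool.rec (motive := fun _ => Bool) true
      (Bool.rec (motive := fun _ => Bool) true (N e f g)
        (Bool.rec (motive := fun _ => Bool) (Nat.beq g (nat_lit 0)) (Nat.ble g hi) (Nat.ble lo g)))
      (Bool.rec (motive := fun _ => Bool) (Nat.beq f (nat_lit 0)) (Nat.ble f hi) (Nat.ble lo f)))
    (Bool.rec (motive := fun _ => Bool) (Nat.beq e (nat_lit 0)) (Nat.ble e hi) (Nat.ble lo e))

noncomputable def dec2 (n : Nat) (N : Nat → Nat → Nat → Bool) (lo hi code s : Nat) : Bool :=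
  fin2 N lo hi
    (Nat.mod (Nat.add (Nat.mod (Nat.div code (nat_lit 2)) (nat_lit 512)) s) n)
    (Nat.mod (Nat.add (Nat.mod (Nat.div code (nat_lit 1024)) (nat_lit 512)) s) n)
    (Nat.mod (Nat.add (Nat.div code (nat_lit 524288)) s) n)

noncomputable def slow (q n LG : Nat) (T1 : Tr) (N : Nat → Nat → Nat → Nat → Bool)
    (Q : Nat → Bool) (b nc d k E uq w : Nat) : Bool :=
  Bool.rec (motive := fun _ => Bool)
    (dec2 n (N d) (Nat.add b d) (Nat.sub nc d)
      (Nat.mod (Nat.shiftRight (frc (Nat.div uq q) (getF T1)) (Nat.mul (nat_lit 28) w))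
        (nat_lit 268435456))
      (Nat.mod (Nat.shiftRight LG (Nat.mul (nat_lit 9) (Nat.mod (Nat.div k (nat_lit 18)) q)))
        (nat_lit 512)))
    (Q d) (Nat.beq E (nat_lit 0))

noncomputable def s3 (B2 : Nat) (r : Bool) (S : Nat → Nat → Bool) (uq w : Nat) : Bool :=
  Nat.rec (motive := fun _ => Bool) r
    (fun _ _ => Bool.rec (motive := fun _ => Bool) false r (S uq w))
    (Nat.mod (Nat.shiftRight B2 (Nat.add uq w)) (nat_lit 2))

noncomputable def s2 (q qq C B2 : Nat) (r : Bool) (S : Nat → Nat → Nat → Bool) (y E : Nat) : Bool :=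
  s3 B2 r (S E) (Nat.mod (Nat.mul (Nat.div y (nat_lit 16384)) (Nat.div E q)) qq)
    (Nat.mod (Nat.mul (Nat.div y C) E) q)

noncomputable def s1 (q qq C B2 ET : Nat) (r : Bool) (S : Nat → Nat → Nat → Nat → Bool)
    (y : Nat) : Bool :=
  s2 q qq C B2 r (S (Nat.mod y (nat_lit 16384))) y
    (Nat.mod (Nat.shiftRight ET (Nat.mod y (nat_lit 16384))) (nat_lit 262144))

noncomputable def loop (q qq C B2 ET : Nat) (S : Nat → Nat → Nat → Nat → Nat → Bool)
    (K dm cnt : Nat) : Nat → Bool :=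
  Nat.rec (motive := fun _ => Nat → Bool) (fun _ => true)
    (fun i ih W => s1 q qq C B2 ET (ih (Nat.shiftRight W (nat_lit 40))) (S (Nat.sub dm i))
      (Nat.add K (Nat.mod W (nat_lit 1099511627776)))) cnt

def pk (q a b c : Nat) : Nat :=
  Nat.add (Nat.mul 18 a)
    (Nat.mul 16384 (Nat.add (Nat.mul q (Nat.mod b q)) (Nat.mul (Nat.mul 2 (Nat.mul q q)) (Nat.mod c q))))

def mn (a b : Nat) : Nat := cond (Nat.ble a b) a b

def dmx (n b c : Nat) : Nat :=
  mn (mn (Nat.div (Nat.sub n b) 2) (Nat.div (Nat.sub (Nat.add n b) c) 2))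
    (mn (Nat.div (Nat.add n c) 3) (Nat.div (Nat.mul 3 n) 7))

noncomputable def pr (q n h l bad msk PW LG BB : Nat) (T1 : Tr) (Q : Nat → Nat → Nat → Bool)
    (qq C B2 ET P b c m0 mb mc dm : Nat) : Bool :=
  loop q qq C B2 ET (slow q n LG T1 (nrm q h l bad msk PW BB b c) (Q b c) b (Nat.add n c))
    (pk q (Nat.mod (Nat.add (Nat.add m0 mb) mc) q) (Nat.add (Nat.add (c3 m0) (c3 mb)) (c3 mc))
      (Nat.add (Nat.add (c5 m0) (c5 mb)) (c5 mc)))
    dm (Nat.sub (Nat.add dm 1) c) (Nat.shiftRight P (Nat.mul 40 c))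

noncomputable def mn2 (q n h l bad msk PW LG BB : Nat) (T1 : Tr) (Q : Nat → Nat → Nat → Bool)
    (qq C B2 ET P top lo cnt : Nat) : Bool :=
  allR lo cnt fun b => allR b (Nat.sub top b) fun c =>
    pr q n h l bad msk PW LG BB T1 Q qq C B2 ET P b c (Nat.sub q 1) (Nat.sub q (f9 PW b))
      (Nat.sub q (f9 PW c)) (dmx n b c)

def ent (q n PW LG s : Nat) : Nat :=
  cond (Nat.beq s 0) 0 (Nat.add (Nat.mod (c5 (f9 PW (Nat.sub n (f9 LG s)))) q)
    (Nat.mul q (Nat.mod (c3 (f9 PW (Nat.sub n (f9 LG s)))) q)))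

end F3

/-- the faster main loop on `lo ≤ b < lo + cnt` -/
noncomputable def fast3 (D : Dat) (ET P lo cnt : Nat) : Bool :=
  Dat.rec (motive := fun _ => Bool) (fun q n h l _ _ bad msk PW LG BB _ BT T1 =>
    F3.mn2 q n h l bad msk PW LG BB T1 (QD D) (Nat.mul q q)
      (Nat.mul 16384 (Nat.mul 2 (Nat.mul q q))) (Nat.add (Nat.mul 2 (Nat.div BT 2)) 1) ET P
      (Nat.add (Nat.div (Nat.mul 3 n) 7) 1) lo cnt) D

/-- the check of the two extra tables -/
noncomputable def tab3 (D : Dat) (ET P : Nat) : Bool :=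
  Nat.ble D.q 400 &&
  allR 0 (2 * D.q + 1) (fun s => Nat.beq (Nat.mod (Nat.shiftRight ET (Nat.mul 18 s)) 262144)
    (F3.ent D.q D.n D.PW D.LG (Nat.mod s D.q))) &&
  allR 0 (3 * D.n / 7 + 1) (fun d => Nat.beq (Nat.mod (Nat.shiftRight P (Nat.mul 40 d)) 1099511627776)
    (F3.pk D.q (Nat.sub D.q (f9 D.PW d)) (c3 (Nat.sub D.q (f9 D.PW d)))
      (c5 (Nat.sub D.q (f9 D.PW d)))))

namespace F3

theorem nl2_mod (l h : ℕ) : ∀ W a b : ℕ, a % l = b % l → nl l h W a % l = nl2 h W b % l := by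
  induction h with
  | zero => intro W a b hab; exact hab
  | succ h ih =>
    intro W a b hab
    show nl l h (W / 4294967296) (a * (W % 4294967296) % l) % l =
      nl2 h (W >>> 32) (b * (W % 4294967296)) % l
    rw [Nat.shiftRight_eq_div_pow]
    refine ih _ _ _ ?_
    rw [Nat.mod_mod, Nat.mul_mod, hab, ← Nat.mul_mod]

theorem nl4_eq (r k : ℕ) : ∀ W a : ℕ, nl4 r k W a = nl2 (r + 5 * k) W a := by
  induction k with
  | zero => intro W a; rfl
  | succ k ih =>
    intro W a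
    show nl4 r k (W >>> 160) (a * (W % 4294967296) * ((W >>> 32) % 4294967296) *
      ((W >>> 64) % 4294967296) * ((W >>> 96) % 4294967296) * ((W >>> 128) % 4294967296)) =
      nl2 (r + 5 * k) (W >>> 32 >>> 32 >>> 32 >>> 32 >>> 32)
        (a * (W % 4294967296) * ((W >>> 32) % 4294967296) *
        ((W >>> 32 >>> 32) % 4294967296) * ((W >>> 32 >>> 32 >>> 32) % 4294967296) *
        ((W >>> 32 >>> 32 >>> 32 >>> 32) % 4294967296))
    rw [ih]
    simp only [← Nat.shiftRight_add]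

theorem frc_eq (n : ℕ) (f : ℕ → ℕ) : frc n f = f n := by
  cases n <;> rfl

theorem p4_mod (l x : ℕ) : p4 l (x % l) = p4 l x := by
  show (x % l * (x % l) % l) * (x % l * (x % l) % l) % l = (x * x % l) * (x * x % l) % l
  rw [← Nat.mul_mod x x l]

theorem p4_nl (l h W : ℕ) :
    p4 l (Nat.mod (nl4 (Nat.mod h 5) (Nat.div h 5) W 1) l) = p4 l (nl l h W 1) := by
  show p4 l (nl4 (h % 5) (h / 5) W 1 % l) = _
  rw [nl4_eq, Nat.mod_add_div, ← nl2_mod l h W 1 1 rfl, p4_mod]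

theorem fin2_eq (q h l bad msk PW BB b c d lo hi e f g : ℕ) :
    fin2 (nrm q h l bad msk PW BB b c d) lo hi e f g =
      fin7 q h l bad msk PW BB b c d lo hi e f g := by
  unfold fin2 nrm fin7 ok1
  simp only [brec, p4_nl]

theorem dec2_ok (q n h l bad msk PW BB b c d code s : ℕ)
    (H : dec2 n (nrm q h l bad msk PW BB b c d) (Nat.add b d) (Nat.sub (Nat.add n c) d) code s
      = true) : dec q n h l bad msk PW BB b c d code s = true := by
  unfold dec2 at H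
  rw [fin2_eq] at H
  unfold dec
  cases Nat.beq code 0
  · exact H
  · rfl

theorem loop_ok (q qq C B2 ET : ℕ) (S : ℕ → ℕ → ℕ → ℕ → ℕ → Bool) (K dm P : ℕ) (G : ℕ → Prop)
    (hG : ∀ (d : ℕ) (r : Bool), d ≤ dm →
      s1 q qq C B2 ET r (S d) (K + (P >>> (40 * d)) % 1099511627776) = true → r = true ∧ G d) :
    ∀ cnt d0 : ℕ, d0 + cnt = dm + 1 → loop q qq C B2 ET S K dm cnt (P >>> (40 * d0)) = true →
      ∀ d, d0 ≤ d → d ≤ dm → G d := by
  intro cnt
  induction cnt with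
  | zero => intro d0 h0 _ d h1 h2; omega
  | succ i ih =>
    intro d0 h0 H d h1 h2
    have e1 : dm - i = d0 := by omega
    have e2 : P >>> (40 * d0) >>> 40 = P >>> (40 * (d0 + 1)) := by
      rw [Nat.mul_add, Nat.mul_one, Nat.shiftRight_add]
    change s1 q qq C B2 ET (loop q qq C B2 ET S K dm i (P >>> (40 * d0) >>> 40)) (S (dm - i))
      (K + (P >>> (40 * d0)) % 1099511627776) = true at H
    rw [e1, e2] at H
    obtain ⟨H1, H2⟩ := hG d0 _ (by omega) H
    rcases Nat.eq_or_lt_of_le h1 with h3 | h3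
    · exact h3 ▸ H2
    · exact ih (d0 + 1) (by omega) H1 d h3 h2

theorem s3_ok (B2 : ℕ) (r : Bool) (S : ℕ → ℕ → Bool) (uq w : ℕ) (H : s3 B2 r S uq w = true) :
    r = true ∧ ((B2 >>> (uq + w)) % 2 = 0 ∨ S uq w = true) := by
  change (Nat.rec (motive := fun _ => Bool) r
    (fun _ _ => Bool.rec (motive := fun _ => Bool) false r (S uq w))
    ((B2 >>> (uq + w)) % 2)) = true at H
  generalize (B2 >>> (uq + w)) % 2 = t at H
  cases t with
  | zero => exact ⟨H, Or.inl rfl⟩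
  | succ t =>
    change Bool.rec (motive := fun _ => Bool) false r (S uq w) = true at H
    generalize S uq w = z at H
    cases z
    · exact absurd H (by simp)
    · exact ⟨H, Or.inr rfl⟩

theorem bit (BT i : ℕ) (H : ((2 * (BT / 2) + 1) >>> i) % 2 = 0) :
    i ≠ 0 ∧ (BT >>> i) % 2 = 0 := by
  cases i with
  | zero =>
    rw [Nat.shiftRight_zero] at H
    omega
  | succ i =>
    refine ⟨by omega, ?_⟩
    rw [Nat.shiftRight_eq_div_pow, pow_succ', ← Nat.div_div_eq_div_mul] at H ⊢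
    have e : (2 * (BT / 2) + 1) / 2 = BT / 2 := by omega
    rw [e] at H
    exact H

theorem arith (q a m x3 y3 x5 y5 j3 j5 : ℕ) (hq : 0 < q) (hq4 : q ≤ 400) (ha : a < q) (hm : m ≤ q)
    (y E : ℕ) (hy : y = pk q a x3 x5 + pk q m y3 y5) (hE : E = j5 % q + q * (j3 % q)) :
    y % 16384 = 18 * (a + m) ∧
    y / 16384 * (E / q) % (q * q) = (x3 + y3) % q * j3 % q * q ∧
    y / (16384 * (2 * (q * q))) * E % q = (x5 + y5) % q * j5 % q := by
  have h3 : x3 % q + y3 % q < 2 * q := by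
    have := Nat.mod_lt x3 hq
    have := Nat.mod_lt y3 hq
    omega
  have e0 : y = 18 * (a + m) +
      16384 * (q * (x3 % q + y3 % q) + 2 * (q * q) * (x5 % q + y5 % q)) := by
    rw [hy]
    show 18 * a + 16384 * (q * (x3 % q) + 2 * (q * q) * (x5 % q)) +
      (18 * m + 16384 * (q * (y3 % q) + 2 * (q * q) * (y5 % q))) = _
    ring
  have e1 : y / 16384 = q * (x3 % q + y3 % q) + 2 * (q * q) * (x5 % q + y5 % q) := by omega
  have e2 : E / q = j3 % q := by
    rw [hE, Nat.add_mul_div_left _ _ hq, Nat.div_eq_of_lt (Nat.mod_lt _ hq), Nat.zero_add]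
  have e3 : y / (16384 * (2 * (q * q))) = x5 % q + y5 % q := by
    rw [← Nat.div_div_eq_div_mul, e1, Nat.add_mul_div_left _ _ (by positivity),
      Nat.div_eq_of_lt (by nlinarith), Nat.zero_add]
  refine ⟨by omega, ?_, ?_⟩
  · have e4 : (q * (x3 % q + y3 % q) + 2 * (q * q) * (x5 % q + y5 % q)) * (j3 % q) =
        ((x3 % q + y3 % q) * (j3 % q) + q * (2 * (x5 % q + y5 % q) * (j3 % q))) * q := by ring
    rw [e1, e2, e4, Nat.mul_mod_mul_right, Nat.add_mul_mod_self_left]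
    have e5 : (x3 % q + y3 % q) * (j3 % q) % q = (x3 + y3) % q * j3 % q := by
      rw [Nat.mul_mod_mod, Nat.mul_mod, ← Nat.add_mod, Nat.mul_mod_mod]
    rw [e5]
  · have e4 : (x5 % q + y5 % q) * (j5 % q + q * (j3 % q)) =
        (x5 % q + y5 % q) * (j5 % q) + q * ((x5 % q + y5 % q) * (j3 % q)) := by ring
    rw [e3, hE, e4, Nat.add_mul_mod_self_left, Nat.mul_mod_mod, Nat.mul_mod, ← Nat.add_mod,
      Nat.mul_mod_mod]

theorem step (q n h l bad msk PW LG BB T0 BT ET : ℕ) (T1 : Tr) (Q : ℕ → Bool)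
    (b c d K1 K3 K5 m : ℕ) (r : Bool) (hq : 0 < q) (hq4 : q ≤ 400) (hm : m ≤ q)
    (hQ : Q d = quad q n h l bad msk PW LG BB T0 BT T1 b c d K1 K3 K5 m)
    (hET : ∀ s, s < 2 * q + 1 → (ET >>> (18 * s)) % 262144 = ent q n PW LG (s % q))
    (H : s1 q (q * q) (16384 * (2 * (q * q))) (2 * (BT / 2) + 1) ET r
      (slow q n LG T1 (nrm q h l bad msk PW BB b c) Q b (Nat.add n c) d)
      (pk q (K1 % q) K3 K5 + pk q m (c3 m) (c5 m)) = true) : r = true ∧ Q d = true := by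
  generalize hy : pk q (K1 % q) K3 K5 + pk q m (c3 m) (c5 m) = y at H
  have ha := Nat.mod_lt K1 hq
  have hk := (arith q (K1 % q) m K3 (c3 m) K5 (c5 m) 0 0 hq hq4 ha hm y _ hy.symm rfl).1
  have hs : (K1 % q + m) % q = (K1 + m) % q := Nat.mod_add_mod _ _ _
  change s2 q (q * q) (16384 * (2 * (q * q))) (2 * (BT / 2) + 1) r
    (slow q n LG T1 (nrm q h l bad msk PW BB b c) Q b (Nat.add n c) d (y % 16384)) y
    ((ET >>> (y % 16384)) % 262144) = true at H
  rw [hk, hET _ (by omega), hs] at H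
  obtain ⟨H1, H2⟩ := s3_ok _ _ _ _ _ H
  refine ⟨H1, ?_⟩
  clear H
  change ((2 * (BT / 2) + 1) >>>
      (y / 16384 * (ent q n PW LG ((K1 + m) % q) / q) % (q * q) +
        y / (16384 * (2 * (q * q))) * ent q n PW LG ((K1 + m) % q) % q)) % 2 = 0 ∨
    slow q n LG T1 (nrm q h l bad msk PW BB b c) Q b (Nat.add n c) d (18 * (K1 % q + m))
      (ent q n PW LG ((K1 + m) % q))
      (y / 16384 * (ent q n PW LG ((K1 + m) % q) / q) % (q * q))
      (y / (16384 * (2 * (q * q))) * ent q n PW LG ((K1 + m) % q) % q) = true at H2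
  by_cases hE : ent q n PW LG ((K1 + m) % q) = 0
  · rw [hE] at H2
    rcases H2 with H2 | H2
    · exact absurd (by simp) (bit _ _ H2).1
    · exact H2
  have hb : Nat.beq ((K1 + m) % q) 0 = false := by
    cases hz : Nat.beq ((K1 + m) % q) 0
    · rfl
    · exact absurd (by unfold ent; rw [hz]; rfl) hE
  have hE2 : ent q n PW LG ((K1 + m) % q) = c5 (f9 PW (Nat.sub n (f9 LG ((K1 + m) % q)))) % q +
      q * (c3 (f9 PW (Nat.sub n (f9 LG ((K1 + m) % q)))) % q) := by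
    unfold ent
    rw [hb]
    rfl
  obtain ⟨-, a2, a3⟩ := arith q (K1 % q) m K3 (c3 m) K5 (c5 m) _ _ hq hq4 ha hm y _ hy.symm hE2
  rw [a2, a3] at H2
  rw [hQ]
  change cond (Nat.beq ((K1 + m) % q) 0) _ (dec q n h l bad msk PW BB b c d
    (lk1 q BT T1 ((K3 + c3 m) % q * c3 (f9 PW (Nat.sub n (f9 LG ((K1 + m) % q)))) % q)
      ((K5 + c5 m) % q * c5 (f9 PW (Nat.sub n (f9 LG ((K1 + m) % q)))) % q))
    (f9 LG ((K1 + m) % q))) = true
  rw [hb, cond_false]
  generalize (K3 + c3 m) % q * c3 (f9 PW (Nat.sub n (f9 LG ((K1 + m) % q)))) % q = u at H2 ⊢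
  generalize (K5 + c5 m) % q * c5 (f9 PW (Nat.sub n (f9 LG ((K1 + m) % q)))) % q = w at H2 ⊢
  unfold lk1
  rw [dec_cond]
  change cond (Nat.beq ((BT >>> (u * q + w)) % 2) 0) true _ = true
  rcases H2 with H2 | H2
  · rw [(bit _ _ H2).2]
    rfl
  · have hb2 : Nat.beq (ent q n PW LG ((K1 + m) % q)) 0 = false := by
      cases hz : Nat.beq (ent q n PW LG ((K1 + m) % q)) 0
      · rfl
      · exact absurd (Nat.eq_of_beq_eq_true hz) hE
    change Bool.rec (motive := fun _ => Bool)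
      (dec2 n (nrm q h l bad msk PW BB b c d) (Nat.add b d) (Nat.sub (Nat.add n c) d)
        (f28 (frc (u * q / q) (getF T1)) w) (f9 LG (18 * (K1 % q + m) / 18 % q)))
      (Q d) (Nat.beq (ent q n PW LG ((K1 + m) % q)) 0) = true at H2
    rw [hb2, frc_eq, Nat.mul_div_cancel _ hq, Nat.mul_div_cancel_left _ (by norm_num), hs, getF_eq] at H2
    have H3 := dec2_ok _ _ _ _ _ _ _ _ _ _ _ _ _ H2
    rw [H3]
    cases Nat.beq ((BT >>> (u * q + w)) % 2) 0 <;> rfl

theorem le_mn {a b d : ℕ} (h1 : d ≤ a) (h2 : d ≤ b) : d ≤ mn a b := by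
  unfold mn
  cases Nat.ble a b
  · exact h2
  · exact h1

theorem mn_le (a b : ℕ) : mn a b ≤ a ∧ mn a b ≤ b := by
  unfold mn
  cases hz : Nat.ble a b
  · have := Nat.not_le_of_not_ble_eq_true (n := a) (m := b) (by rw [hz]; simp)
    exact ⟨by show b ≤ a; omega, le_rfl⟩
  · exact ⟨le_rfl, Nat.le_of_ble_eq_true hz⟩

end F3

theorem fast3_ok (hZ0 : Z0) (D : Dat) (hD : Sm D) (ET P lo cnt : ℕ) (hT : tab3 D ET P = true)
    (H : fast3 D ET P lo cnt = true) (b c d : ℕ) (h1 : lo ≤ b) (h2 : b < lo + cnt)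
    (hbc : b ≤ c) (hcd : c ≤ d) (i1 : 2 * d + b ≤ D.n) (i2 : 2 * d + c ≤ D.n + b)
    (i3 : 3 * d ≤ D.n + c) (i4 : 7 * d ≤ 3 * D.n) : QD D b c d = true := by
  have hq : 0 < D.q := hD.qp.pos
  unfold tab3 at hT
  rw [Bool.and_eq_true, Bool.and_eq_true, hZ0.1, hZ0.1] at hT
  obtain ⟨⟨t1, t2⟩, t3⟩ := hT
  have hq4 : D.q ≤ 400 := Nat.le_of_ble_eq_true t1
  have H' : F3.mn2 D.q D.n D.h D.l D.bad D.msk D.PW D.LG D.BB D.T1 (QD D) (D.q * D.q)
      (16384 * (2 * (D.q * D.q))) (2 * (D.BT / 2) + 1) ET P (3 * D.n / 7 + 1) lo cnt = true := by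
    cases D
    exact H
  unfold F3.mn2 at H'
  have H2 := (hZ0.1 _ _ _).1 ((hZ0.1 _ _ _).1 H' b h1 h2) c hbc
    (by show c < b + (3 * D.n / 7 + 1 - b); omega)
  have hdm : d ≤ F3.dmx D.n b c :=
    F3.le_mn (F3.le_mn (by show d ≤ (D.n - b) / 2; omega) (by show d ≤ (D.n + b - c) / 2; omega))
      (F3.le_mn (by show d ≤ (D.n + c) / 3; omega) (by show d ≤ 3 * D.n / 7; omega))
  have hle : F3.dmx D.n b c ≤ 3 * D.n / 7 := (F3.mn_le _ _).2.trans (F3.mn_le _ _).2
  unfold F3.pr at H2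
  generalize F3.dmx D.n b c = dm at H2 hdm hle
  refine F3.loop_ok _ _ _ _ _ _ _ dm P (fun d => QD D b c d = true) ?_ (dm + 1 - c) c (by omega)
    H2 d hcd hdm
  intro x r hx Hx
  have e := Nat.eq_of_beq_eq_true (t3 x (Nat.zero_le _) (by omega))
  change (P >>> (40 * x)) % 1099511627776 = _ at e
  rw [e] at Hx
  exact F3.step D.q D.n D.h D.l D.bad D.msk D.PW D.LG D.BB D.T0 D.BT ET D.T1 (QD D b c) b c x
    _ _ _ _ r hq hq4 (Nat.sub_le _ _) rfl
    (fun s hs => Nat.eq_of_beq_eq_true (t2 s (Nat.zero_le _) (by omega))) Hx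

end Pool.Agent.Lib.SH56
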