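import Pool.Agent.Lib.SH56.B_ALG
import Pool.Agent.Lib.SH56.B_BALL
import Pool.Agent.Lib.SH56.B_BIG
import Pool.Agent.Lib.SH56.B_BLK
import Pool.Agent.Lib.SH56.B_CNT
import Pool.Agent.Lib.SH56.B_CONJ
import Pool.Agent.Lib.SH56.B_CONST
import Pool.Agent.Lib.SH56.B_DEEP
import Pool.Agent.Lib.SH56.B_DEG
import Pool.Agent.Lib.SH56.B_DER7
import Pool.Agent.Lib.SH56.B_EPS
import Pool.Agent.Lib.SH56.B_EXC
import Pool.Agent.Lib.SH56.B_FIN
import Pool.Agent.Lib.SH56.B_FOUR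
import Pool.Agent.Lib.SH56.B_INV
import Pool.Agent.Lib.SH56.B_KRON
import Pool.Agent.Lib.SH56.B_LIN3
import Pool.Agent.Lib.SH56.B_LIN7
import Pool.Agent.Lib.SH56.B_LINE
import Pool.Agent.Lib.SH56.B_M13
import Pool.Agent.Lib.SH56.B_M1A
import Pool.Agent.Lib.SH56.B_M1B
import Pool.Agent.Lib.SH56.B_M1C
import Pool.Agent.Lib.SH56.B_NET
import Pool.Agent.Lib.SH56.B_NRM
import Pool.Agent.Lib.SH56.B_PAIR
import Pool.Agent.Lib.SH56.B_PATH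
import Pool.Agent.Lib.SH56.B_RED1
import Pool.Agent.Lib.SH56.B_RED2
import Pool.Agent.Lib.SH56.B_RED3
import Pool.Agent.Lib.SH56.B_REV
import Pool.Agent.Lib.SH56.B_ROOT
import Pool.Agent.Lib.SH56.B_ROOT1
import Pool.Agent.Lib.SH56.B_ROOT2
import Pool.Agent.Lib.SH56.B_ROOTS
import Pool.Agent.Lib.SH56.B_SIB
import Pool.Agent.Lib.SH56.B_SIEVE2
import Pool.Agent.Lib.SH56.B_SMALL
import Pool.Agent.Lib.SH56.B_SPLIT
import Pool.Agent.Lib.SH56.B_SUMV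
import Pool.Agent.Lib.SH56.B_TOP
import Pool.Agent.Lib.SH56.B_TWO
import Pool.Agent.Lib.SH56.B_UNI
import Pool.Agent.Lib.SH56.B_UNI0
import Pool.Agent.Lib.SH56.B_UP
import Pool.Agent.Lib.SH56.B_VAL

namespace Pool.Agent.Lib.SH56

theorem main27 : FIN := by
  have hDER7 := bDER7 bCONST
  have hVAL := bVAL hDER7
  have hSUMV := bSUMV bCONST
  have hBALL := bBALL bCONJ
  have hSIB := bSIB bCONJ
  have hNET := bNET hSIB bROOTS
  have hM1A := bM1A hNET bSPLIT bALG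
  have hTWO := bTWO hVAL bCONST hM1A
  have hM1B := bM1B hNET (bFOUR bSPLIT) bALG
  have hM1C := bM1C hNET bSPLIT hTWO bALG
  have hEXC := bEXC hVAL hNET bSPLIT hM1A hM1B hM1C (bEPS bSPLIT)
  have hUNI0 := bUNI0 hEXC hSUMV hTWO
  have hUNI := bUNI hUNI0
  have hDEEP := bDEEP hEXC hSUMV hTWO hUNI0 bBLK
  have hROOT := bROOT (bROOT1 bROOTS hBALL hDEEP bPAIR)
    (bROOT2 bROOTS hSIB hEXC hSUMV hUNI0 bSPLIT hDEEP bPAIR)
  have hINV := bINV hUNI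
  have hTOP := bTOP (bCNT (bDEG bREV) hROOT bM13) hUNI hINV
  exact bFIN bRED1 (bRED2 bREV) (bRED3 bKRON hDER7)
    (bBIG hTOP hINV bPATH hUNI (bLIN7 bLINE) bLIN3)
    (bSMALL bSIEVE2 bNRM hROOT bCONST hVAL) bUP

end Pool.Agent.Lib.SH56
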